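import Pool.Agent.W794.Dom2

set_option autoImplicit false
set_option linter.all false

open Metric Set Filter Topology MeasureTheory
open scoped ENNReal Real
open Pool.Agent.Helper859.Stk

namespace Pool.Agent.W794.Fib

theorem inn (x y : ℂ) : inner ℝ x y = x.re * y.re + x.im * y.im := by
  rw [Complex.inner]
  simp [Complex.mul_re]
  ring

/-- A planar set which is locally the positivity set of a strictly differentiable function with non
zero derivative is locally the strict supergraph of a Lipschitz function. -/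
theorem graph {Ω : Set ℂ} {ρ : ℂ → ℝ} {p : ℂ} {L : ℂ →L[ℝ] ℝ} (hρ : HasStrictFDerivAt ρ L p)
    (hL : L ≠ 0) (hp : ρ p = 0) (hΩ : IsOpen Ω) (hev : ∀ᶠ x in 𝓝 p, (x ∈ Ω ↔ 0 < ρ x)) :
    ∃ r : ℝ, 0 < r ∧ ∃ a b : ℂ, ‖a‖ = 1 ∧ ‖b‖ = 1 ∧ inner ℝ a b = 0 ∧
      ∃ g : ℝ → ℝ, ∃ K : NNReal, LipschitzWith K g ∧
        ∀ x ∈ Metric.ball p r, (x ∈ Ω ↔ g (inner ℝ (x - p) a) < inner ℝ (x - p) b) := by
  have hA : ∀ z : ℂ, L z = L 1 * z.re + L Complex.I * z.im := by
    intro z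
    have : z = z.re • (1 : ℂ) + z.im • Complex.I := by
      simp [Complex.re_add_im]
    conv_lhs => rw [this]
    rw [map_add, map_smul, map_smul, smul_eq_mul, smul_eq_mul]
    ring
  set c : ℂ := ⟨L 1, L Complex.I⟩ with hc
  have hc0 : c ≠ 0 := by
    intro h
    apply hL
    ext z
    rw [hA z]
    have h1 : L 1 = 0 := congrArg Complex.re h
    have h2 : L Complex.I = 0 := congrArg Complex.im h
    rw [h1, h2]; simp
  set m : ℝ := ‖c‖ with hm
  have hm0 : 0 < m := norm_pos_iff.2 hc0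
  have hm2 : m ^ 2 = L 1 ^ 2 + L Complex.I ^ 2 := by
    rw [hm, ← Complex.normSq_eq_norm_sq, Complex.normSq_apply]
    simp only [hc]; ring
  set b : ℂ := ⟨L 1 / m, L Complex.I / m⟩ with hb
  set a : ℂ := ⟨-(L Complex.I / m), L 1 / m⟩ with ha
  have hb2 : (L 1 / m) ^ 2 + (L Complex.I / m) ^ 2 = 1 := by
    rw [div_pow, div_pow, ← add_div, ← hm2, div_self (by positivity)]
  have hbn : ‖b‖ = 1 := by
    rw [Complex.norm_def, Complex.normSq_apply]
    have : b.re * b.re + b.im * b.im = 1 := by simp only [hb]; linarith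
    rw [this, Real.sqrt_one]
  have han : ‖a‖ = 1 := by
    rw [Complex.norm_def, Complex.normSq_apply]
    have : a.re * a.re + a.im * a.im = 1 := by simp only [ha]; linarith
    rw [this, Real.sqrt_one]
  have hab : inner ℝ a b = 0 := by
    rw [inn]; simp only [ha, hb]; ring
  have hLb : ∀ v : ℂ, L v = m * inner ℝ v b := by
    intro v
    rw [hA, inn]
    simp only [hb]
    field_simp
  have hpyth : ∀ v : ℂ, ‖v‖ ≤ |inner ℝ v a| + |inner ℝ v b| := by
    intro v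
    refine abs_le_of_sq_le_sq' ?_ (by positivity) |>.2
    have h1 : ‖v‖ ^ 2 = (inner ℝ v a) ^ 2 + (inner ℝ v b) ^ 2 := by
      rw [← Complex.normSq_eq_norm_sq, Complex.normSq_apply, inn, inn]
      simp only [ha, hb]
      linear_combination (-(v.re ^ 2) - v.im ^ 2) * hb2
    have h2 := sq_abs (inner ℝ v a)
    have h3 := sq_abs (inner ℝ v b)
    nlinarith [abs_nonneg (inner ℝ v a), abs_nonneg (inner ℝ v b)]
  -- the radius
  have hstrict : ∀ᶠ q : ℂ × ℂ in 𝓝 (p, p), ‖ρ q.1 - ρ q.2 - L (q.1 - q.2)‖ ≤ (m / 2) * ‖q.1 - q.2‖ := by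
    have := hρ.isLittleO
    exact (Asymptotics.isLittleO_iff.1 this) (by positivity)
  have hstrict' : ∃ r₁ > 0, ∀ x ∈ ball p r₁, ∀ y ∈ ball p r₁,
      ‖ρ x - ρ y - L (x - y)‖ ≤ (m / 2) * ‖x - y‖ := by
    obtain ⟨r₁, hr₁, h⟩ := Metric.eventually_nhds_iff_ball.1 hstrict
    refine ⟨r₁, hr₁, fun x hx y hy => h (x, y) ?_⟩
    rw [← ball_prod_same]
    exact ⟨hx, hy⟩
  obtain ⟨r₁, hr₁, h₁⟩ := hstrict'
  obtain ⟨r₂, hr₂, h₂⟩ := Metric.eventually_nhds_iff_ball.1 hev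
  set r := min r₁ r₂ with hr
  have hr0 : 0 < r := lt_min hr₁ hr₂
  have hb1 : ball p r ⊆ ball p r₁ := ball_subset_ball (min_le_left _ _)
  have hb2' : ball p r ⊆ ball p r₂ := ball_subset_ball (min_le_right _ _)
  -- the cone condition
  have hcone : ∀ x ∈ ball p r, ∀ y ∈ ball p r, 0 < ρ x → ρ y ≤ 0 →
      inner ℝ (y - p) b - |inner ℝ (x - p) a - inner ℝ (y - p) a| < inner ℝ (x - p) b := by
    intro x hx y hy hx0 hy0
    by_contra hcon
    push Not at hcon
    have h3 := h₁ x (hb1 hx) y (hb1 hy)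
    rw [Real.norm_eq_abs] at h3
    have h4 := (abs_le.1 h3).2
    rw [hLb] at h4
    have ea : inner ℝ (x - y) a = inner ℝ (x - p) a - inner ℝ (y - p) a := by
      rw [← inner_sub_left]; congr 1; ring
    have eb : inner ℝ (x - y) b = inner ℝ (x - p) b - inner ℝ (y - p) b := by
      rw [← inner_sub_left]; congr 1; ring
    have h5 := hpyth (x - y)
    rw [ea, eb] at h5
    rw [eb] at h4
    set α := inner ℝ (x - p) a - inner ℝ (y - p) a with hα
    set β := inner ℝ (x - p) b - inner ℝ (y - p) b with hβ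
    have h6 : |α| ≤ -β := by rw [hβ]; linarith
    have h7 : |β| = -β := abs_of_nonpos (by linarith [abs_nonneg α])
    rw [h7] at h5
    have h8 : ‖x - y‖ ≤ 2 * -β := by linarith
    have h9 : (m / 2) * ‖x - y‖ ≤ (m / 2) * (2 * -β) := mul_le_mul_of_nonneg_left h8 (by positivity)
    nlinarith
  -- the function
  set Z : Set ℂ := {y | y ∈ ball p r ∧ ρ y ≤ 0} with hZ
  have hpZ : p ∈ Z := ⟨mem_ball_self hr0, hp.le⟩
  have hne : ∀ α : ℝ, (((fun y => inner ℝ (y - p) b - |α - inner ℝ (y - p) a|) '' Z)).Nonempty :=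
    fun α => ⟨_, p, hpZ, rfl⟩
  have hbd : ∀ α : ℝ, BddAbove ((fun y => inner ℝ (y - p) b - |α - inner ℝ (y - p) a|) '' Z) := by
    intro α
    refine ⟨r, ?_⟩
    rintro _ ⟨y, ⟨hy, -⟩, rfl⟩
    have h3 := abs_real_inner_le_norm (y - p) b
    rw [hbn, mul_one] at h3
    have h4 := (abs_le.1 h3).2
    rw [mem_ball, dist_eq_norm] at hy
    have h5 := abs_nonneg (α - inner ℝ (y - p) a)
    simp only
    linarith
  refine ⟨r, hr0, a, b, han, hbn, hab,
    fun α => sSup ((fun y => inner ℝ (y - p) b - |α - inner ℝ (y - p) a|) '' Z), 1, ?_, ?_⟩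
  · refine LipschitzWith.of_le_add fun α α' => ?_
    refine csSup_le (hne α) ?_
    rintro _ ⟨y, hy, rfl⟩
    have h3 : inner ℝ (y - p) b - |α' - inner ℝ (y - p) a| ≤
        sSup ((fun y => inner ℝ (y - p) b - |α' - inner ℝ (y - p) a|) '' Z) :=
      le_csSup (hbd α') ⟨y, hy, rfl⟩
    have h4 : |α' - inner ℝ (y - p) a| ≤ |α - inner ℝ (y - p) a| + |α - α'| := by
      have : α' - inner ℝ (y - p) a = (α - inner ℝ (y - p) a) - (α - α') := by ring
      rw [this]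
      exact abs_sub _ _
    rw [Real.dist_eq]
    simp only
    linarith
  · intro x hx
    constructor
    · intro hxΩ
      -- move a little bit down
      have hopen : IsOpen (ball p r ∩ Ω) := isOpen_ball.inter hΩ
      have hcont : Continuous fun τ : ℝ => x - (τ : ℂ) * b := by fun_prop
      have h0 : x - ((0 : ℝ) : ℂ) * b ∈ ball p r ∩ Ω := by simpa using ⟨hx, hxΩ⟩
      have hev2 : ∀ᶠ τ : ℝ in 𝓝 0, x - (τ : ℂ) * b ∈ ball p r ∩ Ω :=
        hcont.continuousAt.eventually (hopen.mem_nhds h0)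
      obtain ⟨δ, hδ, hδ'⟩ := Metric.eventually_nhds_iff_ball.1 hev2
      have h3 := hδ' (δ / 2) (by
        rw [mem_ball, Real.dist_eq, sub_zero, abs_of_pos (by positivity)]
        linarith)
      set x' := x - ((δ / 2 : ℝ) : ℂ) * b with hx'
      have hpos : 0 < ρ x' := (h₂ x' (hb2' h3.1)).1 h3.2
      have ea : inner ℝ (x' - p) a = inner ℝ (x - p) a := by
        rw [inn, inn, hx']
        simp only [Complex.sub_re, Complex.sub_im, Complex.mul_re, Complex.mul_im,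
          Complex.ofReal_re, Complex.ofReal_im, ha, hb]
        ring
      have eb : inner ℝ (x' - p) b = inner ℝ (x - p) b - δ / 2 := by
        rw [inn, inn, hx']
        simp only [Complex.sub_re, Complex.sub_im, Complex.mul_re, Complex.mul_im,
          Complex.ofReal_re, Complex.ofReal_im, hb]
        linear_combination (-(δ / 2)) * hb2
      have h4 : sSup ((fun y => inner ℝ (y - p) b - |inner ℝ (x - p) a - inner ℝ (y - p) a|) '' Z) ≤
          inner ℝ (x - p) b - δ / 2 := by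
        refine csSup_le (hne _) ?_
        rintro _ ⟨y, ⟨hy, hy0⟩, rfl⟩
        have := hcone x' h3.1 y hy hpos hy0
        rw [ea, eb] at this
        exact this.le
      linarith
    · intro hlt
      by_contra hxΩ
      have h3 : ρ x ≤ 0 := by
        by_contra h
        push Not at h
        exact hxΩ ((h₂ x (hb2' hx)).2 h)
      have h4 : inner ℝ (x - p) b - |inner ℝ (x - p) a - inner ℝ (x - p) a| ≤
          sSup ((fun y => inner ℝ (y - p) b - |inner ℝ (x - p) a - inner ℝ (y - p) a|) '' Z) :=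
        le_csSup (hbd _) ⟨x, ⟨hx, h3⟩, rfl⟩
      rw [sub_self, abs_zero, sub_zero] at h4
      exact absurd (lt_of_le_of_lt h4 hlt) (lt_irrefl _)

theorem lip_Om {F G : ℂ → ℂ} (h : Conf F G) : ∀ p ∈ frontier (Om F), ∃ r : ℝ, 0 < r ∧
      ∃ a b : EuclideanSpace ℝ (Fin 2), ‖a‖ = 1 ∧ ‖b‖ = 1 ∧ inner ℝ a b = 0 ∧
      ∃ g : ℝ → ℝ, ∃ K : NNReal, LipschitzWith K g ∧
        ∀ x ∈ Metric.ball p r, (x ∈ Om F ↔ g (inner ℝ (x - p) a) < inner ℝ (x - p) b) := by
  intro p hp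
  rw [frontier_Om h] at hp
  obtain ⟨_, ⟨z₀, hz₀, rfl⟩, rfl⟩ := hp
  have hsub : closedBall (0 : ℂ) 1 ⊆ ball (0 : ℂ) (3 / 2) := closedBall_subset_ball (by norm_num)
  have hz₃ : z₀ ∈ ball (0 : ℂ) (3 / 2) := hsub (sphere_subset_closedBall hz₀)
  have hz₁ : ‖z₀‖ = 1 := by simpa using hz₀
  obtain ⟨J, hJ⟩ := L03b.exists_inv h
  obtain ⟨hO1, hO3, -, -, -⟩ := L03a.topo h
  have hJO : ContDiffOn ℝ 1 J (F '' ball (0 : ℂ) (3 / 2)) := by
    have h1 : DifferentiableOn ℂ J (F '' ball (0 : ℂ) (3 / 2)) := by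
      rintro _ ⟨z, hz, rfl⟩
      exact (hJ z hz).2.differentiableAt.differentiableWithinAt
    exact (h1.contDiffOn hO3 : ContDiffOn ℂ 1 J _).restrict_scalars ℝ
  have hmem : F z₀ ∈ F '' ball (0 : ℂ) (3 / 2) := ⟨z₀, hz₃, rfl⟩
  have hJc : ContDiffAt ℝ 1 J (F z₀) := hJO.contDiffAt (hO3.mem_nhds hmem)
  have hρc : ContDiffAt ℝ 1 (fun x => 1 - ‖J x‖ ^ 2) (F z₀) := contDiffAt_const.sub (hJc.norm_sq ℝ)
  have hρ : HasStrictFDerivAt (fun x => 1 - ‖J x‖ ^ 2) (fderiv ℝ (fun x => 1 - ‖J x‖ ^ 2) (F z₀))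
      (F z₀) := hρc.hasStrictFDerivAt (by norm_num)
  have hL : fderiv ℝ (fun x => 1 - ‖J x‖ ^ 2) (F z₀) ≠ 0 := by
    intro h0
    have h1 : HasFDerivAt (fun x => 1 - ‖J x‖ ^ 2) (0 : ℂ →L[ℝ] ℝ) (F z₀) := by
      have := hρ.hasFDerivAt
      rwa [h0] at this
    have h2 : HasDerivAt (fun s : ℝ => F ((s : ℂ) * z₀)) (G z₀ * z₀) 1 := by
      have h3 : HasDerivAt F (G z₀) (((1 : ℝ) : ℂ) * z₀) := by simpa using h.dF z₀ hz₃
      have h4 : HasDerivAt (fun s : ℝ => (s : ℂ) * z₀) (1 * z₀) 1 :=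
        (Complex.ofRealCLM.hasDerivAt (x := (1 : ℝ))).mul_const z₀
      have h5 := h3.comp (1 : ℝ) h4
      rw [one_mul] at h5
      exact h5
    have h1' : HasFDerivAt (fun x => 1 - ‖J x‖ ^ 2) (0 : ℂ →L[ℝ] ℝ) (F (((1 : ℝ) : ℂ) * z₀)) := by
      simpa using h1
    have h6 := h1'.comp_hasDerivAt (1 : ℝ) h2
    rw [ContinuousLinearMap.zero_apply] at h6
    have h7 : ((fun x => 1 - ‖J x‖ ^ 2) ∘ fun s : ℝ => F ((s : ℂ) * z₀)) =ᶠ[𝓝 1]
        fun s : ℝ => 1 - s ^ 2 := by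
      have h8 : ∀ᶠ s : ℝ in 𝓝 1, (s : ℂ) * z₀ ∈ ball (0 : ℂ) (3 / 2) := by
        have h9 : Continuous fun s : ℝ => (s : ℂ) * z₀ := by fun_prop
        refine h9.continuousAt.eventually (isOpen_ball.mem_nhds ?_)
        simpa using hz₃
      filter_upwards [h8] with s hs
      simp only [Function.comp_apply]
      rw [(hJ _ hs).1, norm_mul, hz₁, mul_one, Complex.norm_real, Real.norm_eq_abs, sq_abs]
    have h8 : HasDerivAt (fun s : ℝ => 1 - s ^ 2) (-2) 1 := by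
      have h9 := ((hasDerivAt_id (1 : ℝ)).fun_pow 2).const_sub 1
      refine h9.congr_deriv ?_
      norm_num
    have h9 := (h6.congr_of_eventuallyEq h7.symm).unique h8
    norm_num at h9
  have hev : ∀ᶠ x in 𝓝 (F z₀), (x ∈ F '' ball (0 : ℂ) 1 ↔ 0 < 1 - ‖J x‖ ^ 2) := by
    filter_upwards [hO3.mem_nhds hmem] with x hx
    obtain ⟨z, hz, rfl⟩ := hx
    rw [(hJ z hz).1]
    constructor
    · rintro ⟨z', hz', he⟩
      have : z' = z := h.iF (ball_subset_ball (by norm_num) hz') hz he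
      rw [this] at hz'
      have := mem_ball_zero_iff.1 hz'
      nlinarith [norm_nonneg z]
    · intro h1
      refine ⟨z, mem_ball_zero_iff.2 ?_, rfl⟩
      nlinarith [norm_nonneg z]
  obtain ⟨r, hr, a, b, ha, hb, hab, g, K, hg, hx⟩ := graph hρ hL
    (by rw [(hJ z₀ hz₃).1, hz₁]; norm_num) hO1 hev
  refine ⟨r, hr, Ph a, Ph b, by rw [Ph.norm_map, ha], by rw [Ph.norm_map, hb],
    by rw [Ph.inner_map_map, hab], g, K, hg, fun x hxb => ?_⟩
  have h1 : Ph.symm x ∈ ball (F z₀) r := by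
    rw [mem_ball, ← Ph.dist_map, Ph.apply_symm_apply]
    exact hxb
  have h2 : ∀ c : ℂ, inner ℝ (x - Ph (F z₀)) (Ph c) = inner ℝ (Ph.symm x - F z₀) c := by
    intro c
    rw [← Ph.inner_map_map, map_sub, Ph.apply_symm_apply]
  rw [h2, h2, ← hx _ h1]
  unfold Om
  constructor
  · rintro ⟨y, hy, rfl⟩
    rwa [Ph.symm_apply_apply]
  · intro h3
    exact ⟨_, h3, Ph.apply_symm_apply x⟩

end Pool.Agent.W794.Fib
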