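import Pool.Agent.W794.Key

set_option autoImplicit false
set_option linter.all false

open Metric Set Filter Topology MeasureTheory
open scoped ENNReal Real
open Pool.Agent.Helper859.Stk

namespace Pool.Agent.W794.Fib

open Pool.Agent.W794.Fd

/-- the set of min-max levels -/
def Lev (Ω : Set E2) (k : ℕ) : Set ℝ :=
  {s : ℝ | ∃ V : Submodule ℝ (E2 → ℝ),
        (∀ u ∈ V, ContDiff ℝ 1 u) ∧ Module.finrank ℝ V = k + 1 ∧
        (∀ u ∈ V, u ≠ 0 → 0 < ∫ x in frontier Ω, u x ^ 2 ∂μH[1]) ∧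
        s = sSup {t : ℝ | ∃ u ∈ V, u ≠ 0 ∧
          t = (∫ x in Ω, ‖fderiv ℝ u x‖ ^ 2) / ∫ x in frontier Ω, u x ^ 2 ∂μH[1]}}

theorem Lev_nonneg {Ω : Set E2} {k : ℕ} {s : ℝ} (hs : s ∈ Lev Ω k) : 0 ≤ s := by
  obtain ⟨V, h1, h2, h3, rfl⟩ := hs
  refine Real.sSup_nonneg ?_
  rintro _ ⟨u, hu, hu0, rfl⟩
  exact div_nonneg (integral_nonneg fun _ => by positivity) (h3 u hu hu0).le

theorem IsQ_const_mul {V : Type*} [AddCommGroup V] [Module ℝ V] {q : V → ℝ} (hq : IsQ q) (c : ℝ) :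
    IsQ (fun u => c * q u) := by
  obtain ⟨B, hB⟩ := hq
  exact ⟨c • B, fun u => by simp [hB]⟩

/-- Rayleigh quotients are bounded on finite dimensional spaces -/
theorem rayleigh_bdd {F G : ℂ → ℂ} (h : Conf F G) (V : Submodule ℝ (E2 → ℝ)) [FiniteDimensional ℝ V]
    (hV : ∀ u ∈ V, ContDiff ℝ 1 u)
    (hpos : ∀ u ∈ V, u ≠ 0 → 0 < ∫ x in frontier (Om F), u x ^ 2 ∂μH[1]) :
    ∃ C : ℝ, ∀ u ∈ V, ∫ x in Om F, ‖fderiv ℝ u x‖ ^ 2 ≤ C * ∫ x in frontier (Om F), u x ^ 2 ∂μH[1] := by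
  have hsub : closedBall (0 : ℂ) 1 ⊆ ball (0 : ℂ) (3 / 2) := closedBall_subset_ball (by norm_num)
  have hcl : ∀ θ, ex θ ∈ closedBall (0 : ℂ) 1 := fun θ => sphere_subset_closedBall (ex_sphere θ)
  set T : V →ₗ[ℝ] (ℂ → ℝ) := pull F ∘ₗ V.subtype with hT
  have hTu : ∀ u : V, T u = pull F (u : E2 → ℝ) := fun u => rfl
  have hTd : ∀ u, ContDiffOn ℝ 1 (T u) (ball (0 : ℂ) (3 / 2)) := fun u =>
    pull_contDiff h (hV u u.2)
  have hcT : ∀ u, Continuous fun θ => T u (ex θ) := fun u =>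
    (hTd u).continuousOn.comp_continuous ex_cont fun θ => hsub (hcl θ)
  have hGc : Continuous fun θ : ℝ => ‖G (ex θ)‖ :=
    ((L03a.topo h).2.2.2.2.comp_continuous ex_cont fun θ => hsub (hcl θ)).norm
  have hN : IsQ (fun u : V => ∫ x in frontier (Om F), (u : E2 → ℝ) x ^ 2 ∂μH[1]) := by
    have h1 := isQ_bd T hcT hGc
    convert h1 using 2 with u
    exact bd_dom h (hV u u.2)
  have hE : IsQ (fun u : V => ∫ x in Om F, ‖fderiv ℝ (u : E2 → ℝ) x‖ ^ 2) := by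
    have h1 := isQ_energy T hTd
    convert h1 using 2 with u
    exact energy_dom h (hV u u.2)
  have h2 := uniform hN (fun u hu => hpos u u.2 (fun h => hu (Subtype.ext h)))
    (q := fun j u => 1 / ((j : ℝ) + 1) * ∫ x in Om F, ‖fderiv ℝ (u : E2 → ℝ) x‖ ^ 2)
    (fun j => IsQ_const_mul hE _) (fun u => by
      have := (tendsto_one_div_add_atTop_nhds_zero_nat (𝕜 := ℝ)).mul_const
        (∫ x in Om F, ‖fderiv ℝ (u : E2 → ℝ) x‖ ^ 2)
      simpa using this) one_pos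
  obtain ⟨j, hj⟩ := h2.exists
  refine ⟨(j : ℝ) + 1, fun u hu => ?_⟩
  have h3 := (le_abs_self _).trans (hj ⟨u, hu⟩)
  simp only [one_mul] at h3
  have h4 : (0 : ℝ) < (j : ℝ) + 1 := by positivity
  rwa [one_div, inv_mul_le_iff₀ h4] at h3

section
variable {R : ℝ} (hR : 1729 < R)

include hR in
theorem half {t₁ t₂ : ℂ} (h12 : t₂ = -t₁) (ht : t₁ ^ 2 = -7)
    (D₁ : Dat (fun x => pS t₁ x - Complex.I) R) (D₂ : Dat (fun x => pS t₂ x - Complex.I) R)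
    {k : ℕ} {s : ℝ} (hs : s ∈ Lev (Om D₁.F) k) {η : ℝ} (hη : 0 < η) :
    ∃ s' ∈ Lev (Om D₂.F) k, s' ≤ s + η := by
  subst h12
  have hs0 := Lev_nonneg hs
  obtain ⟨V, hV, hdim, hpos, hsup⟩ := hs
  have hfin : FiniteDimensional ℝ V := FiniteDimensional.of_finrank_pos (by omega)
  obtain ⟨C, hC⟩ := rayleigh_bdd D₁.conf V hV hpos
  have hle : ∀ u ∈ V, u ≠ 0 → ∫ x in Om D₁.F, ‖fderiv ℝ u x‖ ^ 2 ≤
      s * ∫ x in frontier (Om D₁.F), u x ^ 2 ∂μH[1] := by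
    intro u hu hu0
    rw [← div_le_iff₀ (hpos u hu hu0), hsup]
    refine le_csSup ⟨C, ?_⟩ ⟨u, hu, hu0, rfl⟩
    rintro _ ⟨v, hv, hv0, rfl⟩
    rw [div_le_iff₀ (hpos v hv hv0)]
    exact hC v hv
  set η' : ℝ := min (1 / 2) (η / (1 + s + η)) with hη'
  have hη'0 : 0 < η' := lt_min (by norm_num) (by positivity)
  have hη'1 : η' ≤ 1 / 2 := min_le_left _ _
  have hη'2 : η' * (1 + s + η) ≤ η := by
    rw [← le_div_iff₀ (by positivity)]
    exact min_le_right _ _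
  obtain ⟨Λ, hΛ⟩ := key ht hR D₁ D₂ V hV hpos hη'0
  have hpos' : ∀ u : V, u ≠ 0 → 0 < ∫ x in frontier (Om D₁.F), (u : E2 → ℝ) x ^ 2 ∂μH[1] :=
    fun u hu => hpos u u.2 (fun h => hu (Subtype.ext h))
  have hN2 : ∀ u : V, u ≠ 0 → (1 - η') * ∫ x in frontier (Om D₁.F), (u : E2 → ℝ) x ^ 2 ∂μH[1] ≤
      ∫ x in frontier (Om D₂.F), Λ u x ^ 2 ∂μH[1] := by
    intro u hu
    have h1 := (abs_le.1 (hΛ u).2.2).1
    linarith
  have hN2' : ∀ u : V, u ≠ 0 → 0 < ∫ x in frontier (Om D₂.F), Λ u x ^ 2 ∂μH[1] := by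
    intro u hu
    refine lt_of_lt_of_le ?_ (hN2 u hu)
    exact mul_pos (by linarith) (hpos' u hu)
  have hinj : Function.Injective Λ := by
    rw [← LinearMap.ker_eq_bot, LinearMap.ker_eq_bot']
    intro u hu
    by_contra hne
    have := hN2' u hne
    rw [hu] at this
    simp at this
  obtain ⟨u₀, hu₀⟩ : ∃ u : V, u ≠ 0 := by
    have : Nontrivial V := Module.nontrivial_of_finrank_pos (R := ℝ) (by omega)
    exact exists_ne 0
  refine ⟨_, ⟨LinearMap.range Λ, ?_, ?_, ?_, rfl⟩, ?_⟩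
  · rintro _ ⟨u, rfl⟩
    exact (hΛ u).1
  · rw [LinearMap.finrank_range_of_inj hinj, hdim]
  · rintro _ ⟨u, rfl⟩ hu
    exact hN2' u (fun h => hu (by rw [h, map_zero]))
  · refine csSup_le ⟨_, Λ u₀, ⟨u₀, rfl⟩, fun h => hu₀ (hinj (by rw [h, map_zero])), rfl⟩ ?_
    rintro _ ⟨_, ⟨u, rfl⟩, hu, rfl⟩
    have hu0 : u ≠ 0 := fun h => hu (by rw [h, map_zero])
    rw [div_le_iff₀ (hN2' u hu0)]
    have h1 := (hΛ u).2.1
    have h2 := hle u u.2 (fun h => hu0 (Subtype.ext h))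
    have h3 := hpos' u hu0
    have h4 := hN2 u hu0
    set N := ∫ x in frontier (Om D₁.F), (u : E2 → ℝ) x ^ 2 ∂μH[1] with hN
    calc ∫ x in Om D₂.F, ‖fderiv ℝ (Λ u) x‖ ^ 2 ≤ s * N + η' * N := by linarith
      _ ≤ (s + η) * ((1 - η') * N) := by
          have : 0 ≤ (η - η' * (1 + s + η)) * N := mul_nonneg (by linarith) h3.le
          nlinarith
      _ ≤ (s + η) * ∫ x in frontier (Om D₂.F), Λ u x ^ 2 ∂μH[1] :=
          mul_le_mul_of_nonneg_left h4 (by linarith)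

include hR in
theorem sInf_le' {t₁ t₂ : ℂ} (h12 : t₂ = -t₁) (ht : t₁ ^ 2 = -7)
    (D₁ : Dat (fun x => pS t₁ x - Complex.I) R) (D₂ : Dat (fun x => pS t₂ x - Complex.I) R)
    (k : ℕ) (hne : (Lev (Om D₁.F) k).Nonempty) : sInf (Lev (Om D₂.F) k) ≤ sInf (Lev (Om D₁.F) k) := by
  refine le_csInf hne fun s hs => le_of_forall_pos_le_add fun η hη => ?_
  obtain ⟨s', hs', hle⟩ := half hR h12 ht D₁ D₂ hs hη
  exact (csInf_le ⟨0, fun x hx => Lev_nonneg hx⟩ hs').trans hle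

include hR in
theorem sInf_eq {t : ℂ} (ht : t ^ 2 = -7)
    (D₁ : Dat (fun x => pS t x - Complex.I) R) (D₂ : Dat (fun x => pS (-t) x - Complex.I) R)
    (k : ℕ) : sInf (Lev (Om D₁.F) k) = sInf (Lev (Om D₂.F) k) := by
  have h21 : t = -(-t) := (neg_neg t).symm
  have ht' : (-t) ^ 2 = -7 := by rw [neg_sq]; exact ht
  by_cases h1 : (Lev (Om D₁.F) k).Nonempty
  · have h2 : (Lev (Om D₂.F) k).Nonempty := by
      obtain ⟨s, hs⟩ := h1
      obtain ⟨s', hs', -⟩ := half hR rfl ht D₁ D₂ hs one_pos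
      exact ⟨s', hs'⟩
    exact le_antisymm (sInf_le' hR h21 ht' D₂ D₁ k h2) (sInf_le' hR rfl ht D₁ D₂ k h1)
  · have h2 : ¬ (Lev (Om D₂.F) k).Nonempty := by
      rintro ⟨s, hs⟩
      obtain ⟨s', hs', -⟩ := half hR h21 ht' D₂ D₁ hs one_pos
      exact h1 ⟨s', hs'⟩
    rw [Set.not_nonempty_iff_eq_empty] at h1 h2
    rw [h1, h2]

end

end Pool.Agent.W794.Fib
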