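import Mathlib

set_option autoImplicit false
set_option linter.all false

open MeasureTheory Set Function
open scoped ENNReal NNReal

namespace Pool.Agent.W794.AF

/-- the radius of approximation -/
noncomputable def rad {E : Type} [NormedAddCommGroup E] [NormedSpace ℝ E] [FiniteDimensional ℝ E]
    (A : E →L[ℝ] E) : ℝ≥0 := by
  classical exact if h : A.det ≠ 0 then
    (if ‖((A.toContinuousLinearEquivOfDetNeZero h).symm : E →L[ℝ] E)‖₊ = 0 then 1 else
      ‖((A.toContinuousLinearEquivOfDetNeZero h).symm : E →L[ℝ] E)‖₊⁻¹ / 2) else 1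

theorem rad_ne {E : Type} [NormedAddCommGroup E] [NormedSpace ℝ E] [FiniteDimensional ℝ E]
    (A : E →L[ℝ] E) : rad A ≠ 0 := by
  unfold rad
  split_ifs with h h1
  · exact one_ne_zero
  · exact div_ne_zero (inv_ne_zero h1) two_ne_zero
  · exact one_ne_zero

theorem inj {E : Type} [NormedAddCommGroup E] [NormedSpace ℝ E] [FiniteDimensional ℝ E]
    (A : E →L[ℝ] E) (h : A.det ≠ 0) (P : E → E) (s : Set E)
    (hP : ApproximatesLinearOn P A s (rad A)) : InjOn P s := by
  have h1 : ApproximatesLinearOn P ((A.toContinuousLinearEquivOfDetNeZero h : E ≃L[ℝ] E) :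
      E →L[ℝ] E) s (rad A) := by
    rw [ContinuousLinearMap.coe_toContinuousLinearEquivOfDetNeZero]
    exact hP
  refine h1.injOn ?_
  rcases subsingleton_or_nontrivial E with hE | hE
  · exact Or.inl hE
  · right
    have hpos : 0 < ‖((A.toContinuousLinearEquivOfDetNeZero h).symm : E →L[ℝ] E)‖₊ :=
      ContinuousLinearEquiv.nnnorm_symm_pos _
    have hr : rad A = ‖((A.toContinuousLinearEquivOfDetNeZero h).symm : E →L[ℝ] E)‖₊⁻¹ / 2 := by
      unfold rad
      rw [dif_pos h, if_neg hpos.ne']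
    rw [hr]
    exact NNReal.half_lt_self (inv_ne_zero hpos.ne')

variable {E : Type} [NormedAddCommGroup E] [NormedSpace ℝ E] [FiniteDimensional ℝ E]
  [MeasurableSpace E] [BorelSpace E] (μ : Measure E) [μ.IsAddHaarMeasure]

/-- injective piece -/
theorem piece {P : E → E} {P' : E → E →L[ℝ] E} {A : Set E} (hA : MeasurableSet A)
    (hP : ∀ x ∈ A, HasFDerivWithinAt P (P' x) A x) (hinj : InjOn P A) {f : E → ℝ≥0∞}
    (hf : Measurable f) :
    Measurable (fun z => ∑' x : {x // x ∈ A ∧ P x = z}, f x) ∧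
    ∫⁻ x in A, ENNReal.ofReal |(P' x).det| * f x ∂μ =
      ∫⁻ z, ∑' x : {x // x ∈ A ∧ P x = z}, f x ∂μ := by
  have hemb := measurableEmbedding_of_fderivWithin hA hP hinj
  set g : E → ℝ≥0∞ := fun z => ∑' x : {x // x ∈ A ∧ P x = z}, f x with hg
  have hgP : ∀ x ∈ A, g (P x) = f x := by
    intro x hx
    simp only [hg]
    exact tsum_eq_single (⟨x, hx, rfl⟩ : {y // y ∈ A ∧ P y = P x})
      (fun y hy => absurd (Subtype.ext (hinj y.2.1 hx y.2.2)) hy)
  have hg0 : ∀ z, z ∉ P '' A → g z = 0 := by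
    intro z hz
    have : IsEmpty {x // x ∈ A ∧ P x = z} := ⟨fun x => hz ⟨x.1, x.2.1, x.2.2⟩⟩
    simp only [hg]
    exact tsum_empty
  have hext : g = Function.extend (A.domRestrict P) (fun x : A => f x) 0 := by
    funext z
    by_cases hz : z ∈ P '' A
    · obtain ⟨x, hx, rfl⟩ := hz
      rw [hgP x hx]
      exact (hemb.injective.extend_apply (fun x : A => f x) 0 ⟨x, hx⟩).symm
    · rw [hg0 z hz, Function.extend_apply']
      · rfl
      · rintro ⟨⟨x, hx⟩, rfl⟩
        exact hz ⟨x, hx, rfl⟩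
  refine ⟨?_, ?_⟩
  · show Measurable g
    rw [hext]
    exact hemb.measurable_extend (hf.comp measurable_subtype_coe) measurable_const
  · have h1 := lintegral_image_eq_lintegral_abs_det_fderiv_mul μ hA hP hinj g
    have h2 : ∫⁻ x in A, ENNReal.ofReal |(P' x).det| * g (P x) ∂μ =
        ∫⁻ x in A, ENNReal.ofReal |(P' x).det| * f x ∂μ := by
      refine setLIntegral_congr_fun hA fun x hx => ?_
      simp only [hgP x hx]
    rw [← h2, ← h1]
    have hI : MeasurableSet (P '' A) := measurable_image_of_fderivWithin hA hP hinj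
    rw [← lintegral_indicator hI]
    refine lintegral_congr fun z => ?_
    by_cases hz : z ∈ P '' A
    · rw [indicator_of_mem hz]
    · rw [indicator_of_notMem hz]
      exact (hg0 z hz).symm

/-- **Area formula with multiplicity.** -/
theorem area {P : E → E} {P' : E → E →L[ℝ] E} {s : Set E} (hs : MeasurableSet s)
    (hP : ∀ x ∈ s, HasFDerivWithinAt P (P' x) s x) (hdet : ∀ x ∈ s, (P' x).det ≠ 0)
    {f : E → ℝ≥0∞} (hf : Measurable f) :
    ∫⁻ x in s, ENNReal.ofReal |(P' x).det| * f x ∂μ =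
      ∫⁻ z, ∑' x : {x // x ∈ s ∧ P x = z}, f x ∂μ := by
  rcases s.eq_empty_or_nonempty with rfl | hne
  · have : ∀ z : E, IsEmpty {x // x ∈ (∅ : Set E) ∧ P x = z} := fun z => ⟨fun x => x.2.1.elim⟩
    simp
  have : SecondCountableTopology E := by
    have := FiniteDimensional.proper ℝ E
    exact secondCountable_of_proper
  obtain ⟨t, A, ht, htm, hst, happ, hA⟩ := exists_partition_approximatesLinearOn_of_hasFDerivWithinAt
    P s P' hP rad rad_ne
  have hinj : ∀ n, InjOn P (s ∩ t n) := by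
    intro n
    obtain ⟨y, hy, hAy⟩ := hA hne n
    have hd : (A n).det ≠ 0 := by
      rw [hAy]
      exact hdet y hy
    exact inj (A n) hd P _ (happ n)
  have hW : ∀ n, ∀ x ∈ s ∩ t n, HasFDerivWithinAt P (P' x) (s ∩ t n) x := fun n x hx =>
    (hP x hx.1).mono inter_subset_left
  have hmeas : ∀ n, MeasurableSet (s ∩ t n) := fun n => hs.inter (htm n)
  have hU : s = ⋃ n, s ∩ t n := by
    rw [← inter_iUnion]
    exact (inter_eq_left.2 hst).symm
  have hdisj : Pairwise (Disjoint on fun n => s ∩ t n) := by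
    intro m n hmn
    exact (ht hmn).mono inter_subset_right inter_subset_right
  have hp := fun n => piece μ (hmeas n) (hW n) (hinj n) hf
  calc ∫⁻ x in s, ENNReal.ofReal |(P' x).det| * f x ∂μ
      = ∑' n, ∫⁻ x in s ∩ t n, ENNReal.ofReal |(P' x).det| * f x ∂μ := by
        conv_lhs => rw [hU]
        rw [lintegral_iUnion hmeas hdisj]
    _ = ∑' n, ∫⁻ z, ∑' x : {x // x ∈ s ∩ t n ∧ P x = z}, f x ∂μ :=
        tsum_congr fun n => (hp n).2
    _ = ∫⁻ z, ∑' n, ∑' x : {x // x ∈ s ∩ t n ∧ P x = z}, f x ∂μ :=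
        (lintegral_tsum fun n => (hp n).1.aemeasurable).symm
    _ = ∫⁻ z, ∑' x : {x // x ∈ s ∧ P x = z}, f x ∂μ := by
        refine lintegral_congr fun z => ?_
        rw [← ENNReal.tsum_sigma' (f := fun p : (Σ n, {x // x ∈ s ∩ t n ∧ P x = z}) => f p.2)]
        let e : (Σ n, {x // x ∈ s ∩ t n ∧ P x = z}) → {x // x ∈ s ∧ P x = z} :=
          fun p => ⟨p.2.1, p.2.2.1.1, p.2.2.2⟩
        have he : Function.Bijective e := by
          constructor
          · rintro ⟨m, x, hx⟩ ⟨n, y, hy⟩ hxy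
            have h1 : x = y := congrArg Subtype.val hxy
            subst h1
            have h2 : m = n := by
              by_contra hne
              exact Set.disjoint_left.1 (ht hne) hx.1.2 hy.1.2
            subst h2
            rfl
          · rintro ⟨x, hx, hz⟩
            have h1 : x ∈ ⋃ n, s ∩ t n := by rw [← hU]; exact hx
            obtain ⟨n, hn⟩ := mem_iUnion.1 h1
            exact ⟨⟨n, x, hn, hz⟩, rfl⟩
        exact (Equiv.ofBijective e he).tsum_eq (fun x : {x // x ∈ s ∧ P x = z} => f x)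

end Pool.Agent.W794.AF
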