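import Pool.Agent.W794.Bd2

set_option autoImplicit false
set_option linter.all false

open Metric Set Filter Topology MeasureTheory
open scoped ENNReal Real
open Pool.Agent.Helper859.Stk

namespace Pool.Agent.W794.Fib

/-- conformal invariance of the Dirichlet integral -/
theorem conf_energy {F G : ℂ → ℂ} {s : Set ℂ} (hs : MeasurableSet s)
    (hF : ∀ z ∈ s, HasDerivAt F (G z) z) (hi : InjOn F s) {u : ℂ → ℝ}
    (hu : ∀ z ∈ s, DifferentiableAt ℝ u (F z)) :
    ∫⁻ y in F '' s, ENNReal.ofReal (‖fderiv ℝ u y‖ ^ 2) =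
      ∫⁻ z in s, ENNReal.ofReal (‖fderiv ℝ (fun z => u (F z)) z‖ ^ 2) := by
  rw [lintegral_image_eq_lintegral_abs_det_fderiv_mul (volume : Measure ℂ) hs
    (f' := fun z => mulL (G z)) (fun z hz => ((hF z hz).hasFDerivAt.restrictScalars ℝ).hasFDerivWithinAt)
    hi]
  refine setLIntegral_congr_fun hs fun z hz => ?_
  have h1 : HasFDerivAt (fun z => u (F z)) ((fderiv ℝ u (F z)).comp (mulL (G z))) z :=
    (hu z hz).hasFDerivAt.comp z ((hF z hz).hasFDerivAt.restrictScalars ℝ)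
  rw [h1.fderiv, norm_comp_mulL, mulL_det, abs_of_nonneg (by positivity),
    ← ENNReal.ofReal_mul (by positivity), mul_comm]

/-- a fixed bump function -/
noncomputable def kap : ContDiffBump (0 : ℂ) := ⟨1, 2, one_pos, by norm_num⟩

theorem kap_one {z : ℂ} (h : ‖z‖ ≤ 1) : kap z = 1 :=
  kap.one_of_mem_closedBall (by simpa [kap] using h)

theorem kap_zero {z : ℂ} (h : 2 ≤ ‖z‖) : kap z = 0 :=
  kap.zero_of_le_dist (by simpa [kap] using h)

theorem kap_diff : ContDiff ℝ 1 (kap : ℂ → ℝ) := kap.contDiff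

theorem kap_bound : ∃ K : ℝ, 0 ≤ K ∧ ∀ z, ‖fderiv ℝ (kap : ℂ → ℝ) z‖ ≤ K := by
  have h1 : Continuous (fderiv ℝ (kap : ℂ → ℝ)) := kap_diff.continuous_fderiv (by norm_num)
  have h2 : HasCompactSupport (fderiv ℝ (kap : ℂ → ℝ)) := kap.hasCompactSupport.fderiv (𝕜 := ℝ)
  obtain ⟨K, hK⟩ := h1.bounded_above_of_compact_support h2
  exact ⟨max K 0, le_max_right _ _, fun z => (hK z).trans (le_max_left _ _)⟩

/-- make a function constant near the points of `S` -/
noncomputable def A (S : Finset ℂ) (ε : ℝ) : (ℂ → ℝ) →ₗ[ℝ] (ℂ → ℝ) where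
  toFun U z := U z - ∑ s ∈ S, kap ((ε⁻¹ : ℝ) • (z - s)) * (U z - U s)
  map_add' U V := by
    funext z
    simp only [Pi.add_apply]
    have : ∀ s, kap ((ε⁻¹ : ℝ) • (z - s)) * (U z + V z - (U s + V s)) =
      kap ((ε⁻¹ : ℝ) • (z - s)) * (U z - U s) + kap ((ε⁻¹ : ℝ) • (z - s)) * (V z - V s) := by
      intro s; ring
    simp only [this, Finset.sum_add_distrib]
    ring
  map_smul' a U := by
    funext z
    simp only [Pi.smul_apply, smul_eq_mul, RingHom.id_apply]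
    have : ∀ s, kap ((ε⁻¹ : ℝ) • (z - s)) * (a * U z - a * U s) =
      a * (kap ((ε⁻¹ : ℝ) • (z - s)) * (U z - U s)) := by
      intro s; ring
    simp only [this, ← Finset.mul_sum]
    ring

theorem A_apply (S : Finset ℂ) (ε : ℝ) (U : ℂ → ℝ) (z : ℂ) :
    A S ε U z = U z - ∑ s ∈ S, kap ((ε⁻¹ : ℝ) • (z - s)) * (U z - U s) := rfl

theorem A_contDiff (S : Finset ℂ) (ε : ℝ) {U : ℂ → ℝ} {O : Set ℂ} (hU : ContDiffOn ℝ 1 U O) :
    ContDiffOn ℝ 1 (A S ε U) O := by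
  have : (A S ε U) = fun z => U z - ∑ s ∈ S, kap ((ε⁻¹ : ℝ) • (z - s)) * (U z - U s) := by
    funext z; rfl
  rw [this]
  refine hU.sub (ContDiffOn.sum fun s _ => ContDiffOn.mul ?_ (hU.sub contDiffOn_const))
  have h1 : ContDiff ℝ 1 (fun z : ℂ => (ε⁻¹ : ℝ) • (z - s)) := by fun_prop
  exact (kap_diff.comp h1).contDiffOn

/-- unchanged away from `S` -/
theorem A_far {S : Finset ℂ} {ε : ℝ} (hε : 0 < ε) {U : ℂ → ℝ} {z : ℂ}
    (hz : ∀ s ∈ S, 2 * ε ≤ ‖z - s‖) : A S ε U z = U z := by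
  rw [A_apply, Finset.sum_eq_zero, sub_zero]
  intro s hs
  rw [kap_zero, zero_mul]
  rw [norm_smul, norm_inv, Real.norm_of_nonneg hε.le, le_inv_mul_iff₀ hε]
  linarith [hz s hs]

/-- constant near the points of `S` -/
theorem A_near {S : Finset ℂ} {ε : ℝ} (hε : 0 < ε) {U : ℂ → ℝ} {s : ℂ} (hs : s ∈ S)
    (hsep : ∀ s' ∈ S, s' ≠ s → 3 * ε ≤ ‖s - s'‖) {z : ℂ} (hz : ‖z - s‖ ≤ ε) : A S ε U z = U s := by
  rw [A_apply, Finset.sum_eq_single s]
  · rw [kap_one]
    · ring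
    · rw [norm_smul, norm_inv, Real.norm_of_nonneg hε.le, inv_mul_le_iff₀ hε]
      linarith
  · intro s' hs' hne
    rw [kap_zero, zero_mul]
    rw [norm_smul, norm_inv, Real.norm_of_nonneg hε.le, le_inv_mul_iff₀ hε]
    have h1 := hsep s' hs' hne
    have h2 : ‖s - s'‖ ≤ ‖z - s'‖ + ‖z - s‖ := by
      have : s - s' = (z - s') - (z - s) := by ring
      rw [this]; exact norm_sub_le _ _
    linarith
  · intro h; exact absurd hs h

/-- uniform bound of the derivative -/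
theorem A_bound (S : Finset ℂ) (hS : ∀ s ∈ S, s ∈ ball (0 : ℂ) 1) {U : ℂ → ℝ}
    (hU : ContDiffOn ℝ 1 U (ball (0 : ℂ) (3 / 2))) :
    ∃ C : ℝ, ∀ ε : ℝ, 0 < ε → ∀ z ∈ ball (0 : ℂ) 1, ‖fderiv ℝ (A S ε U) z‖ ≤ C := by
  have hsub : closedBall (0 : ℂ) 1 ⊆ ball (0 : ℂ) (3 / 2) := closedBall_subset_ball (by norm_num)
  have hc : ContinuousOn (fderiv ℝ U) (closedBall (0 : ℂ) 1) :=
    (hU.continuousOn_fderiv_of_isOpen isOpen_ball (by norm_num)).mono hsub
  obtain ⟨M, hM⟩ := (isCompact_closedBall (0 : ℂ) 1).exists_bound_of_continuousOn hc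
  have hM0 : 0 ≤ M := (norm_nonneg _).trans (hM 0 (by simp))
  obtain ⟨K, hK0, hK⟩ := kap_bound
  refine ⟨M + ∑ s ∈ S, (M + 2 * K * M), fun ε hε z hz => ?_⟩
  have hz3 : z ∈ ball (0 : ℂ) (3 / 2) := hsub (ball_subset_closedBall hz)
  have hUd : HasFDerivAt U (fderiv ℝ U z) z :=
    ((hU.contDiffAt (isOpen_ball.mem_nhds hz3)).differentiableAt (by norm_num)).hasFDerivAt
  have hkd : ∀ s, HasFDerivAt (fun z => kap ((ε⁻¹ : ℝ) • (z - s)))
      ((fderiv ℝ (kap : ℂ → ℝ) ((ε⁻¹ : ℝ) • (z - s))).comp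
        ((ε⁻¹ : ℝ) • (ContinuousLinearMap.id ℝ ℂ))) z := by
    intro s
    have h1 : HasFDerivAt (fun z : ℂ => (ε⁻¹ : ℝ) • (z - s)) ((ε⁻¹ : ℝ) • (ContinuousLinearMap.id ℝ ℂ)) z :=
      ((hasFDerivAt_id z).sub_const s).fun_const_smul _
    exact ((kap_diff.differentiable (by norm_num)).differentiableAt.hasFDerivAt).comp z h1
  have hd : HasFDerivAt (A S ε U) (fderiv ℝ U z - ∑ s ∈ S, (kap ((ε⁻¹ : ℝ) • (z - s)) • fderiv ℝ U z +
      (U z - U s) • ((fderiv ℝ (kap : ℂ → ℝ) ((ε⁻¹ : ℝ) • (z - s))).comp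
        ((ε⁻¹ : ℝ) • (ContinuousLinearMap.id ℝ ℂ))))) z := by
    have : (A S ε U) = fun z => U z - ∑ s ∈ S, kap ((ε⁻¹ : ℝ) • (z - s)) * (U z - U s) := by
      funext z; rfl
    rw [this]
    exact hUd.sub (HasFDerivAt.fun_sum fun s _ => (hkd s).mul (hUd.sub_const _))
  rw [hd.fderiv]
  refine (norm_sub_le _ _).trans (add_le_add (hM z (ball_subset_closedBall hz)) ?_)
  refine (norm_sum_le _ _).trans (Finset.sum_le_sum fun s hs => ?_)
  refine (norm_add_le _ _).trans (add_le_add ?_ ?_)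
  · rw [norm_smul, Real.norm_of_nonneg kap.nonneg]
    calc kap ((ε⁻¹ : ℝ) • (z - s)) * ‖fderiv ℝ U z‖ ≤ 1 * M :=
          mul_le_mul kap.le_one (hM z (ball_subset_closedBall hz)) (norm_nonneg _) zero_le_one
      _ = M := one_mul M
  · rw [norm_smul]
    by_cases hfar : 2 * ε < ‖z - s‖
    · have h0 : fderiv ℝ (kap : ℂ → ℝ) ((ε⁻¹ : ℝ) • (z - s)) = 0 := by
        have h1 : (kap : ℂ → ℝ) =ᶠ[𝓝 ((ε⁻¹ : ℝ) • (z - s))] fun _ => 0 := by
          have h2 : 2 < ‖(ε⁻¹ : ℝ) • (z - s)‖ := by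
            rw [norm_smul, norm_inv, Real.norm_of_nonneg hε.le, lt_inv_mul_iff₀ hε]
            linarith
          filter_upwards [(isOpen_lt continuous_const continuous_norm).mem_nhds h2] with y hy
          exact kap_zero (le_of_lt hy)
        rw [h1.fderiv_eq]
        simp
      rw [h0, ContinuousLinearMap.zero_comp, norm_zero, mul_zero]
      positivity
    · push Not at hfar
      have h1 : ‖U z - U s‖ ≤ M * ‖z - s‖ := by
        refine (convex_closedBall (0 : ℂ) 1).norm_image_sub_le_of_norm_fderiv_le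
          (f := U) (𝕜 := ℝ) ?_ (fun x hx => hM x hx) (ball_subset_closedBall (hS s hs))
          (ball_subset_closedBall hz)
        intro x hx
        exact (hU.contDiffAt (isOpen_ball.mem_nhds (hsub hx))).differentiableAt (by norm_num)
      have h2 : ‖(fderiv ℝ (kap : ℂ → ℝ) ((ε⁻¹ : ℝ) • (z - s))).comp
          ((ε⁻¹ : ℝ) • (ContinuousLinearMap.id ℝ ℂ))‖ ≤ K * ε⁻¹ := by
        refine (ContinuousLinearMap.opNorm_comp_le _ _).trans ?_
        refine mul_le_mul (hK _) ?_ (norm_nonneg _) hK0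
        rw [norm_smul, norm_inv, Real.norm_of_nonneg hε.le]
        calc ε⁻¹ * ‖ContinuousLinearMap.id ℝ ℂ‖ ≤ ε⁻¹ * 1 :=
              mul_le_mul_of_nonneg_left ContinuousLinearMap.norm_id_le (by positivity)
          _ = ε⁻¹ := mul_one _
      calc ‖U z - U s‖ * ‖_‖ ≤ (M * (2 * ε)) * (K * ε⁻¹) := by
            refine mul_le_mul (h1.trans (mul_le_mul_of_nonneg_left hfar hM0)) h2 (norm_nonneg _)
              (by positivity)
        _ = 2 * K * M := by field_simp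

/-- convergence of the energies -/
theorem A_energy (S : Finset ℂ) (hS : ∀ s ∈ S, s ∈ ball (0 : ℂ) 1) {U : ℂ → ℝ}
    (hU : ContDiffOn ℝ 1 U (ball (0 : ℂ) (3 / 2))) {e : ℕ → ℝ} (he : ∀ n, 0 < e n)
    (hl : Tendsto e atTop (𝓝 0)) :
    Tendsto (fun n => ∫ z in ball (0 : ℂ) 1, ‖fderiv ℝ (A S (e n) U) z‖ ^ 2) atTop
      (𝓝 (∫ z in ball (0 : ℂ) 1, ‖fderiv ℝ U z‖ ^ 2)) := by
  obtain ⟨C, hC⟩ := A_bound S hS hU
  refine tendsto_integral_of_dominated_convergence (fun _ => C ^ 2) ?_ ?_ ?_ ?_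
  · intro n
    exact ((measurable_fderiv ℝ (A S (e n) U)).norm.pow_const 2).aestronglyMeasurable
  · refine integrableOn_const ?_
    exact measure_ball_lt_top.ne
  · intro n
    rw [ae_restrict_iff' measurableSet_ball]
    refine Filter.Eventually.of_forall fun z hz => ?_
    rw [Real.norm_of_nonneg (by positivity)]
    exact pow_le_pow_left₀ (norm_nonneg _) (hC (e n) (he n) z hz) 2
  · rw [ae_restrict_iff' measurableSet_ball]
    have h0 : (volume : Measure ℂ) (S : Set ℂ) = 0 := S.finite_toSet.measure_zero _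
    filter_upwards [compl_mem_ae_iff.2 h0] with z hz _
    have hpos : ∀ s ∈ S, 0 < ‖z - s‖ := fun s hs => by
      rw [norm_pos_iff, sub_ne_zero]
      rintro rfl
      exact hz hs
    have hev : ∀ᶠ n in atTop, ∀ s ∈ S, 2 * e n < ‖z - s‖ := by
      rw [Filter.eventually_all_finset]
      intro s hs
      have : Tendsto (fun n => 2 * e n) atTop (𝓝 0) := by simpa using hl.const_mul 2
      exact this.eventually_lt_const (hpos s hs)
    refine tendsto_const_nhds.congr' ?_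
    filter_upwards [hev] with n hn
    have h1 : A S (e n) U =ᶠ[𝓝 z] U := by
      have h2 : ∀ᶠ y in 𝓝 z, ∀ s ∈ S, 2 * e n < ‖y - s‖ := by
        rw [Filter.eventually_all_finset]
        intro s hs
        exact (isOpen_lt continuous_const (by fun_prop : Continuous fun y : ℂ => ‖y - s‖)).mem_nhds (hn s hs)
      filter_upwards [h2] with y hy
      exact A_far (he n) fun s hs => (hy s hs).le
    rw [h1.fderiv_eq]

end Pool.Agent.W794.Fib
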