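import Pool.Agent.W794.Ap1

set_option autoImplicit false
set_option linter.all false

open Metric Set Filter Topology MeasureTheory
open scoped ENNReal Real
open Pool.Agent.Helper859.Stk

namespace Pool.Agent.W794.Fib

/-- constant if the derivative vanishes off the centre -/
theorem const_of_deriv {V : ℂ → ℝ} {z₀ : ℂ} {r : ℝ} (hc : ContinuousOn V (ball z₀ r))
    (hd : ∀ z ∈ ball z₀ r, z ≠ z₀ → DifferentiableAt ℝ V z ∧ fderiv ℝ V z = 0) :
    ∀ z ∈ ball z₀ r, V z = V z₀ := by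
  intro z hz
  by_cases hne : z = z₀
  · rw [hne]
  have hr : 0 < r := pos_of_mem_ball hz
  have hmem : ∀ x ∈ Icc (0 : ℝ) 1, z₀ + (x : ℂ) * (z - z₀) ∈ ball z₀ r := by
    intro x hx
    rw [mem_ball, dist_eq_norm] at hz ⊢
    rw [add_sub_cancel_left, norm_mul, Complex.norm_real, Real.norm_of_nonneg hx.1]
    nlinarith [norm_nonneg (z - z₀), hx.2]
  have hcont : ContinuousOn (fun x : ℝ => V (z₀ + (x : ℂ) * (z - z₀))) (Icc 0 1) := by
    refine hc.comp (by fun_prop) hmem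
  have hder : ∀ x ∈ Ioo (0 : ℝ) 1, HasDerivAt (fun x : ℝ => V (z₀ + (x : ℂ) * (z - z₀))) 0 x := by
    intro x hx
    have h1 := hd _ (hmem x ⟨hx.1.le, hx.2.le⟩) (by
      intro h
      have : (x : ℂ) * (z - z₀) = 0 := by simpa using h
      rcases mul_eq_zero.1 this with h2 | h2
      · exact hx.1.ne' (by exact_mod_cast h2)
      · exact hne (sub_eq_zero.1 h2))
    have h2 : HasFDerivAt V (0 : ℂ →L[ℝ] ℝ) (z₀ + (x : ℂ) * (z - z₀)) := by
      have := h1.1.hasFDerivAt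
      rwa [h1.2] at this
    have h3 : HasDerivAt (fun x : ℝ => z₀ + (x : ℂ) * (z - z₀)) (1 * (z - z₀)) x := by
      exact ((Complex.ofRealCLM.hasDerivAt (x := x)).mul_const (z - z₀)).const_add z₀
    have h4 := h2.comp_hasDerivAt x h3
    rw [ContinuousLinearMap.zero_apply] at h4
    exact h4
  obtain ⟨x, hx, hx'⟩ := exists_hasDerivAt_eq_slope (fun x : ℝ => V (z₀ + (x : ℂ) * (z - z₀)))
    (fun _ => 0) zero_lt_one hcont hder
  simp at hx'
  linarith

section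
variable {t : ℂ} (ht : t ^ 2 = -7) {R : ℝ} (hR : 0 < R)
    (D₁ : Dat (fun x => pS t x - Complex.I) R) (D₂ : Dat (fun x => pS (-t) x - Complex.I) R)

include ht hR in
/-- The transplantation of a `C¹` function which is constant near the singular points is `C¹`. -/
theorem W_C1 {U : ℂ → ℝ} (hU : ContDiffOn ℝ 1 U (ball (0 : ℂ) 1)) {ε : ℝ} (hε : 0 < ε)
    (hsing : ∀ s ∈ ball (0 : ℂ) 1 \ rset D₁, ∀ z, ‖z - s‖ < ε → U z = U s) :
    ContDiffOn ℝ 1 (W t D₁ D₂ U) (ball (0 : ℂ) 1) := by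
  have ht' : (-t) ^ 2 = -7 := by rw [neg_sq]; exact ht
  intro z₀ hz₀
  refine ContDiffAt.contDiffWithinAt ?_
  by_cases hreg : z₀ ∈ rset D₂
  · exact W_loc ht hR D₁ D₂ hz₀ hreg.2.1 hreg.2.2 hU
  set w₀ := D₂.B z₀ with hw₀
  have hw₀1 : ‖w₀‖ < 1 := normB_lt hR D₂ hz₀
  have hsg : (R : ℂ) * w₀ + Complex.I = 0 ∨ (R : ℂ) * w₀ + Complex.I = 1728 := by
    by_contra h
    push Not at h
    exact hreg ⟨hz₀, h.1, h.2⟩
  -- punctured neighbourhood is regular
  have e1 : ∀ᶠ z in 𝓝 z₀, z ∈ ball (0 : ℂ) 1 := isOpen_ball.mem_nhds hz₀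
  have e2 : ∀ᶠ z in 𝓝 z₀, z ≠ z₀ → z ∈ rset D₂ := by
    have hfin := (sing_finite ht' D₂).subset (sdiff_subset (s := ball (0 : ℂ) 1 \ rset D₂) (t := {z₀}))
    have hcl : IsClosed ((ball (0 : ℂ) 1 \ rset D₂) \ {z₀}) := hfin.isClosed
    have : ((ball (0 : ℂ) 1 \ rset D₂) \ {z₀})ᶜ ∈ 𝓝 z₀ :=
      hcl.isOpen_compl.mem_nhds (fun h => h.2 rfl)
    filter_upwards [this, e1] with z hz hz1 hne
    by_contra h
    exact hz ⟨⟨hz1, h⟩, hne⟩
  -- the fibre is close to the singular points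
  set K : Set ℂ := closedBall (0 : ℂ) 1 \ ⋃ s ∈ ball (0 : ℂ) 1 \ rset D₁, ball s ε with hK
  have hKc : IsCompact K := by
    refine (isCompact_closedBall (0 : ℂ) 1).diff ?_
    exact isOpen_biUnion fun s _ => isOpen_ball
  have hBK : IsClosed (D₁.B '' K) := by
    refine (hKc.image_of_continuousOn (D₁.dB.continuousOn.mono ?_)).isClosed
    exact sdiff_subset.trans (closedBall_subset_ball (by norm_num))
  have hw₀K : w₀ ∉ D₁.B '' K := by
    rintro ⟨z, ⟨hz1, hz2⟩, hzw⟩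
    rcases (mem_closedBall_zero_iff.1 hz1).eq_or_lt with h | h
    · have := D₁.B1 z (by simpa using h)
      rw [hzw] at this
      linarith
    · apply hz2
      refine mem_iUnion₂.2 ⟨z, ⟨mem_ball_zero_iff.2 h, ?_⟩, mem_ball_self hε⟩
      rintro ⟨-, h0, h1⟩
      rw [hzw] at h0 h1
      rcases hsg with h | h
      · exact h0 h
      · exact h1 h
  have hBc : ContinuousAt D₂.B z₀ :=
    (D₂.dB.analyticAt (isOpen_ball.mem_nhds (ball_subset_ball (by norm_num) hz₀))).continuousAt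
  have e3 : ∀ᶠ z in 𝓝 z₀, D₂.B z ∉ D₁.B '' K :=
    hBc.eventually (hBK.isOpen_compl.mem_nhds hw₀K)
  obtain ⟨r, hr, hball⟩ := Metric.eventually_nhds_iff_ball.1 (e1.and (e2.and e3))
  have hder : ∀ z ∈ ball z₀ r, z ≠ z₀ → DifferentiableAt ℝ (W t D₁ D₂ U) z ∧
      fderiv ℝ (W t D₁ D₂ U) z = 0 := by
    intro z hz hne
    obtain ⟨h1, h2, h3⟩ := hball z hz
    obtain ⟨-, h4, h5⟩ := h2 hne
    have hw : ‖D₂.B z‖ < 1 := normB_lt hR D₂ h1
    obtain ⟨b, hb⟩ := exists_secs ht hR D₁ (Or.inr ⟨hw, h4, h5⟩ : Reg R (D₂.B z))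
    obtain ⟨c, hc⟩ := exists_secs ht' hR D₂ (Or.inr ⟨hw, h4, h5⟩ : Reg R (D₂.B z))
    have hd := density ht hR D₁ D₂ hw h4 h5 hU hb hc
    have hzero : ∀ i, fderiv ℝ U (b i (D₂.B z)) = 0 := by
      intro i
      have hbi : b i (D₂.B z) ∉ K := fun h => h3 ⟨_, h, hb.right0 i⟩
      have hbi2 : b i (D₂.B z) ∈ ⋃ s ∈ ball (0 : ℂ) 1 \ rset D₁, ball s ε := by
        by_contra h
        exact hbi ⟨hb.cl i, h⟩
      obtain ⟨s, hs, hs'⟩ := mem_iUnion₂.1 hbi2
      have hconst : U =ᶠ[𝓝 (b i (D₂.B z))] fun _ => U s := by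
        filter_upwards [isOpen_ball.mem_nhds hs'] with y hy
        exact hsing s hs y (by rwa [mem_ball, dist_eq_norm] at hy)
      rw [hconst.fderiv_eq]
      simp
    simp only [hzero, norm_zero, ne_eq, OfNat.ofNat_ne_zero, not_false_eq_true, zero_pow, zero_div,
      Finset.sum_const_zero] at hd
    obtain ⟨k, hk⟩ := complete ht' hR D₂ h4 h5
      (fun i => ⟨((hc.right.self_of_nhds) i).2.2 hw, hc.right0 i⟩) hc.inj h1 rfl
    have hk2 := (Finset.sum_eq_zero_iff_of_nonneg (fun i _ => by positivity)).1 hd k (Finset.mem_univ k)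
    rw [← hk, div_eq_zero_iff] at hk2
    refine ⟨(W_loc ht hR D₁ D₂ h1 h4 h5 hU).differentiableAt (by norm_num), ?_⟩
    rcases hk2 with h | h
    · simpa using h
    · exfalso
      have := hc.dB k
      rw [← hk] at this
      simp at h
      exact this h
  have hconst := const_of_deriv ((W_cont ht D₁ D₂ hU.continuousOn).mono
    (fun z hz => (hball z hz).1)) hder
  refine (contDiffAt_const (c := W t D₁ D₂ U z₀)).congr_of_eventuallyEq ?_
  filter_upwards [isOpen_ball.mem_nhds (mem_ball_self hr)] with z hz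
  exact hconst z hz

end

end Pool.Agent.W794.Fib
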