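import Pool.Agent.W794.Ap2

set_option autoImplicit false
set_option linter.all false

open Metric Set Filter Topology MeasureTheory
open scoped ENNReal Real
open Pool.Agent.Helper859.Stk

namespace Pool.Agent.W794.Fib

/-- dilation of functions -/
noncomputable def dil (δ : ℝ) : (ℂ → ℝ) →ₗ[ℝ] (ℂ → ℝ) where
  toFun U z := U (((1 - δ : ℝ) : ℂ) * z)
  map_add' U V := rfl
  map_smul' a U := rfl

theorem dil_apply (δ : ℝ) (U : ℂ → ℝ) (z : ℂ) : dil δ U z = U (((1 - δ : ℝ) : ℂ) * z) := rfl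

theorem dil_mem {δ : ℝ} (h0 : 0 < δ) (h1 : δ < 1) {z : ℂ} (hz : z ∈ ball (0 : ℂ) (1 - δ)⁻¹) :
    ((1 - δ : ℝ) : ℂ) * z ∈ ball (0 : ℂ) 1 := by
  have h2 : 0 < 1 - δ := by linarith
  rw [mem_ball_zero_iff] at hz ⊢
  rw [norm_mul, Complex.norm_real, Real.norm_of_nonneg h2.le]
  calc (1 - δ) * ‖z‖ < (1 - δ) * (1 - δ)⁻¹ := mul_lt_mul_of_pos_left hz h2
    _ = 1 := mul_inv_cancel₀ h2.ne'

theorem dil_contDiff {δ : ℝ} (h0 : 0 < δ) (h1 : δ < 1) {U : ℂ → ℝ}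
    (hU : ContDiffOn ℝ 1 U (ball (0 : ℂ) 1)) : ContDiffOn ℝ 1 (dil δ U) (ball (0 : ℂ) (1 - δ)⁻¹) := by
  have h2 : ContDiff ℝ 1 (fun z : ℂ => ((1 - δ : ℝ) : ℂ) * z) := by fun_prop
  exact hU.comp h2.contDiffOn (fun z hz => dil_mem h0 h1 hz)

theorem one_lt_inv' {δ : ℝ} (h0 : 0 < δ) (h1 : δ < 1) : 1 < (1 - δ)⁻¹ :=
  (one_lt_inv₀ (by linarith)).2 (by linarith)

theorem dil_energy {δ : ℝ} (h0 : 0 < δ) (h1 : δ < 1) {U : ℂ → ℝ}
    (hU : ContDiffOn ℝ 1 U (ball (0 : ℂ) 1)) :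
    ∫⁻ z in ball (0 : ℂ) 1, ENNReal.ofReal (‖fderiv ℝ (dil δ U) z‖ ^ 2) ≤
      ∫⁻ z in ball (0 : ℂ) 1, ENNReal.ofReal (‖fderiv ℝ U z‖ ^ 2) := by
  have hsub : ball (0 : ℂ) 1 ⊆ ball (0 : ℂ) (1 - δ)⁻¹ := ball_subset_ball (one_lt_inv' h0 h1).le
  have h2 : ((1 - δ : ℝ) : ℂ) ≠ 0 := by
    rw [Complex.ofReal_ne_zero]; linarith
  have h3 := conf_energy (F := fun z => ((1 - δ : ℝ) : ℂ) * z) (G := fun _ => ((1 - δ : ℝ) : ℂ))
    (s := ball (0 : ℂ) 1) measurableSet_ball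
    (fun z _ => by simpa using (hasDerivAt_id z).const_mul ((1 - δ : ℝ) : ℂ))
    (fun z _ z' _ h => mul_left_cancel₀ h2 h) (u := U)
    (fun z hz => (hU.contDiffAt (isOpen_ball.mem_nhds (dil_mem h0 h1 (hsub hz)))).differentiableAt
      (by norm_num))
  have h4 : (fun z : ℂ => U (((1 - δ : ℝ) : ℂ) * z)) = dil δ U := rfl
  rw [h4] at h3
  rw [← h3]
  refine lintegral_mono_set ?_
  rintro _ ⟨z, hz, rfl⟩
  exact dil_mem h0 h1 (hsub hz)

section
variable {t : ℂ} (ht : t ^ 2 = -7) {R : ℝ} (hR : 1729 < R)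
    (D₁ : Dat (fun x => pS t x - Complex.I) R) (D₂ : Dat (fun x => pS (-t) x - Complex.I) R)

/-- real integral form of the boundary norm -/
theorem lint_int {f g : ℝ → ℝ} (hf : Continuous f) (hg : Continuous g) (hf0 : ∀ x, 0 ≤ f x)
    (hg0 : ∀ x, 0 ≤ g x) :
    ∫⁻ θ in Ioc (-π) π, ENNReal.ofReal (f θ) * ENNReal.ofReal (g θ) =
      ENNReal.ofReal (∫ θ in (-π)..π, f θ * g θ) := by
  rw [intervalIntegral.integral_of_le (by linarith [Real.pi_pos])]
  rw [ofReal_integral_eq_lintegral_ofReal]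
  · refine lintegral_congr fun θ => ?_
    rw [ENNReal.ofReal_mul (hf0 θ)]
  · exact ((hf.mul hg).integrableOn_Ioc)
  · exact Filter.Eventually.of_forall fun θ => mul_nonneg (hf0 θ) (hg0 θ)

theorem normB_cont {p : ℂ → ℂ} (D : Dat p R) : Continuous fun θ : ℝ => ‖deriv D.B (ex θ)‖ := by
  have h1 : ContinuousOn (deriv D.B) (ball (0 : ℂ) (3 / 2)) := (D.dB.deriv isOpen_ball).continuousOn
  exact (h1.comp_continuous ex_cont fun θ => closedBall_subset_ball (by norm_num)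
    (sphere_subset_closedBall (ex_sphere θ))).norm

include ht hR in
theorem bd_int {U : ℂ → ℝ} (hU : ContinuousOn U (closedBall (0 : ℂ) 1)) :
    ∫ θ in (-π)..π, ‖deriv D₂.B (ex θ)‖ * Wb t D₁ D₂ U (ex θ) ^ 2 =
      ∫ θ in (-π)..π, ‖deriv D₁.B (ex θ)‖ * U (ex θ) ^ 2 := by
  have hcl : ∀ θ, ex θ ∈ closedBall (0 : ℂ) 1 := fun θ => sphere_subset_closedBall (ex_sphere θ)
  have h := bd_eq ht hR D₁ D₂ hU
  have c1 : Continuous fun θ => Wb t D₁ D₂ U (ex θ) ^ 2 :=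
    ((Wb_cont ht hR D₁ D₂ hU).comp_continuous ex_cont hcl).pow 2
  have c2 : Continuous fun θ => U (ex θ) ^ 2 := (hU.comp_continuous ex_cont hcl).pow 2
  rw [lint_int (normB_cont D₂) c1 (fun _ => norm_nonneg _) (fun _ => by positivity),
    lint_int (normB_cont D₁) c2 (fun _ => norm_nonneg _) (fun _ => by positivity)] at h
  rw [ENNReal.ofReal_eq_ofReal_iff] at h
  · exact h
  · exact intervalIntegral.integral_nonneg (by linarith [Real.pi_pos]) fun _ _ => by positivity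
  · exact intervalIntegral.integral_nonneg (by linarith [Real.pi_pos]) fun _ _ => by positivity

include ht hR in
/-- convergence of the boundary norms -/
theorem dil_bd {U : ℂ → ℝ} (hU : ContinuousOn U (closedBall (0 : ℂ) 1)) {d : ℕ → ℝ}
    (hd0 : ∀ n, 0 < d n) (hd1 : ∀ n, d n < 1) (hl : Tendsto d atTop (𝓝 0)) :
    Tendsto (fun n => ∫ θ in (-π)..π, ‖deriv D₂.B (ex θ)‖ * dil (d n) (W t D₁ D₂ U) (ex θ) ^ 2) atTop
      (𝓝 (∫ θ in (-π)..π, ‖deriv D₁.B (ex θ)‖ * U (ex θ) ^ 2)) := by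
  rw [← bd_int ht hR D₁ D₂ hU]
  set cl : ℝ → ℝ := fun x => max 0 (min x 1) with hcl
  have hclc : Continuous cl := by fun_prop
  have hcl01 : ∀ x, cl x ∈ Icc (0 : ℝ) 1 := fun x => ⟨le_max_left _ _, max_le zero_le_one (min_le_right _ _)⟩
  have hmem : ∀ p : ℝ × ℝ, ((1 - cl p.1 : ℝ) : ℂ) * ex p.2 ∈ closedBall (0 : ℂ) 1 := by
    intro p
    have := hcl01 p.1
    rw [mem_closedBall_zero_iff, norm_mul, ex_norm, mul_one, Complex.norm_real,
      Real.norm_of_nonneg (by linarith [this.2])]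
    linarith [this.1]
  have hcont : Continuous (Function.uncurry fun (x θ : ℝ) =>
      ‖deriv D₂.B (ex θ)‖ * Wb t D₁ D₂ U (((1 - cl x : ℝ) : ℂ) * ex θ) ^ 2) := by
    refine ((normB_cont D₂).comp continuous_snd).mul (Continuous.pow ?_ 2)
    have h1 : Continuous fun p : ℝ × ℝ => ((1 - cl p.1 : ℝ) : ℂ) * ex p.2 := by
      refine (Complex.continuous_ofReal.comp (continuous_const.sub (hclc.comp continuous_fst))).mul
        (ex_cont.comp continuous_snd)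
    exact (Wb_cont ht hR D₁ D₂ hU).comp_continuous h1 hmem
  have h2 := intervalIntegral.continuous_parametric_intervalIntegral_of_continuous'
    (μ := (volume : Measure ℝ)) hcont (-π) π
  have h3 := (h2.tendsto 0).comp hl
  have e0 : cl 0 = 0 := by simp [hcl]
  simp only [e0, sub_zero, Complex.ofReal_one, one_mul] at h3
  refine h3.congr fun n => ?_
  simp only [Function.comp_apply]
  have e1 : cl (d n) = d n := by
    simp only [hcl]
    rw [min_eq_left (hd1 n).le, max_eq_right (hd0 n).le]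
  rw [e1]
  refine intervalIntegral.integral_congr fun θ _ => ?_
  beta_reduce
  rw [dil_apply, Wb_in D₁ D₂ ht (hU.mono ball_subset_closedBall)]
  refine dil_mem (hd0 n) (hd1 n) ?_
  rw [mem_ball_zero_iff, ex_norm]
  exact one_lt_inv' (hd0 n) (hd1 n)

end

end Pool.Agent.W794.Fib
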