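import Pool.Agent.W794.Fib3
import Pool.Agent.Helper859.Stk.L01

set_option autoImplicit false
set_option linter.all false

open Metric Set Filter Topology MeasureTheory
open scoped ENNReal
open Pool.Agent.Helper859.Stk

namespace Pool.Agent.W794.Fib

theorem bd_nonsing {R : ℝ} (hR : 1729 < R) {w₀ : ℂ} (hw₀ : ‖w₀‖ = 1) :
    (R : ℂ) * w₀ + Complex.I ≠ 0 ∧ (R : ℂ) * w₀ + Complex.I ≠ 1728 := by
  have h1 : R - 1 ≤ ‖(R : ℂ) * w₀ + Complex.I‖ := by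
    have h2 : ‖(R : ℂ) * w₀‖ = R := by
      rw [norm_mul, hw₀, mul_one, Complex.norm_real, Real.norm_of_nonneg (by linarith)]
    have h3 := norm_sub_norm_le ((R : ℂ) * w₀) (-Complex.I)
    rw [norm_neg, Complex.norm_I, h2, sub_neg_eq_add] at h3
    exact h3
  constructor
  · intro h
    rw [h, norm_zero] at h1
    linarith
  · intro h
    rw [h] at h1
    norm_num at h1
    linarith

theorem bd_ev {R : ℝ} (hR : 1729 < R) {w₀ : ℂ} (hw₀ : ‖w₀‖ = 1) :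
    ∀ᶠ w in 𝓝 w₀, (R : ℂ) * w + Complex.I ≠ 0 ∧ (R : ℂ) * w + Complex.I ≠ 1728 := by
  obtain ⟨h1, h2⟩ := bd_nonsing hR hw₀
  have hc : Continuous fun w : ℂ => (R : ℂ) * w + Complex.I := by fun_prop
  exact (hc.continuousAt.eventually_ne h1).and (hc.continuousAt.eventually_ne h2)

/-- completeness on the circle -/
theorem complete_bd {s : ℂ} (hs : s ^ 2 = -7) {R : ℝ} (hR : 1729 < R)
    (D : Dat (fun x => pS s x - Complex.I) R) {w₀ : ℂ} (hw₀ : ‖w₀‖ = 1) {b : Fin 7 → ℂ → ℂ}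
    (hb : Secs D.B w₀ b) {ζ : ℂ} (hζ : ‖ζ‖ = 1) (hB : D.B ζ = w₀) : ∃ i, ζ = b i w₀ := by
  have hR0 : 0 < R := by linarith
  by_contra hcon
  push Not at hcon
  obtain ⟨b', h1, h2, h3, h4⟩ := local_inv' D.dB D.B1 D.Bo (ζ := ζ) (w := w₀)
    (by rw [mem_closedBall_zero_iff]; exact hζ.le) hB (D.B'0 ζ (by simpa using hζ))
  have hne : ∀ᶠ w in 𝓝 w₀, ∀ i, b' w ≠ b i w := by
    rw [Filter.eventually_all]
    intro i
    exact (h1.continuousAt.ne_iff_eventually_ne (hb.an i).continuousAt).1 (by rw [h2]; exact hcon i)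
  have hcl : w₀ ∈ closure (ball (0 : ℂ) 1) := by
    rw [closure_ball _ one_ne_zero]
    simpa using hw₀.le
  obtain ⟨v, ⟨⟨hv1, hv2⟩, ⟨hv3, hv4⟩, hv5, hv6⟩, hv7⟩ := mem_closure_iff_nhds.1 hcl _
    ((h3.and hb.right).and ((bd_ev hR hw₀).and (hne.and hb.ev_inj)))
  have hv8 : ‖v‖ < 1 := mem_ball_zero_iff.1 hv7
  obtain ⟨i, hi⟩ := complete hs hR0 D hv3 hv4 (fun i => ⟨(hv2 i).2.2 hv8, (hv2 i).1⟩) hv6
    (mem_ball_zero_iff.2 (hv1.2.2 hv8)) hv1.1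
  exact hv5 i hi

section
variable {t : ℂ} (ht : t ^ 2 = -7) {R : ℝ} (hR : 1729 < R)
    (D₁ : Dat (fun x => pS t x - Complex.I) R) (D₂ : Dat (fun x => pS (-t) x - Complex.I) R)

include ht hR in
/-- boundary limits of the transplanted function -/
theorem W_bd_lim {U : ℂ → ℝ} (hU : ContinuousOn U (closedBall (0 : ℂ) 1)) {w₀ : ℂ} (hw₀ : ‖w₀‖ = 1)
    {b c : Fin 7 → ℂ → ℂ} (hb : Secs D₁.B w₀ b) (hc : Secs D₂.B w₀ c) {O : Fin 7 → Fin 7 → ℝ}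
    (hO : ∀ᶠ w in 𝓝 w₀, ‖w‖ < 1 → ∀ (U : ℂ → ℝ) k, W t D₁ D₂ U (c k w) = ∑ i, O i k * U (b i w))
    (k : Fin 7) :
    Tendsto (W t D₁ D₂ U) (𝓝[ball (0 : ℂ) 1] (c k w₀)) (𝓝 (∑ i, O i k * U (b i w₀))) := by
  have hR0 : 0 < R := by linarith
  have hck : c k w₀ ∈ closedBall (0 : ℂ) 1 := hc.cl k
  have hck3 : c k w₀ ∈ ball (0 : ℂ) (3 / 2) := closedBall_subset_ball (by norm_num) hck
  have hBc : ContinuousAt D₂.B (c k w₀) :=
    (D₂.dB.analyticAt (isOpen_ball.mem_nhds hck3)).continuousAt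
  have hBt : Tendsto D₂.B (𝓝[ball (0 : ℂ) 1] (c k w₀)) (𝓝 w₀) := by
    have := hBc.tendsto
    rw [hc.right0] at this
    exact this.mono_left nhdsWithin_le_nhds
  have hlt : ∀ᶠ z in 𝓝[ball (0 : ℂ) 1] (c k w₀), ‖D₂.B z‖ < 1 := by
    filter_upwards [self_mem_nhdsWithin] with z hz
    exact normB_lt hR0 D₂ hz
  have hleft : ∀ᶠ z in 𝓝[ball (0 : ℂ) 1] (c k w₀), c k (D₂.B z) = z :=
    (hc.left k).filter_mono nhdsWithin_le_nhds
  have hev : W t D₁ D₂ U =ᶠ[𝓝[ball (0 : ℂ) 1] (c k w₀)] fun z => ∑ i, O i k * U (b i (D₂.B z)) := by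
    filter_upwards [hlt, hleft, hBt.eventually hO] with z hz1 hz2 hz3
    have := hz3 hz1 U k
    rwa [hz2] at this
  refine Tendsto.congr' hev.symm ?_
  refine tendsto_finsetSum _ fun i _ => Tendsto.const_mul _ ?_
  have hbi : ContinuousWithinAt U (closedBall (0 : ℂ) 1) (b i w₀) := hU _ (hb.cl i)
  refine hbi.tendsto.comp ?_
  rw [tendsto_nhdsWithin_iff]
  refine ⟨(hb.an i).continuousAt.tendsto.comp hBt, ?_⟩
  filter_upwards [hlt, hBt.eventually hb.right] with z hz1 hz2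
  exact ball_subset_closedBall (mem_ball_zero_iff.2 ((hz2 i).2.2 hz1))

/-- the boundary values -/
noncomputable def Wb (t : ℂ) {R : ℝ} {p₁ p₂ : ℂ → ℂ} (D₁ : Dat p₁ R) (D₂ : Dat p₂ R) (U : ℂ → ℝ) :
    ℂ → ℝ := extendFrom (ball (0 : ℂ) 1) (W t D₁ D₂ U)

include ht hR in
theorem Wb_bd {U : ℂ → ℝ} (hU : ContinuousOn U (closedBall (0 : ℂ) 1)) {w₀ : ℂ} (hw₀ : ‖w₀‖ = 1)
    {b c : Fin 7 → ℂ → ℂ} (hb : Secs D₁.B w₀ b) (hc : Secs D₂.B w₀ c) {O : Fin 7 → Fin 7 → ℝ}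
    (hO : ∀ᶠ w in 𝓝 w₀, ‖w‖ < 1 → ∀ (U : ℂ → ℝ) k, W t D₁ D₂ U (c k w) = ∑ i, O i k * U (b i w))
    (k : Fin 7) : Wb t D₁ D₂ U (c k w₀) = ∑ i, O i k * U (b i w₀) := by
  refine extendFrom_eq ?_ (W_bd_lim ht hR D₁ D₂ hU hw₀ hb hc hO k)
  rw [closure_ball _ one_ne_zero]
  exact hc.cl k

theorem Wb_in (ht : t ^ 2 = -7) {U : ℂ → ℝ} (hU : ContinuousOn U (ball (0 : ℂ) 1)) {z : ℂ}
    (hz : z ∈ ball (0 : ℂ) 1) : Wb t D₁ D₂ U z = W t D₁ D₂ U z := by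
  refine extendFrom_eq (subset_closure hz) ?_
  exact (W_cont ht D₁ D₂ hU z hz).tendsto

include ht hR in
theorem Wb_cont {U : ℂ → ℝ} (hU : ContinuousOn U (closedBall (0 : ℂ) 1)) :
    ContinuousOn (Wb t D₁ D₂ U) (closedBall (0 : ℂ) 1) := by
  have hR0 : 0 < R := by linarith
  have ht' : (-t) ^ 2 = -7 := by rw [neg_sq]; exact ht
  refine continuousOn_extendFrom (by rw [closure_ball _ one_ne_zero]) fun z hz => ?_
  rcases (mem_closedBall_zero_iff.1 hz).eq_or_lt with h | h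
  · have hw : ‖D₂.B z‖ = 1 := D₂.B1 z (by simpa using h)
    obtain ⟨b, hb⟩ := exists_secs ht hR0 D₁ (Or.inl hw : Reg R (D₂.B z))
    obtain ⟨c, hc⟩ := exists_secs ht' hR0 D₂ (Or.inl hw : Reg R (D₂.B z))
    obtain ⟨O, hO, hO'⟩ := W_fib ht hR0 D₁ D₂ hw.le hb hc
    obtain ⟨k, hk⟩ := complete_bd ht' hR D₂ hw hc h rfl
    have := W_bd_lim ht hR D₁ D₂ hU hw hb hc hO' k
    rw [← hk] at this
    exact ⟨_, this⟩
  · exact ⟨_, (W_cont ht D₁ D₂ (hU.mono ball_subset_closedBall) z (mem_ball_zero_iff.2 h)).tendsto⟩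

include ht hR in
/-- sum of squares over the fibre on the circle -/
theorem Wb_sum {U : ℂ → ℝ} (hU : ContinuousOn U (closedBall (0 : ℂ) 1)) {w₀ : ℂ} (hw₀ : ‖w₀‖ = 1)
    {b c : Fin 7 → ℂ → ℂ} (hb : Secs D₁.B w₀ b) (hc : Secs D₂.B w₀ c) :
    ∑ k, Wb t D₁ D₂ U (c k w₀) ^ 2 = ∑ i, U (b i w₀) ^ 2 := by
  have hR0 : 0 < R := by linarith
  obtain ⟨O, hO, hO'⟩ := W_fib ht hR0 D₁ D₂ hw₀.le hb hc
  simp only [Wb_bd ht hR D₁ D₂ hU hw₀ hb hc hO']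
  exact orth_sum hO _

end

/-- sum over the fibre on the circle -/
theorem fibre_tsum_bd {s : ℂ} (hs : s ^ 2 = -7) {R : ℝ} (hR : 1729 < R)
    (D : Dat (fun x => pS s x - Complex.I) R) {w : ℂ} (hw : ‖w‖ = 1) {b : Fin 7 → ℂ → ℂ}
    (hb : Secs D.B w b) (f : ℂ → ℝ≥0∞) :
    ∑' z : {z : ℂ // ‖z‖ = 1 ∧ D.B z = w}, f z = ∑ i, f (b i w) := by
  have hR0 : 0 < R := by linarith
  have hb1 : ∀ i, ‖b i w‖ = 1 ∧ D.B (b i w) = w := by
    intro i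
    refine ⟨?_, hb.right0 i⟩
    rcases (mem_closedBall_zero_iff.1 (hb.cl i)).eq_or_lt with h | h
    · exact h
    · have := normB_lt hR0 D (mem_ball_zero_iff.2 h)
      rw [hb.right0, hw] at this
      exact absurd this (lt_irrefl _)
  let e : Fin 7 → {z : ℂ // ‖z‖ = 1 ∧ D.B z = w} := fun i => ⟨b i w, hb1 i⟩
  have he : Function.Bijective e := by
    constructor
    · intro i j hij
      exact hb.inj (congrArg Subtype.val hij)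
    · rintro ⟨z, hz, hzw⟩
      obtain ⟨i, hi⟩ := complete_bd hs hR D hw hb hz hzw
      exact ⟨i, Subtype.ext hi.symm⟩
  rw [← (Equiv.ofBijective e he).tsum_eq (fun z : {z : ℂ // ‖z‖ = 1 ∧ D.B z = w} => f z), tsum_fintype]
  rfl

end Pool.Agent.W794.Fib
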