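import Pool.Agent.W794.Bd1

set_option autoImplicit false
set_option linter.all false

open Metric Set Filter Topology MeasureTheory
open scoped ENNReal Real
open Pool.Agent.Helper859.Stk

namespace Pool.Agent.W794.Fib

/-- the circle -/
noncomputable def ex (θ : ℝ) : ℂ := Complex.exp (θ * Complex.I)

theorem ex_norm (θ : ℝ) : ‖ex θ‖ = 1 := Complex.norm_exp_ofReal_mul_I θ

theorem ex_cont : Continuous ex := by unfold ex; fun_prop

theorem ex_sphere (θ : ℝ) : ex θ ∈ sphere (0 : ℂ) 1 := by simpa using ex_norm θ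

theorem ex_inj {θ θ' : ℝ} (h : θ ∈ Ioc (-π) π) (h' : θ' ∈ Ioc (-π) π) (he : ex θ = ex θ') : θ = θ' := by
  have h1 := Complex.arg_exp_mul_I θ
  have h2 := Complex.arg_exp_mul_I θ'
  have h3 : Complex.arg (ex θ) = θ := by
    unfold ex
    rw [Complex.exp_mul_I, Complex.arg_cos_add_sin_mul_I h]
  have h4 : Complex.arg (ex θ') = θ' := by
    unfold ex
    rw [Complex.exp_mul_I, Complex.arg_cos_add_sin_mul_I h']
  rw [← h3, ← h4, he]

theorem ex_arg {z : ℂ} (hz : ‖z‖ = 1) : ex (Complex.arg z) = z := by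
  have := Complex.norm_mul_exp_arg_mul_I z
  rw [hz] at this
  simpa [ex] using this

theorem arg_ex {θ : ℝ} (h : θ ∈ Ioc (-π) π) : Complex.arg (ex θ) = θ := by
  unfold ex
  rw [Complex.exp_mul_I, Complex.arg_cos_add_sin_mul_I h]

theorem ex_deriv (θ : ℝ) : HasDerivAt ex (ex θ * Complex.I) θ := by
  have h1 : HasDerivAt (fun θ : ℝ => (θ : ℂ) * Complex.I) Complex.I θ := by
    simpa using (Complex.ofRealCLM.hasDerivAt (x := θ)).mul_const Complex.I
  exact h1.cexp

/-- change of variables on the circle -/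
theorem circ {s : ℂ} (hs : s ^ 2 = -7) {R : ℝ} (hR : 1729 < R)
    (D : Dat (fun x => pS s x - Complex.I) R) {f : ℂ → ℝ≥0∞} (hf : Measurable fun θ : ℝ => f (ex θ)) :
    ∫⁻ θ in Ioc (-π) π, ENNReal.ofReal ‖deriv D.B (ex θ)‖ * f (ex θ) =
      ∫⁻ x in Ioo (-π) π, ∑' z : {z : ℂ // ‖z‖ = 1 ∧ D.B z = ex x}, f z := by
  have hR0 : 0 < R := by linarith
  have hsp : ∀ θ, ex θ ∈ ball (0 : ℂ) (3 / 2) := fun θ =>
    closedBall_subset_ball (by norm_num) (sphere_subset_closedBall (ex_sphere θ))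
  have hBd : ∀ θ, HasDerivAt D.B (deriv D.B (ex θ)) (ex θ) := fun θ =>
    (D.dB.differentiableAt (isOpen_ball.mem_nhds (hsp θ))).hasDerivAt
  have hBc : Continuous fun θ => D.B (ex θ) :=
    D.dB.continuousOn.comp_continuous ex_cont hsp
  have hB1 : ∀ θ, ‖D.B (ex θ)‖ = 1 := fun θ => D.B1 _ (ex_sphere θ)
  have hlog : ∀ θ, ex θ * deriv D.B (ex θ) = (‖deriv D.B (ex θ)‖ : ℂ) * D.B (ex θ) := by
    intro θ
    exact L01.logJ (ex_norm θ) (hBd θ) (fun z hz => (normB_lt hR0 D (mem_ball_zero_iff.2 hz)).le)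
      (fun z hz => D.B1 z (by simpa using hz))
  set S : Set ℝ := {θ | θ ∈ Ioc (-π) π ∧ D.B (ex θ) ∈ Complex.slitPlane} with hS
  have hSm : MeasurableSet S := by
    have : S = Ioc (-π) π ∩ (fun θ => D.B (ex θ)) ⁻¹' Complex.slitPlane := rfl
    rw [this]
    exact measurableSet_Ioc.inter (Complex.isOpen_slitPlane.preimage hBc).measurableSet
  set P : ℝ → ℝ := fun θ => Complex.arg (D.B (ex θ)) with hP
  have hPd : ∀ θ ∈ S, HasDerivAt P ‖deriv D.B (ex θ)‖ θ := by
    intro θ hθ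
    have h1 : HasDerivAt (fun θ => D.B (ex θ)) (deriv D.B (ex θ) * (ex θ * Complex.I)) θ :=
      (hBd θ).comp θ (ex_deriv θ)
    have h2 := h1.clog_real hθ.2
    have h3 : deriv D.B (ex θ) * (ex θ * Complex.I) / D.B (ex θ) =
        (‖deriv D.B (ex θ)‖ : ℂ) * Complex.I := by
      have : D.B (ex θ) ≠ 0 := Complex.slitPlane_ne_zero hθ.2
      rw [div_eq_iff this]
      linear_combination Complex.I * hlog θ
    rw [h3] at h2
    have h4 := Complex.imCLM.hasFDerivAt.comp_hasDerivAt θ h2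
    have h5 : Complex.imCLM ((‖deriv D.B (ex θ)‖ : ℂ) * Complex.I) = ‖deriv D.B (ex θ)‖ := by simp
    rw [h5] at h4
    refine h4.congr_of_eventuallyEq (Filter.Eventually.of_forall fun θ => ?_)
    simp [hP, Complex.log_im]
  have harea := AF.area (volume : Measure ℝ) (P := P)
    (P' := fun θ => ContinuousLinearMap.toSpanSingleton ℝ ‖deriv D.B (ex θ)‖) (s := S) hSm
    (fun θ hθ => (hPd θ hθ).hasFDerivAt.hasFDerivWithinAt) (fun θ hθ => by
      rw [ContinuousLinearMap.det_toSpanSingleton]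
      exact norm_ne_zero_iff.2 (D.B'0 _ (ex_sphere θ))) hf
  have e1 : ∫⁻ θ in S, ENNReal.ofReal |(ContinuousLinearMap.toSpanSingleton ℝ
      ‖deriv D.B (ex θ)‖).det| * f (ex θ) =
      ∫⁻ θ in Ioc (-π) π, ENNReal.ofReal ‖deriv D.B (ex θ)‖ * f (ex θ) := by
    have hae : S =ᵐ[volume] Ioc (-π) π := by
      rw [ae_eq_set]
      constructor
      · have : S \ Ioc (-π) π = ∅ := by
          rw [Set.sdiff_eq_empty]
          exact fun θ hθ => hθ.1
        rw [this]; exact measure_empty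
      · refine Set.Finite.measure_zero ?_ _
        obtain ⟨b, hb⟩ := exists_secs hs hR0 D (Or.inl (by simp) : Reg R (-1))
        refine Set.Finite.of_finite_image (f := ex) ((Set.finite_range (fun i => b i (-1))).subset ?_) ?_
        · rintro _ ⟨θ, ⟨hθ1, hθ2⟩, rfl⟩
          have h1 : D.B (ex θ) = -1 := by
            have h2 : D.B (ex θ) ∉ Complex.slitPlane := fun h => hθ2 ⟨hθ1, h⟩
            rw [Complex.mem_slitPlane_iff, not_or, not_not, not_lt] at h2
            have h3 := hB1 θ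
            have h4 : (D.B (ex θ)).re ^ 2 = 1 := by
              have := Complex.sq_norm (D.B (ex θ))
              rw [h3, Complex.normSq_apply, h2.2] at this
              linarith
            have h5 : (D.B (ex θ)).re = -1 := by nlinarith [h2.1]
            apply Complex.ext
            · simpa using h5
            · simpa using h2.2
          obtain ⟨i, hi⟩ := complete_bd hs hR D (by simp) hb (ex_norm θ) h1
          exact ⟨i, hi.symm⟩
        · intro θ hθ θ' hθ' h
          exact ex_inj hθ.1 hθ'.1 h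
    rw [setLIntegral_congr hae]
    refine lintegral_congr fun θ => ?_
    rw [ContinuousLinearMap.det_toSpanSingleton, abs_of_nonneg (norm_nonneg _)]
  rw [← e1, harea, ← lintegral_indicator measurableSet_Ioo]
  refine lintegral_congr fun x => ?_
  by_cases hx : x ∈ Ioo (-π) π
  · rw [indicator_of_mem hx]
    have hxs : ex x ∈ Complex.slitPlane := by
      rw [Complex.mem_slitPlane_iff_arg]
      refine ⟨?_, ?_⟩
      · rw [arg_ex ⟨hx.1, hx.2.le⟩]; exact hx.2.ne
      · rw [← norm_ne_zero_iff, ex_norm]; exact one_ne_zero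
    let e : {θ // θ ∈ S ∧ P θ = x} ≃ {z : ℂ // ‖z‖ = 1 ∧ D.B z = ex x} :=
      { toFun := fun θ => ⟨ex θ.1, ex_norm _, by
          have hθx : Complex.arg (D.B (ex θ.1)) = x := θ.2.2
          have := ex_arg (hB1 θ.1)
          rw [hθx] at this
          exact this.symm⟩
        invFun := fun z => ⟨Complex.arg z.1, ⟨⟨Complex.neg_pi_lt_arg _, Complex.arg_le_pi _⟩, by
            rw [ex_arg z.2.1, z.2.2]; exact hxs⟩, by
          simp only [hP]
          rw [ex_arg z.2.1, z.2.2, arg_ex ⟨hx.1, hx.2.le⟩]⟩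
        left_inv := fun θ => by
          apply Subtype.ext
          exact arg_ex θ.2.1.1
        right_inv := fun z => by
          apply Subtype.ext
          exact ex_arg z.2.1 }
    rw [← e.tsum_eq (fun z : {z : ℂ // ‖z‖ = 1 ∧ D.B z = ex x} => f z)]
    rfl
  · rw [indicator_of_notMem hx]
    have : IsEmpty {θ // θ ∈ S ∧ P θ = x} := by
      refine ⟨fun θ => hx ?_⟩
      obtain ⟨θ, hθ, rfl⟩ := θ
      have h1 := Complex.mem_slitPlane_iff_arg.1 hθ.2
      exact ⟨Complex.neg_pi_lt_arg _, lt_of_le_of_ne (Complex.arg_le_pi _) h1.1⟩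
    rw [tsum_empty]

section
variable {t : ℂ} (ht : t ^ 2 = -7) {R : ℝ} (hR : 1729 < R)
    (D₁ : Dat (fun x => pS t x - Complex.I) R) (D₂ : Dat (fun x => pS (-t) x - Complex.I) R)

include ht hR in
/-- The transplantation preserves the boundary norm. -/
theorem bd_eq {U : ℂ → ℝ} (hU : ContinuousOn U (closedBall (0 : ℂ) 1)) :
    ∫⁻ θ in Ioc (-π) π, ENNReal.ofReal ‖deriv D₂.B (ex θ)‖ *
        ENNReal.ofReal (Wb t D₁ D₂ U (ex θ) ^ 2) =
      ∫⁻ θ in Ioc (-π) π, ENNReal.ofReal ‖deriv D₁.B (ex θ)‖ * ENNReal.ofReal (U (ex θ) ^ 2) := by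
  have ht' : (-t) ^ 2 = -7 := by rw [neg_sq]; exact ht
  have hR0 : 0 < R := by linarith
  have hcl : ∀ θ, ex θ ∈ closedBall (0 : ℂ) 1 := fun θ => sphere_subset_closedBall (ex_sphere θ)
  rw [circ ht' hR D₂ (f := fun z => ENNReal.ofReal (Wb t D₁ D₂ U z ^ 2))
    (((Wb_cont ht hR D₁ D₂ hU).comp_continuous ex_cont hcl).pow 2).measurable.ennreal_ofReal,
    circ ht hR D₁ (f := fun z => ENNReal.ofReal (U z ^ 2))
    ((hU.comp_continuous ex_cont hcl).pow 2).measurable.ennreal_ofReal]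
  refine lintegral_congr fun x => ?_
  obtain ⟨b, hb⟩ := exists_secs ht hR0 D₁ (Or.inl (ex_norm x) : Reg R (ex x))
  obtain ⟨c, hc⟩ := exists_secs ht' hR0 D₂ (Or.inl (ex_norm x) : Reg R (ex x))
  rw [fibre_tsum_bd ht' hR D₂ (ex_norm x) hc (fun z => ENNReal.ofReal (Wb t D₁ D₂ U z ^ 2)),
    fibre_tsum_bd ht hR D₁ (ex_norm x) hb (fun z => ENNReal.ofReal (U z ^ 2)),
    ← ENNReal.ofReal_sum_of_nonneg (fun _ _ => by positivity),
    ← ENNReal.ofReal_sum_of_nonneg (fun _ _ => by positivity),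
    Wb_sum ht hR D₁ D₂ hU (ex_norm x) hb hc]

end

end Pool.Agent.W794.Fib
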