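import Pool.Agent.W794.BkDef

open MeasureTheory Set
open scoped ENNReal ContDiff Topology

namespace Pool.Agent.W794.Bk

/-- directional derivative -/
noncomputable def D (v : E2) (u : E2 → ℝ) (x : E2) : ℝ := fderiv ℝ u x v

theorem IsTest.D {U : Set E2} {u : E2 → ℝ} (h : IsTest U u) (v : E2) : IsTest U (D v u) := by
  have h1 : tsupport (Bk.D v u) ⊆ tsupport u := by
    have : tsupport (Bk.D v u) ⊆ tsupport (fderiv ℝ u) := by
      apply closure_mono
      intro x hx h0
      apply hx
      simp only [Bk.D]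
      rw [h0]; rfl
    exact this.trans (tsupport_fderiv_subset ℝ)
  refine ⟨?_, ?_, h1.trans h.supp⟩
  · have : ContDiff ℝ ∞ (fderiv ℝ u) := h.smooth.fderiv_right (by norm_cast)
    exact this.clm_apply contDiff_const
  · exact h.cpt.of_isClosed_subset (isClosed_tsupport _) h1

theorem IsTest.mul {U : Set E2} {u v : E2 → ℝ} (h : IsTest U u) (hv : ContDiff ℝ ∞ v) :
    IsTest U (fun x => u x * v x) := by
  refine ⟨h.smooth.mul hv, h.cpt.mul_right, ?_⟩
  exact (tsupport_mul_subset_left).trans h.supp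

theorem IsTest.add {U : Set E2} {u v : E2 → ℝ} (h : IsTest U u) (hv : IsTest U v) :
    IsTest U (fun x => u x + v x) := by
  refine ⟨h.smooth.add hv.smooth, h.cpt.add hv.cpt, ?_⟩
  exact (tsupport_add u v).trans (union_subset h.supp hv.supp)

theorem IsTest.smul {U : Set E2} {u : E2 → ℝ} (h : IsTest U u) (c : ℝ) :
    IsTest U (fun x => c * u x) := by
  have := h.mul (contDiff_const (c := c))
  simpa [mul_comm] using this

theorem IsTest.integrable {U : Set E2} {u : E2 → ℝ} (h : IsTest U u) : Integrable u :=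
  h.smooth.continuous.integrable_of_hasCompactSupport h.cpt

theorem D_mul {u v : E2 → ℝ} (hu : ContDiff ℝ ∞ u) (hv : ContDiff ℝ ∞ v) (w x : E2) :
    D w (fun x => u x * v x) x = D w u x * v x + u x * D w v x := by
  unfold D
  rw [fderiv_fun_mul (hu.differentiable (by simp) x) (hv.differentiable (by simp) x)]
  simp; ring

theorem D_add {u v : E2 → ℝ} (hu : ContDiff ℝ ∞ u) (hv : ContDiff ℝ ∞ v) (w x : E2) :
    D w (fun x => u x + v x) x = D w u x + D w v x := by
  unfold D
  rw [fderiv_fun_add (hu.differentiable (by simp) x) (hv.differentiable (by simp) x)]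
  simp

theorem D_comm {u : E2 → ℝ} (hu : ContDiff ℝ ∞ u) (v w x : E2) :
    D v (D w u) x = D w (D v u) x := by
  have h2 : ContDiffAt ℝ 2 u x := (hu.of_le (by norm_cast)).contDiffAt
  have hs : IsSymmSndFDerivAt ℝ u x := by
    apply h2.isSymmSndFDerivAt
    simp [minSmoothness_of_isRCLikeNormedField]
  have hd : DifferentiableAt ℝ (fderiv ℝ u) x :=
    ((hu.fderiv_right (m := ∞) (by norm_cast)).differentiable (by simp)) x
  have e1 : ∀ a b : E2, D a (D b u) x = fderiv ℝ (fderiv ℝ u) x a b := by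
    intro a b
    unfold D
    rw [fderiv_clm_apply hd (differentiableAt_const _)]
    simp
  rw [e1, e1]
  exact hs v w

/-- an affine orthonormal frame -/
structure Frame where
  e : E2
  f : E2
  c : ℝ
  d : ℝ
  he : ‖e‖ = 1
  hf : ‖f‖ = 1
  hef : inner ℝ e f = 0

namespace Frame
variable (F : Frame)

noncomputable def s (x : E2) : ℝ := inner ℝ F.e x + F.c
noncomputable def z (x : E2) : ℝ := inner ℝ F.f x + F.d
/-- the half-plane `s > 0` -/
def U : Set E2 := {x | 0 < F.s x}
/-- the power `s^a` -/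
noncomputable def P (a : ℝ) (x : E2) : ℝ := (F.s x) ^ a

theorem s_smooth : ContDiff ℝ ∞ F.s :=
  ((innerSL ℝ F.e).contDiff).add contDiff_const

theorem z_smooth : ContDiff ℝ ∞ F.z :=
  ((innerSL ℝ F.f).contDiff).add contDiff_const

theorem hfe : inner ℝ F.f F.e = 0 := by rw [real_inner_comm]; exact F.hef

theorem s_deriv (x : E2) : HasFDerivAt F.s (innerSL ℝ F.e) x := by
  unfold s
  exact ((innerSL ℝ F.e).hasFDerivAt).add_const _

theorem z_deriv (x : E2) : HasFDerivAt F.z (innerSL ℝ F.f) x := by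
  unfold z
  exact ((innerSL ℝ F.f).hasFDerivAt).add_const _

theorem P_deriv (a : ℝ) {x : E2} (hx : x ∈ F.U) :
    HasFDerivAt (F.P a) ((a * F.P (a - 1) x) • innerSL ℝ F.e) x := by
  unfold P
  have := (F.s_deriv x).rpow_const (p := a) (Or.inl (ne_of_gt hx))
  exact this

theorem P_cont (a : ℝ) {x : E2} (hx : x ∈ F.U) : ContinuousAt (F.P a) x :=
  (F.P_deriv a hx).continuousAt

theorem P_smooth (a : ℝ) {x : E2} (hx : x ∈ F.U) : ContDiffAt ℝ ∞ (F.P a) x := by
  unfold P
  exact (F.s_smooth.contDiffAt).rpow_const_of_ne (ne_of_gt hx)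

theorem cont_mul {P G : E2 → ℝ} (hG : Continuous G) (hP : ∀ x ∈ tsupport G, ContinuousAt P x) :
    Continuous (fun x => P x * G x) := by
  rw [continuous_iff_continuousAt]
  intro x
  by_cases hx : x ∈ tsupport G
  · exact (hP x hx).mul hG.continuousAt
  · have h0 : G =ᶠ[𝓝 x] 0 := notMem_tsupport_iff_eventuallyEq.1 hx
    have : (fun x => P x * G x) =ᶠ[𝓝 x] fun _ => (0:ℝ) := by
      filter_upwards [h0] with y hy
      simp [hy]
    exact (continuousAt_congr this).2 continuousAt_const

theorem int {G : E2 → ℝ} (hG : IsTest F.U G) (a : ℝ) : Integrable (fun x => F.P a x * G x) := by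
  apply (cont_mul hG.smooth.continuous
    (fun x hx => F.P_cont a (hG.supp hx))).integrable_of_hasCompactSupport
  exact hG.cpt.mul_left

/-- integration by parts in the direction `e` -/
theorem ibp {G : E2 → ℝ} (hG : IsTest F.U G) (a : ℝ) :
    ∫ x, F.P a x * D F.e G x = - a * ∫ x, F.P (a - 1) x * G x := by
  have hd : ∀ x ∈ F.U, fderiv ℝ (F.P a) x F.e = a * F.P (a - 1) x := by
    intro x hx
    rw [(F.P_deriv a hx).fderiv]
    simp [F.he]
  have key : (fun x => fderiv ℝ (F.P a) x F.e * G x) = fun x => a * (F.P (a - 1) x * G x) := by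
    funext x
    by_cases hx : x ∈ tsupport G
    · rw [hd x (hG.supp hx)]; ring
    · rw [image_eq_zero_of_notMem_tsupport hx]; simp
  have h := integral_mul_fderiv_eq_neg_fderiv_mul_of_integrable (μ := volume) (f := F.P a) (g := G)
    (v := F.e) (by rw [key]; exact (F.int hG (a - 1)).const_mul a)
    (F.int (hG.D F.e) a) (F.int hG a)
    (fun x hx => (F.P_deriv a (hG.supp hx)).differentiableAt)
    (fun x _ => hG.smooth.differentiable (by simp) x)
  calc ∫ x, F.P a x * D F.e G x = - ∫ x, fderiv ℝ (F.P a) x F.e * G x := h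
    _ = _ := by
      rw [key, integral_const_mul]; ring

/-- integration by parts in the direction `f` -/
theorem ibpz {G : E2 → ℝ} (hG : IsTest F.U G) (a : ℝ) :
    ∫ x, F.P a x * D F.f G x = 0 := by
  have hd : ∀ x ∈ F.U, fderiv ℝ (F.P a) x F.f = 0 := by
    intro x hx
    rw [(F.P_deriv a hx).fderiv]
    simp [F.hef]
  have key : (fun x => fderiv ℝ (F.P a) x F.f * G x) = fun x => 0 := by
    funext x
    by_cases hx : x ∈ tsupport G
    · rw [hd x (hG.supp hx)]; ring
    · rw [image_eq_zero_of_notMem_tsupport hx]; simp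
  have h := integral_mul_fderiv_eq_neg_fderiv_mul_of_integrable (μ := volume) (f := F.P a) (g := G)
    (v := F.f) (by rw [key]; exact integrable_zero _ _ _)
    (F.int (hG.D F.f) a) (F.int hG a)
    (fun x hx => (F.P_deriv a (hG.supp hx)).differentiableAt)
    (fun x _ => hG.smooth.differentiable (by simp) x)
  calc ∫ x, F.P a x * D F.f G x = - ∫ x, fderiv ℝ (F.P a) x F.f * G x := h
    _ = _ := by
      rw [key]; simp

end Frame

end Pool.Agent.W794.Bk
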