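import Pool.Agent.W794.Bk9

open MeasureTheory Set
open scoped ENNReal ContDiff Topology

namespace Pool.Agent.W794.Bk

theorem sum_single (v : E2) : v = ∑ i, v i • (EuclideanSpace.single i (1:ℝ) : E2) := by
  ext j
  fin_cases j <;> simp [Fin.sum_univ_two]

theorem divg_add {φ ψ : E2 → E2} {x : E2} (hφ : DifferentiableAt ℝ φ x)
    (hψ : DifferentiableAt ℝ ψ x) : divg (fun y => φ y + ψ y) x = divg φ x + divg ψ x := by
  unfold divg
  rw [← Finset.sum_add_distrib]
  apply Finset.sum_congr rfl
  intro i _
  rw [fderiv_fun_add hφ hψ]; rfl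

theorem divg_smul {g : E2 → ℝ} {φ : E2 → E2} {x : E2} (hg : DifferentiableAt ℝ g x)
    (hφ : DifferentiableAt ℝ φ x) :
    divg (fun y => g y • φ y) x = g x * divg φ x + fderiv ℝ g x (φ x) := by
  unfold divg
  have h1 : fderiv ℝ g x (φ x) = ∑ i, (φ x) i * fderiv ℝ g x (EuclideanSpace.single i 1) := by
    conv_lhs => rw [sum_single (φ x)]
    rw [map_sum]
    apply Finset.sum_congr rfl
    intro i _
    rw [map_smul]; rfl
  rw [h1, Finset.mul_sum, ← Finset.sum_add_distrib]
  apply Finset.sum_congr rfl
  intro i _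
  rw [fderiv_fun_smul hg hφ]
  simp
  ring

namespace Frame
variable (F : Frame)

/-- the calibrating field -/
noncomputable def fld (κ R : ℝ) (x : E2) : E2 :=
  (-(1 - κ ^ 2)) • F.e + (κ * (F.z x / (2 * R))) • F.f

theorem fld_smooth (κ R : ℝ) : ContDiff ℝ ∞ (F.fld κ R) := by
  unfold fld
  have := F.z_smooth
  exact contDiff_const.add ((contDiff_const.mul (this.div_const _)).smul contDiff_const)

theorem fld_inner (κ R : ℝ) (x : E2) : inner ℝ F.e (F.fld κ R x) = -(1 - κ ^ 2) := by
  unfold fld
  rw [inner_add_right, inner_smul_right, inner_smul_right, F.hef, real_inner_self_eq_norm_sq, F.he]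
  ring

theorem fld_norm {κ R : ℝ} (hκ : 0 ≤ κ) (hκ1 : κ ≤ 1) (hR : 0 < R) {x : E2}
    (hz : |F.z x| ≤ 2 * R) : ‖F.fld κ R x‖ ≤ 1 := by
  have h1 := F.norm_sq_eq (F.fld κ R x)
  rw [F.fld_inner] at h1
  have h2 : inner ℝ F.f (F.fld κ R x) = κ * (F.z x / (2 * R)) := by
    unfold fld
    rw [inner_add_right, inner_smul_right, inner_smul_right, F.hfe, real_inner_self_eq_norm_sq, F.hf]
    ring
  rw [h2] at h1
  have h3 : (F.z x / (2 * R)) ^ 2 ≤ 1 := by
    have : |F.z x / (2 * R)| ≤ 1 := by
      rw [abs_div, abs_of_pos (by linarith : 0 < 2 * R), div_le_one (by linarith)]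
      exact hz
    rw [← sq_abs]
    have h0 := abs_nonneg (F.z x / (2 * R))
    nlinarith
  have h4 : ‖F.fld κ R x‖ ^ 2 ≤ 1 := by
    rw [h1]
    have : (κ * (F.z x / (2 * R))) ^ 2 ≤ κ ^ 2 := by
      rw [mul_pow]; nlinarith [sq_nonneg κ]
    have h5 : κ ^ 2 ≤ 1 := by nlinarith
    nlinarith [sq_nonneg κ, mul_nonneg (sq_nonneg κ) (by linarith : 0 ≤ 1 - κ ^ 2)]
  have h5 := norm_nonneg (F.fld κ R x)
  nlinarith

theorem fld_div (κ R : ℝ) (x : E2) : divg (F.fld κ R) x = κ / (2 * R) := by
  have hz : DifferentiableAt ℝ (fun y => κ * (F.z y / (2 * R))) x := by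
    have : ContDiff ℝ ∞ (fun y => κ * (F.z y / (2 * R))) :=
      contDiff_const.mul (F.z_smooth.div_const _)
    exact this.differentiable (by simp) x
  have h1 : divg (F.fld κ R) x = divg (fun _ => (-(1 - κ ^ 2)) • F.e) x
      + divg (fun y => (κ * (F.z y / (2 * R))) • F.f) x := by
    apply divg_add (differentiableAt_const _)
    exact hz.smul (differentiableAt_const _)
  rw [h1, divg_smul hz (differentiableAt_const _)]
  have h2 : ∀ v : E2, divg (fun _ => v) x = 0 := by
    intro v; unfold divg; simp
  rw [h2, h2]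
  have h3 : fderiv ℝ (fun y => κ * (F.z y / (2 * R))) x F.f = κ / (2 * R) := by
    have : HasFDerivAt (fun y => κ * (F.z y / (2 * R))) ((κ / (2 * R)) • innerSL ℝ F.f) x := by
      have := (F.z_deriv x).const_mul (κ / (2 * R))
      refine this.congr_of_eventuallyEq ?_
      filter_upwards with y
      ring
    rw [this.fderiv]
    simp [F.hf]
  rw [h3]; ring

end Frame

/-- the transition profile has bounded derivative -/
theorem st_bound : ∃ C : ℝ, 0 < C ∧ ∀ t, deriv Real.smoothTransition t ≤ C := by
  have hs : ContDiff ℝ ∞ Real.smoothTransition := Real.smoothTransition.contDiff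
  have hcn : Continuous (deriv Real.smoothTransition) := hs.continuous_deriv (by simp)
  obtain ⟨C, hC⟩ := isCompact_Icc.exists_bound_of_continuousOn (s := Icc (0:ℝ) 1) hcn.continuousOn
  refine ⟨max 1 C, lt_of_lt_of_le one_pos (le_max_left _ _), ?_⟩
  intro t
  by_cases h : t ∈ Icc (0:ℝ) 1
  · exact (le_abs_self _).trans ((hC t h).trans (le_max_right _ _))
  · rw [mem_Icc, not_and_or, not_le, not_le] at h
    have : deriv Real.smoothTransition t = 0 := by
      rcases h with h | h
      · have : Real.smoothTransition =ᶠ[𝓝 t] fun _ => 0 := by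
          filter_upwards [Iio_mem_nhds h] with y hy
          exact Real.smoothTransition.zero_of_nonpos (le_of_lt hy)
        rw [this.deriv_eq]; simp
      · have : Real.smoothTransition =ᶠ[𝓝 t] fun _ => 1 := by
          filter_upwards [Ioi_mem_nhds h] with y hy
          exact Real.smoothTransition.one_of_one_le (le_of_lt hy)
        rw [this.deriv_eq]; simp
    rw [this]; exact le_trans zero_le_one (le_max_left _ _)

theorem st_deriv_nonneg (t : ℝ) : 0 ≤ deriv Real.smoothTransition t :=
  Real.smoothTransition.monotone.deriv_nonneg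

theorem st_deriv_zero_left {t : ℝ} (h : t ≤ 0) : deriv Real.smoothTransition t = 0 := by
  have hs : ContDiff ℝ ∞ Real.smoothTransition := Real.smoothTransition.contDiff
  have hcn : Continuous (deriv Real.smoothTransition) := hs.continuous_deriv (by simp)
  have hcl : IsClosed {t | deriv Real.smoothTransition t = 0} := isClosed_eq hcn continuous_const
  have hsub : Iio (0:ℝ) ⊆ {t | deriv Real.smoothTransition t = 0} := by
    intro s hs
    have : Real.smoothTransition =ᶠ[𝓝 s] fun _ => 0 := by
      filter_upwards [Iio_mem_nhds hs] with y hy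
      exact Real.smoothTransition.zero_of_nonpos (le_of_lt hy)
    show deriv Real.smoothTransition s = 0
    rw [this.deriv_eq]; simp
  have := closure_minimal hsub hcl
  rw [closure_Iio] at this
  exact this h

theorem st_deriv_zero_right {t : ℝ} (h : 1 ≤ t) : deriv Real.smoothTransition t = 0 := by
  have hs : ContDiff ℝ ∞ Real.smoothTransition := Real.smoothTransition.contDiff
  have hcn : Continuous (deriv Real.smoothTransition) := hs.continuous_deriv (by simp)
  have hcl : IsClosed {t | deriv Real.smoothTransition t = 0} := isClosed_eq hcn continuous_const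
  have hsub : Ioi (1:ℝ) ⊆ {t | deriv Real.smoothTransition t = 0} := by
    intro s hs
    have : Real.smoothTransition =ᶠ[𝓝 s] fun _ => 1 := by
      filter_upwards [Ioi_mem_nhds hs] with y hy
      exact Real.smoothTransition.one_of_one_le (le_of_lt hy)
    show deriv Real.smoothTransition s = 0
    rw [this.deriv_eq]; simp
  have := closure_minimal hsub hcl
  rw [closure_Ioi] at this
  exact this h

theorem divg_cont {ψ : E2 → E2} (h : ContDiff ℝ 1 ψ) : Continuous (divg ψ) := by
  unfold divg
  apply continuous_finsetSum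
  intro i _
  have h1 : Continuous (fderiv ℝ ψ) := h.continuous_fderiv (by simp)
  have h2 : Continuous (fun x => fderiv ℝ ψ x (EuclideanSpace.single i 1)) :=
    h1.clm_apply continuous_const
  exact (EuclideanSpace.proj i).continuous.comp h2

theorem divg_cpt {ψ : E2 → E2} (hc : HasCompactSupport ψ) : HasCompactSupport (divg ψ) := by
  have h1 : HasCompactSupport (fderiv ℝ ψ) := hc.fderiv ℝ
  refine h1.mono ?_
  intro x hx h0
  apply hx
  unfold divg; rw [h0]; simp

theorem divg_int {ψ : E2 → E2} (h : ContDiff ℝ 1 ψ) (hc : HasCompactSupport ψ) :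
    Integrable (divg ψ) :=
  (divg_cont h).integrable_of_hasCompactSupport (divg_cpt hc)

theorem le_perimeter {A : Set E2} {ψ : E2 → E2} (h : ContDiff ℝ 1 ψ) (hc : HasCompactSupport ψ)
    (hn : ∀ x, ‖ψ x‖ ≤ 1) : ENNReal.ofReal (∫ x in A, divg ψ x) ≤ perimeter A := by
  unfold perimeter
  exact le_iSup_of_le ψ (le_iSup_of_le h (le_iSup_of_le hc (le_iSup_of_le hn le_rfl)))

end Pool.Agent.W794.Bk
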