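import Pool.Agent.W794.Bk10

open MeasureTheory Set
open scoped ENNReal ContDiff Topology

namespace Pool.Agent.W794.Bk

namespace Frame
variable (F : Frame)

/-- the transition function `g(n (s - ε))` -/
noncomputable def trn (ε : ℝ) (n : ℝ) (x : E2) : ℝ := Real.smoothTransition (n * (F.s x - ε))

theorem trn_smooth (ε n : ℝ) : ContDiff ℝ ∞ (F.trn ε n) := by
  unfold trn
  have h : ContDiff ℝ ∞ (fun x => n * (F.s x - ε)) :=
    contDiff_const.mul (F.s_smooth.sub contDiff_const)
  exact Real.smoothTransition.contDiff.comp h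

theorem trn_deriv (ε n : ℝ) (x v : E2) :
    fderiv ℝ (F.trn ε n) x v = n * deriv Real.smoothTransition (n * (F.s x - ε)) * inner ℝ F.e v := by
  have h1 : HasFDerivAt (fun x => n * (F.s x - ε)) (n • innerSL ℝ F.e) x :=
    ((F.s_deriv x).sub_const ε).const_mul n
  have hd : Differentiable ℝ Real.smoothTransition :=
    (Real.smoothTransition.contDiff (n := ⊤)).differentiable (by simp)
  have h2 := (hd (n * (F.s x - ε))).hasDerivAt.comp_hasFDerivAt x h1
  have h3 := h2.fderiv
  change (fderiv ℝ (Real.smoothTransition ∘ fun x => n * (F.s x - ε)) x) v = _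
  rw [h3]
  simp only [FunLike.coe_smul, Pi.smul_apply, innerSL_apply_apply, smul_eq_mul]
  ring

theorem inner_s {x0 : E2} (hs0 : F.s x0 = 0) (x : E2) : inner ℝ F.e (x - x0) = F.s x := by
  unfold s at hs0 ⊢
  rw [inner_sub_right]; linarith

theorem inner_z {x0 : E2} (hz0 : F.z x0 = 0) (x : E2) : inner ℝ F.f (x - x0) = F.z x := by
  unfold z at hz0 ⊢
  rw [inner_sub_right]; linarith

theorem norm_cone {x0 : E2} (hs0 : F.s x0 = 0) (hz0 : F.z x0 = 0) {T : ℝ} (hT : 0 ≤ T) {x : E2}
    (h3 : 0 < F.s x) (h4 : |F.z x| ≤ T * F.s x) : ‖x - x0‖ ≤ (1 + T) * F.s x := by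
  have h5 := F.norm_sq_eq (x - x0)
  rw [F.inner_s hs0, F.inner_z hz0] at h5
  have h6 : (F.z x) ^ 2 ≤ (T * F.s x) ^ 2 := by
    rw [← sq_abs (F.z x)]
    exact pow_le_pow_left₀ (abs_nonneg _) h4 2
  have h7 : ‖x - x0‖ ^ 2 ≤ ((1 + T) * F.s x) ^ 2 := by
    rw [h5]
    have := mul_nonneg hT (sq_nonneg (F.s x))
    calc F.s x ^ 2 + F.z x ^ 2 ≤ F.s x ^ 2 + (T * F.s x) ^ 2 := by linarith
      _ ≤ F.s x ^ 2 + (T * F.s x) ^ 2 + 2 * (T * F.s x ^ 2) := by linarith
      _ = _ := by ring
  exact le_of_sq_le_sq h7 (by positivity)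

theorem scale_le {a b c : ℝ} (ha : 0 ≤ a) (ha1 : a ≤ 1) (hb : 0 ≤ b) (hb1 : b ≤ 1) (hc : c = a * b) :
    c ≤ 1 := by
  rw [hc]; exact mul_le_one₀ ha1 hb hb1

theorem tt (κ n g t Cg : ℝ) (hn : 0 ≤ n) (hg : 0 ≤ g) (ht : -1 ≤ t) :
    - (κ ^ 2 * n * g) ≤ n * g * t - n * g * (-(1 - κ ^ 2)) := by
  have h6 : n * g * (-1) ≤ n * g * t := mul_le_mul_of_nonneg_left ht (by positivity)
  calc - (κ ^ 2 * n * g) = n * g * (-1) - n * g * (-(1 - κ ^ 2)) := by ring
    _ ≤ _ := by linarith

theorem per_cut_aux {Ω : Set E2} (ho : IsOpen Ω) {x0 : E2} (hs0 : F.s x0 = 0) (hz0 : F.z x0 = 0)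
    {T : ℝ} (hT : 0 ≤ T) (hΩ : ∀ x ∈ Ω, 0 < F.s x ∧ |F.z x| ≤ T * F.s x)
    {Cg κ ε : ℝ} (hCg0 : 0 < Cg) (hCg : ∀ t, deriv Real.smoothTransition t ≤ Cg)
    (hκ : 0 < κ) (hκ1 : κ ≤ 1) (hε : 0 < ε) {n : ℝ} (hn : 1 < n * ε)
    {φ : E2 → E2} (hφ : ContDiff ℝ 1 φ) (hφc : HasCompactSupport φ) (hφn : ∀ x, ‖φ x‖ ≤ 1) :
    ENNReal.ofReal ((∫ x in Ω, F.trn ε n x * divg φ x)
      + κ / (2 * (2 * (1 + T) * ε)) * (volume (Ω ∩ {x | F.s x < ε})).toReal
      - κ ^ 2 * Cg * (4 * T * ε)) ≤ perimeter Ω := by
  set R := 2 * (1 + T) * ε with hR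
  have hR0 : 0 < R := by positivity
  have hn0 : 0 < n := by
    by_contra h
    push Not at h
    have := mul_nonpos_of_nonpos_of_nonneg h hε.le
    linarith
  let χ : ContDiffBump x0 := ⟨R, 2 * R, hR0, by linarith⟩
  set ψ : E2 → E2 := fun x => F.trn ε n x • φ x + (1 - F.trn ε n x) • (χ x • F.fld κ R x) with hψ
  have ht0 : ∀ x, 0 ≤ F.trn ε n x := fun x => Real.smoothTransition.nonneg _
  have ht1 : ∀ x, F.trn ε n x ≤ 1 := fun x => Real.smoothTransition.le_one _
  have hdist : ∀ x : E2, |F.z x| ≤ ‖x - x0‖ := by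
    intro x
    rw [← F.inner_z hz0]
    have := abs_real_inner_le_norm F.f (x - x0)
    rwa [F.hf, one_mul] at this
  have hw : ∀ x, ‖χ x • F.fld κ R x‖ ≤ 1 := by
    intro x
    rw [norm_smul, Real.norm_eq_abs, abs_of_nonneg χ.nonneg]
    by_cases hx : x ∈ Function.support χ
    · rw [χ.support_eq, Metric.mem_ball, dist_eq_norm] at hx
      have h1 : |F.z x| ≤ 2 * R := (hdist x).trans hx.le
      have h2 := F.fld_norm hκ.le hκ1 hR0 h1
      exact mul_le_one₀ (χ.le_one (x := x)) (norm_nonneg _) h2
    · rw [Function.notMem_support] at hx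
      rw [hx]; simp
  have hψn : ∀ x, ‖ψ x‖ ≤ 1 := by
    intro x
    calc ‖ψ x‖ ≤ ‖F.trn ε n x • φ x‖ + ‖(1 - F.trn ε n x) • (χ x • F.fld κ R x)‖ := norm_add_le _ _
      _ = F.trn ε n x * ‖φ x‖ + (1 - F.trn ε n x) * ‖χ x • F.fld κ R x‖ := by
        rw [norm_smul, norm_smul, Real.norm_eq_abs, Real.norm_eq_abs, abs_of_nonneg (ht0 x),
          abs_of_nonneg (by linarith [ht1 x])]
      _ ≤ F.trn ε n x * 1 + (1 - F.trn ε n x) * 1 := by
        apply add_le_add
        · exact mul_le_mul_of_nonneg_left (hφn x) (ht0 x)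
        · exact mul_le_mul_of_nonneg_left (hw x) (by linarith [ht1 x])
      _ = 1 := by ring
  have htr1 : ContDiff ℝ 1 (F.trn ε n) := (F.trn_smooth ε n).of_le (by norm_cast)
  have hfl1 : ContDiff ℝ 1 (F.fld κ R) := (F.fld_smooth κ R).of_le (by norm_cast)
  have hχ1 : ContDiff ℝ 1 χ := χ.contDiff
  have hψ1 : ContDiff ℝ 1 ψ :=
    (htr1.smul hφ).add ((contDiff_const.sub htr1).smul (hχ1.smul hfl1))
  have hψc : HasCompactSupport ψ := by
    apply HasCompactSupport.add
    · refine hφc.mono ?_
      intro x hx h0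
      apply hx
      simp only [h0, smul_zero]
    · refine χ.hasCompactSupport.mono ?_
      intro x hx h0
      apply hx
      simp only [h0, zero_smul, smul_zero]
  refine le_trans ?_ (le_perimeter hψ1 hψc hψn)
  apply ENNReal.ofReal_le_ofReal
  -- the two sets
  set A : Set E2 := Ω ∩ {x | F.s x < ε} with hA
  set B : Set E2 := Ω ∩ {x | ε < F.s x ∧ F.s x < ε + 1 / n} with hB
  have hsc : Continuous F.s := F.s_smooth.continuous
  have hAm : MeasurableSet A :=
    ho.measurableSet.inter (isOpen_lt hsc continuous_const).measurableSet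
  have hBm : MeasurableSet B :=
    ho.measurableSet.inter ((isOpen_lt continuous_const hsc).inter
      (isOpen_lt hsc continuous_const)).measurableSet
  have hinv : 1 / n < ε := by rw [div_lt_iff₀ hn0]; linarith
  have hAb : A ⊆ Metric.ball x0 R := by
    rintro x ⟨h1, h2⟩
    simp only [mem_ofPred_eq] at h2
    obtain ⟨h3, h4⟩ := hΩ x h1
    rw [Metric.mem_ball, dist_eq_norm]
    have h8 := F.norm_cone hs0 hz0 hT h3 h4
    have h9 : (1 + T) * F.s x < (1 + T) * ε := mul_lt_mul_of_pos_left h2 (by linarith)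
    have h10 : 0 < (1 + T) * ε := by positivity
    linarith
  have hAfin : volume A < ⊤ := lt_of_le_of_lt (measure_mono hAb) measure_ball_lt_top
  have hBs : volume B ≤ ENNReal.ofReal (1 / n) * ENNReal.ofReal (2 * (2 * T * ε)) := by
    have h1 : B ⊆ {x : E2 | ε < F.s x ∧ F.s x < ε + 1 / n ∧ |F.z x| ≤ 2 * T * ε} := by
      rintro x ⟨h1, h2, h3⟩
      refine ⟨h2, h3, ?_⟩
      have h4 := (hΩ x h1).2
      have : T * F.s x ≤ T * (2 * ε) := mul_le_mul_of_nonneg_left (by linarith) hT
      linarith
    have h2 := F.vol_strip ε (ε + 1 / n) (2 * T * ε)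
    have h3 : ε + 1 / n - ε = 1 / n := by ring
    rw [h3] at h2
    exact (measure_mono h1).trans h2
  have hBfin : volume B < ⊤ := by
    refine lt_of_le_of_lt hBs ?_
    exact ENNReal.mul_lt_top ENNReal.ofReal_lt_top ENNReal.ofReal_lt_top
  have hBreal : (volume B).toReal ≤ 1 / n * (4 * T * ε) := by
    have h1 := ENNReal.toReal_mono (ENNReal.mul_lt_top ENNReal.ofReal_lt_top
      ENNReal.ofReal_lt_top).ne hBs
    rw [ENNReal.toReal_mul, ENNReal.toReal_ofReal (by positivity),
      ENNReal.toReal_ofReal (by positivity)] at h1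
    calc _ ≤ _ := h1
      _ = _ := by ring
  have hiφ : Integrable (fun x => F.trn ε n x * divg φ x) := by
    have h1 : Continuous (fun x => F.trn ε n x * divg φ x) :=
      (F.trn_smooth ε n).continuous.mul (divg_cont hφ)
    exact h1.integrable_of_hasCompactSupport (divg_cpt hφc).mul_left
  have hiA : Integrable (A.indicator (fun _ => κ / (2 * R))) :=
    (integrable_indicator_iff hAm).2 (integrableOn_const hAfin.ne)
  have hiB : Integrable (B.indicator (fun _ => κ ^ 2 * n * Cg)) :=
    (integrable_indicator_iff hBm).2 (integrableOn_const hBfin.ne)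
  have hpt : ∀ x ∈ Ω, F.trn ε n x * divg φ x + A.indicator (fun _ => κ / (2 * R)) x
      - B.indicator (fun _ => κ ^ 2 * n * Cg) x ≤ divg ψ x := by
    intro x hx
    have hφd : DifferentiableAt ℝ φ x := hφ.differentiable (by simp) x
    have htd : DifferentiableAt ℝ (F.trn ε n) x := (F.trn_smooth ε n).differentiable (by simp) x
    rcases lt_or_ge (F.s x) (2 * ε) with h | h
    · -- near x the bump is 1
      have hball : x ∈ Metric.ball x0 R := by
        obtain ⟨h3, h4⟩ := hΩ x hx
        rw [Metric.mem_ball, dist_eq_norm]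
        have h8 := F.norm_cone hs0 hz0 hT h3 h4
        have h9 : (1 + T) * F.s x < (1 + T) * (2 * ε) := mul_lt_mul_of_pos_left h (by linarith)
        linarith
      have hloc : ψ =ᶠ[𝓝 x] fun y => F.trn ε n y • φ y + (1 - F.trn ε n y) • F.fld κ R y := by
        filter_upwards [Metric.isOpen_ball.mem_nhds hball] with y hy
        have : χ y = 1 := χ.one_of_mem_closedBall (Metric.ball_subset_closedBall hy)
        simp only [hψ]
        rw [this, one_smul]
      have hdiv : divg ψ x = F.trn ε n x * divg φ x + fderiv ℝ (F.trn ε n) x (φ x)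
          + ((1 - F.trn ε n x) * (κ / (2 * R)) - fderiv ℝ (F.trn ε n) x (F.fld κ R x)) := by
        have e0 : divg ψ x = divg (fun y => F.trn ε n y • φ y + (1 - F.trn ε n y) • F.fld κ R y) x := by
          unfold divg; rw [hloc.fderiv_eq]
        have h1d : DifferentiableAt ℝ (fun y => 1 - F.trn ε n y) x := htd.const_sub 1
        have hfd : DifferentiableAt ℝ (F.fld κ R) x :=
          (F.fld_smooth κ R).differentiable (by simp) x
        have e1 := divg_add (φ := fun y => F.trn ε n y • φ y)
          (ψ := fun y => (1 - F.trn ε n y) • F.fld κ R y) (htd.smul hφd) (h1d.smul hfd)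
        rw [e0, e1, divg_smul htd hφd, divg_smul h1d hfd,
          F.fld_div, fderiv_const_sub]
        simp only [FunLike.coe_neg, Pi.neg_apply]
        ring
      rw [hdiv, F.trn_deriv, F.trn_deriv, F.fld_inner]
      set g' := deriv Real.smoothTransition (n * (F.s x - ε)) with hg'
      have hg0 : 0 ≤ g' := st_deriv_nonneg _
      have hinner : -1 ≤ inner ℝ F.e (φ x) := by
        have := abs_real_inner_le_norm F.e (φ x)
        rw [F.he, one_mul] at this
        have h2 := hφn x
        have h3 := neg_abs_le (inner ℝ F.e (φ x))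
        linarith
      have hBt : -(B.indicator (fun _ => κ ^ 2 * n * Cg) x) ≤ n * g' * inner ℝ F.e (φ x)
          - n * g' * (-(1 - κ ^ 2)) := by
        have h5 := tt κ n g' (inner ℝ F.e (φ x)) Cg hn0.le hg0 hinner
        by_cases hxB : x ∈ B
        · rw [indicator_of_mem hxB]
          have h7 : κ ^ 2 * n * g' ≤ κ ^ 2 * n * Cg :=
            mul_le_mul_of_nonneg_left (hCg _) (by positivity)
          linarith
        · rw [indicator_of_notMem hxB]
          have hg'0 : g' = 0 := by
            rw [hB] at hxB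
            have : ¬ (ε < F.s x ∧ F.s x < ε + 1 / n) := fun hh => hxB ⟨hx, hh⟩
            rw [not_and_or, not_lt, not_lt] at this
            rcases this with h8 | h8
            · apply st_deriv_zero_left
              apply mul_nonpos_of_nonneg_of_nonpos hn0.le; linarith
            · apply st_deriv_zero_right
              have : 1 / n ≤ F.s x - ε := by linarith
              rw [div_le_iff₀ hn0] at this
              linarith
          rw [hg'0]; simp
      have hAt : A.indicator (fun _ => κ / (2 * R)) x ≤ (1 - F.trn ε n x) * (κ / (2 * R)) := by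
        by_cases hxA : x ∈ A
        · rw [indicator_of_mem hxA]
          have : F.trn ε n x = 0 := by
            unfold trn
            apply Real.smoothTransition.zero_of_nonpos
            apply mul_nonpos_of_nonneg_of_nonpos hn0.le
            have := hxA.2
            simp only [mem_ofPred_eq] at this
            linarith
          rw [this]; linarith
        · rw [indicator_of_notMem hxA]
          apply mul_nonneg _ (by positivity)
          linarith [ht1 x]
      linarith
    · have hloc : ψ =ᶠ[𝓝 x] φ := by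
        have hop : IsOpen {y | ε + 1 / n < F.s y} := isOpen_lt continuous_const hsc
        have hmem : x ∈ {y | ε + 1 / n < F.s y} := by
          simp only [mem_ofPred_eq]; linarith
        filter_upwards [hop.mem_nhds hmem] with y hy
        have hy : ε + 1 / n < F.s y := hy
        have : F.trn ε n y = 1 := by
          unfold trn
          apply Real.smoothTransition.one_of_one_le
          have : 1 / n ≤ F.s y - ε := by linarith
          rw [div_le_iff₀ hn0] at this
          linarith
        simp only [hψ]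
        rw [this]; simp
      have hdiv : divg ψ x = divg φ x := by
        unfold divg; rw [hloc.fderiv_eq]
      have ht : F.trn ε n x = 1 := by
        unfold trn
        apply Real.smoothTransition.one_of_one_le
        have : 1 / n ≤ F.s x - ε := by linarith
        rw [div_le_iff₀ hn0] at this
        linarith
      have hxA : x ∉ A := by
        rintro ⟨-, h2⟩
        simp only [mem_ofPred_eq] at h2; linarith
      have hB0 : 0 ≤ B.indicator (fun _ => κ ^ 2 * n * Cg) x := by
        apply indicator_nonneg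
        intro _ _; positivity
      rw [hdiv, ht, indicator_of_notMem hxA]
      linarith
  have hint : ∫ x in Ω, (F.trn ε n x * divg φ x + A.indicator (fun _ => κ / (2 * R)) x
      - B.indicator (fun _ => κ ^ 2 * n * Cg) x) ≤ ∫ x in Ω, divg ψ x := by
    apply setIntegral_mono_on
    · exact ((hiφ.add hiA).sub hiB).integrableOn
    · exact (divg_int hψ1 hψc).integrableOn
    · exact ho.measurableSet
    · exact hpt
  have hsplit : ∫ x in Ω, (F.trn ε n x * divg φ x + A.indicator (fun _ => κ / (2 * R)) x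
      - B.indicator (fun _ => κ ^ 2 * n * Cg) x) = (∫ x in Ω, F.trn ε n x * divg φ x)
      + κ / (2 * R) * (volume A).toReal - κ ^ 2 * n * Cg * (volume B).toReal := by
    have e1 : (∫ x in Ω, (F.trn ε n x * divg φ x + A.indicator (fun _ => κ / (2 * R)) x
        - B.indicator (fun _ => κ ^ 2 * n * Cg) x)) =
        ∫ x in Ω, ((((fun x => F.trn ε n x * divg φ x) + A.indicator (fun _ => κ / (2 * R)))
        - B.indicator (fun _ => κ ^ 2 * n * Cg)) : E2 → ℝ) x := rfl
    rw [e1, integral_sub' (hiφ.add hiA).integrableOn hiB.integrableOn,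
      integral_add' hiφ.integrableOn hiA.integrableOn,
      setIntegral_indicator hAm, setIntegral_indicator hBm, setIntegral_const, setIntegral_const]
    have hAA : Ω ∩ A = A := inter_eq_self_of_subset_right inter_subset_left
    have hBB : Ω ∩ B = B := inter_eq_self_of_subset_right inter_subset_left
    rw [hAA, hBB]
    simp only [Measure.real, smul_eq_mul]
    ring
  rw [hsplit] at hint
  refine le_trans ?_ hint
  have : κ ^ 2 * n * Cg * (volume B).toReal ≤ κ ^ 2 * Cg * (4 * T * ε) := by
    calc κ ^ 2 * n * Cg * (volume B).toReal ≤ κ ^ 2 * n * Cg * (1 / n * (4 * T * ε)) :=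
        mul_le_mul_of_nonneg_left hBreal (by positivity)
      _ = κ ^ 2 * Cg * (4 * T * ε) := by field_simp
  linarith

end Frame

end Pool.Agent.W794.Bk
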