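import Pool.Agent.W794.Bk11

open MeasureTheory Set Filter
open scoped ENNReal ContDiff Topology

namespace Pool.Agent.W794.Bk

namespace Frame
variable (F : Frame)

theorem per_cut_lim {Ω : Set E2} (ho : IsOpen Ω) {x0 : E2} (hs0 : F.s x0 = 0) (hz0 : F.z x0 = 0)
    {T : ℝ} (hT : 0 ≤ T) (hΩ : ∀ x ∈ Ω, 0 < F.s x ∧ |F.z x| ≤ T * F.s x)
    {Cg κ ε : ℝ} (hCg0 : 0 < Cg) (hCg : ∀ t, deriv Real.smoothTransition t ≤ Cg)
    (hκ : 0 < κ) (hκ1 : κ ≤ 1) (hε : 0 < ε)
    {φ : E2 → E2} (hφ : ContDiff ℝ 1 φ) (hφc : HasCompactSupport φ) (hφn : ∀ x, ‖φ x‖ ≤ 1) :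
    ENNReal.ofReal ((∫ x in F.cutSet Ω ε, divg φ x)
      + κ / (2 * (2 * (1 + T) * ε)) * (volume (Ω ∩ {x | F.s x < ε})).toReal
      - κ ^ 2 * Cg * (4 * T * ε)) ≤ perimeter Ω := by
  have hsc : Continuous F.s := F.s_smooth.continuous
  have hm : MeasurableSet {x | ε < F.s x} := (isOpen_lt continuous_const hsc).measurableSet
  have hlim : Tendsto (fun n : ℕ => ∫ x in Ω, F.trn ε (n : ℝ) x * divg φ x) atTop
      (𝓝 (∫ x in F.cutSet Ω ε, divg φ x)) := by
    have e1 : ∫ x in F.cutSet Ω ε, divg φ x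
        = ∫ x in Ω, ({x | ε < F.s x} : Set E2).indicator (divg φ) x := by
      rw [setIntegral_indicator hm]; rfl
    rw [e1]
    apply tendsto_integral_of_dominated_convergence (fun x => ‖divg φ x‖)
    · intro n
      exact ((F.trn_smooth ε n).continuous.mul (divg_cont hφ)).aestronglyMeasurable
    · exact (divg_int hφ hφc).norm.integrableOn
    · intro n
      filter_upwards with x
      rw [norm_mul]
      have h1 : ‖F.trn ε n x‖ ≤ 1 := by
        have h0 : 0 ≤ F.trn ε n x := Real.smoothTransition.nonneg _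
        rw [Real.norm_eq_abs, abs_of_nonneg h0]
        exact Real.smoothTransition.le_one _
      calc _ ≤ 1 * ‖divg φ x‖ := mul_le_mul_of_nonneg_right h1 (norm_nonneg _)
        _ = _ := one_mul _
    · filter_upwards with x
      by_cases hx : ε < F.s x
      · have hx' : x ∈ ({x | ε < F.s x} : Set E2) := hx
        rw [indicator_of_mem hx']
        apply tendsto_const_nhds.congr'
        obtain ⟨N, hN⟩ := exists_nat_gt (1 / (F.s x - ε))
        filter_upwards [eventually_ge_atTop N] with n hn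
        have : F.trn ε n x = 1 := by
          unfold trn
          apply Real.smoothTransition.one_of_one_le
          have h1 : 1 / (F.s x - ε) < n := lt_of_lt_of_le hN (by exact_mod_cast hn)
          rw [div_lt_iff₀ (by linarith)] at h1
          exact h1.le
        rw [this, one_mul]
      · have hx' : x ∉ ({x | ε < F.s x} : Set E2) := hx
        rw [indicator_of_notMem hx']
        apply tendsto_const_nhds.congr'
        filter_upwards with n
        have : F.trn ε n x = 0 := by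
          unfold trn
          apply Real.smoothTransition.zero_of_nonpos
          apply mul_nonpos_of_nonneg_of_nonpos (Nat.cast_nonneg n)
          push Not at hx; linarith
        rw [this, zero_mul]
  have hlim2 : Tendsto (fun n : ℕ => ENNReal.ofReal ((∫ x in Ω, F.trn ε (n : ℝ) x * divg φ x)
      + κ / (2 * (2 * (1 + T) * ε)) * (volume (Ω ∩ {x | F.s x < ε})).toReal
      - κ ^ 2 * Cg * (4 * T * ε))) atTop (𝓝 (ENNReal.ofReal ((∫ x in F.cutSet Ω ε, divg φ x)
      + κ / (2 * (2 * (1 + T) * ε)) * (volume (Ω ∩ {x | F.s x < ε})).toReal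
      - κ ^ 2 * Cg * (4 * T * ε)))) :=
    (ENNReal.continuous_ofReal.tendsto _).comp ((hlim.add_const _).sub_const _)
  apply le_of_tendsto hlim2
  obtain ⟨N, hN⟩ := exists_nat_gt (1 / ε)
  filter_upwards [eventually_ge_atTop N] with n hn
  apply F.per_cut_aux ho hs0 hz0 hT hΩ hCg0 hCg hκ hκ1 hε _ hφ hφc hφn
  have h1 : 1 / ε < n := lt_of_lt_of_le hN (by exact_mod_cast hn)
  rw [div_lt_iff₀ hε] at h1
  exact h1

/-- cutting a corner decreases the perimeter linearly -/
theorem per_cut {Ω : Set E2} (ho : IsOpen Ω) (hconv : Convex ℝ Ω) (hne : Ω.Nonempty)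
    {x0 : E2} (hx0 : x0 ∈ closure Ω) (hs0 : F.s x0 = 0) (hz0 : F.z x0 = 0)
    {T : ℝ} (hT : 0 ≤ T) (hΩ : ∀ x ∈ Ω, 0 < F.s x ∧ |F.z x| ≤ T * F.s x) :
    ∃ c ε0 : ℝ, 0 < c ∧ 0 < ε0 ∧ ∀ ε, 0 < ε → ε < ε0 →
      perimeter (F.cutSet Ω ε) + ENNReal.ofReal (c * ε) ≤ perimeter Ω := by
  obtain ⟨Cg, hCg0, hCg⟩ := st_bound
  obtain ⟨cΩ, ε0, hcΩ, hε0, hvol⟩ := F.vol_corner ho hconv hne hx0 hs0 (fun x hx => (hΩ x hx).1)
  set A0 := cΩ / (4 * (1 + T)) with hA0
  have hA0p : 0 < A0 := by positivity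
  set κ := min 1 (A0 / (2 * (4 * Cg * T + 1))) with hκ
  have hκ0 : 0 < κ := by rw [hκ]; positivity
  have hκ1 : κ ≤ 1 := min_le_left _ _
  have hκ2 : κ * (4 * Cg * T) ≤ A0 / 2 := by
    have h1 : κ ≤ A0 / (2 * (4 * Cg * T + 1)) := min_le_right _ _
    have h2 : κ * (2 * (4 * Cg * T + 1)) ≤ A0 := by
      rwa [le_div_iff₀ (by positivity)] at h1
    linarith
  refine ⟨κ * A0 / 2, ε0, by positivity, hε0, ?_⟩
  intro ε hε hε1
  have hv := hvol ε hε hε1
  by_cases hper : perimeter Ω = ⊤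
  · rw [hper]; exact le_top
  -- volume of the corner part is finite
  have hAfin : volume (Ω ∩ {x | F.s x < ε}) ≠ ⊤ := by
    have hsub : Ω ∩ {x | F.s x < ε} ⊆ Metric.ball x0 (2 * (1 + T) * ε) := by
      rintro x ⟨h1, h2⟩
      obtain ⟨h3, h4⟩ := hΩ x h1
      have h8 := F.norm_cone hs0 hz0 hT h3 h4
      rw [Metric.mem_ball, dist_eq_norm]
      have h9 : (1 + T) * F.s x < (1 + T) * ε := mul_lt_mul_of_pos_left h2 (by linarith)
      have h10 : 0 < (1 + T) * ε := by positivity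
      linarith
    exact (lt_of_le_of_lt (measure_mono hsub) measure_ball_lt_top).ne
  have hvr : cΩ * ε ^ 2 ≤ (volume (Ω ∩ {x | F.s x < ε})).toReal := by
    exact (ENNReal.ofReal_le_iff_le_toReal hAfin).1 hv
  have hgain : κ * A0 / 2 * ε ≤ κ / (2 * (2 * (1 + T) * ε)) * (volume (Ω ∩ {x | F.s x < ε})).toReal
      - κ ^ 2 * Cg * (4 * T * ε) := by
    have h1 : κ / (2 * (2 * (1 + T) * ε)) * (cΩ * ε ^ 2) = κ * A0 * ε := by
      rw [hA0]; field_simp; ring
    have h2 : κ / (2 * (2 * (1 + T) * ε)) * (cΩ * ε ^ 2) ≤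
        κ / (2 * (2 * (1 + T) * ε)) * (volume (Ω ∩ {x | F.s x < ε})).toReal :=
      mul_le_mul_of_nonneg_left hvr (by positivity)
    have h3 : κ ^ 2 * Cg * (4 * T * ε) ≤ κ * A0 / 2 * ε := by
      calc κ ^ 2 * Cg * (4 * T * ε) = κ * ε * (κ * (4 * Cg * T)) := by ring
        _ ≤ κ * ε * (A0 / 2) := mul_le_mul_of_nonneg_left hκ2 (by positivity)
        _ = _ := by ring
    linarith
  have key : ∀ φ : E2 → E2, ContDiff ℝ 1 φ → HasCompactSupport φ → (∀ x, ‖φ x‖ ≤ 1) →
      ENNReal.ofReal ((∫ x in F.cutSet Ω ε, divg φ x) + κ * A0 / 2 * ε) ≤ perimeter Ω := by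
    intro φ hφ hφc hφn
    refine le_trans ?_ (F.per_cut_lim ho hs0 hz0 hT hΩ hCg0 hCg hκ0 hκ1 hε hφ hφc hφn)
    apply ENNReal.ofReal_le_ofReal
    linarith
  have hb : ENNReal.ofReal (κ * A0 / 2 * ε) ≤ perimeter Ω := by
    have h0 := key (fun _ => 0) contDiff_const (by
      exact HasCompactSupport.zero) (by simp)
    have : ∀ x, divg (fun _ => (0 : E2)) x = 0 := by intro x; unfold divg; simp
    simpa [this] using h0
  have hle : perimeter (F.cutSet Ω ε) ≤ perimeter Ω - ENNReal.ofReal (κ * A0 / 2 * ε) := by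
    unfold perimeter
    apply iSup_le; intro φ
    apply iSup_le; intro hφ
    apply iSup_le; intro hφc
    apply iSup_le; intro hφn
    change _ ≤ perimeter Ω - _
    apply ENNReal.le_sub_of_add_le_right ENNReal.ofReal_ne_top
    rcases le_total 0 (∫ x in F.cutSet Ω ε, divg φ x) with h | h
    · rw [← ENNReal.ofReal_add h (by positivity)]
      exact key φ hφ hφc hφn
    · rw [ENNReal.ofReal_of_nonpos h, zero_add]
      exact hb
  calc perimeter (F.cutSet Ω ε) + ENNReal.ofReal (κ * A0 / 2 * ε)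
      ≤ (perimeter Ω - ENNReal.ofReal (κ * A0 / 2 * ε)) + ENNReal.ofReal (κ * A0 / 2 * ε) := by
        gcongr
    _ = perimeter Ω := tsub_add_cancel_of_le hb

end Frame

end Pool.Agent.W794.Bk
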