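import Pool.Agent.W794.Bk12

open MeasureTheory Set Filter
open scoped ENNReal ContDiff Topology Pointwise

namespace Pool.Agent.W794.Bk

/-- dilated set -/
def dil (r : ℝ) (Ω : Set E2) : Set E2 := (fun x => r • x) ⁻¹' Ω

theorem D_dil {φ : E2 → ℝ} (hφ : Differentiable ℝ φ) (r : ℝ) (v x : E2) :
    D v (fun y => φ (r • y)) x = r * D v φ (r • x) := by
  have h1 : HasFDerivAt (fun y : E2 => r • y) (r • ContinuousLinearMap.id ℝ E2) x :=
    (hasFDerivAt_id x).const_smul r
  have h2 := (hφ (r • x)).hasFDerivAt.comp x h1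
  unfold D
  have h3 := h2.fderiv
  change (fderiv ℝ (φ ∘ fun y => r • y) x) v = _
  rw [h3]
  simp

theorem IsTest.dil {Ω : Set E2} {φ : E2 → ℝ} (h : IsTest Ω φ) {r : ℝ} (hr : r ≠ 0) :
    IsTest (Bk.dil r Ω) (fun y => φ (r • y)) := by
  set H : E2 ≃ₜ E2 := Homeomorph.smulOfNeZero r hr with hH
  have hc : (fun y => φ (r • y)) = φ ∘ H := rfl
  refine ⟨?_, ?_, ?_⟩
  · exact h.smooth.comp (contDiff_const_smul r)
  · rw [hc]; exact h.cpt.comp_homeomorph H
  · rw [hc, tsupport_comp_eq_preimage φ H]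
    intro x hx
    exact h.supp hx

theorem grad_dil {Ω : Set E2} {φ : E2 → ℝ} (h : IsTest Ω φ) {r : ℝ} (hr : 0 < r) :
    gradEnergy (fun y => φ (r • y)) = gradEnergy φ := by
  rw [grad_eq stdFrame, grad_eq stdFrame φ]
  unfold Nb
  have h1 : ∀ x, (D stdFrame.e (fun y => φ (r • y)) x * D stdFrame.e (fun y => φ (r • y)) x
      + D stdFrame.f (fun y => φ (r • y)) x * D stdFrame.f (fun y => φ (r • y)) x) =
      (fun y => r ^ 2 * (D stdFrame.e φ y * D stdFrame.e φ y + D stdFrame.f φ y * D stdFrame.f φ y))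
        (r • x) := by
    intro x
    have hd := h.smooth.differentiable (by simp)
    rw [D_dil hd, D_dil hd]; ring
  simp_rw [h1]
  rw [Measure.integral_comp_smul volume (fun y => r ^ 2 * (D stdFrame.e φ y * D stdFrame.e φ y
    + D stdFrame.f φ y * D stdFrame.f φ y)) r, integral_const_mul]
  have : Module.finrank ℝ E2 = 2 := by simp
  rw [this, abs_of_pos (by positivity), smul_eq_mul]
  field_simp

theorem plate_dil {Ω : Set E2} {φ : E2 → ℝ} (h : IsTest Ω φ) {r : ℝ} (hr : 0 < r) :
    plateEnergy (fun y => φ (r • y)) = r ^ 2 * plateEnergy φ := by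
  unfold plateEnergy
  have h1 : ∀ x, (Laplacian.laplacian (fun y => φ (r • y)) x) ^ 2 =
      (fun y => r ^ 4 * (Laplacian.laplacian φ y) ^ 2) (r • x) := by
    intro x
    have hd := h.smooth.differentiable (by simp)
    have key : ∀ v : E2, D v (D v (fun y => φ (r • y))) x = r ^ 2 * D v (D v φ) (r • x) := by
      intro v
      have e1 : D v (fun y => φ (r • y)) = fun x => r * D v φ (r • x) := by
        funext y; exact D_dil hd r v y
      rw [e1]
      have hdv := (h.D v).smooth.differentiable (by simp)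
      have h2 : D v (fun x => r * D v φ (r • x)) x = r * D v (fun x => D v φ (r • x)) x := by
        have hd2 : DifferentiableAt ℝ (fun x => D v φ (r • x)) x :=
          (hdv _).comp x ((differentiableAt_id).const_smul r)
        unfold D at hd2 ⊢
        rw [fderiv_const_mul hd2]
        simp
      rw [h2, D_dil hdv]; ring
    have hsm : ContDiff ℝ ∞ (fun y => φ (r • y)) := h.smooth.comp (contDiff_const_smul r)
    rw [stdFrame.lap_eq hsm, key, key]
    show _ = r ^ 4 * (Laplacian.laplacian φ (r • x)) ^ 2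
    rw [stdFrame.lap_eq h.smooth]
    ring
  simp_rw [h1]
  rw [Measure.integral_comp_smul volume (fun y => r ^ 4 * (Laplacian.laplacian φ y) ^ 2) r,
    integral_const_mul]
  have : Module.finrank ℝ E2 = 2 := by simp
  rw [this, abs_of_pos (by positivity), smul_eq_mul]
  field_simp

theorem grad_pos {Ω : Set E2} {φ : E2 → ℝ} (h : IsTest Ω φ) (h0 : φ ≠ 0) : 0 < gradEnergy φ := by
  rcases (grad_nonneg φ).lt_or_eq with h1 | h1
  · exact h1
  exfalso
  have hcont : Continuous (fderiv ℝ φ) := h.smooth.continuous_fderiv (by simp)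
  have hcs : HasCompactSupport (fderiv ℝ φ) := h.cpt.fderiv ℝ
  have hint : Integrable (fun x => ‖fderiv ℝ φ x‖ ^ 2) := by
    apply (hcont.norm.pow 2).integrable_of_hasCompactSupport
    refine hcs.mono ?_
    intro x hx h2
    apply hx
    show ‖fderiv ℝ φ x‖ ^ 2 = 0
    rw [h2]; simp
  unfold gradEnergy at h1
  have h2 : (fun x => ‖fderiv ℝ φ x‖ ^ 2) =ᵐ[volume] 0 :=
    (integral_eq_zero_iff_of_nonneg (fun x => by positivity) hint).1 h1.symm
  have h3 : (fun x => ‖fderiv ℝ φ x‖ ^ 2) = 0 :=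
    (hcont.norm.pow 2).ae_eq_iff_eq volume continuous_const |>.1 h2
  have h4 : ∀ x, fderiv ℝ φ x = 0 := by
    intro x
    have := congrFun h3 x
    simpa using this
  have h5 := is_const_of_fderiv_eq_zero (h.smooth.differentiable (by simp)) h4
  apply h0
  obtain ⟨y, hy⟩ : ∃ y, y ∉ tsupport φ := by
    by_contra hcon
    push Not at hcon
    have : tsupport φ = univ := eq_univ_of_forall hcon
    have hc : IsCompact (univ : Set E2) := this ▸ h.cpt
    exact noncompact_univ E2 hc
  funext x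
  rw [h5 x y, image_eq_zero_of_notMem_tsupport hy]; rfl

theorem lam_le {Ω : Set E2} {ψ : E2 → ℝ} (h : IsTest Ω ψ) :
    (buckling Ω).toReal * gradEnergy ψ ≤ plateEnergy ψ := by
  by_cases h0 : ψ = 0
  · have : gradEnergy ψ = 0 := by rw [h0]; unfold gradEnergy; simp
    rw [this, mul_zero]; exact plate_nonneg ψ
  have hpos := grad_pos h h0
  have h1 : buckling Ω ≤ ENNReal.ofReal (plateEnergy ψ / gradEnergy ψ) := by
    unfold buckling
    exact iInf_le_of_le ψ (iInf_le_of_le h (iInf_le_of_le h0 le_rfl))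
  have h2 := ENNReal.toReal_mono ENNReal.ofReal_ne_top h1
  rw [ENNReal.toReal_ofReal (div_nonneg (plate_nonneg ψ) hpos.le), le_div_iff₀ hpos] at h2
  exact h2

theorem smul_energy {Ω : Set E2} {φ : E2 → ℝ} (h : IsTest Ω φ) (c : ℝ) :
    plateEnergy (fun x => c * φ x) = c ^ 2 * plateEnergy φ ∧
    gradEnergy (fun x => c * φ x) = c ^ 2 * gradEnergy φ := by
  have hDc : ∀ {w : E2 → ℝ}, ContDiff ℝ ∞ w → ∀ v x, D v (fun x => c * w x) x = c * D v w x := by
    intro w hw v x
    unfold D
    rw [fderiv_const_mul (hw.differentiable (by simp) x)]; simp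
  constructor
  · unfold plateEnergy
    rw [← integral_const_mul]
    congr 1; funext x
    have hk : ∀ v : E2, D v (D v (fun x => c * φ x)) x = c * D v (D v φ) x := by
      intro v
      have : D v (fun x => c * φ x) = fun x => c * D v φ x := by
        funext y; exact hDc h.smooth v y
      rw [this, hDc (h.D v).smooth]
    rw [stdFrame.lap_eq (contDiff_const.mul h.smooth), stdFrame.lap_eq h.smooth, hk, hk]
    ring
  · rw [grad_eq stdFrame, grad_eq stdFrame φ]
    unfold Nb
    rw [← integral_const_mul]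
    congr 1; funext x
    rw [hDc h.smooth, hDc h.smooth]; ring

theorem near_min {Ω : Set E2} (hfin : buckling Ω ≠ ⊤) {κ : ℝ} (hκ : 0 < κ) :
    ∃ φ, IsTest Ω φ ∧ gradEnergy φ = 1 ∧ plateEnergy φ ≤ (buckling Ω).toReal + κ := by
  have h1 : buckling Ω < ENNReal.ofReal ((buckling Ω).toReal + κ) := by
    rw [ENNReal.ofReal_add ENNReal.toReal_nonneg hκ.le, ENNReal.ofReal_toReal hfin]
    exact ENNReal.lt_add_right hfin (by simpa using hκ)
  unfold buckling at h1
  rw [iInf_lt_iff] at h1
  obtain ⟨φ, h1⟩ := h1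
  rw [iInf_lt_iff] at h1
  obtain ⟨hφ, h1⟩ := h1
  rw [iInf_lt_iff] at h1
  obtain ⟨h0, h1⟩ := h1
  change _ < ENNReal.ofReal ((buckling Ω).toReal + κ) at h1
  have hpos := grad_pos hφ h0
  have h2 : plateEnergy φ / gradEnergy φ < (buckling Ω).toReal + κ :=
    (ENNReal.ofReal_lt_ofReal_iff (by positivity)).1 h1
  set c := 1 / Real.sqrt (gradEnergy φ) with hc
  have hc2 : c ^ 2 = 1 / gradEnergy φ := by
    rw [hc, div_pow, Real.sq_sqrt hpos.le, one_pow]
  obtain ⟨e1, e2⟩ := smul_energy hφ c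
  refine ⟨fun x => c * φ x, hφ.smul c, ?_, ?_⟩
  · rw [e2, hc2]; field_simp
  · rw [e1, hc2, one_div, inv_mul_eq_div]; exact h2.le

theorem buckling_fin {Ω : Set E2} (ho : IsOpen Ω) (hne : Ω.Nonempty) : buckling Ω ≠ ⊤ := by
  obtain ⟨q, hq⟩ := hne
  obtain ⟨ρ, hρ, hball⟩ := Metric.isOpen_iff.1 ho q hq
  let χ : ContDiffBump q := ⟨ρ / 4, ρ / 2, by linarith, by linarith⟩
  have hχ : IsTest Ω χ := by
    refine ⟨χ.contDiff, χ.hasCompactSupport, ?_⟩
    rw [χ.tsupport_eq]
    intro x hx
    apply hball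
    rw [Metric.mem_closedBall] at hx
    rw [Metric.mem_ball]
    have : χ.rOut = ρ / 2 := rfl
    linarith
  have h0 : (χ : E2 → ℝ) ≠ 0 := by
    intro h
    have h1 : χ q = 1 := χ.one_of_mem_closedBall (Metric.mem_closedBall_self χ.rIn_pos.le)
    rw [h] at h1
    simp at h1
  have h1 : buckling Ω ≤ ENNReal.ofReal (plateEnergy χ / gradEnergy χ) := by
    unfold buckling
    exact iInf_le_of_le χ (iInf_le_of_le hχ (iInf_le_of_le h0 le_rfl))
  exact (lt_of_le_of_lt h1 ENNReal.ofReal_lt_top).ne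

/-- dilation of the perimeter -/
theorem per_dil {Ω : Set E2} {r : ℝ} (hr : 0 < r) :
    perimeter (dil r Ω) ≤ ENNReal.ofReal r⁻¹ * perimeter Ω := by
  conv_lhs => unfold perimeter
  apply iSup_le; intro φ
  apply iSup_le; intro hφ
  apply iSup_le; intro hφc
  apply iSup_le; intro hφn
  have hri : r⁻¹ ≠ 0 := (inv_pos.2 hr).ne'
  set H : E2 ≃ₜ E2 := Homeomorph.smulOfNeZero r⁻¹ hri with hH
  set ψ : E2 → E2 := φ ∘ H with hψ
  have hψ1 : ContDiff ℝ 1 ψ := hφ.comp (contDiff_const_smul r⁻¹)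
  have hψc : HasCompactSupport ψ := hφc.comp_homeomorph H
  have hψn : ∀ x, ‖ψ x‖ ≤ 1 := fun x => hφn _
  have hφψ : φ = fun x => ψ (r • x) := by
    funext x
    show φ x = φ (r⁻¹ • (r • x))
    rw [smul_smul, inv_mul_cancel₀ hr.ne', one_smul]
  have hdiv : ∀ x, divg φ x = r * divg ψ (r • x) := by
    intro x
    have h1 : HasFDerivAt (fun y : E2 => r • y) (r • ContinuousLinearMap.id ℝ E2) x :=
      (hasFDerivAt_id x).const_smul r
    have h2 := ((hψ1.differentiable (by simp)) (r • x)).hasFDerivAt.comp x h1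
    have h3 : fderiv ℝ φ x = (fderiv ℝ ψ (r • x)).comp (r • ContinuousLinearMap.id ℝ E2) := by
      conv_lhs => rw [hφψ]
      exact h2.fderiv
    unfold divg
    rw [h3, Finset.mul_sum]
    apply Finset.sum_congr rfl
    intro i _
    simp
  have hset : r • (dil r Ω) = Ω := by
    ext y
    rw [mem_smul_set_iff_inv_smul_mem₀ hr.ne']
    show r • (r⁻¹ • y) ∈ Ω ↔ _
    rw [smul_smul, mul_inv_cancel₀ hr.ne', one_smul]
  have hint : ∫ x in dil r Ω, divg φ x = r⁻¹ * ∫ x in Ω, divg ψ x := by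
    have e1 : ∫ x in dil r Ω, divg φ x = ∫ x in dil r Ω, (fun y => r * divg ψ y) (r • x) := by
      congr 1; funext x; exact hdiv x
    rw [e1, Measure.setIntegral_comp_smul_of_pos volume (fun y => r * divg ψ y) (dil r Ω) hr, hset,
      integral_const_mul]
    have : Module.finrank ℝ E2 = 2 := by simp
    rw [this, smul_eq_mul]
    field_simp
  rw [hint, ENNReal.ofReal_mul (by positivity)]
  gcongr
  exact le_perimeter hψ1 hψc hψn

theorem vol_dil {Ω : Set E2} {r : ℝ} (hr : 0 < r) (hv : volume Ω < ⊤) : volume (dil r Ω) < ⊤ := by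
  unfold dil
  rw [Measure.addHaar_preimage_smul volume hr.ne']
  exact ENNReal.mul_lt_top ENNReal.ofReal_lt_top hv

/-- convex open sets of finite area are bounded -/
theorem bdd_of_fin {Ω : Set E2} (ho : IsOpen Ω) (hconv : Convex ℝ Ω) (hne : Ω.Nonempty)
    (hv : volume Ω < ⊤) : ∃ q ∈ Ω, ∃ L : ℝ, ∀ y ∈ Ω, ‖y - q‖ ≤ L := by
  obtain ⟨q, hq⟩ := hne
  obtain ⟨ρ, hρ, hball⟩ := Metric.isOpen_iff.1 ho q hq
  refine ⟨q, hq, ?_⟩
  by_contra hcon
  push Not at hcon
  -- for each N the set contains N disjoint balls of radius ρ/2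
  have key : ∀ N : ℕ, (N : ℝ≥0∞) * volume (Metric.ball (0 : E2) (ρ / 2)) ≤ volume Ω := by
    intro N
    obtain ⟨y, hy, hL⟩ := hcon (2 * (N + 1) * ρ)
    have hN1 : (0:ℝ) < N + 1 := by positivity
    have hnorm : 0 < ‖y - q‖ := lt_trans (by positivity) hL
    set t : ℕ → ℝ := fun k => (k : ℝ) / (2 * (N + 1)) with ht
    set B : ℕ → Set E2 := fun k => Metric.ball (q + t k • (y - q)) (ρ / 2) with hB
    have hsub : ∀ k ∈ Finset.range N, B k ⊆ Ω := by
      intro k hk w hw
      rw [Finset.mem_range] at hk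
      have htk : t k ≤ 1 / 2 := by
        rw [ht]; simp only
        rw [div_le_div_iff₀ (by positivity) (by norm_num)]
        have : (k:ℝ) < N := by exact_mod_cast hk
        linarith
      have htk0 : 0 ≤ t k := by rw [ht]; positivity
      have h1t : 0 < 1 - t k := by linarith
      -- w = (1 - t) q' + t y
      set q' := (1 - t k)⁻¹ • (w - t k • y) with hq'
      have hw' : w = (1 - t k) • q' + t k • y := by
        rw [hq', smul_smul, mul_inv_cancel₀ h1t.ne', one_smul]; abel
      have hq'b : q' ∈ Metric.ball q ρ := by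
        rw [Metric.mem_ball, dist_eq_norm]
        have e1 : q' - q = (1 - t k)⁻¹ • (w - (q + t k • (y - q))) := by
          have : (1 - t k)⁻¹ • (w - (q + t k • (y - q)))
            = (1 - t k)⁻¹ • (w - t k • y) - ((1 - t k)⁻¹ * (1 - t k)) • q := by
            rw [← smul_smul, ← smul_sub]; congr 1
            rw [sub_smul, one_smul, smul_sub]; abel
          rw [this, inv_mul_cancel₀ h1t.ne', one_smul]
        rw [e1, norm_smul, norm_inv, Real.norm_eq_abs, abs_of_pos h1t, inv_mul_lt_iff₀ h1t]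
        rw [hB] at hw
        simp only [Metric.mem_ball, dist_eq_norm] at hw
        have : ρ / 2 ≤ (1 - t k) * ρ := by nlinarith
        linarith
      rw [hw']
      exact hconv (hball hq'b) hy h1t.le htk0 (by ring)
    have hdisj : Set.PairwiseDisjoint (↑(Finset.range N)) B := by
      intro i _ j _ hij
      apply Metric.ball_disjoint_ball
      rw [dist_eq_norm]
      have e1 : q + t i • (y - q) - (q + t j • (y - q)) = (t i - t j) • (y - q) := by
        rw [sub_smul]; abel
      rw [e1, norm_smul, Real.norm_eq_abs]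
      have h1 : 1 / (2 * ((N:ℝ) + 1)) ≤ |t i - t j| := by
        have h2 : t i - t j = ((i:ℝ) - j) / (2 * (N + 1)) := by
          rw [ht]; simp only; ring
        rw [h2, abs_div, abs_of_pos (by positivity : (0:ℝ) < 2 * (N + 1))]
        apply div_le_div_of_nonneg_right _ (by positivity)
        have h3 : ((i:ℤ) - j) ≠ 0 := by
          intro h; apply hij; exact_mod_cast sub_eq_zero.1 h
        have h4 : 1 ≤ |((i:ℤ) - j)| := Int.one_le_abs h3
        have h5 : ((1:ℤ):ℝ) ≤ ((|((i:ℤ) - j)| : ℤ) : ℝ) := by exact_mod_cast h4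
        simpa using h5
      have h6 : 1 / (2 * ((N:ℝ) + 1)) * (2 * (N + 1) * ρ) ≤ |t i - t j| * ‖y - q‖ :=
        mul_le_mul h1 hL.le (by positivity) (abs_nonneg _)
      have h7 : 1 / (2 * ((N:ℝ) + 1)) * (2 * (N + 1) * ρ) = ρ := by field_simp
      linarith
    have hm : volume (⋃ k ∈ Finset.range N, B k) = ∑ k ∈ Finset.range N, volume (B k) :=
      measure_biUnion_finset hdisj (fun k _ => Metric.isOpen_ball.measurableSet)
    have hsum : ∑ k ∈ Finset.range N, volume (B k) = N * volume (Metric.ball (0 : E2) (ρ / 2)) := by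
      have : ∀ k ∈ Finset.range N, volume (B k) = volume (Metric.ball (0 : E2) (ρ / 2)) := by
        intro k _
        rw [hB]; exact Measure.addHaar_ball_center volume _ _
      rw [Finset.sum_congr rfl this, Finset.sum_const, Finset.card_range, nsmul_eq_mul]
    rw [← hsum, ← hm]
    exact measure_mono (iUnion₂_subset hsub)
  have hpos : 0 < volume (Metric.ball (0 : E2) (ρ / 2)) := Metric.measure_ball_pos _ _ (by linarith)
  have hfin : volume (Metric.ball (0 : E2) (ρ / 2)) < ⊤ := measure_ball_lt_top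
  obtain ⟨N, hN⟩ := ENNReal.exists_nat_mul_gt hpos.ne' hv.ne
  exact absurd (key N) (not_le.2 hN)

end Pool.Agent.W794.Bk
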