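import Pool.Agent.W794.Bk13

open MeasureTheory Set Filter
open scoped ENNReal ContDiff Topology

namespace Pool.Agent.W794.Bk

namespace Frame
variable (F : Frame)

/-- the buckling eigenvalue of a set which is bounded in the direction `e` is positive -/
theorem grad_le_plate {Ω : Set E2} (hΩ : ∀ x ∈ Ω, 0 < F.s x) {L : ℝ} (hL : 0 ≤ L)
    (hbd : ∀ x ∈ Ω, F.s x ≤ L) {u : E2 → ℝ} (hu : IsTest Ω u) :
    gradEnergy u ≤ 4 * L ^ 2 * plateEnergy u := by
  have hu' : IsTest F.U u := hu.mono (fun x hx => hΩ x hx)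
  have key : ∀ v : E2 → ℝ, IsTest F.U v → (∀ x ∈ tsupport v, F.s x ≤ L) →
      F.J 0 (fun x => v x * v x) ≤ 4 * L ^ 2 * F.J 0 (fun x => D F.e v x * D F.e v x) := by
    intro v hv hvL
    have h1 := F.hardy hv 0 (-2) (by norm_num)
    have h2 : F.J 0 (fun x => v x * v x) ≤ L ^ 2 * F.J (-2) (fun x => v x * v x) := by
      apply F.J_mono (hv.mul hv.smooth) (hv.mul hv.smooth)
      intro x hx
      by_cases hxs : x ∈ tsupport v
      · have h3 := hvL x hxs
        have hs : 0 < F.s x := hx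
        have e1 : F.P 0 x = F.P (-2) x * (F.s x) ^ 2 := by
          have := F.P_mul (a := -2) (b := 2) (c := 0) (by norm_num) hx
          rw [this]; unfold P; norm_num
        rw [e1]
        have hp := F.P_pos (-2) hx
        have h4 : (F.s x) ^ 2 ≤ L ^ 2 := pow_le_pow_left₀ hs.le h3 2
        calc F.P (-2) x * F.s x ^ 2 * (v x * v x) ≤ F.P (-2) x * L ^ 2 * (v x * v x) := by
              apply mul_le_mul_of_nonneg_right _ (mul_self_nonneg _)
              exact mul_le_mul_of_nonneg_left h4 hp.le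
          _ = _ := by ring
      · simp [image_eq_zero_of_notMem_tsupport hxs]
    have h3 : (0 - 1 : ℝ) ^ 2 / 4 = 1 / 4 := by norm_num
    rw [h3] at h1
    have h5 : F.J (-2) (fun x => v x * v x) ≤ 4 * F.J 0 (fun x => D F.e v x * D F.e v x) := by linarith
    have h4 : L ^ 2 * F.J (-2) (fun x => v x * v x) ≤
        L ^ 2 * (4 * F.J 0 (fun x => D F.e v x * D F.e v x)) :=
      mul_le_mul_of_nonneg_left h5 (sq_nonneg _)
    linarith
  have hDs : ∀ a, tsupport (D a u) ⊆ tsupport u := by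
    intro a
    have h : tsupport (Bk.D a u) ⊆ tsupport (fderiv ℝ u) := by
      apply closure_mono
      intro x hx h0
      apply hx
      simp only [Bk.D]
      rw [h0]; rfl
    exact h.trans (tsupport_fderiv_subset ℝ)
  have k1 := key _ (hu'.D F.e) (fun x hx => hbd x (hu.supp (hDs _ hx)))
  have k2 := key _ (hu'.D F.f) (fun x hx => hbd x (hu.supp (hDs _ hx)))
  have hcm : D F.e (D F.f u) = D F.f (D F.e u) := by
    funext x; exact D_comm hu.smooth _ _ _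
  rw [hcm] at k2
  have hM := F.M_zero hu'
  have hA3 : 0 ≤ F.J (-0) (fun x => D F.f (D F.f u) x * D F.f (D F.f u) x) :=
    F.J_nonneg _ (fun x => mul_self_nonneg _)
      (fun x hx => by simp [F.zero_out ((hu'.D F.f).D F.f) hx])
  have hA2 : 0 ≤ F.J (-0) (fun x => D F.f (D F.e u) x * D F.f (D F.e u) x) :=
    F.J_nonneg _ (fun x => mul_self_nonneg _)
      (fun x hx => by simp [F.zero_out ((hu'.D F.e).D F.f) hx])
  have hN : gradEnergy u = F.J 0 (fun x => D F.e u x * D F.e u x)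
      + F.J 0 (fun x => D F.f u x * D F.f u x) := by
    rw [← F.J_add ((hu'.D F.e).mul (hu'.D F.e).smooth) ((hu'.D F.f).mul (hu'.D F.f).smooth),
      grad_eq F]
    unfold Nb J
    congr 1; funext x
    simp [P]
  unfold M at hM
  rw [neg_zero] at hM hA3 hA2
  rw [hN, ← hM]
  have hL2 : 0 ≤ 4 * L ^ 2 := by positivity
  have t1 := mul_nonneg hL2 hA2
  have t2 := mul_nonneg hL2 hA3
  linarith

end Frame

/-- the frame of a corner -/
theorem exists_frame {Ω : Set E2} (ho : IsOpen Ω) (hne : Ω.Nonempty) {x0 ν₁ ν₂ : E2}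
    (h1 : ‖ν₁‖ = 1) (h2 : ‖ν₂‖ = 1) (hs1 : ∀ y ∈ Ω, inner ℝ ν₁ (y - x0) ≤ 0)
    (hs2 : ∀ y ∈ Ω, inner ℝ ν₂ (y - x0) ≤ 0) (hne12 : ν₁ ≠ ν₂) :
    ∃ (F : Frame) (T : ℝ), 0 ≤ T ∧ F.s x0 = 0 ∧ F.z x0 = 0 ∧
      ∀ x ∈ Ω, 0 < F.s x ∧ |F.z x| ≤ T * F.s x := by
  -- strict inequalities
  have strict : ∀ ν : E2, ‖ν‖ = 1 → (∀ y ∈ Ω, inner ℝ ν (y - x0) ≤ 0) →
      ∀ y ∈ Ω, inner ℝ ν (y - x0) < 0 := by
    intro ν hν hs y hy
    obtain ⟨ρ, hρ, hball⟩ := Metric.isOpen_iff.1 ho y hy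
    have hm : y + (ρ / 2) • ν ∈ Ω := by
      apply hball
      rw [Metric.mem_ball, dist_eq_norm, add_sub_cancel_left, norm_smul, hν, Real.norm_eq_abs,
        abs_of_pos (by linarith)]
      linarith
    have := hs _ hm
    have e1 : inner ℝ ν (y + (ρ / 2) • ν - x0) = inner ℝ ν (y - x0) + ρ / 2 := by
      rw [inner_sub_right, inner_add_right, inner_smul_right, real_inner_self_eq_norm_sq, hν,
        inner_sub_right]
      ring
    rw [e1] at this
    linarith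
  have st1 := strict ν₁ h1 hs1
  have st2 := strict ν₂ h2 hs2
  have hsum : ν₁ + ν₂ ≠ 0 := by
    intro h0
    obtain ⟨y, hy⟩ := hne
    have e1 := st1 y hy
    have e2 := st2 y hy
    have e3 : inner ℝ (ν₁ + ν₂) (y - x0) = 0 := by rw [h0]; simp
    rw [inner_add_left] at e3
    linarith
  have hdif : ν₁ - ν₂ ≠ 0 := sub_ne_zero.2 hne12
  have hA : 0 < ‖ν₁ + ν₂‖ := norm_pos_iff.2 hsum
  have hB : 0 < ‖ν₁ - ν₂‖ := norm_pos_iff.2 hdif
  have horth : inner ℝ (ν₁ + ν₂) (ν₁ - ν₂) = 0 := by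
    rw [inner_add_left, inner_sub_right, inner_sub_right, real_inner_self_eq_norm_sq,
      real_inner_self_eq_norm_sq, h1, h2, real_inner_comm]
    ring
  set e : E2 := (-(1 / ‖ν₁ + ν₂‖)) • (ν₁ + ν₂) with he
  set f : E2 := (1 / ‖ν₁ - ν₂‖) • (ν₁ - ν₂) with hf
  refine ⟨⟨e, f, - inner ℝ e x0, - inner ℝ f x0, ?_, ?_, ?_⟩, ‖ν₁ + ν₂‖ / ‖ν₁ - ν₂‖,
    by positivity, ?_, ?_, ?_⟩
  · rw [he, norm_smul, norm_neg, Real.norm_eq_abs, abs_of_pos (by positivity)]
    field_simp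
  · rw [hf, norm_smul, Real.norm_eq_abs, abs_of_pos (by positivity)]
    field_simp
  · rw [he, hf, inner_smul_left, inner_smul_right, horth]; simp
  · show inner ℝ e x0 + - inner ℝ e x0 = 0
    ring
  · show inner ℝ f x0 + - inner ℝ f x0 = 0
    ring
  · intro x hx
    have e1 := st1 x hx
    have e2 := st2 x hx
    have hs : inner ℝ e x + - inner ℝ e x0
        = -(1 / ‖ν₁ + ν₂‖) * (inner ℝ ν₁ (x - x0) + inner ℝ ν₂ (x - x0)) := by
      have : inner ℝ e x + - inner ℝ e x0 = inner ℝ e (x - x0) := by rw [inner_sub_right]; ring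
      rw [this, he, inner_smul_left, inner_add_left]; simp
    have hz : inner ℝ f x + - inner ℝ f x0
        = (1 / ‖ν₁ - ν₂‖) * (inner ℝ ν₁ (x - x0) - inner ℝ ν₂ (x - x0)) := by
      have : inner ℝ f x + - inner ℝ f x0 = inner ℝ f (x - x0) := by rw [inner_sub_right]; ring
      rw [this, hf, inner_smul_left, inner_sub_left]; simp
    constructor
    · show 0 < inner ℝ e x + - inner ℝ e x0
      rw [hs]
      have : 0 < 1 / ‖ν₁ + ν₂‖ := by positivity
      nlinarith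
    · show |inner ℝ f x + - inner ℝ f x0| ≤ ‖ν₁ + ν₂‖ / ‖ν₁ - ν₂‖ * (inner ℝ e x + - inner ℝ e x0)
      rw [hs, hz, abs_mul, abs_of_pos (by positivity : 0 < 1 / ‖ν₁ - ν₂‖)]
      have h3 : |inner ℝ ν₁ (x - x0) - inner ℝ ν₂ (x - x0)|
          ≤ -(inner ℝ ν₁ (x - x0) + inner ℝ ν₂ (x - x0)) := by
        rw [abs_le]; constructor <;> linarith
      have h4 : ‖ν₁ + ν₂‖ / ‖ν₁ - ν₂‖ * (-(1 / ‖ν₁ + ν₂‖) *
          (inner ℝ ν₁ (x - x0) + inner ℝ ν₂ (x - x0)))
          = 1 / ‖ν₁ - ν₂‖ * (-(inner ℝ ν₁ (x - x0) + inner ℝ ν₂ (x - x0))) := by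
        field_simp
      rw [h4]
      exact mul_le_mul_of_nonneg_left h3 (by positivity)

/-- **No corners.** -/
theorem no_corner {p : ℝ} (hp : 0 < p) {Ω : Set E2} (hopt : IsOptimal p Ω) (hconv : Convex ℝ Ω)
    {x0 : E2} (hx0 : x0 ∈ frontier Ω) {ν₁ ν₂ : E2} (h1 : ‖ν₁‖ = 1) (h2 : ‖ν₂‖ = 1)
    (hs1 : ∀ y ∈ Ω, inner ℝ ν₁ (y - x0) ≤ 0) (hs2 : ∀ y ∈ Ω, inner ℝ ν₂ (y - x0) ≤ 0) :
    ν₁ = ν₂ := by
  by_contra hne12
  obtain ⟨⟨ho, hne, hv, hper⟩, hmin⟩ := hopt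
  obtain ⟨F, T, hT, hs0, hz0, hΩ⟩ := exists_frame ho hne h1 h2 hs1 hs2 hne12
  have hx0c : x0 ∈ closure Ω := frontier_subset_closure hx0
  obtain ⟨c, ε0, hc, hε0, hcut⟩ := F.per_cut ho hconv hne hx0c hs0 hz0 hT hΩ
  have hfin := buckling_fin ho hne
  set l := (buckling Ω).toReal with hl
  have hl0 : 0 ≤ l := ENNReal.toReal_nonneg
  have hlam : ∀ ψ, IsTest Ω ψ → l * gradEnergy ψ ≤ plateEnergy ψ := fun ψ h => lam_le h
  -- positivity
  have hlpos : 0 < l := by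
    obtain ⟨q, hq, L, hL⟩ := bdd_of_fin ho hconv hne hv
    have hL0 : 0 ≤ L := (norm_nonneg _).trans (hL q hq)
    have hbd : ∀ x ∈ Ω, F.s x ≤ F.s q + L := by
      intro x hx
      have e1 : F.s x - F.s q = inner ℝ F.e (x - q) := by
        unfold Frame.s; rw [inner_sub_right]; ring
      have e2 := real_inner_le_norm F.e (x - q)
      rw [F.he, one_mul] at e2
      have := hL x hx
      linarith
    have hsq := (hΩ q hq).1
    obtain ⟨φ, hφ, hN, hQ⟩ := near_min hfin (κ := 1 / (8 * (F.s q + L) ^ 2)) (by positivity)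
    have h3 := F.grad_le_plate (fun x hx => (hΩ x hx).1) (by linarith : 0 ≤ F.s q + L) hbd hφ
    rw [hN] at h3
    by_contra hcon
    have hl00 : l = 0 := le_antisymm (not_lt.1 hcon) hl0
    rw [← hl, hl00, zero_add] at hQ
    have h4 : 4 * (F.s q + L) ^ 2 * plateEnergy φ ≤ 4 * (F.s q + L) ^ 2 *
        (1 / (8 * (F.s q + L) ^ 2)) := mul_le_mul_of_nonneg_left hQ (by positivity)
    have h5 : 4 * (F.s q + L) ^ 2 * (1 / (8 * (F.s q + L) ^ 2)) = 1 / 2 := by
      have : (F.s q + L) ≠ 0 := by linarith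
      field_simp; norm_num
    linarith
  obtain ⟨b, hb1, hb2, hβ⟩ := exists_b (T := T)
  obtain ⟨M0, hM0, hap⟩ := F.apriori_aux hb1.le hb2 hβ hl0 hT
  obtain ⟨C1, hC1, hest⟩ := F.cut_est (T := T) hb1.le
  have hap' := hap Ω hΩ hlam
  have hest' := hest Ω hΩ
  -- choice of ε
  set K := l * M0 + 1 + C1 * M0 with hK
  have hK0 : 0 < K := by positivity
  set θ := l * c / (3 * p * K) with hθ
  have hθ0 : 0 < θ := by positivity
  obtain ⟨ε, hε, hε1, hε2, hε3, hε4⟩ : ∃ ε : ℝ, 0 < ε ∧ ε < ε0 ∧ 3 * ε ≤ 1 ∧ c * ε < p / 2 ∧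
      (3 * ε) ^ (b - 1) < θ ∧ (3 * ε) ^ b * M0 ≤ 1 / 2 := by
    have t1 : Tendsto (fun y : ℝ => (3 * y) ^ (b - 1)) (𝓝 0) (𝓝 0) := by
      have h3 : Tendsto (fun y : ℝ => y ^ (b - 1)) (𝓝 0) (𝓝 0) := by
        have := (Real.continuousAt_rpow_const 0 (b - 1) (Or.inr (by linarith))).tendsto
        rwa [Real.zero_rpow (by linarith)] at this
      have h4 : Tendsto (fun y : ℝ => 3 * y) (𝓝 0) (𝓝 0) := by
        have : Tendsto (fun y : ℝ => 3 * y) (𝓝 0) (𝓝 (3 * 0)) :=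
          (continuous_const.mul continuous_id).tendsto 0
        simpa using this
      exact h3.comp h4
    have t2 : Tendsto (fun y : ℝ => (3 * y) ^ b * M0) (𝓝 0) (𝓝 0) := by
      have h3 : Tendsto (fun y : ℝ => y ^ b) (𝓝 0) (𝓝 0) := by
        have := (Real.continuousAt_rpow_const 0 b (Or.inr (by linarith))).tendsto
        rwa [Real.zero_rpow (by linarith)] at this
      have h4 : Tendsto (fun y : ℝ => 3 * y) (𝓝 0) (𝓝 0) := by
        have : Tendsto (fun y : ℝ => 3 * y) (𝓝 0) (𝓝 (3 * 0)) :=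
          (continuous_const.mul continuous_id).tendsto 0
        simpa using this
      have := (h3.comp h4).mul_const M0
      simpa using this
    have a1 : ∀ᶠ y in 𝓝[>] (0:ℝ), (3 * y) ^ (b - 1) < θ :=
      (t1.mono_left nhdsWithin_le_nhds).eventually_lt_const hθ0
    have a2 : ∀ᶠ y in 𝓝[>] (0:ℝ), (3 * y) ^ b * M0 < 1 / 2 :=
      (t2.mono_left nhdsWithin_le_nhds).eventually_lt_const (by norm_num)
    have a3 : ∀ᶠ y in 𝓝[>] (0:ℝ), y < min ε0 (min (1 / 3) (p / (2 * c))) :=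
      nhdsWithin_le_nhds (Iio_mem_nhds (by positivity))
    obtain ⟨y, hy1, hy2, hy3, hy4⟩ := (a1.and (a2.and (a3.and self_mem_nhdsWithin))).exists
    have hy4 : 0 < y := hy4
    refine ⟨y, hy4, lt_of_lt_of_le hy3 (min_le_left _ _), ?_, ?_, hy1, hy2.le⟩
    · have := lt_of_lt_of_le hy3 ((min_le_right _ _).trans (min_le_left _ _))
      linarith
    · have := lt_of_lt_of_le hy3 ((min_le_right _ _).trans (min_le_right _ _))
      rw [lt_div_iff₀ (by positivity)] at this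
      linarith
  obtain ⟨hε4, hε5⟩ := hε4
  have h3ε : 0 < 3 * ε := by linarith
  have hpow : 0 < (3 * ε) ^ b := Real.rpow_pos_of_pos h3ε _
  obtain ⟨κ0, hκ0, hap3⟩ := hap' ε hε
  obtain ⟨φ, hφ, hN, hQ⟩ := near_min hfin (κ := min κ0 ((3 * ε) ^ b)) (lt_min hκ0 hpow)
  rw [← hl] at hQ
  have hQ1 : plateEnergy φ ≤ l + κ0 := hQ.trans (by linarith [min_le_left κ0 ((3 * ε) ^ b)])
  have hQ2 : plateEnergy φ ≤ l + (3 * ε) ^ b :=
    hQ.trans (by linarith [min_le_right κ0 ((3 * ε) ^ b)])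
  have hM := hap3 φ hφ hN hQ1
  obtain ⟨g1, g2⟩ := hest' ε hε φ hφ
  set M := (F.shift ε).M b φ with hMdef
  set ψ : E2 → ℝ := fun x => φ x * F.eta ε x with hψ
  have hψt : IsTest (F.cutSet Ω ε) ψ := F.cut_test hφ hε
  have hpow2 : (3 * ε) ^ (b + 2) ≤ (3 * ε) ^ b :=
    Real.rpow_le_rpow_of_exponent_ge h3ε hε2 (by linarith)
  have hpow2p : 0 < (3 * ε) ^ (b + 2) := Real.rpow_pos_of_pos h3ε _
  have hNψ : 1 - (3 * ε) ^ b * M0 ≤ gradEnergy ψ := by
    have a1 : (3 * ε) ^ (b + 2) * M ≤ (3 * ε) ^ (b + 2) * M0 :=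
      mul_le_mul_of_nonneg_left hM hpow2p.le
    have a2 : (3 * ε) ^ (b + 2) * M0 ≤ (3 * ε) ^ b * M0 :=
      mul_le_mul_of_nonneg_right hpow2 hM0
    rw [hN] at g2
    linarith
  have hNpos : 0 < gradEnergy ψ := by linarith
  have hQψ : plateEnergy ψ ≤ l + (3 * ε) ^ b + C1 * (3 * ε) ^ b * M0 := by
    have a1 : C1 * (3 * ε) ^ b * M ≤ C1 * (3 * ε) ^ b * M0 :=
      mul_le_mul_of_nonneg_left hM (by positivity)
    linarith
  have hψ0 : ψ ≠ 0 := by
    intro h0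
    rw [h0] at hNpos
    unfold gradEnergy at hNpos
    simp at hNpos
  -- the competitor
  set r := 1 - c * ε / p with hr
  have hcp : c * ε / p < 1 / 2 := by rw [div_lt_iff₀ hp]; linarith
  have hcp0 : 0 < c * ε / p := by positivity
  have hr0 : 0 < r := by linarith
  have hsc : Continuous F.s := F.s_smooth.continuous
  have hcutopen : IsOpen (F.cutSet Ω ε) := ho.inter (isOpen_lt continuous_const hsc)
  have hcutne : (F.cutSet Ω ε).Nonempty := by
    by_contra hemp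
    rw [not_nonempty_iff_eq_empty] at hemp
    apply hψ0
    funext x
    have : x ∉ tsupport ψ := by
      intro hx
      have := hψt.supp hx
      rw [hemp] at this; exact this
    exact image_eq_zero_of_notMem_tsupport this
  have hper2 : perimeter (F.cutSet Ω ε) ≤ ENNReal.ofReal (p - c * ε) := by
    have a1 := (hcut ε hε hε1).trans hper
    have a2 : perimeter (F.cutSet Ω ε) ≤ ENNReal.ofReal p - ENNReal.ofReal (c * ε) :=
      ENNReal.le_sub_of_add_le_right ENNReal.ofReal_ne_top a1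
    rwa [← ENNReal.ofReal_sub _ (by positivity)] at a2
  have hadm : Admissible p (dil r (F.cutSet Ω ε)) := by
    refine ⟨?_, ?_, ?_, ?_⟩
    · exact hcutopen.preimage (continuous_const_smul r)
    · obtain ⟨y, hy⟩ := hcutne
      refine ⟨r⁻¹ • y, ?_⟩
      show r • (r⁻¹ • y) ∈ F.cutSet Ω ε
      rw [smul_smul, mul_inv_cancel₀ hr0.ne', one_smul]; exact hy
    · exact vol_dil hr0 (lt_of_le_of_lt (measure_mono inter_subset_left) hv)
    · refine (per_dil hr0).trans ?_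
      calc ENNReal.ofReal r⁻¹ * perimeter (F.cutSet Ω ε)
          ≤ ENNReal.ofReal r⁻¹ * ENNReal.ofReal (p - c * ε) := by gcongr
        _ = ENNReal.ofReal (r⁻¹ * (p - c * ε)) := (ENNReal.ofReal_mul (by positivity)).symm
        _ = ENNReal.ofReal p := by
          congr 1
          have : p - c * ε = r * p := by rw [hr]; field_simp
          rw [this, ← mul_assoc, inv_mul_cancel₀ hr0.ne', one_mul]
  have hle := hmin _ hadm
  have hψr : IsTest (dil r (F.cutSet Ω ε)) (fun y => ψ (r • y)) := hψt.dil hr0.ne'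
  have hfin2 := buckling_fin hadm.1 hadm.2.1
  have hle2 : l ≤ (buckling (dil r (F.cutSet Ω ε))).toReal := ENNReal.toReal_mono hfin2 hle
  have hlam2 := lam_le hψr
  rw [grad_dil hψt hr0, plate_dil hψt hr0] at hlam2
  have hfinal : l * gradEnergy ψ ≤ r ^ 2 * plateEnergy ψ :=
    (mul_le_mul_of_nonneg_right hle2 hNpos.le).trans hlam2
  have hr1 : r ^ 2 ≤ r := by
    have : r ≤ 1 := by linarith
    calc r ^ 2 = r * r := by ring
      _ ≤ r * 1 := mul_le_mul_of_nonneg_left this hr0.le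
      _ = r := mul_one r
  have hB0 : 0 ≤ l + (3 * ε) ^ b + C1 * (3 * ε) ^ b * M0 := by positivity
  have a1 : l * (1 - (3 * ε) ^ b * M0) ≤ r * (l + (3 * ε) ^ b + C1 * (3 * ε) ^ b * M0) := by
    calc l * (1 - (3 * ε) ^ b * M0) ≤ l * gradEnergy ψ := mul_le_mul_of_nonneg_left hNψ hl0
      _ ≤ r ^ 2 * plateEnergy ψ := hfinal
      _ ≤ r ^ 2 * (l + (3 * ε) ^ b + C1 * (3 * ε) ^ b * M0) :=
        mul_le_mul_of_nonneg_left hQψ (sq_nonneg _)
      _ ≤ _ := mul_le_mul_of_nonneg_right hr1 hB0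
  have a2 : r * (l + (3 * ε) ^ b + C1 * (3 * ε) ^ b * M0) ≤
      (l - l * (c * ε / p)) + ((3 * ε) ^ b + C1 * (3 * ε) ^ b * M0) := by
    have : r * ((3 * ε) ^ b + C1 * (3 * ε) ^ b * M0) ≤ 1 * ((3 * ε) ^ b + C1 * (3 * ε) ^ b * M0) := by
      apply mul_le_mul_of_nonneg_right (by linarith) (by positivity)
    have e : r * (l + (3 * ε) ^ b + C1 * (3 * ε) ^ b * M0) =
      (l - l * (c * ε / p)) + r * ((3 * ε) ^ b + C1 * (3 * ε) ^ b * M0) := by rw [hr]; ring
    rw [e]; linarith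
  have a3 : l * (c * ε / p) ≤ (3 * ε) ^ b * K := by
    rw [hK]; nlinarith
  have a4 : (3 * ε) ^ b = (3 * ε) * (3 * ε) ^ (b - 1) := by
    have : (3 * ε) ^ b = (3 * ε) ^ (1 + (b - 1)) := by congr 1; ring
    rw [this, Real.rpow_add h3ε, Real.rpow_one]
  have a5 : (3 * ε) ^ b * K < (3 * ε) * θ * K := by
    rw [a4]
    apply mul_lt_mul_of_pos_right _ hK0
    exact mul_lt_mul_of_pos_left hε4 h3ε
  have a6 : (3 * ε) * θ * K = l * (c * ε / p) := by
    rw [hθ]; field_simp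
  linarith

end Pool.Agent.W794.Bk
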