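import Pool.Agent.W794.Bk1

open MeasureTheory Set
open scoped ENNReal ContDiff Topology

namespace Pool.Agent.W794.Bk

namespace Frame
variable (F : Frame)

/-- weighted integral -/
noncomputable def J (a : ℝ) (G : E2 → ℝ) : ℝ := ∫ x, F.P a x * G x

theorem J_add {G H : E2 → ℝ} (hG : IsTest F.U G) (hH : IsTest F.U H) (a : ℝ) :
    F.J a (fun x => G x + H x) = F.J a G + F.J a H := by
  unfold J
  rw [← integral_add (F.int hG a) (F.int hH a)]
  congr 1; funext x; ring

theorem J_smul (G : E2 → ℝ) (a c : ℝ) :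
    F.J a (fun x => c * G x) = c * F.J a G := by
  unfold J
  rw [← integral_const_mul]
  congr 1; funext x; ring

theorem J_e {G : E2 → ℝ} (hG : IsTest F.U G) (a : ℝ) :
    F.J a (D F.e G) = - a * F.J (a - 1) G := F.ibp hG a

theorem J_f {G : E2 → ℝ} (hG : IsTest F.U G) (a : ℝ) :
    F.J a (D F.f G) = 0 := F.ibpz hG a

theorem J_e_mul {u v : E2 → ℝ} (hu : IsTest F.U u) (hv : IsTest F.U v) (a : ℝ) :
    F.J a (fun x => D F.e u x * v x) + F.J a (fun x => u x * D F.e v x)
      = - a * F.J (a - 1) (fun x => u x * v x) := by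
  rw [← F.J_e (hu.mul hv.smooth) a, ← F.J_add ((hu.D _).mul hv.smooth)
    (hu.mul (hv.D _).smooth)]
  congr 1; funext x
  rw [D_mul hu.smooth hv.smooth]

theorem J_f_mul {u v : E2 → ℝ} (hu : IsTest F.U u) (hv : IsTest F.U v) (a : ℝ) :
    F.J a (fun x => D F.f u x * v x) + F.J a (fun x => u x * D F.f v x) = 0 := by
  rw [← F.J_f (hu.mul hv.smooth) a, ← F.J_add ((hu.D _).mul hv.smooth)
    (hu.mul (hv.D _).smooth)]
  congr 1; funext x
  rw [D_mul hu.smooth hv.smooth]

theorem J_comm (a : ℝ) (u v : E2 → ℝ) :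
    F.J a (fun x => u x * v x) = F.J a (fun x => v x * u x) := by
  unfold J; congr 1; funext x; ring

/-- multiplication by powers of `s` -/
theorem mulP {G : E2 → ℝ} (hG : IsTest F.U G) (a : ℝ) : IsTest F.U (fun x => G x * F.P a x) := by
  have h1 : tsupport (fun x => G x * F.P a x) ⊆ tsupport G := tsupport_mul_subset_left
  refine ⟨?_, hG.cpt.mul_right, h1.trans hG.supp⟩
  apply contDiff_iff_contDiffAt.2
  intro x
  by_cases hx : x ∈ tsupport G
  · exact (hG.smooth.contDiffAt).mul (F.P_smooth a (hG.supp hx))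
  · have h0 : G =ᶠ[𝓝 x] 0 := notMem_tsupport_iff_eventuallyEq.1 hx
    have : (fun x => G x * F.P a x) =ᶠ[𝓝 x] fun _ => (0:ℝ) := by
      filter_upwards [h0] with y hy
      simp [hy]
    exact contDiffAt_const.congr_of_eventuallyEq this

theorem fderiv_mulP {G : E2 → ℝ} (hG : IsTest F.U G) (a : ℝ) (v x : E2) :
    D v (fun x => G x * F.P a x) x =
      D v G x * F.P a x + a * inner ℝ F.e v * (G x * F.P (a - 1) x) := by
  by_cases hx : x ∈ tsupport G
  · unfold D
    rw [fderiv_fun_mul (hG.smooth.differentiable (by simp) x)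
      (F.P_deriv a (hG.supp hx)).differentiableAt, (F.P_deriv a (hG.supp hx)).fderiv]
    simp; ring
  · have h0 : G =ᶠ[𝓝 x] 0 := notMem_tsupport_iff_eventuallyEq.1 hx
    have h1 : (fun x => G x * F.P a x) =ᶠ[𝓝 x] fun _ => (0:ℝ) := by
      filter_upwards [h0] with y hy
      simp [hy]
    have h2 : G =ᶠ[𝓝 x] fun _ => (0:ℝ) := h0
    unfold D
    rw [h1.fderiv_eq, h2.fderiv_eq, h2.eq_of_nhds]
    simp

theorem D_eP {G : E2 → ℝ} (hG : IsTest F.U G) (a : ℝ) :
    D F.e (fun x => G x * F.P a x) =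
      fun x => D F.e G x * F.P a x + a * (G x * F.P (a - 1) x) := by
  funext x
  rw [F.fderiv_mulP hG, real_inner_self_eq_norm_sq, F.he]; ring

theorem D_fP {G : E2 → ℝ} (hG : IsTest F.U G) (a : ℝ) :
    D F.f (fun x => G x * F.P a x) = fun x => D F.f G x * F.P a x := by
  funext x
  rw [F.fderiv_mulP hG, F.hef]; ring

theorem exists_basis : ∃ b : OrthonormalBasis (Fin 2) ℝ E2, b 0 = F.e ∧ b 1 = F.f := by
  have ho : Orthonormal ℝ ![F.e, F.f] := by
    rw [orthonormal_iff_ite]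
    intro i j
    fin_cases i <;> fin_cases j <;>
      simp [F.hef, F.hfe, F.he, F.hf]
  have hc : Fintype.card (Fin 2) = Module.finrank ℝ E2 := by simp
  refine ⟨(basisOfOrthonormalOfCardEqFinrank ho hc).toOrthonormalBasis ?_, ?_, ?_⟩
  · simpa using ho
  · simp
  · simp

theorem lap_eq {u : E2 → ℝ} (hu : ContDiff ℝ ∞ u) (x : E2) :
    Laplacian.laplacian u x = D F.e (D F.e u) x + D F.f (D F.f u) x := by
  obtain ⟨b, h0, h1⟩ := F.exists_basis
  have hd : DifferentiableAt ℝ (fderiv ℝ u) x :=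
    ((hu.fderiv_right (m := ∞) (by norm_cast)).differentiable (by simp)) x
  have e1 : ∀ a b : E2, D a (D b u) x = fderiv ℝ (fderiv ℝ u) x a b := by
    intro a b
    unfold D
    rw [fderiv_clm_apply hd (differentiableAt_const _)]
    simp
  rw [InnerProductSpace.laplacian_eq_iteratedFDeriv_orthonormalBasis u b]
  simp [Fin.sum_univ_two, iteratedFDeriv_two_apply, h0, h1, e1]

theorem norm_sq_eq (x : E2) : ‖x‖ ^ 2 = (inner ℝ F.e x) ^ 2 + (inner ℝ F.f x) ^ 2 := by
  obtain ⟨b, h0, h1⟩ := F.exists_basis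
  have := b.sum_sq_norm_inner_right x
  rw [← this]
  simp [Fin.sum_univ_two, h0, h1]

theorem grad_sq (L : E2 →L[ℝ] ℝ) : ‖L‖ ^ 2 = (L F.e) ^ 2 + (L F.f) ^ 2 := by
  have h1 := F.norm_sq_eq ((InnerProductSpace.toDual ℝ E2).symm L)
  have h2 : ‖(InnerProductSpace.toDual ℝ E2).symm L‖ = ‖L‖ := LinearIsometryEquiv.norm_map _ _
  rw [h2] at h1
  rw [h1, real_inner_comm, real_inner_comm (F := E2) _ F.f]
  simp

end Frame

end Pool.Agent.W794.Bk
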