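import Pool.Agent.W794.Bk2

open MeasureTheory Set
open scoped ENNReal ContDiff Topology

namespace Pool.Agent.W794.Bk

namespace Frame
variable (F : Frame)

theorem rel_e {u v : E2 → ℝ} (hu : IsTest F.U u) (hv : IsTest F.U v) (a a' : ℝ) (h : a' = a - 1) :
    F.J a (fun x => D F.e u x * v x) + F.J a (fun x => u x * D F.e v x)
      = - a * F.J a' (fun x => u x * v x) := by
  rw [h]; exact F.J_e_mul hu hv a

theorem P_mul {a b c : ℝ} (h : c = a + b) {x : E2} (hx : x ∈ F.U) :
    F.P c x = F.P a x * F.P b x := by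
  unfold P; rw [h, Real.rpow_add hx]

theorem P_pos (a : ℝ) {x : E2} (hx : x ∈ F.U) : 0 < F.P a x := Real.rpow_pos_of_pos hx a

theorem J_nonneg {G : E2 → ℝ} (a : ℝ) (hG : ∀ x, 0 ≤ G x) (hs : ∀ x, x ∉ F.U → G x = 0) :
    0 ≤ F.J a G := by
  unfold J
  apply integral_nonneg
  intro x
  by_cases hx : x ∈ F.U
  · exact mul_nonneg (F.P_pos a hx).le (hG x)
  · simp [hs x hx]

theorem zero_out {u : E2 → ℝ} (hu : IsTest F.U u) {x : E2} (hx : x ∉ F.U) : u x = 0 :=
  image_eq_zero_of_notMem_tsupport (fun h => hx (hu.supp h))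

/-- Hardy's inequality with a power weight -/
theorem hardy {v : E2 → ℝ} (hv : IsTest F.U v) (c c' : ℝ) (hc : c' = c - 2) :
    (c - 1) ^ 2 / 4 * F.J c' (fun x => v x * v x)
      ≤ F.J c (fun x => D F.e v x * D F.e v x) := by
  set vs := D F.e v with hvs
  have hvs' : IsTest F.U vs := hv.D _
  have h1 := F.rel_e hv hv (c - 1) c' (by rw [hc]; ring)
  rw [← hvs, F.J_comm (c - 1) v vs] at h1
  -- 0 ≤ ∫ P_c (vs - κ v / s)^2
  set κ := (1 - c) / 2 with hκ
  have h2 : 0 ≤ ∫ x, (F.P c x * (vs x * vs x) + (-2 * κ) * (F.P (c - 1) x * (vs x * v x))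
      + κ ^ 2 * (F.P c' x * (v x * v x))) := by
    apply integral_nonneg
    intro x
    by_cases hx : x ∈ F.U
    · have e1 : F.P (c - 1) x = F.P c x * F.P (-1) x := F.P_mul (by ring) hx
      have e2 : F.P c' x = F.P c x * F.P (-1) x * F.P (-1) x := by
        rw [← e1]; exact F.P_mul (by rw [hc]; ring) hx
      have : F.P c x * (vs x * vs x) + (-2 * κ) * (F.P (c - 1) x * (vs x * v x))
        + κ ^ 2 * (F.P c' x * (v x * v x)) = F.P c x * (vs x - κ * F.P (-1) x * v x) ^ 2 := by
        rw [e1, e2]; ring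
      simp only [Pi.zero_apply]
      rw [this]
      exact mul_nonneg (F.P_pos c hx).le (sq_nonneg _)
    · simp [F.zero_out hv hx, F.zero_out hvs' hx]
  rw [integral_add, integral_add, integral_const_mul, integral_const_mul] at h2
  · change 0 ≤ F.J c (fun x => vs x * vs x) + (-2 * κ) * F.J (c - 1) (fun x => vs x * v x)
      + κ ^ 2 * F.J c' (fun x => v x * v x) at h2
    have h3 : F.J (c - 1) (fun x => vs x * v x) = κ * F.J c' (fun x => v x * v x) := by
      rw [hκ]; linarith
    rw [h3] at h2
    have : (c - 1) ^ 2 / 4 = κ ^ 2 := by rw [hκ]; ring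
    rw [this]
    nlinarith
  · exact F.int (hvs'.mul hvs'.smooth) c
  · exact (F.int (hvs'.mul hv.smooth) (c - 1)).const_mul _
  · exact (F.int (hvs'.mul hvs'.smooth) c).add ((F.int (hvs'.mul hv.smooth) (c - 1)).const_mul _)
  · exact (F.int (hv.mul hv.smooth) c').const_mul _

/-- Poincaré's inequality across a cone -/
theorem poinc {v : E2 → ℝ} (hv : IsTest F.U v) {T : ℝ}
    (hcone : ∀ x ∈ tsupport v, |F.z x| ≤ T * F.s x) (c c' : ℝ) (hc : c' = c - 2) :
    F.J c' (fun x => v x * v x) ≤ 4 * T ^ 2 * F.J c (fun x => D F.f v x * D F.f v x) := by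
  set w := D F.f v with hw
  have hw' : IsTest F.U w := hv.D _
  have hzv : IsTest F.U (fun x => v x * F.z x) := hv.mul F.z_smooth
  have h1 := F.J_f_mul hzv hv c'
  have hz : ∀ x, D F.f (fun x => v x * F.z x) x = w x * F.z x + v x := by
    intro x
    rw [D_mul hv.smooth F.z_smooth]
    have : D F.f F.z x = 1 := by
      unfold D
      rw [(F.z_deriv x).fderiv]
      simp [F.hf]
    rw [this, mul_one]
  -- J c' (v²) = - 2 J c' (z v w)
  have h2 : F.J c' (fun x => v x * v x) = -2 * F.J c' (fun x => v x * F.z x * w x) := by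
    have e1 : F.J c' (fun x => D F.f (fun x => v x * F.z x) x * v x) =
        F.J c' (fun x => v x * F.z x * w x) + F.J c' (fun x => v x * v x) := by
      rw [← F.J_add (hzv.mul hw'.smooth) (hv.mul hv.smooth)]
      congr 1; funext x; rw [hz]; ring
    rw [e1] at h1
    change F.J c' (fun x => v x * F.z x * w x) + F.J c' (fun x => v x * v x)
      + F.J c' (fun x => v x * F.z x * w x) = 0 at h1
    linarith
  have h3 : -2 * F.J c' (fun x => v x * F.z x * w x) ≤
      1 / 2 * F.J c' (fun x => v x * v x) + 2 * T ^ 2 * F.J c (fun x => w x * w x) := by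
    unfold J
    rw [← integral_const_mul, ← integral_const_mul, ← integral_const_mul, ← integral_add]
    · apply integral_mono
      · exact (F.int (hzv.mul hw'.smooth) c').const_mul _
      · exact ((F.int (hv.mul hv.smooth) c').const_mul _).add
          ((F.int (hw'.mul hw'.smooth) c).const_mul _)
      · intro x
        simp only
        by_cases hx : x ∈ tsupport v
        · have hxU : x ∈ F.U := hv.supp hx
          have hs : 0 < F.s x := hxU
          have e1 : F.P c x = F.P c' x * (F.s x) ^ 2 := by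
            have := F.P_mul (a := c') (b := 2) (c := c) (by rw [hc]; ring) hxU
            rw [this]; unfold P; norm_num
          have hz2 : (F.z x) ^ 2 ≤ T ^ 2 * (F.s x) ^ 2 := by
            have := hcone x hx
            have h5 : |F.z x| ^ 2 ≤ (T * F.s x) ^ 2 := by
              apply pow_le_pow_left₀ (abs_nonneg _) this
            rw [sq_abs] at h5; nlinarith
          have hp : 0 < F.P c' x := F.P_pos c' hxU
          rw [e1]
          have k1 : -2 * (v x * F.z x * w x) ≤ 1/2 * (v x * v x) + 2 * (F.z x)^2 * (w x * w x) := by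
            nlinarith [sq_nonneg (v x + 2 * F.z x * w x)]
          have k2 : (F.z x)^2 * (w x * w x) ≤ T ^ 2 * (F.s x) ^ 2 * (w x * w x) :=
            mul_le_mul_of_nonneg_right hz2 (mul_self_nonneg _)
          have k3 : F.P c' x * (-2 * (v x * F.z x * w x)) ≤
            F.P c' x * (1/2 * (v x * v x) + 2 * (T ^ 2 * (F.s x) ^ 2 * (w x * w x))) := by
            apply mul_le_mul_of_nonneg_left _ hp.le
            nlinarith
          nlinarith
        · have hvx : v x = 0 := image_eq_zero_of_notMem_tsupport hx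
          have h0 : v =ᶠ[𝓝 x] fun _ => 0 := notMem_tsupport_iff_eventuallyEq.1 hx
          have hwx : w x = 0 := by
            rw [hw]; unfold D; rw [h0.fderiv_eq]; simp
          simp [hvx, hwx]
    · exact (F.int (hv.mul hv.smooth) c').const_mul _
    · exact (F.int (hw'.mul hw'.smooth) c).const_mul _
  have : 4 * T ^ 2 * F.J c (fun x => w x * w x) = 2 * (2 * T ^ 2 * F.J c (fun x => w x * w x)) := by
    ring
  rw [this]
  linarith

end Frame

end Pool.Agent.W794.Bk
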