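import Pool.Agent.W794.Bk3

open MeasureTheory Set
open scoped ENNReal ContDiff Topology

namespace Pool.Agent.W794.Bk

namespace Frame
variable (F : Frame)

/-- the basic relations between the weighted integrals -/
theorem relations {u : E2 → ℝ} (hu : IsTest F.U u) (b : ℝ) {us uz uss usz uzz : E2 → ℝ}
    (hus : us = D F.e u) (huz : uz = D F.f u) (huss : uss = D F.e us) (husz : usz = D F.f us)
    (huzz : uzz = D F.f uz) :
    F.J (-b) (fun x => uss x * uzz x) = F.J (-b) (fun x => usz x * usz x)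
      - b * (b + 1) / 2 * F.J (-b - 2) (fun x => uz x * uz x) ∧
    F.J (-b - 1) (fun x => uss x * us x) = (b + 1) / 2 * F.J (-b - 2) (fun x => us x * us x) ∧
    F.J (-b - 1) (fun x => uzz x * us x) = - ((b + 1) / 2 * F.J (-b - 2) (fun x => uz x * uz x)) ∧
    F.J (-b - 2) (fun x => uss x * u x) = (b + 2) * (b + 3) / 2 * F.J (-b - 4) (fun x => u x * u x)
      - F.J (-b - 2) (fun x => us x * us x) ∧
    F.J (-b - 2) (fun x => uzz x * u x) = - F.J (-b - 2) (fun x => uz x * uz x) ∧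
    F.J (-b - 3) (fun x => us x * u x) = (b + 3) / 2 * F.J (-b - 4) (fun x => u x * u x) := by
  have tus : IsTest F.U us := by rw [hus]; exact hu.D _
  have tuz : IsTest F.U uz := by rw [huz]; exact hu.D _
  have tuss : IsTest F.U uss := by rw [huss]; exact tus.D _
  have tusz : IsTest F.U usz := by rw [husz]; exact tus.D _
  have tuzz : IsTest F.U uzz := by rw [huzz]; exact tuz.D _
  have c1 : D F.e uz = usz := by
    funext x; rw [huz, husz, hus]; exact D_comm hu.smooth _ _ _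
  have c2 : D F.e usz = D F.f uss := by
    funext x; rw [husz, huss]; exact D_comm tus.smooth _ _ _
  -- (uss, uz) in direction f
  have r1 := F.J_f_mul tuss tuz (-b)
  rw [← huzz] at r1
  have r2 := F.rel_e tusz tuz (-b) (-b - 1) rfl
  rw [c1, c2] at r2
  have r3 := F.rel_e tuz tuz (-b - 1) (-b - 2) (by ring)
  rw [c1, F.J_comm (-b - 1) uz usz] at r3
  have r4 := F.rel_e tus tus (-b - 1) (-b - 2) (by ring)
  rw [← huss, F.J_comm (-b - 1) us uss] at r4
  have r5 := F.J_f_mul tus tuz (-b - 1)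
  rw [← husz, ← huzz, F.J_comm (-b - 1) us uzz] at r5
  have r6 := F.rel_e hu tus (-b - 2) (-b - 3) (by ring)
  rw [← hus, ← huss, F.J_comm (-b - 2) u uss, F.J_comm (-b - 3) u us] at r6
  have r7 := F.rel_e hu hu (-b - 3) (-b - 4) (by ring)
  rw [← hus, F.J_comm (-b - 3) u us] at r7
  have r8 := F.J_f_mul hu tuz (-b - 2)
  rw [← huz, ← huzz, F.J_comm (-b - 2) u uzz] at r8
  have r3' : F.J (-b - 1) (fun x => usz x * uz x)
      = (b + 1) / 2 * F.J (-b - 2) (fun x => uz x * uz x) := by linarith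
  rw [r3'] at r2 r5
  refine ⟨by linarith, by linarith, by linarith, ?_, by linarith, by linarith⟩
  have : F.J (-b - 3) (fun x => us x * u x) = (b + 3) / 2 * F.J (-b - 4) (fun x => u x * u x) := by
    linarith
  rw [this] at r6
  linarith

/-- `∫ Δu Δ(u s^{-b})` -/
noncomputable def I (b : ℝ) (u : E2 → ℝ) : ℝ :=
  ∫ x, Laplacian.laplacian u x * Laplacian.laplacian (fun y => u y * F.P (-b) y) x

/-- `∫ s^{-b} |D²u|²` -/
noncomputable def M (b : ℝ) (u : E2 → ℝ) : ℝ :=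
  F.J (-b) (fun x => D F.e (D F.e u) x * D F.e (D F.e u) x) +
  2 * F.J (-b) (fun x => D F.f (D F.e u) x * D F.f (D F.e u) x) +
  F.J (-b) (fun x => D F.f (D F.f u) x * D F.f (D F.f u) x)

theorem lap_uP {u : E2 → ℝ} (hu : IsTest F.U u) (b : ℝ) (x : E2) :
    Laplacian.laplacian (fun y => u y * F.P (-b) y) x =
      F.P (-b) x * (D F.e (D F.e u) x + D F.f (D F.f u) x)
      - 2 * b * (F.P (-b - 1) x * D F.e u x) + b * (b + 1) * (F.P (-b - 2) x * u x) := by
  have hm := F.mulP hu (-b)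
  rw [F.lap_eq hm.smooth]
  have h1 : D F.f (D F.f (fun y => u y * F.P (-b) y)) x = D F.f (D F.f u) x * F.P (-b) x := by
    rw [F.D_fP hu, F.D_fP (hu.D _)]
  have h2 : D F.e (D F.e (fun y => u y * F.P (-b) y)) x = D F.e (D F.e u) x * F.P (-b) x
      - 2 * b * (F.P (-b - 1) x * D F.e u x) + b * (b + 1) * (F.P (-b - 2) x * u x) := by
    rw [F.D_eP hu]
    have t1 : IsTest F.U (fun x => D F.e u x * F.P (-b) x) := F.mulP (hu.D _) _
    have t2 : IsTest F.U (fun x => u x * F.P (-b - 1) x) := F.mulP hu _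
    have t3 : IsTest F.U (fun x => -b * (u x * F.P (-b - 1) x)) := t2.smul _
    rw [D_add t1.smooth t3.smooth, F.D_eP (hu.D _)]
    have : D F.e (fun x => -b * (u x * F.P (-b - 1) x)) x =
        -b * D F.e (fun x => u x * F.P (-b - 1) x) x := by
      unfold D
      rw [fderiv_const_mul (t2.smooth.differentiable (by simp) x)]
      simp
    rw [this, F.D_eP hu]
    have : -b - 1 - 1 = -b - 2 := by ring
    rw [this]
    ring
  rw [h1, h2]; ring

theorem I_eq {u : E2 → ℝ} (hu : IsTest F.U u) (b : ℝ) :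
    F.I b u = F.M b u - 2 * b * (b + 1) * F.J (-b - 2) (fun x => D F.e u x * D F.e u x)
      - b * (b + 1) * F.J (-b - 2) (fun x => D F.f u x * D F.f u x)
      + b * (b + 1) * (b + 2) * (b + 3) / 2 * F.J (-b - 4) (fun x => u x * u x) := by
  obtain ⟨q1, q2, q3, q4, q5, q6⟩ := F.relations hu b rfl rfl rfl rfl rfl
  unfold M
  set us := D F.e u with hus
  set uz := D F.f u with huz
  set uss := D F.e us with huss
  set usz := D F.f us with husz
  set uzz := D F.f uz with huzz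
  have tus : IsTest F.U us := hu.D _
  have tuz : IsTest F.U uz := hu.D _
  have tuss : IsTest F.U uss := tus.D _
  have tusz : IsTest F.U usz := tus.D _
  have tuzz : IsTest F.U uzz := tuz.D _
  have e0 : F.I b u = F.J (-b) (fun x => (uss x * uss x + 2 * (uss x * uzz x)) + uzz x * uzz x)
      + (-2 * b) * F.J (-b - 1) (fun x => uss x * us x + uzz x * us x)
      + b * (b + 1) * F.J (-b - 2) (fun x => uss x * u x + uzz x * u x) := by
    unfold I
    rw [← F.J_smul _ (-b - 1) (-2 * b), ← F.J_smul _ (-b - 2) (b * (b + 1))]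
    unfold J
    rw [← integral_add, ← integral_add]
    · congr 1; funext x
      rw [F.lap_uP hu, F.lap_eq hu.smooth]
      ring
    · exact (F.int (((tuss.mul tuss.smooth).add ((tuss.mul tuzz.smooth).smul 2)).add
        (tuzz.mul tuzz.smooth)) (-b)).add
        (F.int (((tuss.mul tus.smooth).add (tuzz.mul tus.smooth)).smul (-2 * b)) (-b - 1))
    · exact F.int (((tuss.mul hu.smooth).add (tuzz.mul hu.smooth)).smul (b * (b + 1))) (-b - 2)
    · exact F.int (((tuss.mul tuss.smooth).add ((tuss.mul tuzz.smooth).smul 2)).add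
        (tuzz.mul tuzz.smooth)) (-b)
    · exact F.int (((tuss.mul tus.smooth).add (tuzz.mul tus.smooth)).smul (-2 * b)) (-b - 1)
  rw [e0, F.J_add ((tuss.mul tuss.smooth).add ((tuss.mul tuzz.smooth).smul 2))
      (tuzz.mul tuzz.smooth), F.J_add (tuss.mul tuss.smooth) ((tuss.mul tuzz.smooth).smul 2),
    F.J_smul, F.J_add (tuss.mul tus.smooth) (tuzz.mul tus.smooth),
    F.J_add (tuss.mul hu.smooth) (tuzz.mul hu.smooth), q1, q2, q3, q4, q5]
  ring

/-- the square `X₂ ≥ 0` -/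
theorem X2_nonneg {u : E2 → ℝ} (hu : IsTest F.U u) (b : ℝ) :
    0 ≤ F.J (-b) (fun x => D F.e (D F.e u) x * D F.e (D F.e u) x)
      + ((b + 2) - (b + 3) ^ 2 / 2) * F.J (-b - 2) (fun x => D F.e u x * D F.e u x)
      + (b + 3) ^ 4 / 16 * F.J (-b - 4) (fun x => u x * u x) := by
  obtain ⟨q1, q2, q3, q4, q5, q6⟩ := F.relations hu b rfl rfl rfl rfl rfl
  set us := D F.e u with hus
  set uss := D F.e us with huss
  have tus : IsTest F.U us := hu.D _
  have tuss : IsTest F.U uss := tus.D _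
  set κ := (b + 3) ^ 2 / 4 with hκ
  have i1 := F.int (tuss.mul tuss.smooth) (-b)
  have i2 := F.int ((tus.mul tus.smooth).smul ((b + 2) ^ 2)) (-b - 2)
  have i3 := F.int ((hu.mul hu.smooth).smul (κ ^ 2)) (-b - 4)
  have i4 := F.int ((tuss.mul tus.smooth).smul (-2 * (b + 2))) (-b - 1)
  have i5 := F.int ((tuss.mul hu.smooth).smul (2 * κ)) (-b - 2)
  have i6 := F.int ((tus.mul hu.smooth).smul (-2 * κ * (b + 2))) (-b - 3)
  have h2 : 0 ≤ ∫ x, (((((((fun x => F.P (-b) x * (uss x * uss x))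
      + fun x => F.P (-b - 2) x * ((b + 2) ^ 2 * (us x * us x)))
      + fun x => F.P (-b - 4) x * (κ ^ 2 * (u x * u x)))
      + fun x => F.P (-b - 1) x * ((-2 * (b + 2)) * (uss x * us x)))
      + fun x => F.P (-b - 2) x * ((2 * κ) * (uss x * u x)))
      + fun x => F.P (-b - 3) x * ((-2 * κ * (b + 2)) * (us x * u x))) : E2 → ℝ) x := by
    apply integral_nonneg
    intro x
    simp only [Pi.add_apply, Pi.zero_apply]
    by_cases hx : x ∈ F.U
    · have e1 : F.P (-b - 1) x = F.P (-b) x * F.P (-1) x := F.P_mul (by ring) hx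
      have e2 : F.P (-b - 2) x = F.P (-b) x * F.P (-1) x * F.P (-1) x := by
        rw [← e1]; exact F.P_mul (by ring) hx
      have e3 : F.P (-b - 3) x = F.P (-b) x * F.P (-1) x * F.P (-1) x * F.P (-1) x := by
        rw [← e2]; exact F.P_mul (by ring) hx
      have e4 : F.P (-b - 4) x = F.P (-b) x * F.P (-1) x * F.P (-1) x * F.P (-1) x * F.P (-1) x := by
        rw [← e3]; exact F.P_mul (by ring) hx
      rw [e1, e2, e3, e4]
      have : 0 ≤ F.P (-b) x * (uss x - (b + 2) * F.P (-1) x * us x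
          + κ * F.P (-1) x * F.P (-1) x * u x) ^ 2 :=
        mul_nonneg (F.P_pos _ hx).le (sq_nonneg _)
      refine this.trans (le_of_eq ?_)
      ring
    · simp [F.zero_out hu hx, F.zero_out tus hx, F.zero_out tuss hx]
  rw [integral_add' ((((i1.add i2).add i3).add i4).add i5) i6,
    integral_add' (((i1.add i2).add i3).add i4) i5,
    integral_add' ((i1.add i2).add i3) i4, integral_add' (i1.add i2) i3, integral_add' i1 i2] at h2
  change 0 ≤ F.J (-b) (fun x => uss x * uss x) + F.J (-b - 2) (fun x => (b + 2) ^ 2 * (us x * us x))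
    + F.J (-b - 4) (fun x => κ ^ 2 * (u x * u x))
    + F.J (-b - 1) (fun x => (-2 * (b + 2)) * (uss x * us x))
    + F.J (-b - 2) (fun x => (2 * κ) * (uss x * u x))
    + F.J (-b - 3) (fun x => (-2 * κ * (b + 2)) * (us x * u x)) at h2
  rw [F.J_smul, F.J_smul, F.J_smul, F.J_smul, F.J_smul, q2, q4, q6] at h2
  refine h2.trans (le_of_eq ?_)
  rw [hκ]; ring

/-- coercivity -/
theorem coer_aux {u : E2 → ℝ} (hu : IsTest F.U u) {T : ℝ}
    (hcone : ∀ x ∈ tsupport u, |F.z x| ≤ T * F.s x) {b : ℝ} (hb : 1 ≤ b) (hb2 : b ≤ 11 / 10)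
    (hβ : (b ^ 2 - 1) * (2 * T ^ 2 + 8 * T ^ 4) ≤ 1 / 2) :
    F.M b u ≤ (1 + 2 * b * (b + 1) * (4 + 8 * (b + 3) ^ 2 * T ^ 4) + 8 * b * (b + 1) * T ^ 2)
      * F.I b u := by
  have hI := F.I_eq hu b
  have hX2 := F.X2_nonneg hu b
  have hH1 := F.hardy (hu.D F.f) (-b) (-b - 2) (by ring)
  have hcm : D F.e (D F.f u) = D F.f (D F.e u) := by
    funext x; exact D_comm hu.smooth _ _ _
  rw [hcm] at hH1
  have hX1 := F.hardy hu (-b - 2) (-b - 4) (by ring)
  have hP1 := F.poinc (hu.D F.f) (T := T) (fun x hx => hcone x (by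
      have : tsupport (D F.f u) ⊆ tsupport u := by
        have h : tsupport (Bk.D F.f u) ⊆ tsupport (fderiv ℝ u) := by
          apply closure_mono
          intro x hx h0
          apply hx
          simp only [Bk.D]
          rw [h0]; rfl
        exact h.trans (tsupport_fderiv_subset ℝ)
      exact this hx)) (-b) (-b - 2) (by ring)
  have hP2 := F.poinc hu (T := T) hcone (-b - 2) (-b - 4) (by ring)
  have hA3 : 0 ≤ F.J (-b) (fun x => D F.f (D F.f u) x * D F.f (D F.f u) x) :=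
    F.J_nonneg _ (fun x => mul_self_nonneg _)
      (fun x hx => by simp [F.zero_out ((hu.D F.f).D F.f) hx])
  have hB2 : 0 ≤ F.J (-b - 2) (fun x => D F.f u x * D F.f u x) :=
    F.J_nonneg _ (fun x => mul_self_nonneg _)
      (fun x hx => by simp [F.zero_out (hu.D F.f) hx])
  have hC0 : 0 ≤ F.J (-b - 4) (fun x => u x * u x) :=
    F.J_nonneg _ (fun x => mul_self_nonneg _)
      (fun x hx => by simp [F.zero_out hu hx])
  unfold M at hI ⊢
  set A1 := F.J (-b) (fun x => D F.e (D F.e u) x * D F.e (D F.e u) x)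
  set A2 := F.J (-b) (fun x => D F.f (D F.e u) x * D F.f (D F.e u) x)
  set A3 := F.J (-b) (fun x => D F.f (D F.f u) x * D F.f (D F.f u) x)
  set B1 := F.J (-b - 2) (fun x => D F.e u x * D F.e u x)
  set B2 := F.J (-b - 2) (fun x => D F.f u x * D F.f u x)
  set C0 := F.J (-b - 4) (fun x => u x * u x)
  -- X1
  set X1 := B1 - (b + 3) ^ 2 / 4 * C0 with hX1d
  have hX1' : 0 ≤ X1 := by
    rw [hX1d]
    have : (-b - 2 - 1) ^ 2 / 4 = (b + 3) ^ 2 / 4 := by ring
    rw [this] at hX1; linarith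
  set X2 := A1 + ((b + 2) - (b + 3) ^ 2 / 2) * B1 + (b + 3) ^ 4 / 16 * C0 with hX2d
  have hJ : A1 - 2 * b * (b + 1) * B1 + b * (b + 1) * (b + 2) * (b + 3) / 2 * C0
      = X2 + (5 - 3 * b ^ 2) / 2 * X1 + (9 - b ^ 2) * (1 - b ^ 2) / 16 * C0 := by
    rw [hX2d, hX1d]; ring
  have hI2 : F.I b u = A3 + (2 * A2 - b * (b + 1) * B2) + (X2 + (5 - 3 * b ^ 2) / 2 * X1
      + (9 - b ^ 2) * (1 - b ^ 2) / 16 * C0) := by
    rw [← hJ, hI]; ring
  have hβ0 : 0 ≤ b ^ 2 - 1 := by nlinarith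
  have hb4 : b ^ 2 ≤ 121 / 100 := by nlinarith
  have hh1 : 2 * A2 - b * (b + 1) * B2 ≥ - ((b ^ 2 - 1) / 2) * B2 := by
    have : (-b - 1) ^ 2 / 4 = (b + 1) ^ 2 / 4 := by ring
    rw [this] at hH1
    nlinarith
  have hC0' : C0 ≤ 16 * T ^ 4 * A3 := by
    have : 4 * T ^ 2 * B2 ≤ 4 * T ^ 2 * (4 * T ^ 2 * A3) :=
      mul_le_mul_of_nonneg_left hP1 (by positivity)
    nlinarith
  have hc1 : (9 - b ^ 2) * (1 - b ^ 2) / 16 * C0 ≥ - (b ^ 2 - 1) / 2 * (16 * T ^ 4 * A3) := by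
    have h1 : (9 - b ^ 2) * (b ^ 2 - 1) / 16 * C0 ≤ (b ^ 2 - 1) / 2 * C0 := by
      apply mul_le_mul_of_nonneg_right _ hC0
      nlinarith
    have h2 : (b ^ 2 - 1) / 2 * C0 ≤ (b ^ 2 - 1) / 2 * (16 * T ^ 4 * A3) :=
      mul_le_mul_of_nonneg_left hC0' (by linarith)
    nlinarith
  have hc2 : - ((b ^ 2 - 1) / 2) * B2 ≥ - ((b ^ 2 - 1) / 2) * (4 * T ^ 2 * A3) := by
    have := mul_le_mul_of_nonneg_left hP1 (show 0 ≤ (b ^ 2 - 1) / 2 by linarith)
    linarith
  have hmain : F.I b u ≥ A3 / 2 + X1 / 4 := by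
    have h1 : (b ^ 2 - 1) * (2 * T ^ 2 + 8 * T ^ 4) * A3 ≤ 1 / 2 * A3 :=
      mul_le_mul_of_nonneg_right hβ hA3
    have h2 : (5 - 3 * b ^ 2) / 2 * X1 ≥ 1 / 4 * X1 := by
      apply mul_le_mul_of_nonneg_right _ hX1'
      nlinarith
    nlinarith
  have hI0 : 0 ≤ F.I b u := by linarith
  have hA3I : A3 ≤ 2 * F.I b u := by linarith
  have hX1I : X1 ≤ 4 * F.I b u := by linarith
  have hB2I : B2 ≤ 8 * T ^ 2 * F.I b u := by
    have : 4 * T ^ 2 * A3 ≤ 4 * T ^ 2 * (2 * F.I b u) :=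
      mul_le_mul_of_nonneg_left hA3I (by positivity)
    linarith
  have hC0I : C0 ≤ 32 * T ^ 4 * F.I b u := by
    have : 16 * T ^ 4 * A3 ≤ 16 * T ^ 4 * (2 * F.I b u) :=
      mul_le_mul_of_nonneg_left hA3I (by positivity)
    linarith
  have hB1I : B1 ≤ (4 + 8 * (b + 3) ^ 2 * T ^ 4) * F.I b u := by
    have : (b + 3) ^ 2 / 4 * C0 ≤ (b + 3) ^ 2 / 4 * (32 * T ^ 4 * F.I b u) :=
      mul_le_mul_of_nonneg_left hC0I (by positivity)
    have h3 : B1 = X1 + (b + 3) ^ 2 / 4 * C0 := by rw [hX1d]; ring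
    rw [h3]; nlinarith
  have hbb : 0 ≤ b * (b + 1) := by nlinarith
  have k1 : 2 * b * (b + 1) * B1 ≤ 2 * b * (b + 1) * ((4 + 8 * (b + 3) ^ 2 * T ^ 4) * F.I b u) := by
    apply mul_le_mul_of_nonneg_left hB1I; nlinarith
  have k2 : b * (b + 1) * B2 ≤ b * (b + 1) * (8 * T ^ 2 * F.I b u) :=
    mul_le_mul_of_nonneg_left hB2I hbb
  have k3 : 0 ≤ b * (b + 1) * (b + 2) * (b + 3) / 2 * C0 := by
    apply mul_nonneg _ hC0
    have : 0 ≤ (b + 2) * (b + 3) := by nlinarith
    have := mul_nonneg hbb this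
    nlinarith
  nlinarith

end Frame

end Pool.Agent.W794.Bk
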