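import Pool.Agent.W794.Bk4

open MeasureTheory Set
open scoped ENNReal ContDiff Topology

namespace Pool.Agent.W794.Bk

/-- the standard frame -/
noncomputable def stdFrame : Frame where
  e := EuclideanSpace.single 0 1
  f := EuclideanSpace.single 1 1
  c := 0
  d := 0
  he := by simp
  hf := by simp
  hef := by simp [EuclideanSpace.inner_single_left]

theorem IsTest.mono {U V : Set E2} {u : E2 → ℝ} (h : IsTest U u) (hUV : U ⊆ V) : IsTest V u :=
  ⟨h.smooth, h.cpt, h.supp.trans hUV⟩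

theorem lap_add {u v : E2 → ℝ} (hu : ContDiff ℝ ∞ u) (hv : ContDiff ℝ ∞ v) (t x : ℝ) (y : E2) :
    Laplacian.laplacian (fun x => u x + t * v x) y
      = Laplacian.laplacian u y + t * Laplacian.laplacian v y := by
  have hsm : ∀ {w : E2 → ℝ}, ContDiff ℝ ∞ w → ∀ a : E2, D a (fun x => t * w x) = fun x => t * D a w x := by
    intro w hw a
    funext x
    unfold D
    rw [fderiv_const_mul (hw.differentiable (by simp) x)]
    simp
  have hDs : ∀ {w : E2 → ℝ}, ContDiff ℝ ∞ w → ∀ a : E2, ContDiff ℝ ∞ (D a w) := by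
    intro w hw a
    have : ContDiff ℝ ∞ (fderiv ℝ w) := hw.fderiv_right (by norm_cast)
    exact this.clm_apply contDiff_const
  have htv : ContDiff ℝ ∞ (fun x => t * v x) := contDiff_const.mul hv
  have hadd : ∀ a : E2, D a (fun x => u x + t * v x) = fun x => D a u x + t * D a v x := by
    intro a; funext x
    rw [D_add hu htv, hsm hv]
  rw [stdFrame.lap_eq (hu.add htv), stdFrame.lap_eq hu, stdFrame.lap_eq hv, hadd, hadd,
    D_add (hDs hu _) (contDiff_const.mul (hDs hv _)), D_add (hDs hu _) (contDiff_const.mul (hDs hv _)),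
    hsm (hDs hv _), hsm (hDs hv _)]
  ring

/-- `∫ Δφ Δψ` -/
noncomputable def Qb (φ ψ : E2 → ℝ) : ℝ :=
  ∫ x, Laplacian.laplacian φ x * Laplacian.laplacian ψ x

/-- `∫ ∇φ·∇ψ` -/
noncomputable def Nb (F : Frame) (φ ψ : E2 → ℝ) : ℝ :=
  ∫ x, (D F.e φ x * D F.e ψ x + D F.f φ x * D F.f ψ x)

theorem lap_test {U : Set E2} {u : E2 → ℝ} (hu : IsTest U u) :
    IsTest U (fun x => Laplacian.laplacian u x) := by
  have : (fun x => Laplacian.laplacian u x) =
      fun x => D stdFrame.e (D stdFrame.e u) x + D stdFrame.f (D stdFrame.f u) x := by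
    funext x; exact stdFrame.lap_eq hu.smooth x
  rw [this]
  exact ((hu.D _).D _).add ((hu.D _).D _)

theorem plate_eq (φ : E2 → ℝ) : plateEnergy φ = Qb φ φ := by
  unfold plateEnergy Qb
  congr 1; funext x; ring

theorem grad_eq (F : Frame) (φ : E2 → ℝ) : gradEnergy φ = Nb F φ φ := by
  unfold gradEnergy Nb
  congr 1; funext x
  rw [F.grad_sq]; unfold D; ring

theorem plate_nonneg (φ : E2 → ℝ) : 0 ≤ plateEnergy φ :=
  integral_nonneg (fun _ => sq_nonneg _)

theorem grad_nonneg (φ : E2 → ℝ) : 0 ≤ gradEnergy φ :=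
  integral_nonneg (fun _ => sq_nonneg _)

theorem Qb_expand {U : Set E2} {φ ψ : E2 → ℝ} (hφ : IsTest U φ) (hψ : IsTest U ψ) (t : ℝ) :
    plateEnergy (fun x => φ x + t * ψ x) =
      plateEnergy φ + 2 * t * Qb φ ψ + t ^ 2 * plateEnergy ψ := by
  rw [plate_eq, plate_eq, plate_eq]
  unfold Qb
  have h1 := (((lap_test hφ).mul (lap_test hφ).smooth)).integrable
  have h2 := (((lap_test hφ).mul (lap_test hψ).smooth)).integrable
  have h3 := (((lap_test hψ).mul (lap_test hψ).smooth)).integrable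
  rw [← integral_const_mul, ← integral_const_mul, ← integral_add, ← integral_add]
  · congr 1; funext x
    rw [lap_add hφ.smooth hψ.smooth t 0]
    ring
  · exact h1.add (h2.const_mul _)
  · exact h3.const_mul _
  · exact h1
  · exact h2.const_mul _

theorem Nb_expand (F : Frame) {U : Set E2} {φ ψ : E2 → ℝ} (hφ : IsTest U φ) (hψ : IsTest U ψ)
    (t : ℝ) : gradEnergy (fun x => φ x + t * ψ x) =
      gradEnergy φ + 2 * t * Nb F φ ψ + t ^ 2 * gradEnergy ψ := by
  rw [grad_eq F, grad_eq F, grad_eq F]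
  unfold Nb
  have h1 := (((hφ.D F.e).mul (hφ.D F.e).smooth).add ((hφ.D F.f).mul (hφ.D F.f).smooth)).integrable
  have h2 := (((hφ.D F.e).mul (hψ.D F.e).smooth).add ((hφ.D F.f).mul (hψ.D F.f).smooth)).integrable
  have h3 := (((hψ.D F.e).mul (hψ.D F.e).smooth).add ((hψ.D F.f).mul (hψ.D F.f).smooth)).integrable
  have hd : ∀ a x, D a (fun x => φ x + t * ψ x) x = D a φ x + t * D a ψ x := by
    intro a x
    rw [D_add hφ.smooth (contDiff_const.mul hψ.smooth)]
    unfold D
    rw [fderiv_const_mul (hψ.smooth.differentiable (by simp) x)]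
    simp
  rw [← integral_const_mul, ← integral_const_mul, ← integral_add, ← integral_add]
  · congr 1; funext x
    rw [hd, hd]
    ring
  · exact h1.add (h2.const_mul _)
  · exact h3.const_mul _
  · exact h1
  · exact h2.const_mul _

/-- near-minimisers almost satisfy the Euler-Lagrange equation -/
theorem quasi (F : Frame) {U : Set E2} {φ ψ : E2 → ℝ} (hφ : IsTest U φ) (hψ : IsTest U ψ)
    {l κ : ℝ} (hl0 : 0 ≤ l) (hl : ∀ ψ, IsTest U ψ → l * gradEnergy ψ ≤ plateEnergy ψ)
    (hN : gradEnergy φ = 1) (hQ : plateEnergy φ ≤ l + κ) :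
    (Qb φ ψ - l * Nb F φ ψ) ^ 2 ≤ κ * plateEnergy ψ := by
  have h1 : ∀ t : ℝ, 0 ≤ (plateEnergy ψ - l * gradEnergy ψ) * (t * t)
      + 2 * (Qb φ ψ - l * Nb F φ ψ) * t + (plateEnergy φ - l) := by
    intro t
    have h2 := hl _ (hφ.add (hψ.smul t))
    rw [Qb_expand hφ hψ, Nb_expand F hφ hψ, hN] at h2
    nlinarith
  have h3 := discrim_le_zero h1
  unfold discrim at h3
  have h4 : 0 ≤ plateEnergy φ - l := by
    have := hl φ hφ; rw [hN] at this; linarith
  have h5 : 0 ≤ plateEnergy ψ := plate_nonneg ψ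
  have h6 : 0 ≤ l * gradEnergy ψ := mul_nonneg hl0 (grad_nonneg ψ)
  have h7 : (Qb φ ψ - l * Nb F φ ψ) ^ 2 ≤ (plateEnergy ψ - l * gradEnergy ψ) * (plateEnergy φ - l) := by
    nlinarith
  have h8 : 0 ≤ plateEnergy ψ - l * gradEnergy ψ := by
    have := hl ψ hψ; linarith
  calc _ ≤ (plateEnergy ψ - l * gradEnergy ψ) * (plateEnergy φ - l) := h7
    _ ≤ plateEnergy ψ * κ := by
      apply mul_le_mul _ _ h4 h5
      · linarith
      · linarith
    _ = _ := by ring

end Pool.Agent.W794.Bk
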