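import Pool.Agent.W794.Bk5

open MeasureTheory Set
open scoped ENNReal ContDiff Topology

namespace Pool.Agent.W794.Bk

namespace Frame
variable (F : Frame)

theorem M_zero {u : E2 → ℝ} (hu : IsTest F.U u) : F.M 0 u = plateEnergy u := by
  have h := F.I_eq hu 0
  have h2 : F.I 0 u = plateEnergy u := by
    rw [plate_eq]
    unfold I Qb
    have : (fun y => u y * F.P (-0) y) = u := by
      funext y; simp [P]
    rw [this]
  rw [← h2, h]; ring

/-- weighted quantities bounded by `M` -/
theorem M_bounds {u : E2 → ℝ} (hu : IsTest F.U u) {b : ℝ} (hb : 1 ≤ b) :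
    0 ≤ F.J (-b) (fun x => D F.e (D F.e u) x * D F.e (D F.e u) x) ∧
    0 ≤ F.J (-b) (fun x => D F.f (D F.e u) x * D F.f (D F.e u) x) ∧
    0 ≤ F.J (-b) (fun x => D F.f (D F.f u) x * D F.f (D F.f u) x) ∧
    0 ≤ F.J (-b - 2) (fun x => D F.e u x * D F.e u x) ∧
    0 ≤ F.J (-b - 2) (fun x => D F.f u x * D F.f u x) ∧
    0 ≤ F.J (-b - 4) (fun x => u x * u x) ∧
    F.J (-b - 2) (fun x => D F.e u x * D F.e u x) + F.J (-b - 2) (fun x => D F.f u x * D F.f u x)
      ≤ F.M b u ∧
    F.J (-b - 4) (fun x => u x * u x) ≤ F.M b u := by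
  have hH1 := F.hardy (hu.D F.f) (-b) (-b - 2) (by ring)
  have hcm : D F.e (D F.f u) = D F.f (D F.e u) := by
    funext x; exact D_comm hu.smooth _ _ _
  rw [hcm] at hH1
  have hH2 := F.hardy (hu.D F.e) (-b) (-b - 2) (by ring)
  have hX1 := F.hardy hu (-b - 2) (-b - 4) (by ring)
  have hA1 : 0 ≤ F.J (-b) (fun x => D F.e (D F.e u) x * D F.e (D F.e u) x) :=
    F.J_nonneg _ (fun x => mul_self_nonneg _)
      (fun x hx => by simp [F.zero_out ((hu.D F.e).D F.e) hx])
  have hA2 : 0 ≤ F.J (-b) (fun x => D F.f (D F.e u) x * D F.f (D F.e u) x) :=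
    F.J_nonneg _ (fun x => mul_self_nonneg _)
      (fun x hx => by simp [F.zero_out ((hu.D F.e).D F.f) hx])
  have hA3 : 0 ≤ F.J (-b) (fun x => D F.f (D F.f u) x * D F.f (D F.f u) x) :=
    F.J_nonneg _ (fun x => mul_self_nonneg _)
      (fun x hx => by simp [F.zero_out ((hu.D F.f).D F.f) hx])
  have hB1 : 0 ≤ F.J (-b - 2) (fun x => D F.e u x * D F.e u x) :=
    F.J_nonneg _ (fun x => mul_self_nonneg _)
      (fun x hx => by simp [F.zero_out (hu.D F.e) hx])
  have hB2 : 0 ≤ F.J (-b - 2) (fun x => D F.f u x * D F.f u x) :=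
    F.J_nonneg _ (fun x => mul_self_nonneg _)
      (fun x hx => by simp [F.zero_out (hu.D F.f) hx])
  have hC0 : 0 ≤ F.J (-b - 4) (fun x => u x * u x) :=
    F.J_nonneg _ (fun x => mul_self_nonneg _)
      (fun x hx => by simp [F.zero_out hu hx])
  unfold M
  set A1 := F.J (-b) (fun x => D F.e (D F.e u) x * D F.e (D F.e u) x)
  set A2 := F.J (-b) (fun x => D F.f (D F.e u) x * D F.f (D F.e u) x)
  set A3 := F.J (-b) (fun x => D F.f (D F.f u) x * D F.f (D F.f u) x)
  set B1 := F.J (-b - 2) (fun x => D F.e u x * D F.e u x)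
  set B2 := F.J (-b - 2) (fun x => D F.f u x * D F.f u x)
  set C0 := F.J (-b - 4) (fun x => u x * u x)
  have k1 : B1 ≤ A1 := by
    refine le_trans ?_ hH2
    have : 1 ≤ (-b - 1) ^ 2 / 4 := by nlinarith
    nlinarith
  have k2 : B2 ≤ A2 := by
    refine le_trans ?_ hH1
    have : 1 ≤ (-b - 1) ^ 2 / 4 := by nlinarith
    nlinarith
  have k3 : C0 ≤ B1 := by
    refine le_trans ?_ hX1
    have : 1 ≤ (-b - 2 - 1) ^ 2 / 4 := by nlinarith
    nlinarith
  exact ⟨hA1, hA2, hA3, hB1, hB2, hC0, by linarith, by linarith⟩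

theorem J_mono {G H : E2 → ℝ} (hG : IsTest F.U G) (hH : IsTest F.U H) (a a' c : ℝ)
    (h : ∀ x ∈ F.U, F.P a x * G x ≤ c * (F.P a' x * H x)) : F.J a G ≤ c * F.J a' H := by
  unfold J
  rw [← integral_const_mul]
  apply integral_mono (F.int hG a) ((F.int hH a').const_mul c)
  intro x
  simp only
  by_cases hx : x ∈ F.U
  · exact h x hx
  · simp [F.zero_out hG hx, F.zero_out hH hx]

/-- the test function `u s^{-b}` has finite energy -/
theorem plate_uP {u : E2 → ℝ} (hu : IsTest F.U u) {b τ : ℝ} (hb : 1 ≤ b) (hb2 : b ≤ 11 / 10)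
    (hτ : 0 < τ) (hs : ∀ x ∈ tsupport u, τ ≤ F.s x) :
    plateEnergy (fun y => u y * F.P (-b) y) ≤ 40 * τ ^ (-b) * F.M b u := by
  obtain ⟨hA1, hA2, hA3, hB1, hB2, hC0, hB, hC⟩ := F.M_bounds hu hb
  set us := D F.e u with hus
  set uz := D F.f u with huz
  set uss := D F.e us with huss
  set uzz := D F.f uz with huzz
  have tus : IsTest F.U us := hu.D _
  have tuz : IsTest F.U uz := hu.D _
  have tuss : IsTest F.U uss := tus.D _
  have tuzz : IsTest F.U uzz := tuz.D _
  have i1 := F.int ((tuss.mul tuss.smooth).smul (6 * τ ^ (-b))) (-b)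
  have i2 := F.int ((tuzz.mul tuzz.smooth).smul (6 * τ ^ (-b))) (-b)
  have i3 := F.int ((tus.mul tus.smooth).smul (12 * b ^ 2 * τ ^ (-b))) (-b - 2)
  have i4 := F.int ((hu.mul hu.smooth).smul (3 * (b * (b + 1)) ^ 2 * τ ^ (-b))) (-b - 4)
  have key : plateEnergy (fun y => u y * F.P (-b) y) ≤
      ∫ x, (((((fun x => F.P (-b) x * (6 * τ ^ (-b) * (uss x * uss x)))
      + fun x => F.P (-b) x * (6 * τ ^ (-b) * (uzz x * uzz x)))
      + fun x => F.P (-b - 2) x * (12 * b ^ 2 * τ ^ (-b) * (us x * us x)))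
      + fun x => F.P (-b - 4) x * (3 * (b * (b + 1)) ^ 2 * τ ^ (-b) * (u x * u x))) : E2 → ℝ) x := by
    unfold plateEnergy
    apply integral_mono
    · have := (lap_test (F.mulP hu (-b)))
      have h2 := (this.mul this.smooth).integrable
      refine h2.congr ?_
      filter_upwards with x; ring
    · exact (((i1.add i2).add i3).add i4)
    · intro x
      simp only [Pi.add_apply]
      rw [F.lap_uP hu]
      by_cases hx : x ∈ tsupport u
      · have hxU : x ∈ F.U := hu.supp hx
        have hsx := hs x hx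
        have hp : F.P (-b) x ≤ τ ^ (-b) := by
          unfold P
          exact Real.rpow_le_rpow_of_nonpos hτ hsx (by linarith)
        have e1 : F.P (-b - 1) x = F.P (-b) x * F.P (-1) x := F.P_mul (by ring) hxU
        have e2 : F.P (-b - 2) x = F.P (-b) x * F.P (-1) x * F.P (-1) x := by
          rw [← e1]; exact F.P_mul (by ring) hxU
        have e4 : F.P (-b - 4) x = F.P (-b) x * F.P (-1) x * F.P (-1) x * F.P (-1) x * F.P (-1) x := by
          have e3 : F.P (-b - 3) x = F.P (-b) x * F.P (-1) x * F.P (-1) x * F.P (-1) x := by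
            rw [← e2]; exact F.P_mul (by ring) hxU
          rw [← e3]; exact F.P_mul (by ring) hxU
        have hp0 := F.P_pos (-b) hxU
        rw [e1, e2, e4]
        set p := F.P (-b) x
        set r := F.P (-1) x
        have q1 : (p * (uss x + uzz x) - 2 * b * (p * r * us x) + b * (b + 1) * (p * r * r * u x)) ^ 2
          ≤ 3 * (p * (uss x + uzz x)) ^ 2 + 3 * (2 * b * (p * r * us x)) ^ 2
            + 3 * (b * (b + 1) * (p * r * r * u x)) ^ 2 := by
          nlinarith [sq_nonneg (p * (uss x + uzz x) + 2 * b * (p * r * us x)),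
            sq_nonneg (p * (uss x + uzz x) - b * (b + 1) * (p * r * r * u x)),
            sq_nonneg (2 * b * (p * r * us x) + b * (b + 1) * (p * r * r * u x))]
        have q2 : (p * (uss x + uzz x)) ^ 2 ≤ p * p * (2 * (uss x * uss x) + 2 * (uzz x * uzz x)) := by
          have : (uss x + uzz x) ^ 2 ≤ 2 * (uss x * uss x) + 2 * (uzz x * uzz x) := by
            nlinarith [sq_nonneg (uss x - uzz x)]
          calc (p * (uss x + uzz x)) ^ 2 = p * p * (uss x + uzz x) ^ 2 := by ring
            _ ≤ _ := mul_le_mul_of_nonneg_left this (by positivity)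
        have q3 : p * p * (2 * (uss x * uss x) + 2 * (uzz x * uzz x)) ≤
            p * τ ^ (-b) * (2 * (uss x * uss x) + 2 * (uzz x * uzz x)) := by
          apply mul_le_mul_of_nonneg_right _ (by nlinarith [mul_self_nonneg (uss x), mul_self_nonneg (uzz x)])
          exact mul_le_mul_of_nonneg_left hp hp0.le
        have q4 : (2 * b * (p * r * us x)) ^ 2 ≤ p * τ ^ (-b) * (4 * b ^ 2 * (r * r) * (us x * us x)) := by
          have : (2 * b * (p * r * us x)) ^ 2 = p * p * (4 * b ^ 2 * (r * r) * (us x * us x)) := by ring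
          rw [this]
          apply mul_le_mul_of_nonneg_right _ (by
            have := mul_self_nonneg r; have := mul_self_nonneg (us x); positivity)
          exact mul_le_mul_of_nonneg_left hp hp0.le
        have q5 : (b * (b + 1) * (p * r * r * u x)) ^ 2 ≤
            p * τ ^ (-b) * ((b * (b + 1)) ^ 2 * (r * r * r * r) * (u x * u x)) := by
          have : (b * (b + 1) * (p * r * r * u x)) ^ 2
            = p * p * ((b * (b + 1)) ^ 2 * (r * r * r * r) * (u x * u x)) := by ring
          rw [this]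
          apply mul_le_mul_of_nonneg_right _ (by
            have h1 : 0 ≤ (r * r) * (r * r) := mul_self_nonneg (r * r)
            have h2 := mul_self_nonneg (u x)
            have h3 : r * r * r * r = (r * r) * (r * r) := by ring
            rw [h3]; positivity)
          exact mul_le_mul_of_nonneg_left hp hp0.le
        calc _ ≤ _ := q1
          _ ≤ 3 * (p * τ ^ (-b) * (2 * (uss x * uss x) + 2 * (uzz x * uzz x)))
              + 3 * (p * τ ^ (-b) * (4 * b ^ 2 * (r * r) * (us x * us x)))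
              + 3 * (p * τ ^ (-b) * ((b * (b + 1)) ^ 2 * (r * r * r * r) * (u x * u x))) := by
            linarith
          _ = _ := by ring
      · have h0 : u =ᶠ[𝓝 x] fun _ => 0 := notMem_tsupport_iff_eventuallyEq.1 hx
        have z0 : u x = 0 := h0.eq_of_nhds
        have hD : ∀ a, D a u =ᶠ[𝓝 x] fun _ => 0 := by
          intro a
          filter_upwards [h0.fderiv (𝕜 := ℝ)] with y hy
          unfold D; rw [hy]; simp
        have z1 : us x = 0 := (hD _).eq_of_nhds
        have z2 : uss x = 0 := by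
          rw [huss]; unfold D; rw [(hD F.e).fderiv_eq]; simp
        have z3 : uzz x = 0 := by
          rw [huzz]; unfold D; rw [(hD F.f).fderiv_eq]; simp
        have z1' : D F.e u x = 0 := z1
        have z2' : D F.e (D F.e u) x = 0 := z2
        have z3' : D F.f (D F.f u) x = 0 := z3
        rw [z1', z2', z3', z0, z1, z2, z3]; simp
  rw [integral_add' ((i1.add i2).add i3) i4, integral_add' (i1.add i2) i3, integral_add' i1 i2] at key
  change _ ≤ F.J (-b) (fun x => 6 * τ ^ (-b) * (uss x * uss x))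
    + F.J (-b) (fun x => 6 * τ ^ (-b) * (uzz x * uzz x))
    + F.J (-b - 2) (fun x => 12 * b ^ 2 * τ ^ (-b) * (us x * us x))
    + F.J (-b - 4) (fun x => 3 * (b * (b + 1)) ^ 2 * τ ^ (-b) * (u x * u x)) at key
  rw [F.J_smul, F.J_smul, F.J_smul, F.J_smul] at key
  have hτb : 0 < τ ^ (-b) := Real.rpow_pos_of_pos hτ _
  refine key.trans ?_
  have hM : F.M b u = F.J (-b) (fun x => uss x * uss x) +
    2 * F.J (-b) (fun x => D F.f us x * D F.f us x) + F.J (-b) (fun x => uzz x * uzz x) := rfl
  have g1 : F.J (-b) (fun x => uss x * uss x) + F.J (-b) (fun x => uzz x * uzz x) ≤ F.M b u := by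
    rw [hM]; linarith
  have g2 : F.J (-b - 2) (fun x => us x * us x) ≤ F.M b u := by linarith
  have hM0 : 0 ≤ F.M b u := by rw [hM]; linarith
  have b2 : b ^ 2 ≤ 121 / 100 := by nlinarith
  have b3 : (b * (b + 1)) ^ 2 ≤ 6 := by
    have h1 : b * (b + 1) ≤ 231 / 100 := by nlinarith
    have h0 : 0 ≤ b * (b + 1) := by nlinarith
    nlinarith
  calc _ = τ ^ (-b) * (6 * (F.J (-b) (fun x => uss x * uss x) + F.J (-b) (fun x => uzz x * uzz x))
        + 12 * b ^ 2 * F.J (-b - 2) (fun x => us x * us x)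
        + 3 * (b * (b + 1)) ^ 2 * F.J (-b - 4) (fun x => u x * u x)) := by ring
    _ ≤ τ ^ (-b) * (6 * F.M b u + 12 * (121 / 100) * F.M b u + 3 * 6 * F.M b u) := by
      apply mul_le_mul_of_nonneg_left _ hτb.le
      have t1 : 12 * b ^ 2 * F.J (-b - 2) (fun x => us x * us x) ≤ 12 * (121 / 100) * F.M b u := by
        apply mul_le_mul _ g2 hB1 (by norm_num); linarith
      have t2 : 3 * (b * (b + 1)) ^ 2 * F.J (-b - 4) (fun x => u x * u x) ≤ 3 * 6 * F.M b u := by
        apply mul_le_mul _ hC hC0 (by norm_num); linarith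
      linarith
    _ ≤ _ := by
      have : 0 ≤ τ ^ (-b) * F.M b u := by positivity
      nlinarith

theorem Nb_uP {u : E2 → ℝ} (hu : IsTest F.U u) {b r : ℝ} (hb : 1 ≤ b) (hr : 0 < r) :
    Nb F u (fun y => u y * F.P (-b) y) ≤ r ^ 2 * F.M b u + r ^ (-b) * gradEnergy u := by
  obtain ⟨hA1, hA2, hA3, hB1, hB2, hC0, hB, hC⟩ := F.M_bounds hu hb
  set us := D F.e u with hus
  set uz := D F.f u with huz
  have tus : IsTest F.U us := hu.D _
  have tuz : IsTest F.U uz := hu.D _
  have h7 := F.rel_e hu hu (-b - 1) (-b - 2) (by ring)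
  rw [← hus, F.J_comm (-b - 1) u us] at h7
  have hC2 : 0 ≤ F.J (-b - 2) (fun x => u x * u x) :=
    F.J_nonneg _ (fun x => mul_self_nonneg _)
      (fun x hx => by simp [F.zero_out hu hx])
  have h8 : 0 ≤ F.J (-b - 1) (fun x => us x * u x) := by nlinarith
  have i1 := F.int (tus.mul tus.smooth) (-b)
  have i2 := F.int (tuz.mul tuz.smooth) (-b)
  have i3 := F.int ((tus.mul hu.smooth).smul (-b)) (-b - 1)
  have e1 : Nb F u (fun y => u y * F.P (-b) y) =
      F.J (-b) (fun x => us x * us x) + F.J (-b) (fun x => uz x * uz x)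
      - b * F.J (-b - 1) (fun x => us x * u x) := by
    have : Nb F u (fun y => u y * F.P (-b) y) =
      ∫ x, ((((fun x => F.P (-b) x * (us x * us x)) + fun x => F.P (-b) x * (uz x * uz x))
        + fun x => F.P (-b - 1) x * (-b * (us x * u x))) : E2 → ℝ) x := by
      unfold Nb
      congr 1; funext x
      rw [F.D_eP hu, F.D_fP hu]
      simp only [Pi.add_apply]
      rw [← hus, ← huz]; ring
    rw [this, integral_add' (i1.add i2) i3, integral_add' i1 i2]
    change F.J (-b) (fun x => us x * us x) + F.J (-b) (fun x => uz x * uz x)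
      + F.J (-b - 1) (fun x => -b * (us x * u x)) = _
    rw [F.J_smul]; ring
  have hpt : ∀ x ∈ F.U, F.P (-b) x ≤ r ^ 2 * F.P (-b - 2) x + r ^ (-b) := by
    intro x hx
    have hs : 0 < F.s x := hx
    have hp2 := F.P_pos (-b - 2) hx
    have hrb : 0 < r ^ (-b) := Real.rpow_pos_of_pos hr _
    rcases le_total (F.s x) r with h | h
    · have e1 : F.P (-b) x = F.P (-b - 2) x * (F.s x) ^ 2 := by
        have := F.P_mul (a := -b - 2) (b := 2) (c := -b) (by ring) hx
        rw [this]; unfold P; norm_num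
      rw [e1]
      have : (F.s x) ^ 2 ≤ r ^ 2 := pow_le_pow_left₀ hs.le h 2
      nlinarith
    · have : F.P (-b) x ≤ r ^ (-b) := by
        unfold P
        exact Real.rpow_le_rpow_of_nonpos hr h (by linarith)
      nlinarith [sq_nonneg r, mul_nonneg (sq_nonneg r) hp2.le]
  have j1 := F.int (((tus.mul tus.smooth).add (tuz.mul tuz.smooth)).smul (r ^ 2)) (-b - 2)
  have j2 := (((tus.mul tus.smooth).add (tuz.mul tuz.smooth)).smul (r ^ (-b))).integrable
  have e2 : F.J (-b) (fun x => us x * us x) + F.J (-b) (fun x => uz x * uz x) ≤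
      r ^ 2 * (F.J (-b - 2) (fun x => us x * us x) + F.J (-b - 2) (fun x => uz x * uz x))
      + r ^ (-b) * gradEnergy u := by
    rw [← F.J_add (tus.mul tus.smooth) (tuz.mul tuz.smooth),
      ← F.J_add (tus.mul tus.smooth) (tuz.mul tuz.smooth), ← F.J_smul, grad_eq F]
    unfold J Nb
    rw [← integral_const_mul (r ^ (-b)), ← integral_add j1 j2]
    apply integral_mono (F.int ((tus.mul tus.smooth).add (tuz.mul tuz.smooth)) (-b)) (j1.add j2)
    intro x
    simp only [Pi.add_apply]
    by_cases hx : x ∈ F.U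
    · have := hpt x hx
      have h2 : 0 ≤ us x * us x + uz x * uz x := by
        nlinarith [mul_self_nonneg (us x), mul_self_nonneg (uz x)]
      have := mul_le_mul_of_nonneg_right this h2
      linarith
    · simp [F.zero_out tus hx, F.zero_out tuz hx]
  have hr2 : 0 ≤ r ^ 2 := sq_nonneg r
  have := mul_le_mul_of_nonneg_left hB hr2
  have hb8 : 0 ≤ b * F.J (-b - 1) (fun x => us x * u x) := mul_nonneg (by linarith) h8
  rw [e1]
  linarith

end Frame

end Pool.Agent.W794.Bk
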