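import Pool.Agent.W794.Bk6

open MeasureTheory Set
open scoped ENNReal ContDiff Topology

namespace Pool.Agent.W794.Bk

namespace Frame
variable (F : Frame)

/-- shifted frame: `s ↦ s + τ` -/
noncomputable def shift (τ : ℝ) : Frame := { F with c := F.c + τ }

theorem shift_s (τ : ℝ) (x : E2) : (F.shift τ).s x = F.s x + τ := by
  unfold s shift; ring

theorem shift_z (τ : ℝ) (x : E2) : (F.shift τ).z x = F.z x := rfl

theorem M_le {u : E2 → ℝ} (hu : IsTest F.U u) {b τ : ℝ} (hb : 0 ≤ b) (hτ : 0 < τ)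
    (hs : ∀ x ∈ tsupport u, τ ≤ F.s x) : F.M b u ≤ τ ^ (-b) * plateEnergy u := by
  rw [← F.M_zero hu]
  have key : ∀ G : E2 → ℝ, IsTest F.U G → (∀ x, x ∉ tsupport u → G x = 0) →
      F.J (-b) (fun x => G x * G x) ≤ τ ^ (-b) * F.J (-0) (fun x => G x * G x) := by
    intro G hG h0
    apply F.J_mono (hG.mul hG.smooth) (hG.mul hG.smooth)
    intro x hx
    by_cases hxu : x ∈ tsupport u
    · have hp : F.P (-b) x ≤ τ ^ (-b) := by
        unfold P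
        exact Real.rpow_le_rpow_of_nonpos hτ (hs x hxu) (by linarith)
      have e0 : F.P (-0) x = 1 := by simp [P]
      rw [e0, one_mul]
      exact mul_le_mul_of_nonneg_right hp (mul_self_nonneg _)
    · simp [h0 x hxu]
  have hzero : ∀ {x : E2}, x ∉ tsupport u → (∀ a, D a u =ᶠ[𝓝 x] fun _ => 0) := by
    intro x hx a
    have h0 : u =ᶠ[𝓝 x] fun _ => 0 := notMem_tsupport_iff_eventuallyEq.1 hx
    filter_upwards [h0.fderiv (𝕜 := ℝ)] with y hy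
    unfold D; rw [hy]; simp
  have hzero2 : ∀ {x : E2}, x ∉ tsupport u → ∀ a c, D c (D a u) x = 0 := by
    intro x hx a c
    have := hzero hx a
    unfold D at this ⊢
    rw [this.fderiv_eq]; simp
  have k1 := key _ ((hu.D F.e).D F.e) (fun x hx => hzero2 hx _ _)
  have k2 := key _ ((hu.D F.e).D F.f) (fun x hx => hzero2 hx _ _)
  have k3 := key _ ((hu.D F.f).D F.f) (fun x hx => hzero2 hx _ _)
  unfold M
  linarith

theorem apriori_aux {T : ℝ} {b : ℝ} (hb : 1 ≤ b) (hb2 : b ≤ 11 / 10)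
    (hβ : (b ^ 2 - 1) * (2 * T ^ 2 + 8 * T ^ 4) ≤ 1 / 2) {l : ℝ} (hl0 : 0 ≤ l) (hT : 0 ≤ T) :
    ∃ M0 : ℝ, 0 ≤ M0 ∧ ∀ Ω : Set E2, (∀ x ∈ Ω, 0 < F.s x ∧ |F.z x| ≤ T * F.s x) →
      (∀ ψ, IsTest Ω ψ → l * gradEnergy ψ ≤ plateEnergy ψ) →
      ∀ τ : ℝ, 0 < τ → ∃ κ0 : ℝ, 0 < κ0 ∧ ∀ φ, IsTest Ω φ → gradEnergy φ = 1 →
        plateEnergy φ ≤ l + κ0 → (F.shift τ).M b φ ≤ M0 := by
  set K := 1 + 2 * b * (b + 1) * (4 + 8 * (b + 3) ^ 2 * T ^ 4) + 8 * b * (b + 1) * T ^ 2 with hK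
  have hK0 : 0 < K := by
    have : 0 ≤ b * (b + 1) := by nlinarith
    have h1 : 0 ≤ (4 + 8 * (b + 3) ^ 2 * T ^ 4) := by positivity
    have h2 := mul_nonneg this h1
    have h3 := mul_nonneg this (sq_nonneg T)
    rw [hK]; nlinarith
  set r := Real.sqrt (1 / (2 * K * (l + 1))) with hr
  have hr2 : r ^ 2 = 1 / (2 * K * (l + 1)) := Real.sq_sqrt (by positivity)
  have hr0 : 0 < r := Real.sqrt_pos.2 (by positivity)
  have hKr : K * l * r ^ 2 ≤ 1 / 2 := by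
    rw [hr2]
    rw [mul_one_div, div_le_div_iff₀ (by positivity) (by norm_num)]
    nlinarith
  have hrb : 0 < r ^ (-b) := Real.rpow_pos_of_pos hr0 _
  refine ⟨2 * K * (l * r ^ (-b) + 1), by positivity, ?_⟩
  intro Ω hΩ hl τ hτ
  have hτb : 0 < τ ^ (-b) := Real.rpow_pos_of_pos hτ _
  refine ⟨min 1 (1 / (40 * τ ^ (-b) * τ ^ (-b) * (l + 1))), by positivity, ?_⟩
  intro φ hφ hN hQ
  set κ := min 1 (1 / (40 * τ ^ (-b) * τ ^ (-b) * (l + 1))) with hκ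
  have hκ1 : κ ≤ 1 := min_le_left _ _
  have hκ2 : κ * (40 * τ ^ (-b) * τ ^ (-b) * (l + 1)) ≤ 1 := by
    have := min_le_right 1 (1 / (40 * τ ^ (-b) * τ ^ (-b) * (l + 1)))
    rw [← hκ, le_div_iff₀ (by positivity)] at this
    exact this
  have hκ0 : 0 < κ := by rw [hκ]; positivity
  set G := F.shift τ with hG
  have hΩG : Ω ⊆ G.U := by
    intro x hx
    show 0 < G.s x
    rw [hG, F.shift_s]; linarith [(hΩ x hx).1]
  have hφG : IsTest G.U φ := hφ.mono hΩG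
  have hsG : ∀ x ∈ tsupport φ, τ ≤ G.s x := by
    intro x hx
    rw [hG, F.shift_s]; linarith [(hΩ x (hφ.supp hx)).1]
  have hcone : ∀ x ∈ tsupport φ, |G.z x| ≤ T * G.s x := by
    intro x hx
    rw [hG, F.shift_s, F.shift_z]
    have := (hΩ x (hφ.supp hx)).2
    nlinarith
  have hcoer := G.coer_aux hφG hcone hb hb2 hβ
  rw [← hK] at hcoer
  set ψ : E2 → ℝ := fun y => φ y * G.P (-b) y with hψ
  have hψΩ : IsTest Ω ψ := by
    have := G.mulP hφG (-b)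
    exact ⟨this.smooth, this.cpt, tsupport_mul_subset_left.trans hφ.supp⟩
  have hIQ : G.I b φ = Qb φ ψ := rfl
  have hquasi := quasi G hφ hψΩ hl0 hl hN hQ
  have hplate := G.plate_uP hφG hb hb2 hτ hsG
  have hM1 := G.M_le hφG (by linarith : 0 ≤ b) hτ hsG
  have hNb := G.Nb_uP hφG hb hr0
  rw [hN, mul_one] at hNb
  rw [hIQ] at hcoer
  have h1 : (Qb φ ψ - l * Nb G φ ψ) ^ 2 ≤ 1 := by
    have e1 : plateEnergy ψ ≤ 40 * τ ^ (-b) * (τ ^ (-b) * (l + 1)) := by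
      refine hplate.trans ?_
      apply mul_le_mul_of_nonneg_left _ (by positivity)
      refine hM1.trans ?_
      apply mul_le_mul_of_nonneg_left _ hτb.le
      linarith
    calc _ ≤ κ * plateEnergy ψ := hquasi
      _ ≤ κ * (40 * τ ^ (-b) * (τ ^ (-b) * (l + 1))) := mul_le_mul_of_nonneg_left e1 hκ0.le
      _ = κ * (40 * τ ^ (-b) * τ ^ (-b) * (l + 1)) := by ring
      _ ≤ 1 := hκ2
  have h2 : Qb φ ψ - l * Nb G φ ψ ≤ 1 := by nlinarith
  have h3 : Qb φ ψ ≤ l * (r ^ 2 * G.M b φ + r ^ (-b)) + 1 := by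
    have := mul_le_mul_of_nonneg_left hNb hl0
    linarith
  have hM0 : 0 ≤ G.M b φ := by
    obtain ⟨hA1, hA2, hA3, -⟩ := G.M_bounds hφG hb
    unfold M; linarith
  have h4 : G.M b φ ≤ K * (l * (r ^ 2 * G.M b φ + r ^ (-b)) + 1) :=
    hcoer.trans (mul_le_mul_of_nonneg_left h3 hK0.le)
  have h5 : K * l * r ^ 2 * G.M b φ ≤ 1 / 2 * G.M b φ := mul_le_mul_of_nonneg_right hKr hM0
  nlinarith

end Frame

/-- choice of the exponent -/
theorem exists_b {T : ℝ} : ∃ b : ℝ, 1 < b ∧ b ≤ 11 / 10 ∧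
    (b ^ 2 - 1) * (2 * T ^ 2 + 8 * T ^ 4) ≤ 1 / 2 := by
  set δ := 1 / (12 * T ^ 2 + 48 * T ^ 4 + 10) with hδ
  have hd : 0 < 12 * T ^ 2 + 48 * T ^ 4 + 10 := by positivity
  have hδ0 : 0 < δ := by positivity
  have hδ1 : δ ≤ 1 / 10 := by
    rw [hδ]; apply one_div_le_one_div_of_le (by norm_num)
    have : 0 ≤ 12 * T ^ 2 + 48 * T ^ 4 := by positivity
    linarith
  refine ⟨1 + δ, by linarith, by linarith, ?_⟩
  have h1 : (1 + δ) ^ 2 - 1 ≤ 3 * δ := by nlinarith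
  have h2 : δ * (12 * T ^ 2 + 48 * T ^ 4 + 10) = 1 := by rw [hδ]; field_simp
  have h3 : 0 ≤ 2 * T ^ 2 + 8 * T ^ 4 := by positivity
  calc _ ≤ 3 * δ * (2 * T ^ 2 + 8 * T ^ 4) := mul_le_mul_of_nonneg_right h1 h3
    _ ≤ 1 / 2 := by nlinarith

end Pool.Agent.W794.Bk
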