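import Pool.Agent.W794.Bk7

open MeasureTheory Set
open scoped ENNReal ContDiff Topology

namespace Pool.Agent.W794.Bk

/-- cut-off profile: `0` on `(-∞, 3/2]`, `1` on `[2, ∞)` -/
noncomputable def hc (t : ℝ) : ℝ := Real.smoothTransition (2 * t - 3)

theorem hc_smooth : ContDiff ℝ ∞ hc := by
  unfold hc
  exact Real.smoothTransition.contDiff.comp (by fun_prop)

theorem hc_zero {t : ℝ} (ht : t ≤ 3 / 2) : hc t = 0 :=
  Real.smoothTransition.zero_of_nonpos (by linarith)

theorem hc_one {t : ℝ} (ht : 2 ≤ t) : hc t = 1 :=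
  Real.smoothTransition.one_of_one_le (by linarith)

theorem hc_nonneg (t : ℝ) : 0 ≤ hc t := Real.smoothTransition.nonneg _
theorem hc_le_one (t : ℝ) : hc t ≤ 1 := Real.smoothTransition.le_one _

theorem hc1_cont : Continuous (deriv hc) := by
  exact (hc_smooth.continuous_deriv (by simp))

theorem hc1_smooth : ContDiff ℝ ∞ (deriv hc) := by
  exact ((contDiff_infty_iff_deriv (𝕜 := ℝ)).1 hc_smooth).2

theorem hc2_cont : Continuous (deriv (deriv hc)) := by
  exact (hc1_smooth.continuous_deriv (by simp))

theorem hc1_zero {t : ℝ} (ht : 2 ≤ t) : deriv hc t = 0 := by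
  have hcl : IsClosed {t | deriv hc t = 0} := isClosed_eq hc1_cont continuous_const
  have hsub : Ioi (2:ℝ) ⊆ {t | deriv hc t = 0} := by
    intro s hs
    have : hc =ᶠ[𝓝 s] fun _ => 1 := by
      filter_upwards [Ioi_mem_nhds hs] with y hy
      exact hc_one (le_of_lt hy)
    show deriv hc s = 0
    rw [this.deriv_eq]; simp
  have := closure_minimal hsub hcl
  rw [closure_Ioi] at this
  exact this ht

theorem hc2_zero {t : ℝ} (ht : 2 ≤ t) : deriv (deriv hc) t = 0 := by
  have hcl : IsClosed {t | deriv (deriv hc) t = 0} := isClosed_eq hc2_cont continuous_const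
  have hsub : Ioi (2:ℝ) ⊆ {t | deriv (deriv hc) t = 0} := by
    intro s hs
    have : deriv hc =ᶠ[𝓝 s] fun _ => 0 := by
      filter_upwards [Ioi_mem_nhds hs] with y hy
      exact hc1_zero (le_of_lt hy)
    show deriv (deriv hc) s = 0
    rw [this.deriv_eq]; simp
  have := closure_minimal hsub hcl
  rw [closure_Ioi] at this
  exact this ht

theorem hc_bounds : ∃ C : ℝ, 0 ≤ C ∧ ∀ t, 0 ≤ t → |deriv hc t| ≤ C ∧ |deriv (deriv hc) t| ≤ C := by
  obtain ⟨C1, h1⟩ := isCompact_Icc.exists_bound_of_continuousOn (s := Icc (0:ℝ) 2)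
    hc1_cont.continuousOn
  obtain ⟨C2, h2⟩ := isCompact_Icc.exists_bound_of_continuousOn (s := Icc (0:ℝ) 2)
    hc2_cont.continuousOn
  refine ⟨max 0 (max C1 C2), le_max_left _ _, ?_⟩
  intro t ht
  rcases le_total t 2 with h | h
  · have a1 := h1 t ⟨ht, h⟩
    have a2 := h2 t ⟨ht, h⟩
    rw [Real.norm_eq_abs] at a1 a2
    exact ⟨a1.trans (le_max_of_le_right (le_max_left _ _)),
      a2.trans (le_max_of_le_right (le_max_right _ _))⟩
  · rw [hc1_zero h, hc2_zero h]; simp

namespace Frame
variable (F : Frame)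

/-- the cut-off function -/
noncomputable def eta (ε : ℝ) (x : E2) : ℝ := hc (F.s x / ε)

theorem eta_smooth (ε : ℝ) : ContDiff ℝ ∞ (F.eta ε) := by
  unfold eta
  exact hc_smooth.comp (F.s_smooth.div_const ε)

theorem D_comp {g : ℝ → ℝ} (hg : Differentiable ℝ g) (ε : ℝ) (v x : E2) :
    D v (fun x => g (F.s x / ε)) x = deriv g (F.s x / ε) * (inner ℝ F.e v / ε) := by
  have h1 : HasFDerivAt (fun x => F.s x / ε) ((1 / ε) • innerSL ℝ F.e) x := by
    have := (F.s_deriv x).mul_const (1 / ε)
    simpa [div_eq_mul_inv] using this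
  have h2 := (hg (F.s x / ε)).hasDerivAt.comp_hasFDerivAt x h1
  unfold D
  have h3 := h2.fderiv
  change (fderiv ℝ (g ∘ fun x => F.s x / ε) x) v = _
  rw [h3]
  simp only [FunLike.coe_smul, Pi.smul_apply, innerSL_apply_apply, smul_eq_mul]
  ring

theorem D_e_eta (ε : ℝ) (x : E2) : D F.e (F.eta ε) x = deriv hc (F.s x / ε) / ε := by
  have := F.D_comp (hc_smooth.differentiable (by simp)) ε F.e x
  unfold eta
  rw [this, real_inner_self_eq_norm_sq, F.he]; ring

theorem D_f_eta (ε : ℝ) (x : E2) : D F.f (F.eta ε) x = 0 := by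
  have := F.D_comp (hc_smooth.differentiable (by simp)) ε F.f x
  unfold eta
  rw [this, F.hef]; ring

theorem D_ee_eta (ε : ℝ) (x : E2) :
    D F.e (D F.e (F.eta ε)) x = deriv (deriv hc) (F.s x / ε) / ε ^ 2 := by
  have h1 : D F.e (F.eta ε) = fun x => (fun t => deriv hc t / ε) (F.s x / ε) := by
    funext x; rw [F.D_e_eta]
  rw [h1]
  have hd : Differentiable ℝ (fun t => deriv hc t / ε) :=
    (hc1_smooth.differentiable (by simp)).div_const ε
  rw [F.D_comp hd, real_inner_self_eq_norm_sq, F.he]
  rw [deriv_div_const]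
  ring

theorem D_ff_eta (ε : ℝ) (x : E2) : D F.f (D F.f (F.eta ε)) x = 0 := by
  have h1 : D F.f (F.eta ε) = fun x => 0 := by
    funext x; rw [F.D_f_eta]
  rw [h1]; unfold D; simp

/-- cut domain -/
def cutSet (Ω : Set E2) (ε : ℝ) : Set E2 := Ω ∩ {x | ε < F.s x}

theorem cut_test {Ω : Set E2} {φ : E2 → ℝ} (hφ : IsTest Ω φ) {ε : ℝ} (hε : 0 < ε) :
    IsTest (F.cutSet Ω ε) (fun x => φ x * F.eta ε x) := by
  refine ⟨hφ.smooth.mul (F.eta_smooth ε), hφ.cpt.mul_right, ?_⟩
  intro x hx
  refine ⟨hφ.supp (tsupport_mul_subset_left hx), ?_⟩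
  have h1 : x ∈ tsupport (F.eta ε) := tsupport_mul_subset_right hx
  have hcl : IsClosed {x | 3 / 2 * ε ≤ F.s x} :=
    isClosed_le continuous_const F.s_smooth.continuous
  have hsub : Function.support (F.eta ε) ⊆ {x | 3 / 2 * ε ≤ F.s x} := by
    intro y hy
    by_contra hcon
    simp only [mem_ofPred_eq, not_le] at hcon
    apply hy
    unfold eta
    apply hc_zero
    rw [div_le_iff₀ hε]; linarith
  have := closure_minimal hsub hcl h1
  simp only [mem_ofPred_eq] at this ⊢
  linarith

theorem lap_cut {φ : E2 → ℝ} (hφ : ContDiff ℝ ∞ φ) (ε : ℝ) (x : E2) :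
    Laplacian.laplacian (fun x => φ x * F.eta ε x) x =
      (D F.e (D F.e φ) x + D F.f (D F.f φ) x) * F.eta ε x
      + 2 * D F.e φ x * (deriv hc (F.s x / ε) / ε)
      + φ x * (deriv (deriv hc) (F.s x / ε) / ε ^ 2) := by
  have hη := F.eta_smooth ε
  have hDs : ∀ {w : E2 → ℝ}, ContDiff ℝ ∞ w → ∀ a : E2, ContDiff ℝ ∞ (D a w) := by
    intro w hw a
    have : ContDiff ℝ ∞ (fderiv ℝ w) := hw.fderiv_right (by norm_cast)
    exact this.clm_apply contDiff_const
  have key : ∀ a : E2, D a (D a (fun x => φ x * F.eta ε x)) x =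
      D a (D a φ) x * F.eta ε x + 2 * D a φ x * D a (F.eta ε) x + φ x * D a (D a (F.eta ε)) x := by
    intro a
    have h1 : D a (fun x => φ x * F.eta ε x) = fun x => D a φ x * F.eta ε x + φ x * D a (F.eta ε) x := by
      funext y; exact D_mul hφ hη a y
    rw [h1, D_add ((hDs hφ a).mul hη) (hφ.mul (hDs hη a)), D_mul (hDs hφ a) hη,
      D_mul hφ (hDs hη a)]
    ring
  rw [F.lap_eq (hφ.mul hη), key, key, F.D_e_eta, F.D_f_eta, F.D_ee_eta, F.D_ff_eta]
  ring

theorem cut_est {T : ℝ} {b : ℝ} (hb : 1 ≤ b) : ∃ C1 : ℝ, 0 ≤ C1 ∧ ∀ Ω : Set E2,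
    (∀ x ∈ Ω, 0 < F.s x ∧ |F.z x| ≤ T * F.s x) → ∀ ε : ℝ, 0 < ε → ∀ φ, IsTest Ω φ →
      plateEnergy (fun x => φ x * F.eta ε x) ≤ plateEnergy φ
        + C1 * (3 * ε) ^ b * (F.shift ε).M b φ ∧
      gradEnergy φ ≤ gradEnergy (fun x => φ x * F.eta ε x)
        + (3 * ε) ^ (b + 2) * (F.shift ε).M b φ := by
  obtain ⟨C, hC0, hC⟩ := hc_bounds
  refine ⟨6 + 351 * C ^ 2, by positivity, ?_⟩
  intro Ω hΩ ε hε φ hφ
  set G := F.shift ε with hG
  have hΩG : Ω ⊆ G.U := by
    intro x hx
    show 0 < G.s x
    rw [hG, F.shift_s]; linarith [(hΩ x hx).1]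
  have hφG : IsTest G.U φ := hφ.mono hΩG
  have hGe : G.e = F.e := rfl
  have hGf : G.f = F.f := rfl
  obtain ⟨hA1, hA2, hA3, hB1, hB2, hC0', hB, hCC⟩ := G.M_bounds hφG hb
  set us := D G.e φ with hus
  set uz := D G.f φ with huz
  set uss := D G.e us with huss
  set uzz := D G.f uz with huzz
  have tus : IsTest G.U us := hφG.D _
  have tuz : IsTest G.U uz := hφG.D _
  have tuss : IsTest G.U uss := tus.D _
  have tuzz : IsTest G.U uzz := tuz.D _
  have h3ε : 0 < 3 * ε := by linarith
  have hpow : 0 < (3 * ε) ^ b := Real.rpow_pos_of_pos h3ε _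
  have hpow2 : 0 < (3 * ε) ^ (b + 2) := Real.rpow_pos_of_pos h3ε _
  have hψ : IsTest Ω (fun x => φ x * F.eta ε x) := hφ.mul (F.eta_smooth ε)
  have hM : G.M b φ = G.J (-b) (fun x => uss x * uss x) +
    2 * G.J (-b) (fun x => D G.f us x * D G.f us x) + G.J (-b) (fun x => uzz x * uzz x) := rfl
  -- zero outside tsupport
  have hz : ∀ {x : E2}, x ∉ tsupport φ → φ x = 0 ∧ us x = 0 ∧ uz x = 0 ∧ uss x = 0 ∧ uzz x = 0 := by
    intro x hx
    have h0 : φ =ᶠ[𝓝 x] fun _ => 0 := notMem_tsupport_iff_eventuallyEq.1 hx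
    have hD : ∀ a, D a φ =ᶠ[𝓝 x] fun _ => 0 := by
      intro a
      filter_upwards [h0.fderiv (𝕜 := ℝ)] with y hy
      unfold D; rw [hy]; simp
    refine ⟨h0.eq_of_nhds, (hD _).eq_of_nhds, (hD _).eq_of_nhds, ?_, ?_⟩
    · rw [huss]; unfold D; rw [(hD G.e).fderiv_eq]; simp
    · rw [huzz]; unfold D; rw [(hD G.f).fderiv_eq]; simp
  constructor
  · set c := 3 * (3 * ε) ^ b with hc
    have i0 := ((lap_test hφ).mul (lap_test hφ).smooth).integrable
    have i1 := G.int ((tuss.mul tuss.smooth).smul (2 * c)) (-b)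
    have i2 := G.int ((tuzz.mul tuzz.smooth).smul (2 * c)) (-b)
    have i3 := G.int ((tus.mul tus.smooth).smul (36 * C ^ 2 * c)) (-b - 2)
    have i4 := G.int ((hφG.mul hφG.smooth).smul (81 * C ^ 2 * c)) (-b - 4)
    have key : plateEnergy (fun x => φ x * F.eta ε x) ≤
        ∫ x, ((((((fun x => Laplacian.laplacian φ x * Laplacian.laplacian φ x)
        + fun x => G.P (-b) x * (2 * c * (uss x * uss x)))
        + fun x => G.P (-b) x * (2 * c * (uzz x * uzz x)))
        + fun x => G.P (-b - 2) x * (36 * C ^ 2 * c * (us x * us x)))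
        + fun x => G.P (-b - 4) x * (81 * C ^ 2 * c * (φ x * φ x))) : E2 → ℝ) x := by
      unfold plateEnergy
      apply integral_mono
      · have := (lap_test hψ)
        have h2 := (this.mul this.smooth).integrable
        refine h2.congr ?_
        filter_upwards with x; ring
      · exact ((((i0.add i1).add i2).add i3).add i4)
      · intro x
        simp only [Pi.add_apply]
        rw [F.lap_cut hφ.smooth, F.lap_eq hφ.smooth]
        change ((uss x + uzz x) * F.eta ε x + 2 * us x * (deriv Bk.hc (F.s x / ε) / ε)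
          + φ x * (deriv (deriv Bk.hc) (F.s x / ε) / ε ^ 2)) ^ 2 ≤
          (uss x + uzz x) * (uss x + uzz x) + G.P (-b) x * (2 * c * (uss x * uss x))
          + G.P (-b) x * (2 * c * (uzz x * uzz x))
          + G.P (-b - 2) x * (36 * C ^ 2 * c * (us x * us x))
          + G.P (-b - 4) x * (81 * C ^ 2 * c * (φ x * φ x))
        have hc0 : 0 < c := by rw [hc]; positivity
        by_cases hx : x ∈ tsupport φ
        · have hxΩ := hφ.supp hx
          have hs := (hΩ x hxΩ).1
          have hxU : x ∈ G.U := hΩG hxΩ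
          have e1 : G.P (-b - 1) x = G.P (-b) x * G.P (-1) x := G.P_mul (by ring) hxU
          have e2 : G.P (-b - 2) x = G.P (-b) x * G.P (-1) x * G.P (-1) x := by
            rw [← e1]; exact G.P_mul (by ring) hxU
          have e4 : G.P (-b - 4) x = G.P (-b) x * G.P (-1) x * G.P (-1) x * G.P (-1) x * G.P (-1) x := by
            have e3 : G.P (-b - 3) x = G.P (-b) x * G.P (-1) x * G.P (-1) x * G.P (-1) x := by
              rw [← e2]; exact G.P_mul (by ring) hxU
            rw [← e3]; exact G.P_mul (by ring) hxU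
          have hp0 := G.P_pos (-b) hxU
          have hr0 := G.P_pos (-1) hxU
          rw [e2, e4]
          rcases le_or_gt (2 * ε) (F.s x) with h | h
          · have h2 : 2 ≤ F.s x / ε := by rw [le_div_iff₀ hε]; exact h
            have q1 : F.eta ε x = 1 := hc_one h2
            rw [hc1_zero h2, hc2_zero h2, q1]
            have t1 : 0 ≤ G.P (-b) x * (2 * c * (uss x * uss x)) := by
              have := mul_self_nonneg (uss x); positivity
            have t2 : 0 ≤ G.P (-b) x * (2 * c * (uzz x * uzz x)) := by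
              have := mul_self_nonneg (uzz x); positivity
            have t3 : 0 ≤ G.P (-b) x * G.P (-1) x * G.P (-1) x * (36 * C ^ 2 * c * (us x * us x)) := by
              have := mul_self_nonneg (us x); positivity
            have t4 : 0 ≤ G.P (-b) x * G.P (-1) x * G.P (-1) x * G.P (-1) x * G.P (-1) x *
              (81 * C ^ 2 * c * (φ x * φ x)) := by
              have := mul_self_nonneg (φ x); positivity
            simp only [zero_div, mul_zero, add_zero, mul_one]
            have t5 : (uss x + uzz x) ^ 2 = (uss x + uzz x) * (uss x + uzz x) := by ring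
            rw [t5]
            linarith
          · have hGs : G.s x ≤ 3 * ε := by rw [hG, F.shift_s]; linarith
            have hGs0 : 0 < G.s x := hxU
            have hp : 1 ≤ (3 * ε) ^ b * G.P (-b) x := by
              have h1 : (3 * ε) ^ (-b) ≤ G.P (-b) x := by
                unfold P
                exact Real.rpow_le_rpow_of_nonpos hGs0 hGs (by linarith)
              have h2 : (3 * ε) ^ b * (3 * ε) ^ (-b) = 1 := by
                rw [← Real.rpow_add h3ε]; simp
              calc (1:ℝ) = (3 * ε) ^ b * (3 * ε) ^ (-b) := h2.symm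
                _ ≤ _ := mul_le_mul_of_nonneg_left h1 hpow.le
            have hr : 1 / ε ≤ 3 * G.P (-1) x := by
              have : G.P (-1) x = (G.s x)⁻¹ := by unfold P; rw [Real.rpow_neg_one]
              rw [this, ← div_eq_mul_inv, div_le_div_iff₀ hε hGs0]
              linarith
            set r := G.P (-1) x
            set p := G.P (-b) x
            have ht0 : 0 ≤ F.s x / ε := by positivity
            obtain ⟨k1, k2⟩ := hC _ ht0
            set h' := deriv Bk.hc (F.s x / ε)
            set h'' := deriv (deriv Bk.hc) (F.s x / ε)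
            have g0 : 0 ≤ F.eta ε x := hc_nonneg _
            have g1 : F.eta ε x ≤ 1 := hc_le_one _
            have g2 : (F.eta ε x) ^ 2 ≤ 1 := by nlinarith
            have m1 : (h' / ε) ^ 2 ≤ C ^ 2 * (9 * (r * r)) := by
              have a1 : |h' / ε| ≤ C * (3 * r) := by
                rw [abs_div, abs_of_pos hε, div_eq_mul_one_div]
                exact mul_le_mul k1 hr (by positivity) hC0
              have a2 := pow_le_pow_left₀ (abs_nonneg _) a1 2
              rw [sq_abs] at a2
              calc _ ≤ _ := a2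
                _ = _ := by ring
            have m2 : (h'' / ε ^ 2) ^ 2 ≤ C ^ 2 * (81 * (r * r * r * r)) := by
              have a0 : 1 / ε ^ 2 ≤ 9 * (r * r) := by
                have := pow_le_pow_left₀ (by positivity) hr 2
                calc 1 / ε ^ 2 = (1 / ε) ^ 2 := by ring
                  _ ≤ _ := this
                  _ = _ := by ring
              have a1 : |h'' / ε ^ 2| ≤ C * (9 * (r * r)) := by
                rw [abs_div, abs_of_pos (by positivity : 0 < ε ^ 2), div_eq_mul_one_div]
                exact mul_le_mul k2 a0 (by positivity) hC0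
              have a2 := pow_le_pow_left₀ (abs_nonneg _) a1 2
              rw [sq_abs] at a2
              calc _ ≤ _ := a2
                _ = _ := by ring
            set L := uss x + uzz x
            have s1 : (L * F.eta ε x + 2 * us x * (h' / ε) + φ x * (h'' / ε ^ 2)) ^ 2
              ≤ 3 * (L * F.eta ε x) ^ 2 + 3 * (2 * us x * (h' / ε)) ^ 2
                + 3 * (φ x * (h'' / ε ^ 2)) ^ 2 := by
              nlinarith [sq_nonneg (L * F.eta ε x - 2 * us x * (h' / ε)),
                sq_nonneg (L * F.eta ε x - φ x * (h'' / ε ^ 2)),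
                sq_nonneg (2 * us x * (h' / ε) - φ x * (h'' / ε ^ 2))]
            have s2 : (L * F.eta ε x) ^ 2 ≤ 2 * (uss x * uss x) + 2 * (uzz x * uzz x) := by
              have : L ^ 2 ≤ 2 * (uss x * uss x) + 2 * (uzz x * uzz x) := by
                have : L = uss x + uzz x := rfl
                rw [this]
                nlinarith [sq_nonneg (uss x - uzz x)]
              calc (L * F.eta ε x) ^ 2 = L ^ 2 * (F.eta ε x) ^ 2 := by ring
                _ ≤ L ^ 2 * 1 := mul_le_mul_of_nonneg_left g2 (sq_nonneg _)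
                _ ≤ _ := by linarith
            have s3 : (2 * us x * (h' / ε)) ^ 2 ≤ 36 * C ^ 2 * (r * r) * (us x * us x) := by
              calc (2 * us x * (h' / ε)) ^ 2 = 4 * (us x * us x) * (h' / ε) ^ 2 := by ring
                _ ≤ 4 * (us x * us x) * (C ^ 2 * (9 * (r * r))) := by
                  apply mul_le_mul_of_nonneg_left m1
                  have := mul_self_nonneg (us x); positivity
                _ = _ := by ring
            have s4 : (φ x * (h'' / ε ^ 2)) ^ 2 ≤ 81 * C ^ 2 * (r * r * r * r) * (φ x * φ x) := by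
              calc (φ x * (h'' / ε ^ 2)) ^ 2 = (φ x * φ x) * (h'' / ε ^ 2) ^ 2 := by ring
                _ ≤ (φ x * φ x) * (C ^ 2 * (81 * (r * r * r * r))) :=
                  mul_le_mul_of_nonneg_left m2 (mul_self_nonneg _)
                _ = _ := by ring
            set X := 2 * (uss x * uss x) + 2 * (uzz x * uzz x)
              + 36 * C ^ 2 * (r * r) * (us x * us x) + 81 * C ^ 2 * (r * r * r * r) * (φ x * φ x) with hX
            have hX0 : 0 ≤ X := by
              have a1 := mul_self_nonneg (uss x)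
              have a2 := mul_self_nonneg (uzz x)
              have a3 := mul_self_nonneg (us x)
              have a4 := mul_self_nonneg (φ x)
              positivity
            have s5 : (L * F.eta ε x + 2 * us x * (h' / ε) + φ x * (h'' / ε ^ 2)) ^ 2 ≤ 3 * X := by
              rw [hX]; linarith
            have s6 : X ≤ (3 * ε) ^ b * p * X := by
              have := mul_le_mul_of_nonneg_right hp hX0
              linarith
            have s7 : 0 ≤ L * L := mul_self_nonneg L
            calc _ ≤ 3 * X := s5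
              _ ≤ 3 * ((3 * ε) ^ b * p * X) := by linarith
              _ ≤ L * L + 3 * ((3 * ε) ^ b * p * X) := by linarith
              _ = _ := by rw [hX, hc]; ring
        · obtain ⟨z0, z1, z2, z3, z4⟩ := hz hx
          rw [z0, z1, z3, z4]; simp
    rw [integral_add' (((i0.add i1).add i2).add i3) i4, integral_add' ((i0.add i1).add i2) i3,
      integral_add' (i0.add i1) i2, integral_add' i0 i1] at key
    change _ ≤ Qb φ φ + G.J (-b) (fun x => 2 * c * (uss x * uss x))
      + G.J (-b) (fun x => 2 * c * (uzz x * uzz x))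
      + G.J (-b - 2) (fun x => 36 * C ^ 2 * c * (us x * us x))
      + G.J (-b - 4) (fun x => 81 * C ^ 2 * c * (φ x * φ x)) at key
    rw [G.J_smul, G.J_smul, G.J_smul, G.J_smul, ← plate_eq] at key
    refine key.trans ?_
    have g1 : G.J (-b) (fun x => uss x * uss x) + G.J (-b) (fun x => uzz x * uzz x) ≤ G.M b φ := by
      rw [hM]; linarith
    have g2 : G.J (-b - 2) (fun x => us x * us x) ≤ G.M b φ := by linarith
    have hc0 : 0 < c := by rw [hc]; positivity
    have w1 : 2 * c * (G.J (-b) (fun x => uss x * uss x) + G.J (-b) (fun x => uzz x * uzz x))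
      ≤ 2 * c * G.M b φ := mul_le_mul_of_nonneg_left g1 (by positivity)
    have w2 : 36 * C ^ 2 * c * G.J (-b - 2) (fun x => us x * us x) ≤ 36 * C ^ 2 * c * G.M b φ :=
      mul_le_mul_of_nonneg_left g2 (by positivity)
    have w3 : 81 * C ^ 2 * c * G.J (-b - 4) (fun x => φ x * φ x) ≤ 81 * C ^ 2 * c * G.M b φ :=
      mul_le_mul_of_nonneg_left hCC (by positivity)
    have w4 : (6 + 351 * C ^ 2) * (3 * ε) ^ b * G.M b φ = (2 * c + 36 * C ^ 2 * c + 81 * C ^ 2 * c) * G.M b φ := by
      rw [hc]; ring
    rw [w4]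
    linarith
  · have i0 := (((hψ.D F.e).mul (hψ.D F.e).smooth).add ((hψ.D F.f).mul (hψ.D F.f).smooth)).integrable
    have i1 := G.int (((tus.mul tus.smooth).add (tuz.mul tuz.smooth)).smul ((3 * ε) ^ (b + 2))) (-b - 2)
    have key : gradEnergy φ ≤ gradEnergy (fun x => φ x * F.eta ε x)
        + G.J (-b - 2) (fun x => (3 * ε) ^ (b + 2) * (us x * us x + uz x * uz x)) := by
      rw [grad_eq F φ, grad_eq F (fun x => φ x * F.eta ε x)]
      unfold Nb J
      rw [← integral_add i0 i1]
      apply integral_mono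
      · exact (((hφ.D F.e).mul (hφ.D F.e).smooth).add ((hφ.D F.f).mul (hφ.D F.f).smooth)).integrable
      · exact i0.add i1
      · intro x
        simp only
        rw [D_mul hφ.smooth (F.eta_smooth ε), D_mul hφ.smooth (F.eta_smooth ε), F.D_e_eta, F.D_f_eta]
        change us x * us x + uz x * uz x ≤
          (us x * F.eta ε x + φ x * (deriv Bk.hc (F.s x / ε) / ε))
            * (us x * F.eta ε x + φ x * (deriv Bk.hc (F.s x / ε) / ε))
          + (uz x * F.eta ε x + φ x * 0) * (uz x * F.eta ε x + φ x * 0)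
          + G.P (-b - 2) x * ((3 * ε) ^ (b + 2) * (us x * us x + uz x * uz x))
        have hs2 : 0 ≤ us x * us x + uz x * uz x := by
          nlinarith [mul_self_nonneg (us x), mul_self_nonneg (uz x)]
        by_cases hx : x ∈ tsupport φ
        · have hxΩ := hφ.supp hx
          have hs := (hΩ x hxΩ).1
          have hxU : x ∈ G.U := hΩG hxΩ
          have hp0 := G.P_pos (-b - 2) hxU
          rcases le_or_gt (2 * ε) (F.s x) with h | h
          · have h2 : 2 ≤ F.s x / ε := by rw [le_div_iff₀ hε]; exact h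
            have q1 : F.eta ε x = 1 := hc_one h2
            rw [hc1_zero h2, q1]
            have : 0 ≤ G.P (-b - 2) x * ((3 * ε) ^ (b + 2) * (us x * us x + uz x * uz x)) := by
              positivity
            simp only [zero_div, mul_zero, add_zero, mul_one]
            linarith
          · have hGs : G.s x ≤ 3 * ε := by rw [hG, F.shift_s]; linarith
            have hGs0 : 0 < G.s x := hxU
            have hp : 1 ≤ (3 * ε) ^ (b + 2) * G.P (-b - 2) x := by
              have h1 : (3 * ε) ^ (-b - 2) ≤ G.P (-b - 2) x := by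
                unfold P
                exact Real.rpow_le_rpow_of_nonpos hGs0 hGs (by linarith)
              have h2 : (3 * ε) ^ (b + 2) * (3 * ε) ^ (-b - 2) = 1 := by
                rw [← Real.rpow_add h3ε]; ring_nf; simp
              calc (1:ℝ) = (3 * ε) ^ (b + 2) * (3 * ε) ^ (-b - 2) := h2.symm
                _ ≤ _ := mul_le_mul_of_nonneg_left h1 hpow2.le
            have h5 := mul_le_mul_of_nonneg_right hp hs2
            have h6 := mul_self_nonneg (us x * F.eta ε x + φ x * (deriv Bk.hc (F.s x / ε) / ε))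
            have h7 := mul_self_nonneg (uz x * F.eta ε x + φ x * 0)
            have h8 : G.P (-b - 2) x * ((3 * ε) ^ (b + 2) * (us x * us x + uz x * uz x)) =
              (3 * ε) ^ (b + 2) * G.P (-b - 2) x * (us x * us x + uz x * uz x) := by ring
            rw [h8]
            linarith
        · obtain ⟨z0, z1, z2, z3, z4⟩ := hz hx
          rw [z0, z1, z2]; simp
    rw [G.J_smul, G.J_add (tus.mul tus.smooth) (tuz.mul tuz.smooth)] at key
    refine key.trans ?_
    have := mul_le_mul_of_nonneg_left hB hpow2.le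
    linarith

end Frame

end Pool.Agent.W794.Bk
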