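import Pool.Agent.W794.Bk8

open MeasureTheory Set
open scoped ENNReal ContDiff Topology

namespace Pool.Agent.W794.Bk

namespace Frame
variable (F : Frame)

theorem vol_strip (a b c : ℝ) :
    volume {x : E2 | a < F.s x ∧ F.s x < b ∧ |F.z x| ≤ c} ≤
      ENNReal.ofReal (b - a) * ENNReal.ofReal (2 * c) := by
  obtain ⟨B, h0, h1⟩ := F.exists_basis
  have hr0 : ∀ x, (B.repr x) 0 = inner ℝ F.e x := by
    intro x; rw [B.repr_apply_apply, h0]
  have hr1 : ∀ x, (B.repr x) 1 = inner ℝ F.f x := by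
    intro x; rw [B.repr_apply_apply, h1]
  set S : Set (Fin 2 → ℝ) := Set.pi univ ![Ioo (a - F.c) (b - F.c), Icc (-c - F.d) (c - F.d)] with hS
  have hSm : MeasurableSet S := by
    apply MeasurableSet.univ_pi
    intro i; fin_cases i
    · exact measurableSet_Ioo
    · exact measurableSet_Icc
  have hmp : MeasurePreserving (fun x : E2 => WithLp.ofLp (B.repr x)) volume volume :=
    (PiLp.volume_preserving_ofLp (Fin 2)).comp B.measurePreserving_repr
  have hsub : {x : E2 | a < F.s x ∧ F.s x < b ∧ |F.z x| ≤ c} ⊆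
      (fun x : E2 => WithLp.ofLp (B.repr x)) ⁻¹' S := by
    rintro x ⟨k1, k2, k3⟩
    rw [abs_le] at k3
    unfold s at k1 k2
    unfold z at k3
    intro i _
    fin_cases i
    · show (B.repr x) 0 ∈ Ioo (a - F.c) (b - F.c)
      rw [hr0]; constructor <;> linarith
    · show (B.repr x) 1 ∈ Icc (-c - F.d) (c - F.d)
      rw [hr1]; constructor <;> linarith [k3.1, k3.2]
  refine (measure_mono hsub).trans ?_
  rw [hmp.measure_preimage hSm.nullMeasurableSet, hS, volume_pi_pi]
  rw [Fin.prod_univ_two]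
  simp only [Matrix.cons_val_zero, Matrix.cons_val_one, Real.volume_Ioo, Real.volume_Icc]
  apply le_of_eq
  congr 2 <;> ring

/-- the part of `Ω` below the line `s = ε` has area at least `c ε²` -/
theorem vol_corner {Ω : Set E2} (ho : IsOpen Ω) (hconv : Convex ℝ Ω) (hne : Ω.Nonempty)
    {x0 : E2} (hx0 : x0 ∈ closure Ω) (hs0 : F.s x0 = 0) (hsp : ∀ x ∈ Ω, 0 < F.s x) :
    ∃ c ε0 : ℝ, 0 < c ∧ 0 < ε0 ∧ ∀ ε, 0 < ε → ε < ε0 →
      ENNReal.ofReal (c * ε ^ 2) ≤ volume (Ω ∩ {x | F.s x < ε}) := by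
  obtain ⟨q, hq⟩ := hne
  obtain ⟨ρ, hρ, hball⟩ := Metric.isOpen_iff.1 ho q hq
  have hsq := hsp q hq
  refine ⟨Real.pi * (ρ / (F.s q + ρ)) ^ 2, F.s q + ρ, by positivity, by linarith, ?_⟩
  intro ε hε hε0
  set t := ε / (F.s q + ρ) with ht
  have ht0 : 0 < t := by positivity
  have ht1 : t < 1 := by rw [ht, div_lt_one (by linarith)]; exact hε0
  have hsub : Metric.ball (x0 + t • (q - x0)) (t * ρ) ⊆ Ω ∩ {x | F.s x < ε} := by
    intro y hy
    rw [Metric.mem_ball, dist_eq_norm] at hy
    set y' := x0 + t⁻¹ • (y - x0) with hy'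
    have hyy : y = x0 + t • (y' - x0) := by
      rw [hy']; simp [smul_smul, ht0.ne']
    have hy'b : y' ∈ Metric.ball q ρ := by
      rw [Metric.mem_ball, dist_eq_norm]
      have e1 : y' - q = t⁻¹ • (y - (x0 + t • (q - x0))) := by
        rw [hy']
        have : t⁻¹ • (y - (x0 + t • (q - x0))) = t⁻¹ • (y - x0) - (t⁻¹ * t) • (q - x0) := by
          rw [← smul_smul, ← smul_sub]; congr 1; abel
        rw [this, inv_mul_cancel₀ ht0.ne', one_smul]; abel
      rw [e1, norm_smul, norm_inv, Real.norm_eq_abs, abs_of_pos ht0]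
      rw [inv_mul_lt_iff₀ ht0]; exact hy
    have hy'Ω : y' ∈ Ω := hball hy'b
    constructor
    · have hmem : y ∈ openSegment ℝ x0 y' := by
        refine ⟨1 - t, t, by linarith, ht0, by ring, ?_⟩
        rw [hyy]; rw [sub_smul, one_smul, smul_sub]; abel
      have := hconv.openSegment_closure_interior_subset_interior hx0
        (by rw [ho.interior_eq]; exact hy'Ω) hmem
      rwa [ho.interior_eq] at this
    · show F.s y < ε
      have e2 : F.s y = t * F.s y' := by
        have : F.s y = F.s x0 + t * (F.s y' - F.s x0) := by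
          rw [hyy]; unfold s
          rw [inner_add_right, inner_smul_right, inner_sub_right]; ring
        rw [this, hs0]; ring
      have e3 : F.s y' < F.s q + ρ := by
        have : F.s y' - F.s q = inner ℝ F.e (y' - q) := by
          unfold s; rw [inner_sub_right]; ring
        have h2 : inner ℝ F.e (y' - q) ≤ ‖F.e‖ * ‖y' - q‖ := real_inner_le_norm _ _
        rw [F.he, one_mul] at h2
        rw [Metric.mem_ball, dist_eq_norm] at hy'b
        linarith
      rw [e2]
      calc t * F.s y' < t * (F.s q + ρ) := mul_lt_mul_of_pos_left e3 ht0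
        _ = ε := by rw [ht]; field_simp
  refine le_trans ?_ (measure_mono hsub)
  rw [EuclideanSpace.volume_ball_fin_two]
  rw [← ENNReal.ofReal_pow (by positivity)]
  rw [← ENNReal.ofReal_mul (by positivity)]
  apply ENNReal.ofReal_le_ofReal
  apply le_of_eq
  rw [ht]; field_simp

end Frame

end Pool.Agent.W794.Bk
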