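import Mathlib

/-! Definitions for the buckling problem with a perimeter constraint in the plane. -/

open MeasureTheory Set
open scoped ENNReal ContDiff Topology

namespace Pool.Agent.W794.Bk

/-- the Euclidean plane -/
abbrev E2 := EuclideanSpace ℝ (Fin 2)

/-- `φ ∈ C_c^∞(Ω)` -/
structure IsTest (Ω : Set E2) (φ : E2 → ℝ) : Prop where
  smooth : ContDiff ℝ ∞ φ
  cpt : HasCompactSupport φ
  supp : tsupport φ ⊆ Ω

/-- `∫ (Δ φ)²` -/
noncomputable def plateEnergy (φ : E2 → ℝ) : ℝ :=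
  ∫ x, (Laplacian.laplacian φ x) ^ 2

/-- `∫ |∇ φ|²` -/
noncomputable def gradEnergy (φ : E2 → ℝ) : ℝ :=
  ∫ x, ‖fderiv ℝ φ x‖ ^ 2

/-- The first buckling eigenvalue `Λ₁(Ω)`: the infimum of `∫ (Δ φ)² / ∫ |∇ φ|²` over the nonzero
`φ ∈ C_c^∞(Ω)` (equivalently over the nonzero elements of the closure `H²₀(Ω)`). -/
noncomputable def buckling (Ω : Set E2) : ℝ≥0∞ :=
  ⨅ (φ : E2 → ℝ) (_ : IsTest Ω φ) (_ : φ ≠ 0), ENNReal.ofReal (plateEnergy φ / gradEnergy φ)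

/-- divergence of a vector field of the plane -/
noncomputable def divg (φ : E2 → E2) (x : E2) : ℝ :=
  ∑ i, (fderiv ℝ φ x (EuclideanSpace.single i 1)) i

/-- the De Giorgi perimeter -/
noncomputable def perimeter (A : Set E2) : ℝ≥0∞ :=
  ⨆ (φ : E2 → E2) (_ : ContDiff ℝ 1 φ) (_ : HasCompactSupport φ) (_ : ∀ x, ‖φ x‖ ≤ 1),
    ENNReal.ofReal (∫ x in A, divg φ x)

/-- admissible sets: nonempty, open, of finite area and of perimeter at most `p` -/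
def Admissible (p : ℝ) (Ω : Set E2) : Prop :=
  IsOpen Ω ∧ Ω.Nonempty ∧ volume Ω < ⊤ ∧ perimeter Ω ≤ ENNReal.ofReal p

/-- optimal shapes for `min {Λ₁(Ω) : |Ω| < ∞, P(Ω) ≤ p}` -/
def IsOptimal (p : ℝ) (Ω : Set E2) : Prop :=
  Admissible p Ω ∧ ∀ Ω', Admissible p Ω' → buckling Ω ≤ buckling Ω'

end Pool.Agent.W794.Bk
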