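import Pool.Agent.W794.Ap3
import Pool.Agent.H792R3.Quad.Curve
import Pool.Agent.Helper859.Stk.L03a
import Pool.Agent.Helper859.Stk.L03b

set_option autoImplicit false
set_option linter.all false

open Metric Set Filter Topology MeasureTheory
open scoped ENNReal Real
open Pool.Agent.Helper859.Stk

namespace Pool.Agent.W794.Fib

abbrev E2 := EuclideanSpace ℝ (Fin 2)

/-- the standard isometry -/
noncomputable def Ph : ℂ ≃ₗᵢ[ℝ] E2 := Complex.orthonormalBasisOneI.repr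

/-- the domain -/
def Om (F : ℂ → ℂ) : Set E2 := Ph '' (F '' ball (0 : ℂ) 1)

/-- pull back to the disc -/
noncomputable def pull (F : ℂ → ℂ) : (E2 → ℝ) →ₗ[ℝ] (ℂ → ℝ) where
  toFun u z := u (Ph (F z))
  map_add' u v := rfl
  map_smul' a u := rfl

theorem pull_apply (F : ℂ → ℂ) (u : E2 → ℝ) (z : ℂ) : pull F u z = u (Ph (F z)) := rfl

theorem Conf.contDiffOn {F G : ℂ → ℂ} (h : Conf F G) : ContDiffOn ℝ 1 F (ball (0 : ℂ) (3 / 2)) := by
  have h1 : DifferentiableOn ℂ F (ball (0 : ℂ) (3 / 2)) := fun z hz =>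
    (h.dF z hz).differentiableAt.differentiableWithinAt
  exact (h1.contDiffOn isOpen_ball : ContDiffOn ℂ 1 F _).restrict_scalars ℝ

theorem pull_contDiff {F G : ℂ → ℂ} (h : Conf F G) {u : E2 → ℝ} (hu : ContDiff ℝ 1 u) :
    ContDiffOn ℝ 1 (pull F u) (ball (0 : ℂ) (3 / 2)) := by
  exact (hu.comp Ph.contDiff).comp_contDiffOn (Conf.contDiffOn h)

theorem lint_toReal {g : ℂ → ℝ} {s : Set ℂ} (hg : Measurable g) :
    ∫ z in s, g z ^ 2 = (∫⁻ z in s, ENNReal.ofReal (g z ^ 2)).toReal := by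
  rw [integral_eq_lintegral_of_nonneg_ae]
  · exact Filter.Eventually.of_forall fun z => by positivity
  · exact (hg.pow_const 2).aestronglyMeasurable

theorem energy_toReal (u : ℂ → ℝ) (s : Set ℂ) :
    ∫ z in s, ‖fderiv ℝ u z‖ ^ 2 = (∫⁻ z in s, ENNReal.ofReal (‖fderiv ℝ u z‖ ^ 2)).toReal :=
  lint_toReal (measurable_fderiv ℝ u).norm

theorem energy_dom {F G : ℂ → ℂ} (h : Conf F G) {u : E2 → ℝ} (hu : ContDiff ℝ 1 u) :
    ∫ x in Om F, ‖fderiv ℝ u x‖ ^ 2 = ∫ z in ball (0 : ℂ) 1, ‖fderiv ℝ (pull F u) z‖ ^ 2 := by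
  have hsub : ball (0 : ℂ) 1 ⊆ ball (0 : ℂ) (3 / 2) := ball_subset_ball (by norm_num)
  have h1 : ∫ x in Om F, ‖fderiv ℝ u x‖ ^ 2 =
      ∫ y in F '' ball (0 : ℂ) 1, ‖fderiv ℝ (fun y => u (Ph y)) y‖ ^ 2 := by
    unfold Om
    rw [(Ph.measurePreserving).setIntegral_image_emb (Ph.toHomeomorph.measurableEmbedding)]
    refine integral_congr_ae (Filter.Eventually.of_forall fun y => ?_)
    beta_reduce
    have h2 : HasFDerivAt (fun y => u (Ph y))
        ((fderiv ℝ u (Ph y)).comp (Ph.toContinuousLinearEquiv : ℂ →L[ℝ] E2)) y :=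
      ((hu.differentiable (by norm_num)).differentiableAt.hasFDerivAt).comp y
        Ph.toContinuousLinearEquiv.hasFDerivAt
    rw [h2.fderiv]
    congr 1
    exact (ContinuousLinearMap.opNorm_comp_linearIsometryEquiv _ Ph).symm
  have h3 := conf_energy measurableSet_ball (fun z hz => h.dF z (hsub hz))
    (h.iF.mono hsub) (u := fun y => u (Ph y))
    (fun z hz => (hu.comp Ph.contDiff).differentiable (by norm_num) _)
  rw [h1, energy_toReal, energy_toReal, h3]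
  rfl

theorem frontier_Om {F G : ℂ → ℂ} (h : Conf F G) :
    frontier (Om F) = Ph '' (F '' sphere (0 : ℂ) 1) := by
  unfold Om
  rw [← (L03a.topo h).2.2.2.1]
  exact (Ph.toHomeomorph.image_frontier _).symm

theorem bd_dom {F G : ℂ → ℂ} (h : Conf F G) {u : E2 → ℝ} (hu : ContDiff ℝ 1 u) :
    ∫ x in frontier (Om F), u x ^ 2 ∂μH[1] =
      ∫ θ in (-π)..π, ‖G (ex θ)‖ * pull F u (ex θ) ^ 2 := by
  rw [frontier_Om h]
  have h1 : ∫ x in Ph '' (F '' sphere (0 : ℂ) 1), u x ^ 2 ∂μH[1] =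
      ∫ y in F '' sphere (0 : ℂ) 1, u (Ph y) ^ 2 ∂μH[1] :=
    (Ph.toIsometryEquiv.measurePreserving_hausdorffMeasure 1).setIntegral_image_emb
      (Ph.toHomeomorph.measurableEmbedding) (fun x => u x ^ 2) _
  rw [h1]
  have huc : Continuous fun y : ℂ => u (Ph y) ^ 2 := (hu.continuous.comp Ph.continuous).pow 2
  have h2 := (Pool.Agent.H792R3.Quad.curve (f := F) (k := G) isOpen_ball h.dF (L03a.topo h).2.2.2.2 h.iF
    (c := 0) one_pos (sphere_subset_closedBall.trans (closedBall_subset_ball (by norm_num)))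
    (F := fun y => ((u (Ph y) ^ 2 : ℝ) : ℂ))
    ((Complex.continuous_ofReal.comp huc).continuousOn)).2
  rw [integral_complex_ofReal] at h2
  have h3 : ∀ θ : ℝ, (0 : ℂ) + (1 : ℝ) * Pool.Agent.H792R3.Quad.ex θ = ex θ := by
    intro θ
    simp [Pool.Agent.H792R3.Quad.ex, ex]
  simp only [Pool.Agent.H792R3.Quad.gam, h3, one_mul] at h2
  have h4 : ∫ θ in (-π)..π, ((‖G (ex θ)‖ : ℝ) : ℂ) * ((u (Ph (F (ex θ))) ^ 2 : ℝ) : ℂ) =
      ((∫ θ in (-π)..π, ‖G (ex θ)‖ * pull F u (ex θ) ^ 2 : ℝ) : ℂ) := by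
    rw [← intervalIntegral.integral_ofReal]
    refine intervalIntegral.integral_congr fun θ _ => ?_
    beta_reduce
    rw [pull_apply]
    push_cast
    ring
  rw [h4] at h2
  exact_mod_cast h2

end Pool.Agent.W794.Fib
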