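import Pool.Agent.W794.Dom1

set_option autoImplicit false
set_option linter.all false

open Metric Set Filter Topology MeasureTheory
open scoped ENNReal Real
open Pool.Agent.Helper859.Stk

namespace Pool.Agent.W794.Fib

/-- extension of functions from the disc to the plane -/
noncomputable def extOp (O : Set ℂ) (κ : ℂ → ℝ) (J : ℂ → ℂ) : (ℂ → ℝ) →ₗ[ℝ] (E2 → ℝ) := by
  classical exact
  { toFun := fun V y => if Ph.symm y ∈ O then κ (J (Ph.symm y)) * V (J (Ph.symm y)) else 0
    map_add' := fun U V => by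
      funext y
      simp only [Pi.add_apply]
      split_ifs <;> ring
    map_smul' := fun a U => by
      funext y
      simp only [Pi.smul_apply, smul_eq_mul, RingHom.id_apply]
      split_ifs <;> ring }

theorem extOp_in {O : Set ℂ} {κ : ℂ → ℝ} {J : ℂ → ℂ} {V : ℂ → ℝ} {y : E2} (hy : Ph.symm y ∈ O) :
    extOp O κ J V y = κ (J (Ph.symm y)) * V (J (Ph.symm y)) := by
  classical
  show (if Ph.symm y ∈ O then κ (J (Ph.symm y)) * V (J (Ph.symm y)) else 0) = _
  rw [if_pos hy]

theorem extOp_out {O : Set ℂ} {κ : ℂ → ℝ} {J : ℂ → ℂ} {V : ℂ → ℝ} {y : E2} (hy : Ph.symm y ∉ O) :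
    extOp O κ J V y = 0 := by
  classical
  show (if Ph.symm y ∈ O then κ (J (Ph.symm y)) * V (J (Ph.symm y)) else 0) = _
  rw [if_neg hy]

theorem exists_ext {F G : ℂ → ℂ} (h : Conf F G) {ρ : ℝ} (hρ : 1 < ρ) :
    ∃ X : (ℂ → ℝ) →ₗ[ℝ] (E2 → ℝ), ∀ V : ℂ → ℝ, ContDiffOn ℝ 1 V (ball (0 : ℂ) ρ) →
      ContDiff ℝ 1 (X V) ∧ ∀ z ∈ closedBall (0 : ℂ) 1, pull F (X V) z = V z := by
  obtain ⟨J, hJ⟩ := L03b.exists_inv h
  set ρ' : ℝ := min ρ (3 / 2) with hρ'
  have hρ1 : 1 < ρ' := lt_min hρ (by norm_num)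
  have hρ32 : ρ' ≤ 3 / 2 := min_le_right _ _
  have hρρ : ρ' ≤ ρ := min_le_left _ _
  set r1 : ℝ := 1 + (ρ' - 1) / 3 with hr1
  set r2 : ℝ := 1 + 2 * (ρ' - 1) / 3 with hr2
  let κ : ContDiffBump (0 : ℂ) := ⟨r1, r2, by linarith, by linarith⟩
  have hκc : ContDiff ℝ 1 (κ : ℂ → ℝ) := κ.contDiff
  set O : Set ℂ := F '' ball (0 : ℂ) ρ' with hO
  have hcd : ContinuousOn F (ball (0 : ℂ) (3 / 2)) := fun z hz =>
    (h.dF z hz).continuousAt.continuousWithinAt
  have hOo : IsOpen O := by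
    rw [isOpen_iff_mem_nhds]
    rintro _ ⟨z, hz, rfl⟩
    have hz' : z ∈ ball (0 : ℂ) (3 / 2) := ball_subset_ball hρ32 hz
    have hdiff : DifferentiableOn ℂ F (ball (0 : ℂ) (3 / 2)) := fun z hz =>
      (h.dF z hz).differentiableAt.differentiableWithinAt
    have hst : HasStrictDerivAt F (G z) z := by
      have := (hdiff.analyticAt (isOpen_ball.mem_nhds hz')).hasStrictDerivAt
      rwa [(h.dF z hz').deriv] at this
    rw [← hst.map_nhds_eq (h.G0 z hz')]
    exact Filter.image_mem_map (isOpen_ball.mem_nhds hz)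
  have hJO : ContDiffOn ℝ 1 J O := by
    have h1 : DifferentiableOn ℂ J O := by
      rintro _ ⟨z, hz, rfl⟩
      exact (hJ z (ball_subset_ball hρ32 hz)).2.differentiableAt.differentiableWithinAt
    exact (h1.contDiffOn hOo : ContDiffOn ℂ 1 J O).restrict_scalars ℝ
  have hJm : ∀ y ∈ O, J y ∈ ball (0 : ℂ) ρ' := by
    rintro _ ⟨z, hz, rfl⟩
    rw [(hJ z (ball_subset_ball hρ32 hz)).1]
    exact hz
  have hKc : IsClosed (F '' closedBall (0 : ℂ) r2) := by
    refine ((isCompact_closedBall (0 : ℂ) r2).image_of_continuousOn (hcd.mono ?_)).isClosed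
    exact closedBall_subset_ball (by rw [hr2]; linarith)
  refine ⟨extOp O κ J, fun V hV => ⟨?_, ?_⟩⟩
  · rw [contDiff_iff_contDiffAt]
    intro y
    by_cases hy : Ph.symm y ∈ O
    · have h1 : ContDiffOn ℝ 1 (fun x => κ (J x) * V (J x)) O :=
        (hκc.comp_contDiffOn hJO).mul (hV.comp hJO fun x hx => ball_subset_ball hρρ (hJm x hx))
      have h2 : ContDiffAt ℝ 1 (fun x => κ (J x) * V (J x)) (Ph.symm y) :=
        h1.contDiffAt (hOo.mem_nhds hy)
      have h3 : ContDiffAt ℝ 1 (fun y => κ (J (Ph.symm y)) * V (J (Ph.symm y))) y :=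
        h2.comp y Ph.symm.contDiff.contDiffAt
      refine h3.congr_of_eventuallyEq ?_
      filter_upwards [(hOo.preimage Ph.symm.continuous).mem_nhds hy] with x hx
      exact extOp_in hx
    · have hy2 : Ph.symm y ∉ F '' closedBall (0 : ℂ) r2 := fun h' =>
        hy (image_mono (closedBall_subset_ball (by rw [hr2]; linarith)) h')
      refine (contDiffAt_const (c := (0 : ℝ))).congr_of_eventuallyEq ?_
      filter_upwards [(hKc.isOpen_compl.preimage Ph.symm.continuous).mem_nhds hy2] with x hx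
      by_cases hxO : Ph.symm x ∈ O
      · rw [extOp_in hxO]
        obtain ⟨z, hz, hzx⟩ := hxO
        rw [← hzx, (hJ z (ball_subset_ball hρ32 hz)).1]
        have h4 : κ z = 0 := by
          apply κ.zero_of_le_dist
          rw [dist_zero_right]
          by_contra hcon
          push Not at hcon
          exact hx ⟨z, mem_closedBall_zero_iff.2 hcon.le, hzx⟩
        rw [h4, zero_mul]
      · exact extOp_out hxO
  · intro z hz
    have hz' : z ∈ ball (0 : ℂ) ρ' := closedBall_subset_ball hρ1 hz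
    have hzO : Ph.symm (Ph (F z)) ∈ O := by
      rw [LinearIsometryEquiv.symm_apply_apply]
      exact ⟨z, hz', rfl⟩
    rw [pull_apply, extOp_in hzO, LinearIsometryEquiv.symm_apply_apply,
      (hJ z (ball_subset_ball hρ32 hz')).1]
    have : κ z = 1 := κ.one_of_mem_closedBall (by
      refine closedBall_subset_closedBall ?_ hz
      show 1 ≤ r1
      rw [hr1]; linarith)
    rw [this, one_mul]

end Pool.Agent.W794.Fib
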