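import Mathlib

set_option autoImplicit false
set_option linter.all false

open Metric Set Filter Topology MeasureTheory

namespace Pool.Agent.W794.Fd

variable {V : Type*} [AddCommGroup V] [Module ℝ V]

/-- quadratic functions -/
def IsQ (q : V → ℝ) : Prop := ∃ B : V →ₗ[ℝ] V →ₗ[ℝ] ℝ, ∀ u, q u = B u u

theorem IsQ.sub {q r : V → ℝ} (hq : IsQ q) (hr : IsQ r) : IsQ (fun u => q u - r u) := by
  obtain ⟨B, hB⟩ := hq
  obtain ⟨C, hC⟩ := hr
  exact ⟨B - C, fun u => by simp [hB, hC]⟩

theorem isQ_int {X : Type*} [MeasurableSpace X] {μ : Measure X} {b : V → V → X → ℝ}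
    (hi : ∀ u v, Integrable (b u v) μ) (hs : ∀ u v, b u v =ᵐ[μ] b v u)
    (ha : ∀ u u' v, b (u + u') v =ᵐ[μ] fun x => b u v x + b u' v x)
    (hm : ∀ (a : ℝ) u v, b (a • u) v =ᵐ[μ] fun x => a * b u v x) :
    IsQ (fun u => ∫ x, b u u x ∂μ) := by
  have hs' : ∀ u v, ∫ x, b u v x ∂μ = ∫ x, b v u x ∂μ := fun u v => integral_congr_ae (hs u v)
  have ha' : ∀ u u' v, ∫ x, b (u + u') v x ∂μ = ∫ x, b u v x ∂μ + ∫ x, b u' v x ∂μ := by
    intro u u' v
    rw [integral_congr_ae (ha u u' v), integral_add (hi u v) (hi u' v)]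
  have hm' : ∀ (a : ℝ) u v, ∫ x, b (a • u) v x ∂μ = a * ∫ x, b u v x ∂μ := by
    intro a u v
    rw [integral_congr_ae (hm a u v), integral_const_mul]
  refine ⟨LinearMap.mk₂ ℝ (fun u v => ∫ x, b u v x ∂μ) ha' (fun a u v => hm' a u v)
    (fun u v v' => ?_) (fun a u v => ?_), fun u => rfl⟩
  · rw [hs' u (v + v'), ha', hs' v u, hs' v' u]
  · rw [hs' u (a • v), hm', hs' v u, smul_eq_mul]

/-- pointwise convergence of quadratic forms is uniform relatively to a positive definite one -/
theorem uniform [FiniteDimensional ℝ V] {n : V → ℝ} (hn : IsQ n) (hpos : ∀ u, u ≠ 0 → 0 < n u)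
    {q : ℕ → V → ℝ} (hq : ∀ j, IsQ (q j)) (hl : ∀ u, Tendsto (fun j => q j u) atTop (𝓝 0))
    {η : ℝ} (hη : 0 < η) : ∀ᶠ j in atTop, ∀ u, |q j u| ≤ η * n u := by
  obtain ⟨B, hB⟩ := hn
  let core : InnerProductSpace.Core ℝ V :=
    { inner := fun u v => (B u v + B v u) / 2
      conj_inner_symm := fun u v => by
        simp only [conj_trivial]
        ring
      re_inner_nonneg := fun u => by
        simp only [RCLike.re_to_real]
        by_cases hu : u = 0
        · simp [hu]
        · have := hpos u hu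
          rw [hB] at this
          linarith
      add_left := fun u v w => by
        simp only [map_add, LinearMap.add_apply]
        ring
      smul_left := fun u v a => by
        simp only [map_smul, LinearMap.smul_apply, smul_eq_mul, conj_trivial]
        ring
      definite := fun u hu => by
        by_contra hne
        have := hpos u hne
        rw [hB] at this
        have hu' : (B u u + B u u) / 2 = 0 := hu
        linarith }
  letI : NormedAddCommGroup V := core.toNormedAddCommGroup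
  letI : InnerProductSpace ℝ V := InnerProductSpace.ofCore core.toCore
  have hnorm : ∀ u : V, n u = ‖u‖ ^ 2 := by
    intro u
    rw [← real_inner_self_eq_norm_sq, hB]
    show B u u = (B u u + B u u) / 2
    ring
  set e := stdOrthonormalBasis ℝ V with he
  set m := Module.finrank ℝ V with hm
  -- polarisation
  set S : ℕ → V → V → ℝ := fun j u v => (q j (u + v) - q j u - q j v) / 2 with hS
  have hSB : ∀ j, ∃ C : V →ₗ[ℝ] V →ₗ[ℝ] ℝ, (∀ u, q j u = C u u) ∧
      ∀ u v, S j u v = (C u v + C v u) / 2 := by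
    intro j
    obtain ⟨C, hC⟩ := hq j
    refine ⟨C, hC, fun u v => ?_⟩
    simp only [hS, hC, map_add, LinearMap.add_apply]
    ring
  have hSl : ∀ u v, Tendsto (fun j => |S j u v|) atTop (𝓝 0) := by
    intro u v
    have h1 : Tendsto (fun j => S j u v) atTop (𝓝 ((0 - 0 - 0) / 2)) :=
      (((hl (u + v)).sub (hl u)).sub (hl v)).div_const 2
    have h2 := h1.abs
    simpa using h2
  have hsum : Tendsto (fun j => ∑ i, ∑ k, |S j (e i) (e k)|) atTop (𝓝 0) := by
    have : Tendsto (fun j => ∑ i, ∑ k, |S j (e i) (e k)|) atTop (𝓝 (∑ i : Fin m, ∑ k : Fin m, (0 : ℝ))) :=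
      tendsto_finsetSum _ fun i _ => tendsto_finsetSum _ fun k _ => hSl _ _
    simpa using this
  filter_upwards [hsum.eventually_lt_const hη] with j hj u
  obtain ⟨C, hC, hSC⟩ := hSB j
  have hu : ∑ i, inner ℝ (e i) u • e i = u := e.sum_repr' u
  have h1 : q j u = ∑ i, ∑ k, inner ℝ (e i) u * (inner ℝ (e k) u * S j (e i) (e k)) := by
    have h3 : C u u = ∑ i, ∑ k, inner ℝ (e i) u * (inner ℝ (e k) u * C (e k) (e i)) := by
      conv_lhs => rw [← hu]
      rw [map_sum]
      refine Finset.sum_congr rfl fun i _ => ?_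
      rw [map_smul, smul_eq_mul, map_sum, LinearMap.sum_apply, Finset.mul_sum]
      refine Finset.sum_congr rfl fun k _ => ?_
      rw [map_smul, LinearMap.smul_apply, smul_eq_mul]
    have h2 : C u u = ∑ i, ∑ k, inner ℝ (e i) u * (inner ℝ (e k) u * C (e i) (e k)) := by
      rw [h3, Finset.sum_comm]
      refine Finset.sum_congr rfl fun i _ => Finset.sum_congr rfl fun k _ => by ring
    have h4 : q j u = (C u u + C u u) / 2 := by rw [hC]; ring
    rw [h4]
    nth_rw 1 [h2]
    rw [h3, ← Finset.sum_add_distrib, Finset.sum_div]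
    refine Finset.sum_congr rfl fun i _ => ?_
    rw [← Finset.sum_add_distrib, Finset.sum_div]
    refine Finset.sum_congr rfl fun k _ => ?_
    rw [hSC]
    ring
  have hci : ∀ i, |inner ℝ (e i) u| ≤ ‖u‖ := by
    intro i
    have := abs_real_inner_le_norm (e i) u
    rwa [e.orthonormal.1 i, one_mul] at this
  rw [h1, hnorm]
  calc |∑ i, ∑ k, inner ℝ (e i) u * (inner ℝ (e k) u * S j (e i) (e k))|
      ≤ ∑ i, |∑ k, inner ℝ (e i) u * (inner ℝ (e k) u * S j (e i) (e k))| :=
        Finset.abs_sum_le_sum_abs _ _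
    _ ≤ ∑ i, ∑ k, |inner ℝ (e i) u * (inner ℝ (e k) u * S j (e i) (e k))| :=
        Finset.sum_le_sum fun i _ => Finset.abs_sum_le_sum_abs _ _
    _ ≤ ∑ i, ∑ k, |S j (e i) (e k)| * ‖u‖ ^ 2 := by
        refine Finset.sum_le_sum fun i _ => Finset.sum_le_sum fun k _ => ?_
        rw [abs_mul, abs_mul]
        calc |inner ℝ (e i) u| * (|inner ℝ (e k) u| * |S j (e i) (e k)|)
            ≤ ‖u‖ * (‖u‖ * |S j (e i) (e k)|) :=
              mul_le_mul (hci i) (mul_le_mul_of_nonneg_right (hci k) (abs_nonneg _))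
                (by positivity) (norm_nonneg _)
          _ = |S j (e i) (e k)| * ‖u‖ ^ 2 := by ring
    _ = (∑ i, ∑ k, |S j (e i) (e k)|) * ‖u‖ ^ 2 := by
        rw [Finset.sum_mul]
        refine Finset.sum_congr rfl fun i _ => by rw [Finset.sum_mul]
    _ ≤ η * ‖u‖ ^ 2 := mul_le_mul_of_nonneg_right hj.le (by positivity)

end Pool.Agent.W794.Fd
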