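import Pool.Agent.W794.Orth2

set_option autoImplicit false
set_option linter.all false

open Metric Set Filter Topology
open Pool.Agent.Helper859.Stk

namespace Pool.Agent.W794.Fib

/-- regular points of the closed disc of the base -/
def Reg (R : ℝ) (w : ℂ) : Prop :=
  ‖w‖ = 1 ∨ (‖w‖ < 1 ∧ (R : ℂ) * w + Complex.I ≠ 0 ∧ (R : ℂ) * w + Complex.I ≠ 1728)

/-- local sections of the covering over a regular point -/
structure Secs (B : ℂ → ℂ) (w₀ : ℂ) (b : Fin 7 → ℂ → ℂ) : Prop where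
  an : ∀ i, AnalyticAt ℂ (b i) w₀
  cl : ∀ i, b i w₀ ∈ closedBall (0 : ℂ) 1
  dB : ∀ i, deriv B (b i w₀) ≠ 0
  inj : Function.Injective (fun i => b i w₀)
  right : ∀ᶠ w in 𝓝 w₀, ∀ i, B (b i w) = w ∧ b i w ∈ ball (0 : ℂ) (3 / 2) ∧
    (‖w‖ < 1 → ‖b i w‖ < 1)
  left : ∀ i, ∀ᶠ z in 𝓝 (b i w₀), b i (B z) = z

theorem Secs.right0 {B : ℂ → ℂ} {w₀ : ℂ} {b : Fin 7 → ℂ → ℂ} (h : Secs B w₀ b) (i : Fin 7) :
    B (b i w₀) = w₀ := (h.right.self_of_nhds i).1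

theorem Secs.ev_inj {B : ℂ → ℂ} {w₀ : ℂ} {b : Fin 7 → ℂ → ℂ} (h : Secs B w₀ b) :
    ∀ᶠ w in 𝓝 w₀, Function.Injective (fun i => b i w) := by
  have ev2 : ∀ᶠ z in 𝓝 w₀, ∀ i j, i ≠ j → b i z ≠ b j z := by
    rw [Filter.eventually_all]
    intro i
    rw [Filter.eventually_all]
    intro j
    by_cases hij : i = j
    · exact Filter.Eventually.of_forall fun z h => absurd hij h
    · have h1 : b i w₀ ≠ b j w₀ := fun h' => hij (h.inj h')
      have h2 := (h.an i).continuousAt.ne_iff_eventually_ne (h.an j).continuousAt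
      filter_upwards [h2.1 h1] with z hz _ using hz
  filter_upwards [ev2] with w hw i j hij
  by_contra hne
  exact hw i j hne hij

theorem local_inv' {B : ℂ → ℂ} (hB : DifferentiableOn ℂ B (ball (0 : ℂ) (3 / 2)))
    (h1 : ∀ z ∈ sphere (0 : ℂ) 1, ‖B z‖ = 1) (ho : ∀ z ∈ ball (0 : ℂ) (3 / 2), 1 < ‖z‖ → 1 < ‖B z‖)
    {ζ w : ℂ} (hζ : ζ ∈ closedBall (0 : ℂ) 1) (hw : B ζ = w) (h' : deriv B ζ ≠ 0) :
    ∃ b : ℂ → ℂ, AnalyticAt ℂ b w ∧ b w = ζ ∧
      (∀ᶠ v in 𝓝 w, B (b v) = v ∧ b v ∈ ball (0 : ℂ) (3 / 2) ∧ (‖v‖ < 1 → ‖b v‖ < 1)) ∧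
      ∀ᶠ z in 𝓝 ζ, b (B z) = z := by
  subst hw
  have hζ' : ζ ∈ ball (0 : ℂ) (3 / 2) := closedBall_subset_ball (by norm_num) hζ
  have hA : AnalyticAt ℂ B ζ := hB.analyticAt (isOpen_ball.mem_nhds hζ')
  have hbw : hA.hasStrictDerivAt.localInverse _ _ _ h' (B ζ) = ζ :=
    HasStrictFDerivAt.localInverse_apply_image ..
  have han := hA.analyticAt_localInverse h'
  refine ⟨hA.hasStrictDerivAt.localInverse _ _ _ h', han, hbw, ?_, ?_⟩
  · have e1 : ∀ᶠ v in 𝓝 (B ζ), B (hA.hasStrictDerivAt.localInverse _ _ _ h' v) = v :=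
      HasStrictDerivAt.eventually_right_inverse ..
    have e2 : ∀ᶠ v in 𝓝 (B ζ), hA.hasStrictDerivAt.localInverse _ _ _ h' v ∈ ball (0 : ℂ) (3 / 2) := by
      refine han.continuousAt.eventually (isOpen_ball.mem_nhds ?_)
      rw [hbw]
      exact hζ'
    filter_upwards [e1, e2] with v hv1 hv2
    refine ⟨hv1, hv2, fun hv => ?_⟩
    by_contra hcon
    rcases (not_lt.1 hcon).eq_or_lt with h | h
    · have := h1 _ (mem_sphere_zero_iff_norm.2 h.symm)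
      rw [hv1] at this
      linarith
    · have := ho _ hv2 h
      rw [hv1] at this
      linarith
  · exact HasStrictDerivAt.eventually_left_inverse ..

theorem normB_lt {p : ℂ → ℂ} {R : ℝ} (hR : 0 < R) (D : Dat p R) {z : ℂ} (hz : z ∈ ball (0 : ℂ) 1) :
    ‖D.B z‖ < 1 := by
  have h1 := D.mφ z hz
  rw [D.pB z hz, norm_mul, Complex.norm_real, Real.norm_of_nonneg hR.le] at h1
  nlinarith [norm_nonneg (D.B z)]

theorem exists_secs {s : ℂ} (hs : s ^ 2 = -7) {R : ℝ} (hR : 0 < R)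
    (D : Dat (fun x => pS s x - Complex.I) R) {w₀ : ℂ} (hw : Reg R w₀) :
    ∃ b : Fin 7 → ℂ → ℂ, Secs D.B w₀ b := by
  have hfib : ∃ S : Finset ℂ, S.card = 7 ∧ ∀ ζ ∈ S, ζ ∈ closedBall (0 : ℂ) 1 ∧ D.B ζ = w₀ ∧
      deriv D.B ζ ≠ 0 := by
    rcases hw with h | ⟨h, h0, h1⟩
    · obtain ⟨S, hS, hS'⟩ := D.fib w₀ (by simpa using h)
      exact ⟨S, hS, fun ζ hζ => ⟨sphere_subset_closedBall (hS' ζ hζ).1, (hS' ζ hζ).2,
        D.B'0 ζ (hS' ζ hζ).1⟩⟩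
    · exact L09f.reg_fibre hR D hs h h0 h1 (fun v h0 h1 => L18a.fibre hs v h0 h1)
  obtain ⟨S, hS, hS'⟩ := hfib
  let e : S ≃ Fin 7 := S.equivFinOfCardEq hS
  let ζ : Fin 7 → ℂ := fun i => (e.symm i : ℂ)
  have hζs : ∀ i, ζ i ∈ S := fun i => (e.symm i).2
  have hζinj : Function.Injective ζ := fun i j h => e.symm.injective (Subtype.ext h)
  have hall : ∀ i, ∃ b : ℂ → ℂ, AnalyticAt ℂ b w₀ ∧ b w₀ = ζ i ∧
      (∀ᶠ v in 𝓝 w₀, D.B (b v) = v ∧ b v ∈ ball (0 : ℂ) (3 / 2) ∧ (‖v‖ < 1 → ‖b v‖ < 1)) ∧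
      ∀ᶠ z in 𝓝 (ζ i), b (D.B z) = z := by
    intro i
    obtain ⟨h1, h2, h3⟩ := hS' (ζ i) (hζs i)
    exact local_inv' D.dB D.B1 D.Bo h1 h2 h3
  choose b hb1 hb2 hb3 hb4 using hall
  refine ⟨b, hb1, fun i => ?_, fun i => ?_, ?_, ?_, fun i => ?_⟩
  · rw [hb2]; exact (hS' (ζ i) (hζs i)).1
  · rw [hb2]; exact (hS' (ζ i) (hζs i)).2.2
  · intro i j hij
    simp only [hb2] at hij
    exact hζinj hij
  · rw [Filter.eventually_all]; exact hb3
  · rw [hb2]; exact hb4 i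

/-- the points `φ (b i w)` are distinct points of the fibre of the polynomial -/
theorem phi_fibre {s : ℂ} {R : ℝ} (hR : 0 < R)
    (D : Dat (fun x => pS s x - Complex.I) R) {w : ℂ} {b : Fin 7 → ℂ}
    (hb : ∀ i, ‖b i‖ < 1 ∧ D.B (b i) = w) (hinj : Function.Injective b) :
    Function.Injective (fun i => D.φ (b i)) ∧ ∀ i, pS s (D.φ (b i)) = R * w + Complex.I := by
  constructor
  · intro i j hij
    have h1 := D.ψφ (b i) (mem_ball_zero_iff.2 (hb i).1)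
    have h2 := D.ψφ (b j) (mem_ball_zero_iff.2 (hb j).1)
    apply hinj
    rw [← h1, ← h2]
    exact congrArg D.ψ hij
  · intro i
    have h1 := D.pB (b i) (mem_ball_zero_iff.2 (hb i).1)
    rw [(hb i).2] at h1
    linear_combination h1

/-- real valued version of the sum over the roots -/
theorem rs_real {t : ℂ} (ht : t ^ 2 = -7) {y : ℂ} {x : Fin 7 → ℂ} (hx : Function.Injective x)
    (h : ∀ i, pS t (x i) = pS (-t) y) (m : Fin 7 → ℝ) (hm : ∀ i, (m i : ℂ) = Orth.mm t (x i) y)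
    (f : ℂ → ℝ) : rs t y f = ∑ i, m i * f (x i) := by
  classical
  obtain ⟨S, hS, hr, h1, h2⟩ := L08a.fibre_split ht hx h
  unfold rs
  rw [hr, Multiset.map_map]
  have e : ∀ i, m i = if i ∈ S then 1 else 0 := by
    intro i
    have hmi := hm i
    unfold Orth.mm at hmi
    by_cases hi : i ∈ S
    · rw [if_pos hi]
      rw [if_pos (h1 i hi).1] at hmi
      exact_mod_cast hmi
    · rw [if_neg hi]
      rw [if_neg (h2 i hi).2] at hmi
      exact_mod_cast hmi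
  simp only [e, ite_mul, one_mul, zero_mul, Finset.sum_ite_mem, Finset.univ_inter]
  rfl

/-- the incidence matrix is locally constant -/
theorem incidence {t : ℂ} (ht : t ^ 2 = -7) {R : ℝ} (hR : 0 < R)
    (D₁ : Dat (fun x => pS t x - Complex.I) R) (D₂ : Dat (fun x => pS (-t) x - Complex.I) R)
    {w₀ : ℂ} (hw₀ : ‖w₀‖ ≤ 1) {b c : Fin 7 → ℂ → ℂ} (hb : Secs D₁.B w₀ b) (hc : Secs D₂.B w₀ c) :
    ∃ M : Fin 7 → Fin 7 → ℝ,
      (∀ i j, ∑ k, M i k * M j k = if i = j then 3 else 1) ∧ (∀ i, ∑ k, M i k = 3) ∧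
      (∀ k, ∑ i, M i k = 3) ∧
      ∀ᶠ w in 𝓝 w₀, ‖w‖ < 1 → ∀ i k, (M i k : ℂ) = Orth.mm t (D₁.φ (b i w)) (D₂.φ (c k w)) := by
  classical
  have evc1 : ∀ᶠ w in 𝓝 w₀, ∀ i, ContinuousAt (b i) w := by
    rw [Filter.eventually_all]
    intro i
    filter_upwards [(hb.an i).eventually_analyticAt] with z hz using hz.continuousAt
  have evc2 : ∀ᶠ w in 𝓝 w₀, ∀ i, ContinuousAt (c i) w := by
    rw [Filter.eventually_all]
    intro i
    filter_upwards [(hc.an i).eventually_analyticAt] with z hz using hz.continuousAt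
  obtain ⟨r, hr, hball⟩ := Metric.eventually_nhds_iff_ball.1
    ((hb.right.and hc.right).and ((hb.ev_inj.and hc.ev_inj).and (evc1.and evc2)))
  set A : Set ℂ := ball w₀ r ∩ ball (0 : ℂ) 1 with hA
  have hAc : IsPreconnected A := ((convex_ball w₀ r).inter (convex_ball 0 1)).isPreconnected
  have hbA : ∀ w ∈ A, (∀ i, ‖b i w‖ < 1 ∧ D₁.B (b i w) = w) ∧ (∀ i, ‖c i w‖ < 1 ∧ D₂.B (c i w) = w) := by
    intro w hw
    have h1 := mem_ball_zero_iff.1 hw.2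
    exact ⟨fun i => ⟨((hball w hw.1).1.1 i).2.2 h1, ((hball w hw.1).1.1 i).1⟩,
      fun i => ⟨((hball w hw.1).1.2 i).2.2 h1, ((hball w hw.1).1.2 i).1⟩⟩
  have hphi1 : ∀ w ∈ A, Function.Injective (fun i => D₁.φ (b i w)) ∧
      ∀ i, pS t (D₁.φ (b i w)) = R * w + Complex.I := fun w hw =>
    phi_fibre hR D₁ (hbA w hw).1 (hball w hw.1).2.1.1
  have hphi2 : ∀ w ∈ A, Function.Injective (fun i => D₂.φ (c i w)) ∧
      ∀ i, pS (-t) (D₂.φ (c i w)) = R * w + Complex.I := fun w hw =>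
    phi_fibre hR D₂ (hbA w hw).2 (hball w hw.1).2.1.2
  have hcb : ∀ i, ContinuousOn (fun w => D₁.φ (b i w)) A := fun i =>
    D₁.dφ.continuousOn.comp (fun w hw => ((hball w hw.1).2.2.1 i).continuousWithinAt)
      (fun w hw => mem_ball_zero_iff.2 ((hbA w hw).1 i).1)
  have hcc : ∀ i, ContinuousOn (fun w => D₂.φ (c i w)) A := fun i =>
    D₂.dφ.continuousOn.comp (fun w hw => ((hball w hw.1).2.2.2 i).continuousWithinAt)
      (fun w hw => mem_ball_zero_iff.2 ((hbA w hw).2 i).1)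
  have hconst : ∀ k, ∃ S : Finset (Fin 7), ∀ w ∈ A, ∀ i,
      Orth.mm t (D₁.φ (b i w)) (D₂.φ (c k w)) = if i ∈ S then 1 else 0 := by
    intro k
    have hsplit : ∀ z ∈ A, ∃ S : Finset (Fin 7), S.card = 3 ∧
        (Pool.Agent.Helper859.Stk.hc t (D₂.φ (c k z))).roots = S.val.map (fun i => D₁.φ (b i z)) ∧
        (∀ i ∈ S, hh t (D₁.φ (b i z)) (D₂.φ (c k z)) = 0 ∧ h4 t (D₁.φ (b i z)) (D₂.φ (c k z)) ≠ 0) ∧
        (∀ i ∉ S, h4 t (D₁.φ (b i z)) (D₂.φ (c k z)) = 0 ∧ hh t (D₁.φ (b i z)) (D₂.φ (c k z)) ≠ 0) := by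
      intro z hz
      exact L08a.fibre_split ht (hphi1 z hz).1 (fun i => by
        rw [(hphi1 z hz).2 i, (hphi2 z hz).2 k])
    obtain ⟨S, hS, hS'⟩ := L08b.const_split hAc hcb (hcc k) hsplit
    refine ⟨S, fun w hw i => ?_⟩
    obtain ⟨S', hS1, hS2, hS3, hS4⟩ := hsplit w hw
    have hSS : S = S' := by
      have h1 := hS' w hw
      rw [hS2] at h1
      have h2 := Multiset.map_injective (hphi1 w hw).1 h1
      exact (Finset.val_injective h2).symm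
    unfold Orth.mm
    by_cases hi : i ∈ S
    · rw [if_pos hi, if_pos (hS3 i (hSS ▸ hi)).1]
    · rw [if_neg hi, if_neg (hS4 i (hSS ▸ hi)).2]
  choose S hS using hconst
  -- a point of `A`
  obtain ⟨w₁, hw₁⟩ : A.Nonempty := by
    have h1 : w₀ ∈ closure (ball (0 : ℂ) 1) := by
      rw [closure_ball _ one_ne_zero]
      simpa using hw₀
    obtain ⟨w, hw, hd⟩ := Metric.mem_closure_iff.1 h1 r hr
    exact ⟨w, by rw [mem_ball, dist_comm]; exact hd, hw⟩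
  set M : Fin 7 → Fin 7 → ℝ := fun i k => if i ∈ S k then 1 else 0 with hM
  have hMc : ∀ w ∈ A, ∀ i k, (M i k : ℂ) = Orth.mm t (D₁.φ (b i w)) (D₂.φ (c k w)) := by
    intro w hw i k
    rw [hS k w hw i]
    simp only [hM]
    split_ifs <;> simp
  refine ⟨M, ?_, ?_, ?_, ?_⟩
  · intro i j
    have h := Orth.design ht (hphi1 w₁ hw₁).1 (hphi2 w₁ hw₁).1 (hphi1 w₁ hw₁).2 (hphi2 w₁ hw₁).2 i j
    simp only [← hMc w₁ hw₁] at h
    have h' : ((∑ k, M i k * M j k : ℝ) : ℂ) = ((if i = j then 3 else 1 : ℝ) : ℂ) := by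
      push_cast
      rw [h]
      split_ifs <;> simp
    exact_mod_cast h'
  · intro i
    have h := Orth.card_sum (t := -t) (by rw [neg_sq]; exact ht) (hphi2 w₁ hw₁).1
      (y := D₁.φ (b i w₁)) (fun k => by
        rw [(hphi2 w₁ hw₁).2 k, neg_neg, (hphi1 w₁ hw₁).2 i])
    simp only [Orth.mm_symm, ← hMc w₁ hw₁] at h
    exact_mod_cast h
  · intro k
    have h := Orth.card_sum ht (hphi1 w₁ hw₁).1
      (y := D₂.φ (c k w₁)) (fun i => by
        rw [(hphi1 w₁ hw₁).2 i, (hphi2 w₁ hw₁).2 k])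
    simp only [← hMc w₁ hw₁] at h
    exact_mod_cast h
  · filter_upwards [Metric.ball_mem_nhds w₀ hr] with w hw hw1 i k
    exact hMc w ⟨hw, mem_ball_zero_iff.2 hw1⟩ i k

end Pool.Agent.W794.Fib
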