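import Pool.Agent.W794.Fib1
import Pool.Agent.Helper859.Stk.L06

set_option autoImplicit false
set_option linter.all false

open Metric Set Filter Topology
open Pool.Agent.Helper859.Stk

namespace Pool.Agent.W794.Fib

theorem rs_add (t y : ℂ) (f g : ℂ → ℝ) : rs t y (fun x => f x + g x) = rs t y f + rs t y g := by
  unfold rs
  exact Multiset.sum_map_add

theorem rs_smul (t y : ℂ) (a : ℝ) (f : ℂ → ℝ) : rs t y (fun x => a * f x) = a * rs t y f := by
  unfold rs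
  exact Multiset.sum_map_mul_left

/-- the transplantation -/
noncomputable def T (t : ℂ) {R : ℝ} {p₁ p₂ : ℂ → ℂ} (D₁ : Dat p₁ R) (D₂ : Dat p₂ R) :
    (ℂ → ℝ) →ₗ[ℝ] (ℂ → ℝ) where
  toFun U z := rs t (D₂.φ z) (fun x => U (D₁.ψ x))
  map_add' U V := by
    funext z
    exact rs_add _ _ _ _
  map_smul' a U := by
    funext z
    exact rs_smul _ _ _ _

theorem T_apply (t : ℂ) {R : ℝ} {p₁ p₂ : ℂ → ℂ} (D₁ : Dat p₁ R) (D₂ : Dat p₂ R) (U : ℂ → ℝ) (z : ℂ) :
    T t D₁ D₂ U z = rs t (D₂.φ z) (fun x => U (D₁.ψ x)) := rfl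

/-- real part of continuity -/
theorem rs_cont_real {t : ℂ} {K : Set ℂ} {Y : Set ℂ} {k : ℂ → ℝ} (hk : ContinuousOn k K)
    (hY : ∀ y ∈ Y, ∀ x, hh t x y = 0 → x ∈ K) : ContinuousOn (fun y => rs t y k) Y := by
  have h := L06.rs_cont (t := t) (k := fun x => (k x : ℂ))
    (Complex.continuous_ofReal.comp_continuousOn hk) hY
  have e : ∀ y, rs t y k = (rs t y (fun x => (k x : ℂ))).re := by
    intro y
    have h1 : rs t y (fun x => (k x : ℂ)) = ((rs t y k : ℝ) : ℂ) := by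
      unfold rs
      have := (map_multiset_sum Complex.ofRealHom ((Pool.Agent.Helper859.Stk.hc t y).roots.map k))
      rw [Multiset.map_map] at this
      exact this.symm
    rw [h1, Complex.ofReal_re]
  simp only [e]
  exact Complex.continuous_re.comp_continuousOn h

theorem T_cont {t : ℂ} (ht : t ^ 2 = -7) {R : ℝ}
    (D₁ : Dat (fun x => pS t x - Complex.I) R) (D₂ : Dat (fun x => pS (-t) x - Complex.I) R)
    {U : ℂ → ℝ} (hU : ContinuousOn U (ball (0 : ℂ) 1)) : ContinuousOn (T t D₁ D₂ U) (ball (0 : ℂ) 1) := by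
  have h1 : ContinuousOn (fun x => U (D₁.ψ x)) {x : ℂ | ‖pS t x - Complex.I‖ < R} :=
    hU.comp D₁.dψ.continuousOn (fun x hx => D₁.mψ x hx)
  have h2 := rs_cont_real (t := t) (Y := {x : ℂ | ‖pS (-t) x - Complex.I‖ < R}) h1 (by
    intro y hy x hx
    have := hroot ht x y hx
    simp only [mem_setOf_eq] at hy ⊢
    rw [this]; exact hy)
  exact h2.comp D₂.dφ.continuousOn (fun z hz => D₂.mφ z hz)

noncomputable def al : ℝ := Real.sqrt 2 / 2
noncomputable def be : ℝ := al * (-3 + Real.sqrt 2) / 7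

theorem al_sq : al ^ 2 = 1 / 2 := by
  unfold al
  rw [div_pow, Real.sq_sqrt (by norm_num)]
  norm_num

theorem al_be : al ^ 2 + 6 * al * be + 7 * be ^ 2 = 0 := by
  unfold be
  have h : Real.sqrt 2 ^ 2 = 2 := Real.sq_sqrt (by norm_num)
  have : al ^ 2 + 6 * al * (al * (-3 + Real.sqrt 2) / 7) + 7 * (al * (-3 + Real.sqrt 2) / 7) ^ 2 =
      al ^ 2 * (1 / 7) * (Real.sqrt 2 ^ 2 - 2) := by ring
  rw [this, h]
  ring

/-- cast of a datum along `t = -(-t)` -/
noncomputable def neg2 {t : ℂ} {R : ℝ} (D₁ : Dat (fun x => pS t x - Complex.I) R) :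
    Dat (fun x => pS (-(-t)) x - Complex.I) R := by
  rw [neg_neg]; exact D₁

/-- the orthogonal transplantation -/
noncomputable def W (t : ℂ) {R : ℝ} {p₁ p₂ : ℂ → ℂ} (D₁ : Dat p₁ R) (D₂ : Dat p₂ R) :
    (ℂ → ℝ) →ₗ[ℝ] (ℂ → ℝ) :=
  (al - 2 * be / 3) • T t D₁ D₂ + (be / 3) • (T t D₁ D₂ ∘ₗ T (-t) D₂ D₁ ∘ₗ T t D₁ D₂)

theorem W_apply (t : ℂ) {R : ℝ} {p₁ p₂ : ℂ → ℂ} (D₁ : Dat p₁ R) (D₂ : Dat p₂ R) (U : ℂ → ℝ) (z : ℂ) :
    W t D₁ D₂ U z = (al - 2 * be / 3) * T t D₁ D₂ U z +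
      (be / 3) * T t D₁ D₂ (T (-t) D₂ D₁ (T t D₁ D₂ U)) z := rfl

theorem T_cont' {t : ℂ} (ht : t ^ 2 = -7) {R : ℝ}
    (D₁ : Dat (fun x => pS t x - Complex.I) R) (D₂ : Dat (fun x => pS (-t) x - Complex.I) R)
    {U : ℂ → ℝ} (hU : ContinuousOn U (ball (0 : ℂ) 1)) :
    ContinuousOn (T (-t) D₂ D₁ U) (ball (0 : ℂ) 1) := by
  have h1 : ContinuousOn (fun x => U (D₂.ψ x)) {x : ℂ | ‖pS (-t) x - Complex.I‖ < R} :=
    hU.comp D₂.dψ.continuousOn (fun x hx => D₂.mψ x hx)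
  have h2 := rs_cont_real (t := -t) (Y := {x : ℂ | ‖pS t x - Complex.I‖ < R}) h1 (by
    intro y hy x hx
    have := hroot (t := -t) (by rw [neg_sq]; exact ht) x y hx
    rw [neg_neg] at this
    simp only [mem_setOf_eq] at hy ⊢
    rw [this]; exact hy)
  exact h2.comp D₁.dφ.continuousOn (fun z hz => D₁.mφ z hz)

theorem W_cont {t : ℂ} (ht : t ^ 2 = -7) {R : ℝ}
    (D₁ : Dat (fun x => pS t x - Complex.I) R) (D₂ : Dat (fun x => pS (-t) x - Complex.I) R)
    {U : ℂ → ℝ} (hU : ContinuousOn U (ball (0 : ℂ) 1)) : ContinuousOn (W t D₁ D₂ U) (ball (0 : ℂ) 1) := by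
  have h1 := T_cont ht D₁ D₂ hU
  have h2 := T_cont' ht D₁ D₂ h1
  have h3 := T_cont ht D₁ D₂ h2
  exact (h1.const_smul (al - 2 * be / 3)).add (h3.const_smul (be / 3))

/-- The operator `W` acts on the fibres by an orthogonal matrix. -/
theorem W_fib {t : ℂ} (ht : t ^ 2 = -7) {R : ℝ} (hR : 0 < R)
    (D₁ : Dat (fun x => pS t x - Complex.I) R) (D₂ : Dat (fun x => pS (-t) x - Complex.I) R)
    {w₀ : ℂ} (hw₀ : ‖w₀‖ ≤ 1) {b c : Fin 7 → ℂ → ℂ} (hb : Secs D₁.B w₀ b) (hc : Secs D₂.B w₀ c) :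
    ∃ O : Fin 7 → Fin 7 → ℝ, (∀ i j, ∑ k, O i k * O j k = if i = j then 1 else 0) ∧
      ∀ᶠ w in 𝓝 w₀, ‖w‖ < 1 → ∀ (U : ℂ → ℝ) k, W t D₁ D₂ U (c k w) = ∑ i, O i k * U (b i w) := by
  obtain ⟨M, hM1, hM2, hM3, hM4⟩ := incidence ht hR D₁ D₂ hw₀ hb hc
  refine ⟨fun i k => al * M i k + be, ?_, ?_⟩
  · intro i j
    have e : ∀ k, (al * M i k + be) * (al * M j k + be) =
        al ^ 2 * (M i k * M j k) + al * be * M i k + al * be * M j k + be ^ 2 := by
      intro k; ring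
    simp only [e, Finset.sum_add_distrib, ← Finset.mul_sum, hM1, hM2, Finset.sum_const,
      Finset.card_univ, Fintype.card_fin, nsmul_eq_mul]
    have h1 := al_sq
    have h2 := al_be
    split_ifs
    · push_cast; linarith
    · push_cast; linarith
  · filter_upwards [hM4, hb.right, hc.right, hb.ev_inj, hc.ev_inj] with w h4 hbr hcr hbi hci hw U k
    have h4 := h4 hw
    have hb1 : ∀ i, ‖b i w‖ < 1 ∧ D₁.B (b i w) = w := fun i => ⟨(hbr i).2.2 hw, (hbr i).1⟩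
    have hc1 : ∀ i, ‖c i w‖ < 1 ∧ D₂.B (c i w) = w := fun i => ⟨(hcr i).2.2 hw, (hcr i).1⟩
    obtain ⟨p1, p2⟩ := phi_fibre hR D₁ hb1 hbi
    obtain ⟨q1, q2⟩ := phi_fibre hR D₂ hc1 hci
    have hT : ∀ (V : ℂ → ℝ) k, T t D₁ D₂ V (c k w) = ∑ i, M i k * V (b i w) := by
      intro V k
      rw [T_apply, rs_real ht p1 (fun i => by rw [p2 i, q2 k]) (fun i => M i k) (fun i => h4 i k)]
      refine Finset.sum_congr rfl fun i _ => ?_
      rw [D₁.ψφ _ (mem_ball_zero_iff.2 (hb1 i).1)]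
    have hT' : ∀ (V : ℂ → ℝ) i, T (-t) D₂ D₁ V (b i w) = ∑ k, M i k * V (c k w) := by
      intro V i
      rw [T_apply, rs_real (t := -t) (by rw [neg_sq]; exact ht) q1
        (fun k => by rw [q2 k, neg_neg, p2 i]) (fun k => M i k)
        (fun k => by rw [Orth.mm_symm]; exact h4 i k)]
      refine Finset.sum_congr rfl fun k _ => ?_
      rw [D₂.ψφ _ (mem_ball_zero_iff.2 (hc1 k).1)]
    rw [W_apply, hT, hT]
    simp only [hT', hT]
    -- algebra
    have e1 : ∀ j, ∑ l, M j l * ∑ i, M i l * U (b i w) = ∑ i, U (b i w) + 2 * U (b j w) := by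
      intro j
      have : ∑ l, M j l * ∑ i, M i l * U (b i w) = ∑ i, (∑ l, M j l * M i l) * U (b i w) := by
        simp only [Finset.mul_sum, Finset.sum_mul]
        rw [Finset.sum_comm]
        refine Finset.sum_congr rfl fun i _ => Finset.sum_congr rfl fun l _ => by ring
      rw [this]
      simp only [hM1]
      have e2 : ∀ i, (if j = i then (3 : ℝ) else 1) * U (b i w) =
          U (b i w) + (if j = i then 2 * U (b i w) else 0) := by
        intro i; split_ifs <;> ring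
      simp only [e2, Finset.sum_add_distrib, Finset.sum_ite_eq, Finset.mem_univ, if_true]
    simp only [e1]
    have e3 : ∑ j, M j k * (∑ i, U (b i w) + 2 * U (b j w)) =
        3 * ∑ i, U (b i w) + 2 * ∑ j, M j k * U (b j w) := by
      simp only [mul_add, Finset.sum_add_distrib, ← Finset.sum_mul, hM3]
      congr 1
      rw [Finset.mul_sum]
      refine Finset.sum_congr rfl fun j _ => by ring
    rw [e3]
    simp only [add_mul, Finset.sum_add_distrib]
    rw [← Finset.mul_sum]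
    have e4 : ∑ i, al * M i k * U (b i w) = al * ∑ i, M i k * U (b i w) := by
      rw [Finset.mul_sum]
      refine Finset.sum_congr rfl fun i _ => by ring
    rw [e4]
    ring

/-- every point of the open disc over `w` is one of the values of the sections -/
theorem complete {s : ℂ} (hs : s ^ 2 = -7) {R : ℝ} (hR : 0 < R)
    (D : Dat (fun x => pS s x - Complex.I) R) {w : ℂ} {b : Fin 7 → ℂ}
    (h0 : (R : ℂ) * w + Complex.I ≠ 0) (h1 : (R : ℂ) * w + Complex.I ≠ 1728)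
    (hb : ∀ i, ‖b i‖ < 1 ∧ D.B (b i) = w) (hinj : Function.Injective b)
    {z : ℂ} (hz : z ∈ ball (0 : ℂ) 1) (hw : D.B z = w) : ∃ i, z = b i := by
  classical
  obtain ⟨S, hS, hS'⟩ := L18a.fibre hs _ h0 h1
  obtain ⟨p1, p2⟩ := phi_fibre hR D hb hinj
  have h2 : Finset.univ.image (fun i => D.φ (b i)) = S := by
    apply Finset.eq_of_subset_of_card_le
    · intro x hx
      obtain ⟨i, -, rfl⟩ := Finset.mem_image.1 hx
      exact (hS' _).2 (p2 i)
    · rw [hS, Finset.card_image_of_injective _ p1]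
      simp
  have h3 : D.φ z ∈ S := by
    rw [hS']
    have := D.pB z hz
    rw [hw] at this
    linear_combination this
  rw [← h2] at h3
  obtain ⟨i, -, hi⟩ := Finset.mem_image.1 h3
  refine ⟨i, ?_⟩
  rw [← D.ψφ z hz, ← D.ψφ (b i) (mem_ball_zero_iff.2 (hb i).1)]
  exact congrArg D.ψ hi.symm

end Pool.Agent.W794.Fib
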