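import Pool.Agent.W794.Fib2
import Pool.Agent.W794.AF

set_option autoImplicit false
set_option linter.all false

open Metric Set Filter Topology MeasureTheory
open scoped ENNReal
open Pool.Agent.Helper859.Stk

namespace Pool.Agent.W794.Fib

/-- multiplication by a complex number as a real linear map -/
noncomputable def mulL (c : ℂ) : ℂ →L[ℝ] ℂ := (ContinuousLinearMap.toSpanSingleton ℂ c).restrictScalars ℝ

theorem mulL_apply (c z : ℂ) : mulL c z = z * c := by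
  simp [mulL, ContinuousLinearMap.toSpanSingleton_apply]

theorem mulL_det (c : ℂ) : (mulL c).det = ‖c‖ ^ 2 := by
  unfold mulL
  rw [← Complex.normSq_eq_norm_sq, ← Algebra.norm_complex_apply, Algebra.norm_apply,
    ContinuousLinearMap.det]
  congr 1
  ext <;> simp [mul_comm]

/-- squared operator norm of a real functional on the plane -/
theorem norm_sq_fun (A : ℂ →L[ℝ] ℝ) : ‖A‖ ^ 2 = A 1 ^ 2 + A Complex.I ^ 2 := by
  have hA : ∀ z : ℂ, A z = A 1 * z.re + A Complex.I * z.im := by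
    intro z
    have : z = z.re • (1 : ℂ) + z.im • Complex.I := by
      simp [Complex.re_add_im]
    conv_lhs => rw [this]
    rw [map_add, map_smul, map_smul, smul_eq_mul, smul_eq_mul]
    ring
  set s : ℝ := Real.sqrt (A 1 ^ 2 + A Complex.I ^ 2) with hs
  have hs2 : s ^ 2 = A 1 ^ 2 + A Complex.I ^ 2 := Real.sq_sqrt (by positivity)
  have hs0 : 0 ≤ s := Real.sqrt_nonneg _
  have h1 : ‖A‖ ≤ s := by
    refine A.opNorm_le_bound hs0 fun z => ?_
    rw [hA z, Real.norm_eq_abs]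
    refine abs_le_of_sq_le_sq ?_ (by positivity)
    rw [mul_pow, hs2, ← Complex.normSq_eq_norm_sq, Complex.normSq_apply]
    nlinarith [sq_nonneg (A 1 * z.im - A Complex.I * z.re)]
  have h2 : s ≤ ‖A‖ := by
    have h3 := A.le_opNorm (⟨A 1, A Complex.I⟩ : ℂ)
    rw [hA] at h3
    have h4 : ‖(⟨A 1, A Complex.I⟩ : ℂ)‖ = s := by
      rw [hs, Complex.norm_def, Complex.normSq_apply]
      congr 1
      ring
    rw [h4, Real.norm_eq_abs] at h3
    have h5 : |A 1 * A 1 + A Complex.I * A Complex.I| = s ^ 2 := by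
      rw [abs_of_nonneg (add_nonneg (mul_self_nonneg _) (mul_self_nonneg _)), hs2]; ring
    simp only at h3
    rw [h5] at h3
    rcases hs0.eq_or_lt with h | h
    · rw [← h]; exact norm_nonneg _
    · nlinarith
  rw [le_antisymm h1 h2, hs2]

theorem norm_comp_mulL (A : ℂ →L[ℝ] ℝ) (c : ℂ) : ‖A.comp (mulL c)‖ ^ 2 = ‖A‖ ^ 2 * ‖c‖ ^ 2 := by
  have hA : ∀ z : ℂ, A z = A 1 * z.re + A Complex.I * z.im := by
    intro z
    have : z = z.re • (1 : ℂ) + z.im • Complex.I := by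
      simp [Complex.re_add_im]
    conv_lhs => rw [this]
    rw [map_add, map_smul, map_smul, smul_eq_mul, smul_eq_mul]
    ring
  rw [norm_sq_fun, norm_sq_fun, ContinuousLinearMap.comp_apply, ContinuousLinearMap.comp_apply,
    mulL_apply, mulL_apply, hA (1 * c), hA (Complex.I * c), ← Complex.normSq_eq_norm_sq,
    Complex.normSq_apply]
  simp only [one_mul, Complex.mul_re, Complex.mul_im, Complex.I_re, Complex.I_im]
  ring

theorem orth_sum {O : Fin 7 → Fin 7 → ℝ} (hO : ∀ i j, ∑ k, O i k * O j k = if i = j then 1 else 0)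
    (f : Fin 7 → ℝ) : ∑ k, (∑ i, O i k * f i) ^ 2 = ∑ i, f i ^ 2 := by
  have e1 : ∀ k, (∑ i, O i k * f i) ^ 2 = ∑ i, ∑ j, (O i k * O j k) * (f i * f j) := by
    intro k
    rw [pow_two, Finset.sum_mul_sum]
    refine Finset.sum_congr rfl fun i _ => Finset.sum_congr rfl fun j _ => by ring
  simp only [e1]
  rw [Finset.sum_comm]
  refine Finset.sum_congr rfl fun i _ => ?_
  rw [Finset.sum_comm]
  have e2 : ∀ j, ∑ k, (O i k * O j k) * (f i * f j) = (if i = j then f i * f j else 0) := by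
    intro j
    rw [← Finset.sum_mul, hO]
    split_ifs <;> ring
  simp only [e2, Finset.sum_ite_eq, Finset.mem_univ, if_true]
  ring

/-- orthogonality for functionals -/
theorem orth_fun {O : Fin 7 → Fin 7 → ℝ} (hO : ∀ i j, ∑ k, O i k * O j k = if i = j then 1 else 0)
    (A : Fin 7 → (ℂ →L[ℝ] ℝ)) : ∑ k, ‖∑ i, O i k • A i‖ ^ 2 = ∑ i, ‖A i‖ ^ 2 := by
  simp only [norm_sq_fun, Finset.sum_add_distrib, ContinuousLinearMap.sum_apply,
    ContinuousLinearMap.smul_apply, smul_eq_mul]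
  rw [orth_sum hO, orth_sum hO]

section
variable {t : ℂ} (ht : t ^ 2 = -7) {R : ℝ} (hR : 0 < R)
    (D₁ : Dat (fun x => pS t x - Complex.I) R) (D₂ : Dat (fun x => pS (-t) x - Complex.I) R)

include ht hR in
/-- local representation at an interior regular point -/
theorem W_loc {z₀ : ℂ} (hz₀ : z₀ ∈ ball (0 : ℂ) 1) (h0 : (R : ℂ) * D₂.B z₀ + Complex.I ≠ 0)
    (h1 : (R : ℂ) * D₂.B z₀ + Complex.I ≠ 1728) {U : ℂ → ℝ} (hU : ContDiffOn ℝ 1 U (ball (0 : ℂ) 1)) :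
    ContDiffAt ℝ 1 (W t D₁ D₂ U) z₀ := by
  have hw : ‖D₂.B z₀‖ < 1 := normB_lt hR D₂ hz₀
  have hreg : Reg R (D₂.B z₀) := Or.inr ⟨hw, h0, h1⟩
  obtain ⟨b, hb⟩ := exists_secs ht hR D₁ hreg
  obtain ⟨c, hc⟩ := exists_secs (by rw [neg_sq]; exact ht) hR D₂ hreg
  obtain ⟨O, hO, hW⟩ := W_fib ht hR D₁ D₂ hw.le hb hc
  obtain ⟨k, hk⟩ := complete (by rw [neg_sq]; exact ht) hR D₂ h0 h1
    (fun i => ⟨((hc.right.self_of_nhds) i).2.2 hw, hc.right0 i⟩) hc.inj hz₀ rfl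
  have hz3 : z₀ ∈ ball (0 : ℂ) (3 / 2) := ball_subset_ball (by norm_num) hz₀
  have hBa : AnalyticAt ℂ D₂.B z₀ := D₂.dB.analyticAt (isOpen_ball.mem_nhds hz3)
  have hev : W t D₁ D₂ U =ᶠ[𝓝 z₀] fun z => ∑ i, O i k * U (b i (D₂.B z)) := by
    have h2 : ∀ᶠ z in 𝓝 z₀, c k (D₂.B z) = z := by
      have := hc.left k
      rwa [← hk] at this
    have h3 : ∀ᶠ z in 𝓝 z₀, ‖D₂.B z‖ < 1 := by
      filter_upwards [isOpen_ball.mem_nhds hz₀] with z hz
      exact normB_lt hR D₂ hz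
    filter_upwards [h2, h3, hBa.continuousAt.eventually hW] with z hz2 hz3 hz4
    have := hz4 hz3 U k
    rw [hz2] at this
    exact this
  refine ContDiffAt.congr_of_eventuallyEq ?_ hev
  refine ContDiffAt.sum fun i _ => contDiffAt_const.mul ?_
  have hbi : b i (D₂.B z₀) ∈ ball (0 : ℂ) 1 :=
    mem_ball_zero_iff.2 (((hb.right.self_of_nhds) i).2.2 hw)
  have hUi : ContDiffAt ℝ 1 U (b i (D₂.B z₀)) := hU.contDiffAt (isOpen_ball.mem_nhds hbi)
  have hcomp : ContDiffAt ℝ 1 (fun z => b i (D₂.B z)) z₀ := by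
    have := ((hb.an i).comp hBa).contDiffAt (n := 1)
    exact this.restrict_scalars ℝ
  exact hUi.comp z₀ hcomp

include ht hR in
/-- the fibre sums of the energy densities agree -/
theorem density {w : ℂ} (hw : ‖w‖ < 1) (h0 : (R : ℂ) * w + Complex.I ≠ 0)
    (h1 : (R : ℂ) * w + Complex.I ≠ 1728) {U : ℂ → ℝ} (hU : ContDiffOn ℝ 1 U (ball (0 : ℂ) 1))
    {b c : Fin 7 → ℂ → ℂ} (hb : Secs D₁.B w b) (hc : Secs D₂.B w c) :
    ∑ k, ‖fderiv ℝ (W t D₁ D₂ U) (c k w)‖ ^ 2 / ‖deriv D₂.B (c k w)‖ ^ 2 =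
      ∑ i, ‖fderiv ℝ U (b i w)‖ ^ 2 / ‖deriv D₁.B (b i w)‖ ^ 2 := by
  obtain ⟨O, hO, hW⟩ := W_fib ht hR D₁ D₂ hw.le hb hc
  -- derivative of a section
  have hsec : ∀ {s : ℂ} (D : Dat (fun x => pS s x - Complex.I) R) {b : Fin 7 → ℂ → ℂ}
      (hb : Secs D.B w b) (i : Fin 7), HasFDerivAt (b i) (mulL (deriv D.B (b i w))⁻¹) w := by
    intro s D b hb i
    have hbi3 : b i w ∈ ball (0 : ℂ) (3 / 2) := ((hb.right.self_of_nhds) i).2.1
    have hB : HasDerivAt D.B (deriv D.B (b i w)) (b i w) :=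
      (D.dB.differentiableAt (isOpen_ball.mem_nhds hbi3)).hasDerivAt
    have hd : HasDerivAt (b i) (deriv (b i) w) w := (hb.an i).differentiableAt.hasDerivAt
    have h2 : HasDerivAt (fun v => D.B (b i v)) (deriv D.B (b i w) * deriv (b i) w) w :=
      hB.comp w hd
    have h3 : HasDerivAt (fun v : ℂ => v) (deriv D.B (b i w) * deriv (b i) w) w := by
      refine h2.congr_of_eventuallyEq ?_
      filter_upwards [hb.right] with v hv
      exact (hv i).1.symm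
    have h4 : deriv D.B (b i w) * deriv (b i) w = 1 := h3.unique (hasDerivAt_id w)
    have h5 : deriv (b i) w = (deriv D.B (b i w))⁻¹ := eq_inv_of_mul_eq_one_right h4
    rw [h5] at hd
    exact hd.hasFDerivAt.restrictScalars ℝ
  have hUd : ∀ i, HasFDerivAt (fun v => U (b i v))
      ((fderiv ℝ U (b i w)).comp (mulL (deriv D₁.B (b i w))⁻¹)) w := by
    intro i
    have hbi : b i w ∈ ball (0 : ℂ) 1 := mem_ball_zero_iff.2 (((hb.right.self_of_nhds) i).2.2 hw)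
    have h2 : HasFDerivAt U (fderiv ℝ U (b i w)) (b i w) :=
      ((hU.contDiffAt (isOpen_ball.mem_nhds hbi)).differentiableAt (by norm_num)).hasFDerivAt
    exact h2.comp w (hsec D₁ hb i)
  have hWd : ∀ k, (fderiv ℝ (W t D₁ D₂ U) (c k w)).comp (mulL (deriv D₂.B (c k w))⁻¹) =
      ∑ i, O i k • ((fderiv ℝ U (b i w)).comp (mulL (deriv D₁.B (b i w))⁻¹)) := by
    intro k
    have hck : c k w ∈ ball (0 : ℂ) 1 := mem_ball_zero_iff.2 (((hc.right.self_of_nhds) k).2.2 hw)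
    have h2 : HasFDerivAt (W t D₁ D₂ U) (fderiv ℝ (W t D₁ D₂ U) (c k w)) (c k w) := by
      refine (ContDiffAt.differentiableAt (W_loc ht hR D₁ D₂ hck ?_ ?_ hU) (by norm_num)).hasFDerivAt
      · rw [hc.right0]; exact h0
      · rw [hc.right0]; exact h1
    have h3 : HasFDerivAt (fun v => W t D₁ D₂ U (c k v))
        ((fderiv ℝ (W t D₁ D₂ U) (c k w)).comp (mulL (deriv D₂.B (c k w))⁻¹)) w :=
      h2.comp w (hsec D₂ hc k)
    have h4 : HasFDerivAt (fun v => ∑ i, O i k * U (b i v))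
        (∑ i, O i k • ((fderiv ℝ U (b i w)).comp (mulL (deriv D₁.B (b i w))⁻¹))) w :=
      HasFDerivAt.fun_sum fun i _ => (hUd i).const_mul (O i k)
    refine h3.unique (h4.congr_of_eventuallyEq ?_)
    have h5 : ∀ᶠ v in 𝓝 w, ‖v‖ < 1 := by
      have : ball (0 : ℂ) 1 ∈ 𝓝 w := isOpen_ball.mem_nhds (mem_ball_zero_iff.2 hw)
      filter_upwards [this] with v hv using mem_ball_zero_iff.1 hv
    filter_upwards [hW, h5] with v hv1 hv2
    exact hv1 hv2 U k
  have e1 : ∀ k, ‖fderiv ℝ (W t D₁ D₂ U) (c k w)‖ ^ 2 / ‖deriv D₂.B (c k w)‖ ^ 2 =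
      ‖∑ i, O i k • ((fderiv ℝ U (b i w)).comp (mulL (deriv D₁.B (b i w))⁻¹))‖ ^ 2 := by
    intro k
    rw [← hWd k, norm_comp_mulL, norm_inv, inv_pow, div_eq_mul_inv]
  have e2 : ∀ i, ‖fderiv ℝ U (b i w)‖ ^ 2 / ‖deriv D₁.B (b i w)‖ ^ 2 =
      ‖(fderiv ℝ U (b i w)).comp (mulL (deriv D₁.B (b i w))⁻¹)‖ ^ 2 := by
    intro i
    rw [norm_comp_mulL, norm_inv, inv_pow, div_eq_mul_inv]
  simp only [e1, e2]
  exact orth_fun hO _

/-- the set of regular points of the open disc -/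
def rset {p : ℂ → ℂ} {R : ℝ} (D : Dat p R) : Set ℂ :=
  {z | z ∈ ball (0 : ℂ) 1 ∧ (R : ℂ) * D.B z + Complex.I ≠ 0 ∧ (R : ℂ) * D.B z + Complex.I ≠ 1728}

theorem sing_finite {s : ℂ} (hs : s ^ 2 = -7) (D : Dat (fun x => pS s x - Complex.I) R) :
    (ball (0 : ℂ) 1 \ rset D).Finite := by
  have hf : ({y : ℂ | pS s y = 0} ∪ {y : ℂ | pS s y = 1728}).Finite :=
    (finite_fibre hs 0).union (finite_fibre hs 1728)
  refine Set.Finite.of_finite_image (f := D.φ) (hf.subset ?_) ?_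
  · rintro _ ⟨z, ⟨hz, h⟩, rfl⟩
    have := D.pB z hz
    simp only [rset, mem_setOf_eq, not_and, not_not] at h
    by_cases h0 : (R : ℂ) * D.B z + Complex.I = 0
    · left; simp only [mem_setOf_eq]; linear_combination this + h0
    · right; simp only [mem_setOf_eq]; linear_combination this + h hz h0
  · intro z hz z' hz' h
    rw [← D.ψφ z hz.1, ← D.ψφ z' hz'.1, h]

theorem rset_open (D : Dat (fun x => pS t x - Complex.I) R) : IsOpen (rset D) := by
  have hBc : ContinuousOn D.B (ball (0 : ℂ) 1) :=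
    D.dB.continuousOn.mono (ball_subset_ball (by norm_num))
  have h1 : ContinuousOn (fun z => (R : ℂ) * D.B z + Complex.I) (ball (0 : ℂ) 1) :=
    (continuousOn_const.mul hBc).add continuousOn_const
  have h2 : IsOpen ({0, 1728}ᶜ : Set ℂ) := by
    rw [isOpen_compl_iff]
    exact (Set.toFinite _).isClosed
  have h3 := h1.isOpen_inter_preimage isOpen_ball h2
  convert h3 using 1
  ext z
  simp only [rset, mem_setOf_eq, mem_inter_iff, mem_preimage, mem_compl_iff, mem_insert_iff,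
    mem_singleton_iff, not_or]

/-- fibre sum -/
theorem fibre_tsum {s : ℂ} (hs : s ^ 2 = -7) (hR : 0 < R) (D : Dat (fun x => pS s x - Complex.I) R)
    {w : ℂ} (hw : ‖w‖ < 1) (h0 : (R : ℂ) * w + Complex.I ≠ 0)
    (h1 : (R : ℂ) * w + Complex.I ≠ 1728) {b : Fin 7 → ℂ → ℂ} (hb : Secs D.B w b) (f : ℂ → ℝ≥0∞) :
    ∑' z : {z // z ∈ rset D ∧ D.B z = w}, f z = ∑ i, f (b i w) := by
  have hb1 : ∀ i, ‖b i w‖ < 1 ∧ D.B (b i w) = w := fun i =>
    ⟨((hb.right.self_of_nhds) i).2.2 hw, hb.right0 i⟩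
  let e : Fin 7 → {z // z ∈ rset D ∧ D.B z = w} := fun i =>
    ⟨b i w, ⟨mem_ball_zero_iff.2 (hb1 i).1, by rw [(hb1 i).2]; exact h0, by rw [(hb1 i).2]; exact h1⟩,
      (hb1 i).2⟩
  have he : Function.Bijective e := by
    constructor
    · intro i j hij
      exact hb.inj (congrArg Subtype.val hij)
    · rintro ⟨z, ⟨hz, -, -⟩, hzw⟩
      obtain ⟨i, hi⟩ := complete hs hR D h0 h1 hb1 hb.inj hz hzw
      exact ⟨i, Subtype.ext hi.symm⟩
  rw [← (Equiv.ofBijective e he).tsum_eq (fun z : {z // z ∈ rset D ∧ D.B z = w} => f z), tsum_fintype]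
  rfl

/-- energy as an integral over the base -/
theorem energy_base {s : ℂ} (hs : s ^ 2 = -7) (hR : 0 < R) (D : Dat (fun x => pS s x - Complex.I) R)
    (U : ℂ → ℝ) :
    ∫⁻ z in ball (0 : ℂ) 1, ENNReal.ofReal (‖fderiv ℝ U z‖ ^ 2) =
      ∫⁻ w, ∑' z : {z // z ∈ rset D ∧ D.B z = w},
        ENNReal.ofReal (‖fderiv ℝ U z‖ ^ 2 / ‖deriv D.B z‖ ^ 2) := by
  have hmeas : Measurable fun z => ENNReal.ofReal (‖fderiv ℝ U z‖ ^ 2 / ‖deriv D.B z‖ ^ 2) := by
    refine ENNReal.measurable_ofReal.comp ?_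
    exact ((measurable_fderiv ℝ U).norm.pow_const 2).div ((measurable_deriv D.B).norm.pow_const 2)
  have hopen : MeasurableSet (rset D) := (rset_open D).measurableSet
  have hd0 : ∀ z ∈ rset D, deriv D.B z ≠ 0 := by
    intro z hz
    have hw : ‖D.B z‖ < 1 := normB_lt hR D hz.1
    obtain ⟨b, hb⟩ := exists_secs hs hR D (Or.inr ⟨hw, hz.2.1, hz.2.2⟩)
    obtain ⟨i, hi⟩ := complete hs hR D hz.2.1 hz.2.2
      (fun i => ⟨((hb.right.self_of_nhds) i).2.2 hw, hb.right0 i⟩) hb.inj hz.1 rfl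
    rw [hi]; exact hb.dB i
  have harea := AF.area (volume : Measure ℂ) (P := D.B) (P' := fun z => mulL (deriv D.B z))
    (s := rset D) hopen (fun z hz => by
      have h3 : z ∈ ball (0 : ℂ) (3 / 2) := ball_subset_ball (by norm_num) hz.1
      have : HasDerivAt D.B (deriv D.B z) z :=
        (D.dB.differentiableAt (isOpen_ball.mem_nhds h3)).hasDerivAt
      exact (this.hasFDerivAt.restrictScalars ℝ).hasFDerivWithinAt) (fun z hz => by
      rw [mulL_det]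
      exact pow_ne_zero 2 (norm_ne_zero_iff.2 (hd0 z hz))) hmeas
  rw [← harea]
  have e1 : ∫⁻ z in rset D, ENNReal.ofReal |(mulL (deriv D.B z)).det| *
      ENNReal.ofReal (‖fderiv ℝ U z‖ ^ 2 / ‖deriv D.B z‖ ^ 2) =
      ∫⁻ z in rset D, ENNReal.ofReal (‖fderiv ℝ U z‖ ^ 2) := by
    refine setLIntegral_congr_fun hopen fun z hz => ?_
    rw [mulL_det, abs_of_nonneg (by positivity), ← ENNReal.ofReal_mul (by positivity)]
    congr 1
    have := norm_ne_zero_iff.2 (hd0 z hz)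
    field_simp
  rw [e1]
  have hae : (ball (0 : ℂ) 1 : Set ℂ) =ᵐ[volume] rset D := by
    rw [ae_eq_set]
    refine ⟨(sing_finite hs D).measure_zero _, ?_⟩
    have : rset D \ ball (0 : ℂ) 1 = ∅ := by
      rw [Set.sdiff_eq_empty]
      exact fun z hz => hz.1
    rw [this]; exact measure_empty
  rw [setLIntegral_congr hae]

include ht hR in
/-- The transplantation preserves the Dirichlet integral. -/
theorem energy_eq {U : ℂ → ℝ} (hU : ContDiffOn ℝ 1 U (ball (0 : ℂ) 1)) :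
    ∫⁻ z in ball (0 : ℂ) 1, ENNReal.ofReal (‖fderiv ℝ (W t D₁ D₂ U) z‖ ^ 2) =
      ∫⁻ z in ball (0 : ℂ) 1, ENNReal.ofReal (‖fderiv ℝ U z‖ ^ 2) := by
  have ht' : (-t) ^ 2 = -7 := by rw [neg_sq]; exact ht
  rw [energy_base ht' hR D₂, energy_base ht hR D₁]
  refine lintegral_congr fun w => ?_
  by_cases hw : ‖w‖ < 1 ∧ (R : ℂ) * w + Complex.I ≠ 0 ∧ (R : ℂ) * w + Complex.I ≠ 1728
  · obtain ⟨hw, h0, h1⟩ := hw
    obtain ⟨b, hb⟩ := exists_secs ht hR D₁ (Or.inr ⟨hw, h0, h1⟩)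
    obtain ⟨c, hc⟩ := exists_secs ht' hR D₂ (Or.inr ⟨hw, h0, h1⟩)
    rw [fibre_tsum ht' hR D₂ hw h0 h1 hc (fun z => ENNReal.ofReal
        (‖fderiv ℝ (W t D₁ D₂ U) z‖ ^ 2 / ‖deriv D₂.B z‖ ^ 2)),
      fibre_tsum ht hR D₁ hw h0 h1 hb (fun z => ENNReal.ofReal
        (‖fderiv ℝ U z‖ ^ 2 / ‖deriv D₁.B z‖ ^ 2)),
      ← ENNReal.ofReal_sum_of_nonneg (fun _ _ => by positivity),
      ← ENNReal.ofReal_sum_of_nonneg (fun _ _ => by positivity),
      density ht hR D₁ D₂ hw h0 h1 hU hb hc]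
  · have h2 : ∀ {s : ℂ} (D : Dat (fun x => pS s x - Complex.I) R),
        IsEmpty {z // z ∈ rset D ∧ D.B z = w} := by
      intro s D
      refine ⟨fun z => hw ?_⟩
      obtain ⟨z, ⟨hz1, hz2, hz3⟩, rfl⟩ := z
      exact ⟨normB_lt hR D hz1, hz2, hz3⟩
    have i1 := h2 D₁
    have i2 := h2 D₂
    rw [tsum_empty, tsum_empty]

end

end Pool.Agent.W794.Fib
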