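import Pool.Agent.W794.Dom2
import Pool.Agent.W794.Fd

set_option autoImplicit false
set_option linter.all false

open Metric Set Filter Topology MeasureTheory
open scoped ENNReal Real
open Pool.Agent.Helper859.Stk

namespace Pool.Agent.W794.Fib

open Pool.Agent.W794.Fd

theorem isQ_energy {V : Type*} [AddCommGroup V] [Module ℝ V] (T : V →ₗ[ℝ] (ℂ → ℝ))
    (hT : ∀ u, ContDiffOn ℝ 1 (T u) (ball (0 : ℂ) (3 / 2))) :
    IsQ (fun u => ∫ z in ball (0 : ℂ) 1, ‖fderiv ℝ (T u) z‖ ^ 2) := by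
  have hsub : closedBall (0 : ℂ) 1 ⊆ ball (0 : ℂ) (3 / 2) := closedBall_subset_ball (by norm_num)
  have hc : ∀ u (v : ℂ), ContinuousOn (fun z => fderiv ℝ (T u) z v) (closedBall (0 : ℂ) 1) := by
    intro u v
    have h1 : ContinuousOn (fderiv ℝ (T u)) (closedBall (0 : ℂ) 1) :=
      ((hT u).continuousOn_fderiv_of_isOpen isOpen_ball (by norm_num)).mono hsub
    exact h1.clm_apply continuousOn_const
  have hd : ∀ u, ∀ z ∈ ball (0 : ℂ) 1, DifferentiableAt ℝ (T u) z := fun u z hz =>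
    ((hT u).contDiffAt (isOpen_ball.mem_nhds (hsub (ball_subset_closedBall hz)))).differentiableAt
      (by norm_num)
  have h := isQ_int (V := V) (μ := (volume : Measure ℂ).restrict (ball 0 1))
    (b := fun u v z => fderiv ℝ (T u) z 1 * fderiv ℝ (T v) z 1 +
      fderiv ℝ (T u) z Complex.I * fderiv ℝ (T v) z Complex.I) ?_ ?_ ?_ ?_
  · convert h using 2 with u
    refine integral_congr_ae (Filter.Eventually.of_forall fun z => ?_)
    beta_reduce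
    rw [norm_sq_fun]
    ring
  · intro u v
    have h1 : IntegrableOn (fun z => fderiv ℝ (T u) z 1 * fderiv ℝ (T v) z 1 +
      fderiv ℝ (T u) z Complex.I * fderiv ℝ (T v) z Complex.I) (closedBall (0 : ℂ) 1) volume :=
      (((hc u 1).mul (hc v 1)).add ((hc u _).mul (hc v _))).integrableOn_compact
        (isCompact_closedBall _ _)
    exact h1.mono_set ball_subset_closedBall
  · intro u v
    exact Filter.Eventually.of_forall fun z => by ring
  · intro u u' v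
    rw [Filter.EventuallyEq, ae_restrict_iff' measurableSet_ball]
    refine Filter.Eventually.of_forall fun z hz => ?_
    beta_reduce
    rw [map_add, fderiv_add (hd u z hz) (hd u' z hz)]
    simp only [ContinuousLinearMap.add_apply]
    ring
  · intro a u v
    rw [Filter.EventuallyEq, ae_restrict_iff' measurableSet_ball]
    refine Filter.Eventually.of_forall fun z hz => ?_
    beta_reduce
    rw [map_smul, fderiv_const_smul (hd u z hz)]
    simp only [ContinuousLinearMap.smul_apply, smul_eq_mul]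
    ring

theorem isQ_bd {V : Type*} [AddCommGroup V] [Module ℝ V] (T : V →ₗ[ℝ] (ℂ → ℝ))
    (hT : ∀ u, Continuous fun θ => T u (ex θ)) {g : ℝ → ℝ} (hg : Continuous g) :
    IsQ (fun u => ∫ θ in (-π)..π, g θ * T u (ex θ) ^ 2) := by
  have h := isQ_int (V := V) (μ := (volume : Measure ℝ).restrict (Ioc (-π) π))
    (b := fun u v θ => g θ * (T u (ex θ) * T v (ex θ))) ?_ ?_ ?_ ?_
  · convert h using 2 with u
    rw [intervalIntegral.integral_of_le (by linarith [Real.pi_pos])]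
    refine integral_congr_ae (Filter.Eventually.of_forall fun z => ?_)
    beta_reduce
    ring
  · intro u v
    exact (hg.mul ((hT u).mul (hT v))).integrableOn_Ioc
  · intro u v
    exact Filter.Eventually.of_forall fun z => by ring
  · intro u u' v
    refine Filter.Eventually.of_forall fun z => ?_
    simp only [map_add, Pi.add_apply]
    ring
  · intro a u v
    refine Filter.Eventually.of_forall fun z => ?_
    simp only [map_smul, Pi.smul_apply, smul_eq_mul]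
    ring

theorem energy_fin {U : ℂ → ℝ} (hU : ContDiffOn ℝ 1 U (ball (0 : ℂ) (3 / 2))) :
    ∫⁻ z in ball (0 : ℂ) 1, ENNReal.ofReal (‖fderiv ℝ U z‖ ^ 2) < ∞ := by
  have hsub : closedBall (0 : ℂ) 1 ⊆ ball (0 : ℂ) (3 / 2) := closedBall_subset_ball (by norm_num)
  have h1 : ContinuousOn (fun z => ‖fderiv ℝ U z‖ ^ 2) (closedBall (0 : ℂ) 1) :=
    ((hU.continuousOn_fderiv_of_isOpen isOpen_ball (by norm_num)).mono hsub).norm.pow 2
  have h2 : IntegrableOn (fun z => ‖fderiv ℝ U z‖ ^ 2) (ball (0 : ℂ) 1) volume :=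
    (h1.integrableOn_compact (isCompact_closedBall _ _)).mono_set ball_subset_closedBall
  have h3 := h2.lintegral_lt_top
  exact h3

/-- separation of finitely many points of the disc -/
theorem sep (S : Finset ℂ) (hS : ∀ s ∈ S, s ∈ ball (0 : ℂ) 1) {e : ℕ → ℝ}
    (hl : Tendsto e atTop (𝓝 0)) : ∀ᶠ n in atTop, (∀ s ∈ S, 2 * e n ≤ 1 - ‖s‖) ∧
      ∀ s ∈ S, ∀ s' ∈ S, s' ≠ s → 3 * e n ≤ ‖s - s'‖ := by
  have h2 : Tendsto (fun n => 2 * e n) atTop (𝓝 0) := by simpa using hl.const_mul 2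
  have h3 : Tendsto (fun n => 3 * e n) atTop (𝓝 0) := by simpa using hl.const_mul 3
  refine Filter.Eventually.and ?_ ?_
  · rw [Filter.eventually_all_finset]
    intro s hs
    have : 0 < 1 - ‖s‖ := by
      have := mem_ball_zero_iff.1 (hS s hs)
      linarith
    exact (h2.eventually_lt_const this).mono fun n hn => hn.le
  · rw [Filter.eventually_all_finset]
    intro s hs
    rw [Filter.eventually_all_finset]
    intro s' hs'
    by_cases hne : s' = s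
    · exact Filter.Eventually.of_forall fun n h => absurd hne h
    · have : 0 < ‖s - s'‖ := by
        rw [norm_pos_iff, sub_ne_zero]
        exact fun h => hne h.symm
      exact (h3.eventually_lt_const this).mono fun n hn _ => hn.le

section
variable {t : ℂ} (ht : t ^ 2 = -7) {R : ℝ} (hR : 1729 < R)
    (D₁ : Dat (fun x => pS t x - Complex.I) R) (D₂ : Dat (fun x => pS (-t) x - Complex.I) R)

include ht hR in
theorem key (V : Submodule ℝ (E2 → ℝ)) [FiniteDimensional ℝ V] (hV : ∀ u ∈ V, ContDiff ℝ 1 u)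
    (hpos : ∀ u ∈ V, u ≠ 0 → 0 < ∫ x in frontier (Om D₁.F), u x ^ 2 ∂μH[1]) {η : ℝ} (hη : 0 < η) :
    ∃ Λ : V →ₗ[ℝ] (E2 → ℝ), ∀ u : V, ContDiff ℝ 1 (Λ u) ∧
      ∫ x in Om D₂.F, ‖fderiv ℝ (Λ u) x‖ ^ 2 ≤ (∫ x in Om D₁.F, ‖fderiv ℝ (u : E2 → ℝ) x‖ ^ 2) +
        η * ∫ x in frontier (Om D₁.F), (u : E2 → ℝ) x ^ 2 ∂μH[1] ∧
      |(∫ x in frontier (Om D₂.F), Λ u x ^ 2 ∂μH[1]) -
        ∫ x in frontier (Om D₁.F), (u : E2 → ℝ) x ^ 2 ∂μH[1]| ≤
        η * ∫ x in frontier (Om D₁.F), (u : E2 → ℝ) x ^ 2 ∂μH[1] := by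
  have hR0 : 0 < R := by linarith
  have hsub : closedBall (0 : ℂ) 1 ⊆ ball (0 : ℂ) (3 / 2) := closedBall_subset_ball (by norm_num)
  have hcl : ∀ θ, ex θ ∈ closedBall (0 : ℂ) 1 := fun θ => sphere_subset_closedBall (ex_sphere θ)
  -- pull back
  set T : V →ₗ[ℝ] (ℂ → ℝ) := pull D₁.F ∘ₗ V.subtype with hT
  have hTu : ∀ u : V, T u = pull D₁.F (u : E2 → ℝ) := fun u => rfl
  have hTd : ∀ u, ContDiffOn ℝ 1 (T u) (ball (0 : ℂ) (3 / 2)) := fun u =>
    pull_contDiff D₁.conf (hV u u.2)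
  have hgB : ∀ u : V, ∫ x in frontier (Om D₁.F), (u : E2 → ℝ) x ^ 2 ∂μH[1] =
      ∫ θ in (-π)..π, ‖deriv D₁.B (ex θ)‖ * T u (ex θ) ^ 2 := by
    intro u
    rw [bd_dom D₁.conf (hV u u.2)]
    refine intervalIntegral.integral_congr fun θ _ => ?_
    beta_reduce
    rw [D₁.GB _ (ex_sphere θ)]
    rfl
  simp only [hgB]
  set n₁ : V → ℝ := fun u => ∫ θ in (-π)..π, ‖deriv D₁.B (ex θ)‖ * T u (ex θ) ^ 2 with hn₁
  have hcT : ∀ u, Continuous fun θ => T u (ex θ) := fun u =>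
    (hTd u).continuousOn.comp_continuous ex_cont fun θ => hsub (hcl θ)
  have hn₁Q : IsQ n₁ := isQ_bd T hcT (normB_cont D₁)
  have hn₁pos : ∀ u, u ≠ 0 → 0 < n₁ u := by
    intro u hu
    have := hpos u u.2 (fun h => hu (Subtype.ext h))
    rwa [hgB] at this
  -- the singular set
  set S : Finset ℂ := (sing_finite ht D₁).toFinset with hS
  have hSm : ∀ s, s ∈ S ↔ s ∈ ball (0 : ℂ) 1 \ rset D₁ := fun s => by simp [hS]
  have hSb : ∀ s ∈ S, s ∈ ball (0 : ℂ) 1 := fun s hs => ((hSm s).1 hs).1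
  set e : ℕ → ℝ := fun n => 1 / ((n : ℝ) + 1) with he
  have he0 : ∀ n, 0 < e n := fun n => by positivity
  have hel : Tendsto e atTop (𝓝 0) := tendsto_one_div_add_atTop_nhds_zero_nat
  -- the first approximation
  have hAd : ∀ n u, ContDiffOn ℝ 1 ((A S (e n) ∘ₗ T) u) (ball (0 : ℂ) (3 / 2)) := fun n u =>
    A_contDiff S (e n) (hTd u)
  have h1 : ∀ᶠ n in atTop, ∀ u : V, |(∫ z in ball (0 : ℂ) 1, ‖fderiv ℝ ((A S (e n) ∘ₗ T) u) z‖ ^ 2) -
      ∫ z in ball (0 : ℂ) 1, ‖fderiv ℝ (T u) z‖ ^ 2| ≤ η * n₁ u := by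
    refine uniform hn₁Q hn₁pos (fun n => (isQ_energy _ (hAd n)).sub (isQ_energy _ hTd)) ?_ hη
    intro u
    have := (A_energy S hSb (hTd u) he0 hel).sub_const (∫ z in ball (0 : ℂ) 1, ‖fderiv ℝ (T u) z‖ ^ 2)
    rwa [sub_self] at this
  obtain ⟨n, hn1, hn2, hn3⟩ := (h1.and (sep S hSb hel)).exists
  set ε := e n with hε
  have hε0 : 0 < ε := he0 n
  -- unchanged on the circle
  have hAc : ∀ (U : ℂ → ℝ) (θ : ℝ), A S ε U (ex θ) = U (ex θ) := by
    intro U θ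
    refine A_far hε0 fun s hs => (hn2 s hs).trans ?_
    have := norm_sub_norm_le (ex θ) s
    rwa [ex_norm] at this
  -- constant near the singular points
  have hAs : ∀ (U : ℂ → ℝ), ∀ s ∈ ball (0 : ℂ) 1 \ rset D₁, ∀ z, ‖z - s‖ < ε →
      A S ε U z = A S ε U s := by
    intro U s hs z hz
    have hs' := (hSm s).2 hs
    rw [A_near hε0 hs' (hn3 s hs') hz.le, A_near hε0 hs' (hn3 s hs') (by simpa using hε0.le)]
  have hWd : ∀ u : V, ContDiffOn ℝ 1 (W t D₁ D₂ (A S ε (T u))) (ball (0 : ℂ) 1) := fun u =>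
    W_C1 ht hR0 D₁ D₂ ((hAd n u).mono (ball_subset_closedBall.trans hsub)) hε0 (hAs _)
  -- the second approximation
  set d : ℕ → ℝ := fun m => 1 / ((m : ℝ) + 2) with hd
  have hd0 : ∀ m, 0 < d m := fun m => by positivity
  have hd1 : ∀ m, d m < 1 := fun m => by
    rw [hd]; simp only
    rw [div_lt_one (by positivity)]
    have : (0 : ℝ) ≤ m := Nat.cast_nonneg m
    linarith
  have hdl : Tendsto d atTop (𝓝 0) := by
    have h := (tendsto_add_atTop_iff_nat 1).2 hel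
    refine h.congr fun m => ?_
    simp only [he, hd]
    push_cast
    ring_nf
  have hLd : ∀ m (u : V), ContDiffOn ℝ 1 ((dil (d m) ∘ₗ W t D₁ D₂ ∘ₗ A S ε ∘ₗ T) u)
      (ball (0 : ℂ) (1 - d m)⁻¹) := fun m u => dil_contDiff (hd0 m) (hd1 m) (hWd u)
  have hLc : ∀ m (u : V), Continuous fun θ => (dil (d m) ∘ₗ W t D₁ D₂ ∘ₗ A S ε ∘ₗ T) u (ex θ) :=
    fun m u => (hLd m u).continuousOn.comp_continuous ex_cont fun θ => by
      rw [mem_ball_zero_iff, ex_norm]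
      exact one_lt_inv' (hd0 m) (hd1 m)
  have h2 : ∀ᶠ m in atTop, ∀ u : V, |(∫ θ in (-π)..π, ‖deriv D₂.B (ex θ)‖ *
      (dil (d m) ∘ₗ W t D₁ D₂ ∘ₗ A S ε ∘ₗ T) u (ex θ) ^ 2) - n₁ u| ≤ η * n₁ u := by
    refine uniform hn₁Q hn₁pos (fun m => (isQ_bd _ (hLc m) (normB_cont D₂)).sub hn₁Q) ?_ hη
    intro u
    have h3 := (dil_bd ht hR D₁ D₂ ((hAd n u).continuousOn.mono hsub) hd0 hd1 hdl).sub_const (n₁ u)
    have h4 : ∫ θ in (-π)..π, ‖deriv D₁.B (ex θ)‖ * (A S (e n) ∘ₗ T) u (ex θ) ^ 2 = n₁ u := by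
      refine intervalIntegral.integral_congr fun θ _ => ?_
      beta_reduce
      rw [LinearMap.comp_apply, hAc]
    rw [h4, sub_self] at h3
    exact h3
  obtain ⟨m, hm⟩ := h2.exists
  obtain ⟨X, hX⟩ := exists_ext D₂.conf (one_lt_inv' (hd0 m) (hd1 m))
  refine ⟨X ∘ₗ dil (d m) ∘ₗ W t D₁ D₂ ∘ₗ A S ε ∘ₗ T, fun u => ?_⟩
  obtain ⟨hX1, hX2⟩ := hX _ (hLd m u)
  have hXe : (X ∘ₗ dil (d m) ∘ₗ W t D₁ D₂ ∘ₗ A S ε ∘ₗ T) u =
      X ((dil (d m) ∘ₗ W t D₁ D₂ ∘ₗ A S ε ∘ₗ T) u) := rfl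
  rw [hXe]
  refine ⟨hX1, ?_, ?_⟩
  · rw [energy_dom D₂.conf hX1, energy_dom D₁.conf (hV u u.2)]
    have h5 : ∫ z in ball (0 : ℂ) 1,
        ‖fderiv ℝ (pull D₂.F (X ((dil (d m) ∘ₗ W t D₁ D₂ ∘ₗ A S ε ∘ₗ T) u))) z‖ ^ 2 =
        ∫ z in ball (0 : ℂ) 1, ‖fderiv ℝ ((dil (d m) ∘ₗ W t D₁ D₂ ∘ₗ A S ε ∘ₗ T) u) z‖ ^ 2 := by
      refine setIntegral_congr_fun measurableSet_ball fun z hz => ?_
      beta_reduce
      have h6 : pull D₂.F (X ((dil (d m) ∘ₗ W t D₁ D₂ ∘ₗ A S ε ∘ₗ T) u)) =ᶠ[𝓝 z]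
          (dil (d m) ∘ₗ W t D₁ D₂ ∘ₗ A S ε ∘ₗ T) u := by
        filter_upwards [isOpen_ball.mem_nhds hz] with y hy
        exact hX2 y (ball_subset_closedBall hy)
      rw [h6.fderiv_eq]
    rw [h5]
    have h7 : ∫ z in ball (0 : ℂ) 1, ‖fderiv ℝ ((dil (d m) ∘ₗ W t D₁ D₂ ∘ₗ A S ε ∘ₗ T) u) z‖ ^ 2 ≤
        ∫ z in ball (0 : ℂ) 1, ‖fderiv ℝ ((A S (e n) ∘ₗ T) u) z‖ ^ 2 := by
      rw [energy_toReal, energy_toReal]
      refine ENNReal.toReal_mono (energy_fin (hAd n u)).ne ?_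
      refine (dil_energy (hd0 m) (hd1 m) (hWd u)).trans (le_of_eq ?_)
      exact energy_eq ht hR0 D₁ D₂ ((hAd n u).mono (ball_subset_closedBall.trans hsub))
    have h8 := abs_le.1 (hn1 u)
    have h9 : pull D₁.F (u : E2 → ℝ) = T u := rfl
    rw [h9]
    linarith [h8.2]
  · have h5 : ∫ x in frontier (Om D₂.F), X ((dil (d m) ∘ₗ W t D₁ D₂ ∘ₗ A S ε ∘ₗ T) u) x ^ 2 ∂μH[1] =
        ∫ θ in (-π)..π, ‖deriv D₂.B (ex θ)‖ * (dil (d m) ∘ₗ W t D₁ D₂ ∘ₗ A S ε ∘ₗ T) u (ex θ) ^ 2 := by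
      rw [bd_dom D₂.conf hX1]
      refine intervalIntegral.integral_congr fun θ _ => ?_
      beta_reduce
      rw [D₂.GB _ (ex_sphere θ), hX2 _ (hcl θ)]
    rw [h5]
    exact hm u

end

end Pool.Agent.W794.Fib
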