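import Pool.Agent.W794.Orth1

set_option autoImplicit false
set_option linter.all false

open Pool.Agent.Helper859.Stk Matrix

namespace Pool.Agent.W794.Orth

/-- incidence -/
noncomputable def mm (t x y : ℂ) : ℂ := by
  classical exact if hh t x y = 0 then 1 else 0

theorem mm_symm (t x y : ℂ) : mm (-t) y x = mm t x y := by
  classical
  unfold mm
  rw [hh_symm]
  simp

/-- the sum over the roots as a matrix product -/
theorem rs_sum {E : Type} [AddCommGroup E] [Module ℂ E] {t : ℂ} (ht : t ^ 2 = -7) {y : ℂ} {x : Fin 7 → ℂ} (hx : Function.Injective x)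
    (h : ∀ i, pS t (x i) = pS (-t) y) (f : ℂ → E) :
    rs t y f = ∑ i, mm t (x i) y • f (x i) := by
  classical
  obtain ⟨S, hS, hr, h1, h2⟩ := L08a.fibre_split ht hx h
  unfold rs
  rw [hr, Multiset.map_map]
  have e : ∀ i, mm t (x i) y = if i ∈ S then 1 else 0 := by
    intro i
    unfold mm
    by_cases hi : i ∈ S
    · rw [if_pos hi, if_pos (h1 i hi).1]
    · rw [if_neg hi, if_neg (h2 i hi).2]
  simp only [e, ite_smul, one_smul, zero_smul, Finset.sum_ite_mem, Finset.univ_inter]
  rfl

theorem card_sum {t : ℂ} (ht : t ^ 2 = -7) {y : ℂ} {x : Fin 7 → ℂ} (hx : Function.Injective x)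
    (h : ∀ i, pS t (x i) = pS (-t) y) : ∑ i, mm t (x i) y = 3 := by
  classical
  obtain ⟨S, hS, hr, h1, h2⟩ := L08a.fibre_split ht hx h
  have e : ∀ i, mm t (x i) y = if i ∈ S then 1 else 0 := by
    intro i
    unfold mm
    by_cases hi : i ∈ S
    · rw [if_pos hi, if_pos (h1 i hi).1]
    · rw [if_neg hi, if_neg (h2 i hi).2]
  simp only [e, Finset.sum_ite_mem, Finset.univ_inter, Finset.sum_const, hS]
  norm_num

/-- triangular matrix of the power sums -/
theorem tri {t : ℂ} (ht : t ^ 2 = -7) : ∃ C : Matrix (Fin 7) (Fin 7) ℂ,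
    (∀ l m, m < l → C l m = 0) ∧ (∀ m : Fin 7, C m m = lead t m) ∧
    ∀ (y : ℂ) (m : Fin 7), rs t y (fun x => x ^ (m : ℕ)) = ∑ l : Fin 7, y ^ (l : ℕ) * C l m := by
  have h := fun m : Fin 7 => power_lead ht m (by omega)
  choose P hP hP' using h
  refine ⟨fun l m => (P m).coeff l, ?_, fun m => (hP m).2, ?_⟩
  · intro l m hlm
    exact Polynomial.coeff_eq_zero_of_natDegree_lt (lt_of_le_of_lt (hP m).1 hlm)
  · intro y m
    rw [hP' m y, Polynomial.eval_eq_sum_range' (n := 7) (by have := (hP m).1; omega)]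
    rw [Finset.sum_range]
    exact Finset.sum_congr rfl fun l _ => mul_comm _ _

theorem lead_mul (t : ℂ) (ht : t ^ 2 = -7) (m : Fin 7) :
    lead (-t) m * lead t m = if m = 0 then 9 else 2 := by
  fin_cases m <;> simp [lead] <;> first | linear_combination (-1 / 4 : ℂ) * ht | norm_num

/-- diagonal of a product of two upper triangular matrices -/
theorem diag_mul {A B : Matrix (Fin 7) (Fin 7) ℂ} (hA : ∀ l m, m < l → A l m = 0)
    (hB : ∀ l m, m < l → B l m = 0) :
    (∀ l m, m < l → (A * B) l m = 0) ∧ ∀ m, (A * B) m m = A m m * B m m := by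
  constructor
  · intro l m hlm
    rw [Matrix.mul_apply]
    refine Finset.sum_eq_zero fun k _ => ?_
    rcases lt_or_ge k l with h | h
    · rw [hA l k h, zero_mul]
    · rw [hB k m (lt_of_lt_of_le hlm h), mul_zero]
  · intro m
    rw [Matrix.mul_apply, Finset.sum_eq_single m]
    · intro k _ hk
      rcases lt_or_gt_of_ne hk with h | h
      · rw [hA m k h, zero_mul]
      · rw [hB k m h, mul_zero]
    · intro h
      exact absurd (Finset.mem_univ m) h

theorem trace_sq {t : ℂ} (ht : t ^ 2 = -7) {v : ℂ} {x y : Fin 7 → ℂ} (hx : Function.Injective x)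
    (hy : Function.Injective y) (hxv : ∀ i, pS t (x i) = v) (hyv : ∀ k, pS (-t) (y k) = v) :
    ∑ i, ∑ j, (∑ k, mm t (x i) (y k) * mm t (x j) (y k)) *
      (∑ k, mm t (x j) (y k) * mm t (x i) (y k)) = 105 := by
  set M : Matrix (Fin 7) (Fin 7) ℂ := Matrix.of fun k i => mm t (x i) (y k) with hM
  obtain ⟨C, hC1, hC2, hC3⟩ := tri ht
  obtain ⟨C', hC1', hC2', hC3'⟩ := tri (t := -t) (by rw [neg_sq]; exact ht)
  set Vx := Matrix.vandermonde x with hVx
  set Vy := Matrix.vandermonde y with hVy
  have e1 : M * Vx = Vy * C := by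
    ext k m
    rw [Matrix.mul_apply, Matrix.mul_apply]
    simp only [hM, hVx, hVy, Matrix.of_apply, Matrix.vandermonde_apply]
    have := hC3 (y k) m
    rw [rs_sum ht hx (fun i => by rw [hxv, hyv])] at this
    simpa only [smul_eq_mul] using this
  have e2 : Mᵀ * Vy = Vx * C' := by
    ext i m
    rw [Matrix.mul_apply, Matrix.mul_apply]
    simp only [hM, hVx, hVy, Matrix.of_apply, Matrix.vandermonde_apply, Matrix.transpose_apply]
    have := hC3' (x i) m
    rw [rs_sum (by rw [neg_sq]; exact ht) hy (fun k => by rw [hyv, neg_neg, hxv])] at this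
    simp only [mm_symm, smul_eq_mul] at this
    exact this
  have e3 : (Mᵀ * M) * Vx = Vx * (C' * C) := by
    rw [Matrix.mul_assoc, e1, ← Matrix.mul_assoc, e2, Matrix.mul_assoc]
  have hdet : IsUnit Vx.det := by
    rw [isUnit_iff_ne_zero, hVx]
    exact Matrix.det_vandermonde_ne_zero_iff.2 hx
  have e4 : (Mᵀ * M) = Vx * (C' * C) * Vx⁻¹ := by
    rw [← e3, Matrix.mul_assoc, Matrix.mul_nonsing_inv _ hdet, Matrix.mul_one]
  have e5 : (Mᵀ * M) * (Mᵀ * M) = Vx * ((C' * C) * (C' * C)) * Vx⁻¹ := by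
    conv_lhs => rw [e4]
    calc Vx * (C' * C) * Vx⁻¹ * (Vx * (C' * C) * Vx⁻¹)
        = Vx * (C' * C) * (Vx⁻¹ * Vx) * (C' * C) * Vx⁻¹ := by simp only [Matrix.mul_assoc]
      _ = Vx * ((C' * C) * (C' * C)) * Vx⁻¹ := by
        rw [Matrix.nonsing_inv_mul _ hdet, Matrix.mul_one]; simp only [Matrix.mul_assoc]
  have e6 : Matrix.trace ((Mᵀ * M) * (Mᵀ * M)) = Matrix.trace ((C' * C) * (C' * C)) := by
    rw [e5, Matrix.trace_mul_comm, ← Matrix.mul_assoc, Matrix.nonsing_inv_mul _ hdet, Matrix.one_mul]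
  have e7 : Matrix.trace ((C' * C) * (C' * C)) = 105 := by
    obtain ⟨h1, h2⟩ := diag_mul hC1' hC1
    obtain ⟨h3, h4⟩ := diag_mul h1 h1
    unfold Matrix.trace
    simp only [Matrix.diag_apply, h4, h2, hC2, hC2', lead_mul t ht]
    simp [Fin.sum_univ_succ]
    norm_num
  rw [e7] at e6
  rw [← e6]
  unfold Matrix.trace
  simp only [Matrix.diag_apply, Matrix.mul_apply, Matrix.transpose_apply, hM, Matrix.of_apply]

/-- The incidence matrix of the fibres is that of a projective plane of order two. -/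
theorem design {t : ℂ} (ht : t ^ 2 = -7) {v : ℂ} {x y : Fin 7 → ℂ} (hx : Function.Injective x)
    (hy : Function.Injective y) (hxv : ∀ i, pS t (x i) = v) (hyv : ∀ k, pS (-t) (y k) = v)
    (i j : Fin 7) :
    ∑ k, mm t (x i) (y k) * mm t (x j) (y k) = if i = j then 3 else 1 := by
  classical
  -- integer version
  set m : Fin 7 → Fin 7 → ℤ := fun i k => if hh t (x i) (y k) = 0 then 1 else 0 with hm
  have hmc : ∀ i k, ((m i k : ℤ) : ℂ) = mm t (x i) (y k) := by
    intro i k
    simp only [hm, mm]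
    split_ifs <;> simp
  set N : Fin 7 → Fin 7 → ℤ := fun i j => ∑ k, m i k * m j k with hN
  have hNc : ∀ i j, ((N i j : ℤ) : ℂ) = ∑ k, mm t (x i) (y k) * mm t (x j) (y k) := by
    intro i j
    simp only [hN, Int.cast_sum, Int.cast_mul, hmc]
  have hsym : ∀ i j, N i j = N j i := by
    intro i j
    simp only [hN]
    exact Finset.sum_congr rfl fun k _ => mul_comm _ _
  have hrow : ∀ k, ∑ i, m i k = 3 := by
    intro k
    have h := card_sum ht hx (y := y k) (fun i => by rw [hxv, hyv])
    simp only [← hmc] at h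
    exact_mod_cast h
  have hcol : ∀ i, ∑ k, m i k = 3 := by
    intro i
    have h := card_sum (t := -t) (by rw [neg_sq]; exact ht) hy (y := x i)
      (fun k => by rw [hyv, neg_neg, hxv])
    simp only [mm_symm, ← hmc] at h
    exact_mod_cast h
  have hidem : ∀ i k, m i k * m i k = m i k := by
    intro i k
    simp only [hm]
    split_ifs <;> simp
  have hdiag : ∀ i, N i i = 3 := by
    intro i
    simp only [hN, hidem]
    exact hcol i
  have htot : ∑ i, ∑ j, N i j = 63 := by
    have h1 : ∀ i, ∑ j, N i j = 9 := by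
      intro i
      simp only [hN]
      rw [Finset.sum_comm]
      calc ∑ k, ∑ j, m i k * m j k = ∑ k, m i k * 3 := by
            refine Finset.sum_congr rfl fun k _ => ?_
            rw [← Finset.mul_sum, hrow]
        _ = 9 := by rw [← Finset.sum_mul, hcol]; norm_num
    simp only [h1]
    simp
  have hsq : ∑ i, ∑ j, N i j * N j i = 105 := by
    have h := trace_sq ht hx hy hxv hyv
    simp only [← hNc] at h
    exact_mod_cast h
  have key : ∑ i, ∑ j, (N i j - (if i = j then 3 else 1)) ^ 2 = 0 := by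
    have e : ∀ i j, (N i j - (if i = j then 3 else 1)) ^ 2 =
        N i j * N j i - 2 * N i j - (if i = j then 4 * N i j else 0) + (if i = j then 9 else 1) := by
      intro i j
      rw [hsym j i]
      split_ifs <;> ring
    simp only [e, Finset.sum_add_distrib, Finset.sum_sub_distrib, ← Finset.mul_sum, hsq, htot,
      Finset.sum_ite_eq, Finset.mem_univ, if_true, hdiag]
    decide
  have hz : ∀ i j, (N i j - (if i = j then 3 else 1)) ^ 2 = 0 := by
    have h1 := (Finset.sum_eq_zero_iff_of_nonneg (fun i _ =>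
      Finset.sum_nonneg fun j _ => sq_nonneg (N i j - (if i = j then 3 else 1)))).1 key
    intro i j
    exact (Finset.sum_eq_zero_iff_of_nonneg (fun j _ =>
      sq_nonneg (N i j - (if i = j then 3 else 1)))).1 (h1 i (Finset.mem_univ i)) j (Finset.mem_univ j)
  have h2 : N i j = if i = j then 3 else 1 := by
    have := pow_eq_zero_iff (two_ne_zero) |>.1 (hz i j)
    linarith
  rw [← hNc, h2]
  split_ifs <;> simp

end Pool.Agent.W794.Orth
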