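import Pool.Agent.Results.MP_ce9a4f_an.NoBoundState

set_option autoImplicit false
set_option linter.all false

open MeasureTheory Set Metric Filter Topology
open Pool.Agent.Results.MP_ce9a4f_an.NoBoundState

namespace Pool.Agent.W794.Rob

/-- open half space with inner normal `n` -/
def HS {m : ℕ} (n : E (m + 1)) : Set (E (m + 1)) := {x | 0 < inner ℝ n x}

/-- its boundary -/
def HP {m : ℕ} (n : E (m + 1)) : Set (E (m + 1)) := {x | inner ℝ n x = 0}

/-- last coordinate vector -/
noncomputable def el (m : ℕ) : E (m + 1) := EuclideanSpace.single (Fin.last m) 1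

theorem el_norm (m : ℕ) : ‖el m‖ = 1 := by simp [el]

theorem el_inner {m : ℕ} (x : E (m + 1)) : inner ℝ (el m) x = x (Fin.last m) := by
  simp [el, EuclideanSpace.inner_single_left]

theorem L_zero_one {m : ℕ} : L m (0, 1) = el m := by
  ext i
  refine Fin.lastCases ?_ (fun j => ?_) i
  · rw [L_last]; simp [el]
  · rw [L_castSucc]
    have : (Fin.castSucc j) ≠ Fin.last m := (Fin.castSucc_lt_last j).ne
    simp [el, this]

theorem L_add_smul {m : ℕ} (x : E m) (s : ℝ) : L m (x, s) = L m (x, 0) + s • el m := by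
  rw [← L_zero_one, ← map_smul, ← map_add]
  simp

/-- the surface measure on the coordinate hyperplane -/
theorem surf_flat (m : ℕ) : (surfaceMeasure m).restrict (HP (el m)) =
    Measure.map (fun x : E m => L m (x, 0)) volume := by
  have hiso : Isometry (fun x : E m => L m (x, 0)) := by
    refine Isometry.of_dist_eq fun x y => ?_
    have h := Gam_dist (fun _ : E m => (0 : ℝ)) x y
    simp only [Gam, sub_self] at h
    have h2 : dist (L m (x, 0)) (L m (y, 0)) ^ 2 = dist x y ^ 2 := by
      rw [h]; ring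
    exact (pow_left_inj₀ dist_nonneg dist_nonneg two_ne_zero).1 h2
  have hrange : range (fun x : E m => L m (x, 0)) = HP (el m) := by
    ext x
    simp only [HP, mem_setOf_eq, el_inner, mem_range]
    constructor
    · rintro ⟨y, rfl⟩
      simp
    · intro hx
      refine ⟨hor x, ?_⟩
      rw [← hx]
      exact L_hor x
  have hm : (0 : ℝ) ≤ m := Nat.cast_nonneg m
  rw [surfaceMeasure, Measure.restrict_smul, ← hrange, ← hiso.map_hausdorffMeasure (Or.inl hm)]
  conv_rhs => rw [volume_eq_haus m]
  rw [Measure.map_smul]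

theorem L_cont0 {m : ℕ} : Continuous (fun x : E m => L m (x, 0)) := by fun_prop

/-- half space formula, coordinate case -/
theorem hs_flat {m : ℕ} {Ψ : E (m + 1) → ℝ} (hΨ : ContDiff ℝ 1 Ψ) (hc : HasCompactSupport Ψ) :
    ∫ x in HP (el m), Ψ x ∂(surfaceMeasure m) = - ∫ x in HS (el m), fderiv ℝ Ψ x (el m) := by
  rw [surf_flat]
  have hemb : MeasurableEmbedding (fun x : E m => L m (x, 0)) := by
    have h := (Gam_emb (m := m) (g := fun _ => (0 : ℝ)) continuous_const)
    exact h.measurableEmbedding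
  rw [hemb.integral_map]
  -- volume part
  have hdc : Continuous (fun x => fderiv ℝ Ψ x (el m)) :=
    (hΨ.continuous_fderiv (by norm_num)).clm_apply continuous_const
  have hdcs : HasCompactSupport (fun x => fderiv ℝ Ψ x (el m)) :=
    (hc.fderiv ℝ).comp_left (g := fun T : E (m + 1) →L[ℝ] ℝ => T (el m)) (by simp)
  have h1 : ∫ x in HS (el m), fderiv ℝ Ψ x (el m) =
      ∫ x : E m, ∫ s in Ioi (0 : ℝ), fderiv ℝ Ψ (L m (x, s)) (el m) := by
    have hset : HS (el m) = above (fun _ : E m => (0 : ℝ)) := by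
      ext x
      simp [HS, above, el_inner]
    rw [hset, setIntegral_above (fun _ => (0 : ℝ)) continuous_const]
    have e1 : ∀ p : E m × ℝ, Psi (fun _ : E m => (0 : ℝ)) continuous_const p = L m p := by
      intro p
      rw [Psi_apply]
      simp
    simp only [e1]
    have hint : IntegrableOn (fun p : E m × ℝ => fderiv ℝ Ψ (L m p) (el m)) (univ ×ˢ Ioi 0)
        (volume.prod volume) := by
      have : Integrable (fun p : E m × ℝ => fderiv ℝ Ψ (L m p) (el m)) (volume.prod volume) := by
        refine Continuous.integrable_of_hasCompactSupport (hdc.comp (L m).continuous) ?_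
        exact hdcs.comp_homeomorph (L m).toHomeomorph
      exact this.integrableOn
    have h2 := setIntegral_prod (μ := (volume : Measure (E m))) (ν := (volume : Measure ℝ))
      (s := univ) (t := Ioi 0) (fun p : E m × ℝ => fderiv ℝ Ψ (L m p) (el m)) hint
    rw [Measure.restrict_univ] at h2
    exact h2
  rw [h1, ← integral_neg]
  refine integral_congr_ae (Filter.Eventually.of_forall fun x => ?_)
  beta_reduce
  have hline : ∀ s : ℝ, HasDerivAt (fun s : ℝ => L m (x, s)) (el m) s := by
    intro s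
    have h3 : HasDerivAt (fun s : ℝ => L m (x, 0) + s • el m) ((1 : ℝ) • el m) s :=
      ((hasDerivAt_id s).smul_const (el m)).const_add _
    rw [one_smul] at h3
    refine h3.congr_of_eventuallyEq (Filter.Eventually.of_forall fun s => ?_)
    exact L_add_smul x s
  have hd : ∀ s, HasDerivAt (fun s : ℝ => Ψ (L m (x, s))) (fderiv ℝ Ψ (L m (x, s)) (el m)) s := by
    intro s
    exact ((hΨ.differentiable (by norm_num)).differentiableAt.hasFDerivAt).comp_hasDerivAt s (hline s)
  have hcf : ContDiff ℝ 1 (fun s : ℝ => Ψ (L m (x, s))) := by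
    have h4 : ContDiff ℝ 1 (fun s : ℝ => L m (x, s)) :=
      (L m).contDiff.comp (contDiff_const.prodMk contDiff_id)
    exact hΨ.comp h4
  have hcl : IsClosedEmbedding (fun s : ℝ => L m (x, s)) := by
    have h5 : IsClosedEmbedding (fun s : ℝ => (x, s)) := by
      refine ⟨IsEmbedding.of_comp (f := fun s : ℝ => (x, s)) (g := Prod.snd)
        (by fun_prop) continuous_snd .id, ?_⟩
      have : range (fun s : ℝ => (x, s)) = {x} ×ˢ univ := by
        ext p
        simp only [mem_range, mem_prod, mem_singleton_iff, mem_univ, and_true]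
        constructor
        · rintro ⟨s, rfl⟩; rfl
        · intro h; exact ⟨p.2, by rw [← h]⟩
      rw [this]; exact isClosed_singleton.prod isClosed_univ
    exact (L m).toHomeomorph.isClosedEmbedding.comp h5
  have h6 := HasCompactSupport.integral_Ioi_deriv_eq hcf (hc.comp_isClosedEmbedding hcl) 0
  have h7 : ∫ s in Ioi (0 : ℝ), fderiv ℝ Ψ (L m (x, s)) (el m) =
      ∫ s in Ioi (0 : ℝ), deriv (fun s : ℝ => Ψ (L m (x, s))) s := by
    refine integral_congr_ae (Filter.Eventually.of_forall fun s => ?_)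
    exact ((hd s).deriv).symm
  rw [h7, h6, neg_neg]

theorem exists_isom {m : ℕ} {n : E (m + 1)} (hn : ‖n‖ = 1) :
    ∃ A : E (m + 1) ≃ₗᵢ[ℝ] E (m + 1), A (el m) = n := by
  refine ⟨Submodule.reflection (ℝ ∙ (el m - n))ᗮ, ?_⟩
  exact Submodule.reflection_sub (by rw [el_norm, hn])

theorem surf_mp {m : ℕ} (A : E (m + 1) ≃ₗᵢ[ℝ] E (m + 1)) :
    MeasurePreserving A (surfaceMeasure m) (surfaceMeasure m) :=
  (A.toIsometryEquiv.measurePreserving_hausdorffMeasure (m : ℝ)).smul_measure _

theorem HP_image {m : ℕ} {n : E (m + 1)} (A : E (m + 1) ≃ₗᵢ[ℝ] E (m + 1)) (hA : A (el m) = n) :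
    A '' HP (el m) = HP n := by
  ext x
  constructor
  · rintro ⟨y, hy, rfl⟩
    show inner ℝ n (A y) = 0
    rw [← hA, A.inner_map_map]; exact hy
  · intro hx
    refine ⟨A.symm x, ?_, A.apply_symm_apply x⟩
    show inner ℝ (el m) (A.symm x) = 0
    rw [← A.inner_map_map, hA, A.apply_symm_apply]; exact hx

theorem HS_image {m : ℕ} {n : E (m + 1)} (A : E (m + 1) ≃ₗᵢ[ℝ] E (m + 1)) (hA : A (el m) = n) :
    A '' HS (el m) = HS n := by
  ext x
  constructor
  · rintro ⟨y, hy, rfl⟩
    show 0 < inner ℝ n (A y)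
    rw [← hA, A.inner_map_map]; exact hy
  · intro hx
    refine ⟨A.symm x, ?_, A.apply_symm_apply x⟩
    show 0 < inner ℝ (el m) (A.symm x)
    rw [← A.inner_map_map, hA, A.apply_symm_apply]; exact hx

/-- half space formula -/
theorem hs_formula {m : ℕ} {n : E (m + 1)} (hn : ‖n‖ = 1) {Ψ : E (m + 1) → ℝ}
    (hΨ : ContDiff ℝ 1 Ψ) (hc : HasCompactSupport Ψ) :
    ∫ x in HP n, Ψ x ∂(surfaceMeasure m) = - ∫ x in HS n, fderiv ℝ Ψ x n := by
  obtain ⟨A, hA⟩ := exists_isom hn
  rw [← HP_image A hA, ← HS_image A hA,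
    (surf_mp A).setIntegral_image_emb A.toHomeomorph.measurableEmbedding,
    A.measurePreserving.setIntegral_image_emb A.toHomeomorph.measurableEmbedding]
  have h1 := hs_flat (m := m) (Ψ := fun x => Ψ (A x)) (hΨ.comp A.contDiff)
    (hc.comp_homeomorph A.toHomeomorph)
  rw [h1]
  congr 1
  refine integral_congr_ae (Filter.Eventually.of_forall fun x => ?_)
  beta_reduce
  have h2 : HasFDerivAt (fun x => Ψ (A x))
      ((fderiv ℝ Ψ (A x)).comp (A.toContinuousLinearEquiv : E (m + 1) →L[ℝ] E (m + 1))) x :=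
    ((hΨ.differentiable (by norm_num)).differentiableAt.hasFDerivAt).comp x
      A.toContinuousLinearEquiv.hasFDerivAt
  rw [h2.fderiv]
  show fderiv ℝ Ψ (A x) (A (el m)) = _
  rw [hA]

theorem surf_fin {m : ℕ} {n : E (m + 1)} (hn : ‖n‖ = 1) (R : ℝ) :
    surfaceMeasure m (HP n ∩ closedBall 0 R) < ⊤ := by
  obtain ⟨A, hA⟩ := exists_isom hn
  have h1 : HP n ∩ closedBall 0 R = A '' (HP (el m) ∩ closedBall 0 R) := by
    rw [image_inter A.injective, HP_image A hA]
    congr 1
    rw [A.image_closedBall, map_zero]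
  have h2 : surfaceMeasure m (A '' (HP (el m) ∩ closedBall 0 R)) =
      surfaceMeasure m (HP (el m) ∩ closedBall 0 R) := by
    have h3 := (surf_mp A).measure_preimage_emb A.toHomeomorph.measurableEmbedding
      (A '' (HP (el m) ∩ closedBall 0 R))
    rw [preimage_image_eq _ A.injective] at h3
    exact h3.symm
  have hmeas : MeasurableSet (HP (el m)) := by
    have : IsClosed (HP (el m)) := isClosed_eq (by fun_prop) continuous_const
    exact this.measurableSet
  rw [h1, h2, inter_comm, ← Measure.restrict_apply isClosed_closedBall.measurableSet, surf_flat,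
    Measure.map_apply L_cont0.measurable isClosed_closedBall.measurableSet]
  refine lt_of_le_of_lt (measure_mono (t := closedBall 0 R) ?_) measure_closedBall_lt_top
  intro x hx
  have hx' : ‖L m (x, 0)‖ ≤ R := by simpa using hx
  rw [mem_closedBall_zero_iff]
  have h4 := L_norm_sq m (x, 0)
  have h5 : ‖x‖ ^ 2 = ‖L m (x, 0)‖ ^ 2 := by rw [h4]; simp
  have h6 : ‖x‖ = ‖L m (x, 0)‖ := (pow_left_inj₀ (norm_nonneg _) (norm_nonneg _) two_ne_zero).1 h5
  rw [h6]; exact hx'

end Pool.Agent.W794.Rob
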