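import Pool.Agent.W794.Rob9

set_option autoImplicit false
set_option linter.all false

open MeasureTheory Set Metric Filter Topology
open scoped ENNReal NNReal
open Pool.Agent.Results.MP_ce9a4f_an.NoBoundState

namespace Pool.Agent.W794.Rob

section
variable {m : ℕ} {ι : Type} [Fintype ι] [Nonempty ι] {n : ι → E (m + 1)} {c0 : ℝ}
  {α lam : ℝ} {u : E (m + 1) → ℝ} {G : E (m + 1) → E (m + 1)} {T : E (m + 1) → ℝ}
  {φ : ℕ → E (m + 1) → ℝ}

theorem Nrm.le_one (hn : Nrm n c0) : c0 ≤ 1 := by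
  obtain ⟨i⟩ := ‹Nonempty ι›
  have := hn.ip i i
  rwa [real_inner_self_eq_norm_sq, hn.unit, one_pow] at this

/-- upward bound in the direction of the nearest face -/
theorem near_face (hn : Nrm n c0) (w : WS n α lam u G T φ) (hu : ∀ x ∈ Om n, 0 < u x)
    (hconc : ConcaveOn ℝ (Om n) (fun x => Real.log (u x))) {x : E (m + 1)} (hx : x ∈ Om n) :
    ∃ i, ∀ τ, 0 ≤ τ → x + τ • n i ∈ Om n →
      Real.log (u (x + τ • n i)) - Real.log (u x) ≤ α * τ := by
  obtain ⟨i, hi⟩ := Finite.exists_min (fun i => inner ℝ (n i) x)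
  refine ⟨i, fun τ hτ hxτ => ?_⟩
  rcases hτ.eq_or_lt with h | h
  · rw [← h]; simp
  set d := inner ℝ (n i) x with hd
  have hd0 : 0 < d := hx.2 i
  set y0 := x - d • n i with hy0
  have e0 : inner ℝ (n i) y0 = 0 := by
    rw [hy0, inner_sub_right, inner_smul_right, real_inner_self_eq_norm_sq, hn.unit, ← hd]; ring
  have e1 : y0 + d • n i = x := by rw [hy0]; abel
  have e2 : y0 + (d + τ) • n i = x + τ • n i := by rw [add_smul, ← add_assoc, e1]
  have hnorm : ‖x‖ ^ 2 = ‖y0‖ ^ 2 + d ^ 2 := by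
    rw [← e1, norm_add_sq_real, inner_smul_right, real_inner_comm, e0, norm_smul, mul_pow, hn.unit,
      Real.norm_eq_abs, sq_abs]
    ring
  have hU : y0 ∈ UU n i := by
    refine ⟨?_, fun j hj => ?_⟩
    · have h3 : ‖y0‖ ≤ ‖x‖ := by
        rw [← sq_le_sq₀ (norm_nonneg _) (norm_nonneg _), hnorm]
        nlinarith
      exact lt_of_le_of_lt h3 hx.1
    · rw [hy0, inner_sub_right, inner_smul_right]
      have h4 : inner ℝ (n j) (n i) < 1 :=
        (inner_lt_one_iff_real_of_norm_eq_one (hn.unit j) (hn.unit i)).2 (fun h => hj (hn.inj h))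
      have h5 := hi j
      have h6 : d * inner ℝ (n j) (n i) < d * 1 := mul_lt_mul_of_pos_left h4 hd0
      have h7 : d ≤ inner ℝ (n j) x := h5
      linarith
  have h8 := RL hn w hu hconc e0 hU hd0 (show d < d + τ by linarith) (by rw [e2]; exact hxτ)
  rw [e1, e2] at h8
  linarith

theorem lip_log (hn : Nrm n c0) (w : WS n α lam u G T φ) (hu : ∀ x ∈ Om n, 0 < u x)
    (hconc : ConcaveOn ℝ (Om n) (fun x => Real.log (u x))) :
    ∃ M : ℝ, 0 ≤ M ∧ ∀ x ∈ Om n ∩ ball 0 (1 / 8), ∀ y ∈ Om n ∩ ball 0 (1 / 8),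
      Real.log (u y) - Real.log (u x) ≤ M * ‖y - x‖ := by
  have hv : ContinuousOn (fun x => Real.log (u x)) (Om n) := hconc.continuousOn (Om_open n)
  set v : E (m + 1) → ℝ := fun x => Real.log (u x) with hvd
  have hc1 := hn.le_one
  have hc0 := hn.pos
  have hα := w.α0
  set K : Set (E (m + 1)) := {z | ‖z‖ ≤ 7 / 8 ∧ ∀ j, c0 / 8 ≤ inner ℝ (n j) z} with hK
  have hKc : IsCompact K := by
    have h1 : IsClosed K := by
      have e : K = {z | ‖z‖ ≤ 7 / 8} ∩ ⋂ j, {z | c0 / 8 ≤ inner ℝ (n j) z} := by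
        ext z; simp [hK]
      rw [e]
      exact (isClosed_le continuous_norm continuous_const).inter
        (isClosed_iInter fun j => isClosed_le continuous_const (by fun_prop))
    refine (isCompact_closedBall (0 : E (m + 1)) (7 / 8)).of_isClosed_subset h1 fun z hz => ?_
    rw [mem_closedBall_zero_iff]; exact hz.1
  have hKO : K ⊆ Om n := fun z hz => ⟨by linarith [hz.1], fun j => by linarith [hz.2 j]⟩
  obtain ⟨C, hC⟩ := hKc.exists_bound_of_continuousOn (hv.mono hKO)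
  obtain ⟨i0⟩ := ‹Nonempty ι›
  have hC0' : ∀ z ∈ K, v z ≤ C ∧ -C ≤ v z := by
    intro z hz
    have := abs_le.1 (hC z hz)
    exact ⟨this.2, this.1⟩
  -- upper bound
  have hup : ∀ x ∈ Om n ∩ ball 0 (1 / 8), v x ≤ 3 * C := by
    intro x hx
    have hxn := mem_ball_zero_iff.1 hx.2
    have hmem : ∀ s : ℝ, 1 / 8 ≤ s → s ≤ 3 / 4 → x + s • n i0 ∈ K := by
      intro s h1 h2
      refine ⟨?_, fun j => ?_⟩
      · refine (norm_add_le _ _).trans ?_
        rw [norm_smul, hn.unit, mul_one, Real.norm_of_nonneg (by linarith)]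
        linarith
      · rw [inner_add_right, inner_smul_right]
        have h3 := hn.ip j i0
        have h4 := hx.1.2 j
        nlinarith
    have h1 := hmem (1 / 4) (by norm_num) (by norm_num)
    have h2 := hmem (1 / 2) (by norm_num) (by norm_num)
    have h3 := hconc.2 hx.1 (hKO h2) (show (0 : ℝ) ≤ 1 / 2 by norm_num) (show (0 : ℝ) ≤ 1 / 2 by norm_num)
      (by norm_num)
    have e : (1 / 2 : ℝ) • x + (1 / 2 : ℝ) • (x + (1 / 2 : ℝ) • n i0) = x + (1 / 4 : ℝ) • n i0 := by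
      rw [smul_add, smul_smul, ← add_assoc, ← add_smul]
      norm_num
    rw [e] at h3
    simp only [smul_eq_mul] at h3
    have h4 := (hC0' _ h1).1
    have h5 := (hC0' _ h2).2
    have h3' : 1 / 2 * v x + 1 / 2 * v (x + (1 / 2 : ℝ) • n i0) ≤ v (x + (1 / 4 : ℝ) • n i0) := h3
    linarith
  refine ⟨4 / c0 * (4 * |C| + α / 2), by positivity, fun x hx y hy => ?_⟩
  rcases eq_or_ne x y with hxy | hxy
  · rw [hxy]; simp
  set h := ‖y - x‖ with hh
  have hh0 : 0 < h := norm_pos_iff.2 (sub_ne_zero.2 hxy.symm)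
  obtain ⟨i, hi⟩ := near_face hn w hu hconc hx.1
  set q := x + (1 / 2 : ℝ) • n i - (c0 / (4 * h)) • (y - x) with hq
  have hqn : ‖(c0 / (4 * h)) • (y - x)‖ = c0 / 4 := by
    rw [norm_smul, Real.norm_of_nonneg (by positivity), ← hh]
    field_simp
  have hqK : q ∈ K := by
    have hxn := mem_ball_zero_iff.1 hx.2
    refine ⟨?_, fun j => ?_⟩
    · rw [hq]
      refine (norm_sub_le _ _).trans ?_
      rw [hqn]
      have : ‖x + (1 / 2 : ℝ) • n i‖ ≤ 1 / 8 + 1 / 2 := by
        refine (norm_add_le _ _).trans ?_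
        rw [norm_smul, hn.unit, mul_one, Real.norm_of_nonneg (by norm_num)]
        linarith
      linarith
    · rw [hq, inner_sub_right, inner_add_right, inner_smul_right]
      have h3 := hn.ip j i
      have h4 := hx.1.2 j
      have h5 : inner ℝ (n j) ((c0 / (4 * h)) • (y - x)) ≤ c0 / 4 := by
        refine (real_inner_le_norm _ _).trans ?_
        rw [hqn, hn.unit, one_mul]
      linarith
  set θ := h / (h + c0 / 4) with hθ
  have hden : 0 < h + c0 / 4 := by positivity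
  have hθ0 : 0 < θ := by positivity
  have hθ1 : 0 < 1 - θ := by
    have : 1 - θ = (c0 / 4) / (h + c0 / 4) := by rw [hθ]; field_simp; ring
    rw [this]; positivity
  have hp : (1 - θ) • y + θ • q = x + (θ / 2) • n i := by
    have e1 : θ * (c0 / (4 * h)) = 1 - θ := by rw [hθ]; field_simp; ring
    rw [hq, smul_sub, smul_add, smul_smul, smul_smul, e1, smul_sub]
    have : θ * (1 / 2) = θ / 2 := by ring
    rw [this]
    have e2 : θ • x + (1 - θ) • x = x := by rw [← add_smul]; simp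
    calc (1 - θ) • y + (θ • x + (θ / 2) • n i - ((1 - θ) • y - (1 - θ) • x))
        = (θ • x + (1 - θ) • x) + (θ / 2) • n i := by abel
      _ = _ := by rw [e2]
  have hcv := hconc.2 hy.1 (hKO hqK) hθ1.le hθ0.le (by ring)
  have hpO := hconc.1 hy.1 (hKO hqK) hθ1.le hθ0.le (by ring)
  rw [hp] at hcv hpO
  simp only [smul_eq_mul] at hcv
  have h6 := hi (θ / 2) (by positivity) hpO
  have h7 := hup x hx
  have h8 := (hC0' q hqK).2
  have h9 : C ≤ |C| := le_abs_self C
  have hcv' : (1 - θ) * v y + θ * v q ≤ v (x + (θ / 2) • n i) := hcv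
  have h6' : v (x + (θ / 2) • n i) - v x ≤ α * (θ / 2) := h6
  have h10 : (1 - θ) * (v y - v x) ≤ θ * (4 * |C| + α / 2) := by
    have h11 : (1 - θ) * (v y - v x) ≤ θ * (v x - v q + α / 2) := by nlinarith
    refine h11.trans (mul_le_mul_of_nonneg_left ?_ hθ0.le)
    linarith
  have h12 : θ = (1 - θ) * (4 / c0 * h) := by
    rw [hθ]; field_simp; ring
  have h13 : (1 - θ) * (v y - v x) ≤ (1 - θ) * (4 / c0 * (4 * |C| + α / 2) * h) := by
    refine h10.trans (le_of_eq ?_)
    calc θ * (4 * |C| + α / 2) = ((1 - θ) * (4 / c0 * h)) * (4 * |C| + α / 2) := by rw [← h12]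
      _ = _ := by ring
  exact le_of_mul_le_mul_left h13 hθ1

/-- Lipschitz extension of `log u` near the vertex -/
theorem exists_g (hn : Nrm n c0) (w : WS n α lam u G T φ) (hu : ∀ x ∈ Om n, 0 < u x)
    (hconc : ConcaveOn ℝ (Om n) (fun x => Real.log (u x))) :
    ∃ (M : ℝ≥0) (g : E (m + 1) → ℝ), LipschitzWith M g ∧
      (∀ x ∈ Om n ∩ ball 0 (1 / 8), Real.log (u x) = g x) ∧
      ConcaveOn ℝ (closure (Om n ∩ ball 0 (1 / 8))) g := by
  obtain ⟨M, hM, h⟩ := lip_log hn w hu hconc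
  have hl : LipschitzOnWith ⟨M, hM⟩ (fun x => Real.log (u x)) (Om n ∩ ball 0 (1 / 8)) := by
    refine LipschitzOnWith.of_dist_le_mul fun x hx y hy => ?_
    rw [Real.dist_eq, dist_eq_norm]
    refine abs_le.2 ⟨?_, ?_⟩
    · have := h x hx y hy
      rw [norm_sub_rev] at this
      show -(M * ‖x - y‖) ≤ _
      linarith
    · exact h y hy x hx
  obtain ⟨g, hg, hgeq⟩ := hl.extend_real
  refine ⟨⟨M, hM⟩, g, hg, fun x hx => hgeq hx, ?_⟩
  have hconv : Convex ℝ (Om n ∩ ball 0 (1 / 8)) := (Om_convex n).inter (convex_ball _ _)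
  refine ⟨hconv.closure, fun x hx y hy a b ha hb hab => ?_⟩
  have hcl : IsClosed {p : E (m + 1) × E (m + 1) | a • g p.1 + b • g p.2 ≤ g (a • p.1 + b • p.2)} :=
    isClosed_le (((hg.continuous.comp continuous_fst).const_smul a).add
      ((hg.continuous.comp continuous_snd).const_smul b)) (hg.continuous.comp (by fun_prop))
  have hsub : (Om n ∩ ball 0 (1 / 8)) ×ˢ (Om n ∩ ball 0 (1 / 8)) ⊆
      {p : E (m + 1) × E (m + 1) | a • g p.1 + b • g p.2 ≤ g (a • p.1 + b • p.2)} := by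
    rintro ⟨p, q⟩ ⟨hp, hq⟩
    show a • g p + b • g q ≤ g (a • p + b • q)
    rw [← hgeq hp, ← hgeq hq, ← hgeq (hconv hp hq ha hb hab)]
    exact hconc.2 hp.1 hq.1 ha hb hab
  have h2 := closure_minimal hsub hcl
  rw [closure_prod_eq] at h2
  exact h2 (mk_mem_prod hx hy)

end

end Pool.Agent.W794.Rob
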