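import Pool.Agent.W794.Rob10

set_option autoImplicit false
set_option linter.all false

open MeasureTheory Set Metric Filter Topology
open scoped ENNReal NNReal
open Pool.Agent.Results.MP_ce9a4f_an.NoBoundState

namespace Pool.Agent.W794.Rob

/-- blow-up limits -/
structure Blow {m : ℕ} {ι : Type} (n : ι → E (m + 1)) (M : ℝ≥0) (g w : E (m + 1) → ℝ) : Prop where
  lip : LipschitzWith M g
  lim : ∀ y ∈ KK n, Tendsto (fun t : ℝ => (g (t • y) - g 0) / t) (𝓝[>] 0) (𝓝 (w y))
  wlip : ∀ x ∈ KK n, ∀ y ∈ KK n, |w x - w y| ≤ M * ‖x - y‖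
  hom : ∀ y ∈ KK n, ∀ c : ℝ, 0 < c → w (c • y) = c * w y
  conc : ConcaveOn ℝ (KK n) w

section
variable {m : ℕ} {ι : Type} [Fintype ι] [Nonempty ι] {n : ι → E (m + 1)} {c0 : ℝ}

theorem KK_smul {y : E (m + 1)} (hy : y ∈ KK n) {c : ℝ} (hc : 0 < c) : c • y ∈ KK n := by
  intro i
  rw [inner_smul_right]
  exact mul_pos hc (hy i)

theorem KK_add {x y : E (m + 1)} (hx : x ∈ KK n) (hy : y ∈ KK n) : x + y ∈ KK n := by
  intro i
  rw [inner_add_right]
  exact add_pos (hx i) (hy i)

theorem KK_small {y : E (m + 1)} (hy : y ∈ KK n) {t : ℝ} (ht : 0 < t) (h : t * ‖y‖ < 1 / 8) :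
    t • y ∈ Om n ∩ ball 0 (1 / 8) := by
  have h1 : ‖t • y‖ < 1 / 8 := by rw [norm_smul, Real.norm_of_nonneg ht.le]; exact h
  exact ⟨⟨by linarith, KK_smul hy ht⟩, mem_ball_zero_iff.2 h1⟩

theorem ev_small (y : E (m + 1)) {r : ℝ} (hr : 0 < r) : ∀ᶠ t : ℝ in 𝓝[>] 0, t * ‖y‖ < r := by
  have h1 : Tendsto (fun t : ℝ => t * ‖y‖) (𝓝[>] 0) (𝓝 (0 * ‖y‖)) :=
    ((continuous_id.mul continuous_const).tendsto 0).mono_left nhdsWithin_le_nhds
  rw [zero_mul] at h1
  exact h1.eventually (gt_mem_nhds hr)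

theorem exists_blow {M : ℝ≥0} {g : E (m + 1) → ℝ} (hg : LipschitzWith M g)
    (hc : ConcaveOn ℝ (closure (Om n ∩ ball 0 (1 / 8))) g) : ∃ w, Blow n M g w := by
  have hex : ∀ y ∈ KK n, ∃ l, Tendsto (fun t : ℝ => (g (t • y) - g 0) / t) (𝓝[>] 0) (𝓝 l) := by
    intro y hy
    set b : ℝ := 1 / (8 * (‖y‖ + 1)) with hb
    have hb0 : 0 < b := by positivity
    have hby : ∀ t, 0 < t → t ≤ b → t * ‖y‖ < 1 / 8 := by
      intro t ht htb
      have h1 : b * (‖y‖ + 1) = 1 / 8 := by rw [hb]; field_simp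
      nlinarith [norm_nonneg y]
    have h0 : (0 : E (m + 1)) ∈ closure (Om n ∩ ball 0 (1 / 8)) := by
      have h1 : Tendsto (fun t : ℝ => t • y) (𝓝[>] 0) (𝓝 ((0 : ℝ) • y)) :=
        ((continuous_id.smul continuous_const).tendsto 0).mono_left nhdsWithin_le_nhds
      rw [zero_smul] at h1
      refine mem_closure_of_tendsto h1 ?_
      filter_upwards [Ioo_mem_nhdsGT hb0] with t ht
      exact KK_small hy ht.1 (hby t ht.1 ht.2.le)
    have hanti : AntitoneOn (fun t : ℝ => (g (t • y) - g 0) / t) (Ioo 0 b) := by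
      intro s hs t ht hst
      rcases hst.eq_or_lt with h | h
      · rw [h]
      beta_reduce
      have ht0 := ht.1
      have h1 := hc.2 (subset_closure (KK_small hy ht.1 (hby t ht.1 ht.2.le))) h0
        (show 0 ≤ s / t from div_nonneg hs.1.le ht.1.le)
        (show 0 ≤ 1 - s / t from sub_nonneg.2 ((div_le_one ht.1).2 hst)) (by ring)
      have e : (s / t) • t • y + (1 - s / t) • (0 : E (m + 1)) = s • y := by
        rw [smul_zero, add_zero, smul_smul]
        congr 1
        field_simp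
      rw [e] at h1
      simp only [smul_eq_mul] at h1
      rw [div_le_div_iff₀ ht.1 hs.1]
      have h2 : s * (g (t • y) - g 0) ≤ t * (g (s • y) - g 0) := by
        have h3 : t * (s / t * g (t • y) + (1 - s / t) * g 0) ≤ t * g (s • y) :=
          mul_le_mul_of_nonneg_left h1 ht.1.le
        have h4 : t * (s / t * g (t • y) + (1 - s / t) * g 0) = s * g (t • y) + (t - s) * g 0 := by
          field_simp
        rw [h4] at h3
        linarith
      linarith
    have hbd : BddAbove ((fun t : ℝ => (g (t • y) - g 0) / t) '' Ioo 0 b) := by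
      refine ⟨M * ‖y‖, ?_⟩
      rintro _ ⟨t, ht, rfl⟩
      beta_reduce
      rw [div_le_iff₀ ht.1]
      have h1 := hg.dist_le_mul (t • y) 0
      rw [dist_zero_right, norm_smul, Real.norm_of_nonneg ht.1.le, Real.dist_eq] at h1
      calc g (t • y) - g 0 ≤ |g (t • y) - g 0| := le_abs_self _
        _ ≤ M * (t * ‖y‖) := h1
        _ = _ := by ring
    exact ⟨_, hanti.tendsto_nhdsWithin_Ioo_right (nonempty_Ioo.2 hb0) hbd⟩
  classical
  set w : E (m + 1) → ℝ := fun y => if h : y ∈ KK n then (hex y h).choose else 0 with hw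
  have hlim : ∀ y ∈ KK n, Tendsto (fun t : ℝ => (g (t • y) - g 0) / t) (𝓝[>] 0) (𝓝 (w y)) := by
    intro y hy
    rw [hw]
    simp only [dif_pos hy]
    exact (hex y hy).choose_spec
  refine ⟨w, hg, hlim, ?_, ?_, ?_⟩
  · intro x hx y hy
    have h1 := ((hlim x hx).sub (hlim y hy)).abs
    refine le_of_tendsto h1 ?_
    filter_upwards [self_mem_nhdsWithin] with t ht
    have ht0 : (0 : ℝ) < t := ht
    rw [← sub_div, abs_div, abs_of_pos ht0, div_le_iff₀ ht0]
    have h2 := hg.dist_le_mul (t • x) (t • y)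
    rw [Real.dist_eq, dist_eq_norm, ← smul_sub, norm_smul, Real.norm_of_nonneg ht0.le] at h2
    calc |g (t • x) - g 0 - (g (t • y) - g 0)| = |g (t • x) - g (t • y)| := by congr 1; ring
      _ ≤ M * (t * ‖x - y‖) := h2
      _ = _ := by ring
  · intro y hy c hc
    have h1 := hlim _ (KK_smul hy hc)
    have h2 : Tendsto (fun t : ℝ => t * c) (𝓝[>] 0) (𝓝[>] 0) := by
      refine tendsto_nhdsWithin_iff.2 ⟨?_, ?_⟩
      · have : Tendsto (fun t : ℝ => t * c) (𝓝[>] 0) (𝓝 (0 * c)) :=
          ((continuous_id.mul continuous_const).tendsto 0).mono_left nhdsWithin_le_nhds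
        rwa [zero_mul] at this
      · filter_upwards [self_mem_nhdsWithin] with t ht
        exact mul_pos ht hc
    have h3 := ((hlim y hy).comp h2).const_mul c
    refine tendsto_nhds_unique h1 (h3.congr' ?_)
    filter_upwards [self_mem_nhdsWithin] with t ht
    have ht0 : (0 : ℝ) < t := ht
    simp only [Function.comp]
    rw [smul_smul]
    field_simp
  · refine ⟨KK_convex n, fun x hx y hy a b ha hb hab => ?_⟩
    have h1 := hlim _ (KK_convex n hx hy ha hb hab)
    have h2 := ((hlim x hx).const_mul a).add ((hlim y hy).const_mul b)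
    refine le_of_tendsto_of_tendsto h2 h1 ?_
    filter_upwards [self_mem_nhdsWithin, ev_small x (by norm_num : (0 : ℝ) < 1 / 8),
      ev_small y (by norm_num : (0 : ℝ) < 1 / 8)] with t ht h3 h4
    have ht0 : (0 : ℝ) < t := ht
    have h5 := hc.2 (subset_closure (KK_small hx ht0 h3)) (subset_closure (KK_small hy ht0 h4)) ha hb hab
    simp only [smul_eq_mul] at h5
    have e : a • t • x + b • t • y = t • (a • x + b • y) := by
      rw [smul_add, smul_comm a t, smul_comm b t]
    rw [e] at h5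
    rw [← mul_div_assoc, ← mul_div_assoc, ← add_div]
    refine div_le_div_of_nonneg_right ?_ ht0.le
    have : a * (g (t • x) - g 0) + b * (g (t • y) - g 0) = a * g (t • x) + b * g (t • y) - (a + b) * g 0 := by
      ring
    rw [this, hab, one_mul]
    linarith

/-- blow up of `exp g` -/
theorem blow_exp {M : ℝ≥0} {g w : E (m + 1) → ℝ} (hB : Blow n M g w) {y : E (m + 1)} (hy : y ∈ KK n) :
    Tendsto (fun t : ℝ => (Real.exp (g (t • y)) - Real.exp (g 0)) / t) (𝓝[>] 0)
      (𝓝 (Real.exp (g 0) * w y)) := by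
  have h1 : HasDerivWithinAt (fun t : ℝ => g (t • y)) (w y) (Ioi 0) 0 := by
    rw [hasDerivWithinAt_iff_tendsto_slope' (by simp)]
    refine (hB.lim y hy).congr fun t => ?_
    rw [slope_def_field, zero_smul, sub_zero]
  have h2 := h1.exp
  rw [hasDerivWithinAt_iff_tendsto_slope' (by simp), zero_smul] at h2
  refine h2.congr fun t => ?_
  rw [slope_def_field, zero_smul, sub_zero]

theorem exp_bd {M : ℝ≥0} {g : E (m + 1) → ℝ} (hg : LipschitzWith M g) {x : E (m + 1)}
    (hx : M * ‖x‖ ≤ 1) : |Real.exp (g x) - Real.exp (g 0)| ≤ Real.exp (g 0) * (2 * (M * ‖x‖)) := by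
  have h1 := hg.dist_le_mul x 0
  rw [dist_zero_right, Real.dist_eq] at h1
  have e : Real.exp (g x) - Real.exp (g 0) = Real.exp (g 0) * (Real.exp (g x - g 0) - 1) := by
    rw [mul_sub, ← Real.exp_add]; ring_nf
  rw [e, abs_mul, abs_of_pos (Real.exp_pos _)]
  refine mul_le_mul_of_nonneg_left ?_ (Real.exp_pos _).le
  refine (Real.abs_exp_sub_one_le (h1.trans hx)).trans ?_
  linarith

end

end Pool.Agent.W794.Rob
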