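import Pool.Agent.W794.Rob11

set_option autoImplicit false
set_option linter.all false

open MeasureTheory Set Metric Filter Topology
open scoped ENNReal NNReal
open Pool.Agent.Results.MP_ce9a4f_an.NoBoundState

namespace Pool.Agent.W794.Rob

theorem pos_sq_deriv (s : ℝ) : HasDerivAt (fun s : ℝ => (max s 0) ^ 2) (2 * max s 0) s := by
  rcases lt_trichotomy s 0 with h | h | h
  · rw [max_eq_right h.le]
    have h1 : HasDerivAt (fun _ : ℝ => (0 : ℝ)) (2 * 0) s := by simpa using hasDerivAt_const s (0 : ℝ)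
    refine h1.congr_of_eventuallyEq ?_
    filter_upwards [gt_mem_nhds h] with x hx
    rw [max_eq_right hx.le]; norm_num
  · subst h
    rw [hasDerivAt_iff_tendsto_slope]
    have h1 : Tendsto (fun s : ℝ => max s 0) (𝓝[≠] 0) (𝓝 (max 0 0)) :=
      ((continuous_id.max continuous_const).tendsto 0).mono_left nhdsWithin_le_nhds
    have h2 : (2 * max (0 : ℝ) 0) = max 0 0 := by simp
    rw [h2]
    refine h1.congr' ?_
    filter_upwards [self_mem_nhdsWithin] with s hs
    have hs' : s ≠ 0 := hs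
    rw [slope_def_field]
    simp only [max_self]
    rcases lt_or_gt_of_ne hs' with h | h
    · rw [max_eq_right h.le]; simp
    · rw [max_eq_left h.le]; field_simp; ring
  · rw [max_eq_left h.le]
    have h1 : HasDerivAt (fun s : ℝ => s ^ 2) (2 * s) s := by simpa using hasDerivAt_pow 2 s
    refine h1.congr_of_eventuallyEq ?_
    filter_upwards [lt_mem_nhds h] with x hx
    rw [max_eq_left hx.le]

theorem pos_cube_deriv (s : ℝ) : HasDerivAt (fun s : ℝ => (max s 0) ^ 3) (3 * (max s 0) ^ 2) s := by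
  have h1 := (hasDerivAt_id s).mul (pos_sq_deriv s)
  have e1 : (id * fun s : ℝ => (max s 0) ^ 2) = fun s : ℝ => (max s 0) ^ 3 := by
    funext s
    simp only [Pi.mul_apply, id]
    rcases le_or_gt s 0 with h | h
    · rw [max_eq_right h]; ring
    · rw [max_eq_left h.le]; ring
  rw [e1] at h1
  refine h1.congr_deriv ?_
  simp only [id]
  rcases le_or_gt s 0 with h | h
  · rw [max_eq_right h]; ring
  · rw [max_eq_left h.le]; ring

section
variable {m : ℕ}

noncomputable def qq (c : ℝ) (y : E (m + 1)) : ℝ := (max (c ^ 2 - ‖y‖ ^ 2) 0) ^ 2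
noncomputable def PP (c : ℝ) (y : E (m + 1)) : ℝ := (max (c ^ 2 - ‖y‖ ^ 2) 0) ^ 3
noncomputable def dq (c : ℝ) (y : E (m + 1)) : ℝ :=
  -4 * ‖y‖ ^ 2 * max (c ^ 2 - ‖y‖ ^ 2) 0 + (m + 1) * (max (c ^ 2 - ‖y‖ ^ 2) 0) ^ 2

theorem nsq_deriv (c : ℝ) (y : E (m + 1)) :
    HasFDerivAt (fun y : E (m + 1) => c ^ 2 - ‖y‖ ^ 2) ((-2 : ℝ) • innerSL ℝ y) y := by
  refine ((hasStrictFDerivAt_norm_sq y).hasFDerivAt.const_sub (c ^ 2)).congr_fderiv ?_
  ext v
  simp

theorem qq_deriv (c : ℝ) (y : E (m + 1)) :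
    HasFDerivAt (qq c) ((2 * max (c ^ 2 - ‖y‖ ^ 2) 0) • ((-2 : ℝ) • innerSL ℝ y)) y :=
  (pos_sq_deriv _).comp_hasFDerivAt y (nsq_deriv c y)

theorem PP_deriv (c : ℝ) (y : E (m + 1)) :
    HasFDerivAt (PP c) ((3 * (max (c ^ 2 - ‖y‖ ^ 2) 0) ^ 2) • ((-2 : ℝ) • innerSL ℝ y)) y :=
  (pos_cube_deriv _).comp_hasFDerivAt y (nsq_deriv c y)

theorem qq_c1 (c : ℝ) : ContDiff ℝ 1 (qq c : E (m + 1) → ℝ) := by
  rw [contDiff_one_iff_fderiv]
  refine ⟨fun y => (qq_deriv c y).differentiableAt, ?_⟩
  have : fderiv ℝ (qq c : E (m + 1) → ℝ) =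
      fun y => (2 * max (c ^ 2 - ‖y‖ ^ 2) 0) • ((-2 : ℝ) • innerSL ℝ y) := by
    funext y; exact (qq_deriv c y).fderiv
  rw [this]
  have h1 : Continuous fun y : E (m + 1) => (2 * max (c ^ 2 - ‖y‖ ^ 2) 0 : ℝ) := by fun_prop
  have h2 : Continuous fun y : E (m + 1) => innerSL ℝ y := (innerSL ℝ).continuous
  exact h1.smul (h2.const_smul (-2 : ℝ))

theorem PP_c1 (c : ℝ) : ContDiff ℝ 1 (PP c : E (m + 1) → ℝ) := by
  rw [contDiff_one_iff_fderiv]
  refine ⟨fun y => (PP_deriv c y).differentiableAt, ?_⟩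
  have : fderiv ℝ (PP c : E (m + 1) → ℝ) =
      fun y => (3 * (max (c ^ 2 - ‖y‖ ^ 2) 0) ^ 2) • ((-2 : ℝ) • innerSL ℝ y) := by
    funext y; exact (PP_deriv c y).fderiv
  rw [this]
  have h1 : Continuous fun y : E (m + 1) => (3 * (max (c ^ 2 - ‖y‖ ^ 2) 0) ^ 2 : ℝ) := by fun_prop
  have h2 : Continuous fun y : E (m + 1) => innerSL ℝ y := (innerSL ℝ).continuous
  exact h1.smul (h2.const_smul (-2 : ℝ))

theorem mx_zero {c : ℝ} (hc : 0 < c) {y : E (m + 1)} (hy : y ∉ closedBall (0 : E (m + 1)) c) :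
    max (c ^ 2 - ‖y‖ ^ 2) 0 = 0 := by
  rw [mem_closedBall_zero_iff, not_le] at hy
  rw [max_eq_right]
  nlinarith

theorem qq_zero {c : ℝ} (hc : 0 < c) {y : E (m + 1)} (hy : y ∉ closedBall (0 : E (m + 1)) c) :
    qq c y = 0 := by rw [qq, mx_zero hc hy]; norm_num
theorem PP_zero {c : ℝ} (hc : 0 < c) {y : E (m + 1)} (hy : y ∉ closedBall (0 : E (m + 1)) c) :
    PP c y = 0 := by rw [PP, mx_zero hc hy]; norm_num
theorem dq_zero {c : ℝ} (hc : 0 < c) {y : E (m + 1)} (hy : y ∉ closedBall (0 : E (m + 1)) c) :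
    dq c y = 0 := by rw [dq, mx_zero hc hy]; norm_num

theorem qq_cs {c : ℝ} (hc : 0 < c) : HasCompactSupport (qq c : E (m + 1) → ℝ) :=
  HasCompactSupport.intro (isCompact_closedBall 0 c) fun y hy => qq_zero hc hy
theorem PP_cs {c : ℝ} (hc : 0 < c) : HasCompactSupport (PP c : E (m + 1) → ℝ) :=
  HasCompactSupport.intro (isCompact_closedBall 0 c) fun y hy => PP_zero hc hy
theorem dq_cs {c : ℝ} (hc : 0 < c) : HasCompactSupport (dq c : E (m + 1) → ℝ) :=
  HasCompactSupport.intro (isCompact_closedBall 0 c) fun y hy => dq_zero hc hy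
theorem dq_cont (c : ℝ) : Continuous (dq c : E (m + 1) → ℝ) := by unfold dq; fun_prop
theorem qq_cont (c : ℝ) : Continuous (qq c : E (m + 1) → ℝ) := by unfold qq; fun_prop
theorem PP_cont (c : ℝ) : Continuous (PP c : E (m + 1) → ℝ) := by unfold PP; fun_prop

theorem dq_eq (c : ℝ) (y : E (m + 1)) : fderiv ℝ (qq c) y y + (m + 1) * qq c y = dq c y := by
  rw [(qq_deriv c y).fderiv, dq, qq]
  simp [real_inner_self_eq_norm_sq]
  ring

theorem PP_grad (c : ℝ) (z x : E (m + 1)) :
    gradient (fun x => PP c (x - z)) x = (-6 : ℝ) • (qq c (x - z) • (x - z)) := by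
  have h1 : HasFDerivAt (fun x : E (m + 1) => x - z) (ContinuousLinearMap.id ℝ _) x :=
    (hasFDerivAt_id x).sub_const z
  have h2 : HasFDerivAt (fun x => PP c (x - z))
      (((3 * (max (c ^ 2 - ‖x - z‖ ^ 2) 0) ^ 2) • ((-2 : ℝ) • innerSL ℝ (x - z))).comp
        (ContinuousLinearMap.id ℝ (E (m + 1)))) x :=
    HasFDerivAt.comp (f := fun x : E (m + 1) => x - z) x (PP_deriv c (x - z)) h1
  rw [gradient, h2.fderiv]
  apply (InnerProductSpace.toDual ℝ (E (m + 1))).injective
  rw [LinearIsometryEquiv.apply_symm_apply]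
  ext v
  simp [qq, inner_smul_left]
  ring

theorem PP_z (c : ℝ) (z : E (m + 1)) : ContDiff ℝ 1 (fun x => PP c (x - z)) :=
  (PP_c1 c).comp (by fun_prop)

/-- Euler identity centred at `z` -/
theorem euler_z {c : ℝ} (hc : 0 < c) (z : E (m + 1)) {f : E (m + 1) → ℝ} (hf : ContDiff ℝ 1 f) :
    ∫ x, (inner ℝ (gradient f x) (qq c (x - z) • (x - z)) + f x * dq c (x - z)) = 0 := by
  set h : E (m + 1) → ℝ := fun y => f (y + z) * qq c y with hh
  have hfz : ContDiff ℝ 1 (fun y => f (y + z)) := hf.comp (by fun_prop)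
  have h1 : ContDiff ℝ 1 h := hfz.mul (qq_c1 c)
  have h2 : HasCompactSupport h := (qq_cs hc).mul_left
  have h3 := integral_euler h1 h2
  have h4 : ∀ y, fderiv ℝ h y y + ((m + 1 : ℕ) : ℝ) * h y =
      inner ℝ (gradient f (y + z)) (qq c y • y) + f (y + z) * dq c y := by
    intro y
    have d1 : HasFDerivAt (fun y => f (y + z)) (fderiv ℝ f (y + z)) y := by
      have : HasFDerivAt (fun y : E (m + 1) => y + z) (ContinuousLinearMap.id ℝ _) y :=
        (hasFDerivAt_id y).add_const z
      exact ((hf.differentiable (by norm_num) (y + z)).hasFDerivAt).comp y this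
    have d2 := d1.fun_mul (qq_deriv c y)
    rw [inner_smul_right, gradient_inner, ← dq_eq, (qq_deriv c y).fderiv, hh]
    rw [show (fun y => f (y + z) * qq c y) = fun y => f (y + z) * qq c y from rfl, d2.fderiv]
    push_cast
    simp
    ring
  simp only [h4] at h3
  have h5 := integral_sub_right_eq_self (μ := (volume : Measure (E (m + 1))))
    (fun y => inner ℝ (gradient f (y + z)) (qq c y • y) + f (y + z) * dq c y) z
  rw [h3] at h5
  rw [← h5]
  refine integral_congr_ae (Filter.Eventually.of_forall fun x => ?_)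
  beta_reduce
  rw [sub_add_cancel]

theorem dq_int {c : ℝ} (hc : 0 < c) (z : E (m + 1)) : ∫ x, dq c (x - z) = 0 := by
  have h := euler_z hc z (f := fun _ => (1 : ℝ)) contDiff_const
  simp [gradient] at h
  exact h

end

section
variable {m : ℕ} {ι : Type} [Fintype ι] {n : ι → E (m + 1)} {c0 : ℝ}
  {α lam : ℝ} {u : E (m + 1) → ℝ} {G : E (m + 1) → E (m + 1)} {T : E (m + 1) → ℝ}
  {φ : ℕ → E (m + 1) → ℝ}

/-- interior identity -/
theorem ball_id (w : WS n α lam u G T φ) {c : ℝ} (hc : 0 < c) {z : E (m + 1)}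
    (hz : closedBall z c ⊆ Om n) :
    6 * ∫ x in Om n, u x * dq c (x - z) = lam * ∫ x in Om n, u x * PP c (x - z) := by
  have hOm := (Om_open n).measurableSet
  have hout : ∀ x, x ∉ Om n → x - z ∉ closedBall (0 : E (m + 1)) c := by
    intro x hx h
    apply hx
    apply hz
    rwa [mem_closedBall_zero_iff, ← dist_eq_norm, ← mem_closedBall] at h
  have hdqc : HasCompactSupport (fun x : E (m + 1) => dq c (x - z)) := by
    refine HasCompactSupport.intro (isCompact_closedBall z c) fun x hx => dq_zero hc fun h => hx ?_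
    rwa [mem_closedBall_zero_iff, ← dist_eq_norm, ← mem_closedBall] at h
  have hqqc : HasCompactSupport (fun x : E (m + 1) => qq c (x - z)) := by
    refine HasCompactSupport.intro (isCompact_closedBall z c) fun x hx => qq_zero hc fun h => hx ?_
    rwa [mem_closedBall_zero_iff, ← dist_eq_norm, ← mem_closedBall] at h
  have hPPc : HasCompactSupport (fun x : E (m + 1) => PP c (x - z)) := by
    refine HasCompactSupport.intro (isCompact_closedBall z c) fun x hx => PP_zero hc fun h => hx ?_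
    rwa [mem_closedBall_zero_iff, ← dist_eq_norm, ← mem_closedBall] at h
  have hPPt : tsupport (fun x : E (m + 1) => PP c (x - z)) ⊆ closedBall z c := by
    refine closure_minimal (fun x hx => ?_) isClosed_closedBall
    by_contra h
    apply hx
    refine PP_zero hc fun h' => h ?_
    rwa [mem_closedBall_zero_iff, ← dist_eq_norm, ← mem_closedBall] at h'
  have cd : Continuous (fun x : E (m + 1) => dq c (x - z)) := (dq_cont c).comp (by fun_prop)
  have cq : Continuous (fun x : E (m + 1) => qq c (x - z)) := (qq_cont c).comp (by fun_prop)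
  have cv : Continuous (fun x : E (m + 1) => qq c (x - z) • (x - z)) := cq.smul (by fun_prop)
  have hvL : MemLp (fun x : E (m + 1) => qq c (x - z) • (x - z)) 2 (volume.restrict (Om n)) :=
    (cv.memLp_of_hasCompactSupport hqqc.smul_right).restrict _
  have hdL : MemLp (fun x : E (m + 1) => dq c (x - z)) 2 (volume.restrict (Om n)) :=
    fn_memLp cd hdqc _
  have hk : ∀ k, ∫ x in Om n, inner ℝ (gradient (φ k) x) (qq c (x - z) • (x - z)) =
      - ∫ x in Om n, φ k x * dq c (x - z) := by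
    intro k
    have h1 := euler_z hc z (w.φ1 k)
    have hgc : Continuous (gradient (φ k)) := continuous_gradient (w.φ1 k)
    rw [integral_add] at h1
    · rw [setIntegral_eq_integral_of_forall_compl_eq_zero, setIntegral_eq_integral_of_forall_compl_eq_zero]
      · linarith
      · intro x hx
        rw [dq_zero hc (hout x hx), mul_zero]
      · intro x hx
        rw [qq_zero hc (hout x hx), zero_smul, inner_zero_right]
    · have hcs : HasCompactSupport (fun x => inner ℝ (gradient (φ k) x) (qq c (x - z) • (x - z))) := by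
        refine HasCompactSupport.intro hqqc.isCompact fun x hx => ?_
        have := image_eq_zero_of_notMem_tsupport hx
        beta_reduce at this
        rw [this, zero_smul, inner_zero_right]
      exact (hgc.inner cv).integrable_of_hasCompactSupport hcs
    · exact ((w.φ1 k).continuous.mul cd).integrable_of_hasCompactSupport hdqc.mul_left
  have l1 : Tendsto (fun k => ∫ x in Om n, inner ℝ (gradient (φ k) x) (qq c (x - z) • (x - z))) atTop
      (𝓝 (∫ x in Om n, inner ℝ (G x) (qq c (x - z) • (x - z)))) := by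
    have h2 := lim_prod (f := fun k => gradient (φ k)) (w := fun _ _ => (1 : ℝ)) (w0 := fun _ => (1 : ℝ))
      (C := 1) (fun k => gradient_memLp (w.φ1 k) (w.φ2 k) (Om n)) w.mG hvL w.cG
      (fun _ => aestronglyMeasurable_const) (fun _ _ => by simp)
      (Filter.Eventually.of_forall fun x => tendsto_const_nhds)
    simpa using h2
  have l2 : Tendsto (fun k => ∫ x in Om n, φ k x * dq c (x - z)) atTop
      (𝓝 (∫ x in Om n, u x * dq c (x - z))) := by
    refine l2_mul (g := fun _ x => dq c (x - z)) (fun k => fn_memLp (w.φ1 k).continuous (w.φ2 k) _) w.mu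
      (fun _ => hdL) hdL w.cu ?_
    have : ((fun x : E (m + 1) => dq c (x - z)) - fun x => dq c (x - z)) = 0 := sub_self _
    simp [this]
  have h3 := tendsto_nhds_unique (l1.congr hk) l2.neg
  have h4 := w.we (fun x => PP c (x - z)) (PP_z c z) hPPc ?_
  · have e1 : ∫ x in frontier (Om n), T x * PP c (x - z) ∂(surfaceMeasure m) = 0 := by
      refine setIntegral_eq_zero_of_forall_eq_zero fun x hx => ?_
      rw [frontier, (Om_open n).interior_eq] at hx
      rw [PP_zero hc (hout x hx.2), mul_zero]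
    rw [e1, mul_zero, add_zero] at h4
    simp only [PP_grad] at h4
    have e2 : ∀ x, inner ℝ (G x) ((-6 : ℝ) • (qq c (x - z) • (x - z))) =
        (-6 : ℝ) * inner ℝ (G x) (qq c (x - z) • (x - z)) := fun x => inner_smul_right _ _ _
    simp only [e2] at h4
    rw [integral_const_mul, h3] at h4
    linarith
  · refine hPPt.trans (hz.trans ?_)
    rw [Om_eq]; exact inter_subset_left

end

end Pool.Agent.W794.Rob
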