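import Pool.Agent.W794.Rob12

set_option autoImplicit false
set_option linter.all false

open MeasureTheory Set Metric Filter Topology
open scoped ENNReal NNReal
open Pool.Agent.Results.MP_ce9a4f_an.NoBoundState

namespace Pool.Agent.W794.Rob

section
variable {m : ℕ}

theorem mx_scale {t c : ℝ} (ht : 0 < t) (v : E (m + 1)) :
    max ((t * c) ^ 2 - ‖t • v‖ ^ 2) 0 = t ^ 2 * max (c ^ 2 - ‖v‖ ^ 2) 0 := by
  rw [norm_smul, Real.norm_of_nonneg ht.le]
  have h : (t * c) ^ 2 - (t * ‖v‖) ^ 2 = t ^ 2 * (c ^ 2 - ‖v‖ ^ 2) := by ring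
  rw [h, mul_max_of_nonneg _ _ (by positivity), mul_zero]

theorem dq_scale {t c : ℝ} (ht : 0 < t) (v : E (m + 1)) : dq (t * c) (t • v) = t ^ 4 * dq c v := by
  rw [dq, mx_scale ht, dq, norm_smul, Real.norm_of_nonneg ht.le]
  ring

theorem PP_scale {t c : ℝ} (ht : 0 < t) (v : E (m + 1)) : PP (t * c) (t • v) = t ^ 6 * PP c v := by
  rw [PP, mx_scale ht, PP]
  ring

end

section
variable {m : ℕ} {ι : Type} [Fintype ι] [Nonempty ι] {n : ι → E (m + 1)} {c0 : ℝ}
  {α lam : ℝ} {u : E (m + 1) → ℝ} {G : E (m + 1) → E (m + 1)} {T : E (m + 1) → ℝ}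
  {φ : ℕ → E (m + 1) → ℝ}

theorem blow_ball (w : WS n α lam u G T φ) (hu : ∀ x ∈ Om n, 0 < u x) {M : ℝ≥0}
    {g W : E (m + 1) → ℝ} (hB : Blow n M g W) (hg : ∀ x ∈ Om n ∩ ball 0 (1 / 8), Real.log (u x) = g x)
    {c : ℝ} (hc : 0 < c) {z : E (m + 1)} (hz : closedBall z c ⊆ KK n) :
    ∫ x in closedBall z c, W x * dq c (x - z) = 0 := by
  have hgc : Continuous g := hB.lip.continuous
  set U : E (m + 1) → ℝ := fun x => Real.exp (g x) with hU
  have hUc : Continuous U := Real.continuous_exp.comp hgc
  have huU : ∀ x ∈ Om n ∩ ball 0 (1 / 8), u x = U x := by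
    intro x hx
    rw [hU]
    beta_reduce
    rw [← hg x hx, Real.exp_log (hu x hx.1)]
  set R := ‖z‖ + c with hR
  have hR0 : 0 < R := by positivity
  have hzR : ∀ y ∈ closedBall z c, ‖y‖ ≤ R := by
    intro y hy
    rw [mem_closedBall, dist_eq_norm] at hy
    calc ‖y‖ = ‖z + (y - z)‖ := by congr 1; abel
      _ ≤ ‖z‖ + ‖y - z‖ := norm_add_le _ _
      _ ≤ _ := by linarith
  have hmem0 : ∀ (r : ℝ) (a x : E (m + 1)), x ∉ closedBall a r → x - a ∉ closedBall (0 : E (m + 1)) r := by
    intro r a x hx h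
    apply hx
    rwa [mem_closedBall_zero_iff, ← dist_eq_norm, ← mem_closedBall] at h
  have hdqc : HasCompactSupport (fun x : E (m + 1) => dq c (x - z)) :=
    HasCompactSupport.intro (isCompact_closedBall z c) fun x hx => dq_zero hc (hmem0 _ _ _ hx)
  have hPPc : HasCompactSupport (fun x : E (m + 1) => PP c (x - z)) :=
    HasCompactSupport.intro (isCompact_closedBall z c) fun x hx => PP_zero hc (hmem0 _ _ _ hx)
  have cd : Continuous (fun x : E (m + 1) => dq c (x - z)) := (dq_cont c).comp (by fun_prop)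
  have cP : Continuous (fun x : E (m + 1) => PP c (x - z)) := (PP_cont c).comp (by fun_prop)
  -- the identity at scale t
  have hscale : ∀ t : ℝ, 0 < t → t * R < 1 / 8 →
      6 * ∫ y, U (t • y) * dq c (y - z) = lam * (t ^ 2 * ∫ y, U (t • y) * PP c (y - z)) := by
    intro t ht htR
    have hsub : closedBall (t • z) (t * c) ⊆ Om n ∩ ball 0 (1 / 8) := by
      intro x hx
      have e : x = t • (t⁻¹ • x) := by rw [smul_smul, mul_inv_cancel₀ ht.ne', one_smul]
      have h1 : t⁻¹ • x ∈ closedBall z c := by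
        rw [mem_closedBall, dist_eq_norm] at hx ⊢
        have h2 : t⁻¹ • x - z = t⁻¹ • (x - t • z) := by
          rw [smul_sub, smul_smul, inv_mul_cancel₀ ht.ne', one_smul]
        rw [h2, norm_smul, Real.norm_of_nonneg (inv_nonneg.2 ht.le), inv_mul_le_iff₀ ht]
        exact hx
      rw [e]
      refine KK_small (hz h1) ht ?_
      exact lt_of_le_of_lt (mul_le_mul_of_nonneg_left (hzR _ h1) ht.le) htR
    have hid := ball_id w (mul_pos ht hc) (hsub.trans inter_subset_left)
    have htc := mul_pos ht hc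
    have e1 : ∫ x in Om n, u x * dq (t * c) (x - t • z) = ∫ x, U x * dq (t * c) (x - t • z) := by
      rw [← setIntegral_eq_integral_of_forall_compl_eq_zero (s := Om n)
        (f := fun x => U x * dq (t * c) (x - t • z))]
      · refine setIntegral_congr_fun (Om_open n).measurableSet fun x hx => ?_
        beta_reduce
        by_cases hx' : x ∈ closedBall (t • z) (t * c)
        · rw [huU x (hsub hx')]
        · rw [dq_zero htc (hmem0 _ _ _ hx'), mul_zero, mul_zero]
      · intro x hx
        rw [dq_zero htc (hmem0 _ _ _ fun h => hx (hsub h).1), mul_zero]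
    have e2 : ∫ x in Om n, u x * PP (t * c) (x - t • z) = ∫ x, U x * PP (t * c) (x - t • z) := by
      rw [← setIntegral_eq_integral_of_forall_compl_eq_zero (s := Om n)
        (f := fun x => U x * PP (t * c) (x - t • z))]
      · refine setIntegral_congr_fun (Om_open n).measurableSet fun x hx => ?_
        beta_reduce
        by_cases hx' : x ∈ closedBall (t • z) (t * c)
        · rw [huU x (hsub hx')]
        · rw [PP_zero htc (hmem0 _ _ _ hx'), mul_zero, mul_zero]
      · intro x hx
        rw [PP_zero htc (hmem0 _ _ _ fun h => hx (hsub h).1), mul_zero]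
    have s1 := Measure.integral_comp_smul (volume : Measure (E (m + 1)))
      (fun x => U x * dq (t * c) (x - t • z)) t
    have s2 := Measure.integral_comp_smul (volume : Measure (E (m + 1)))
      (fun x => U x * PP (t * c) (x - t • z)) t
    set A := |(t ^ Module.finrank ℝ (E (m + 1)))⁻¹| with hA
    have k1 : ∀ y, U (t • y) * dq (t * c) (t • y - t • z) = t ^ 4 * (U (t • y) * dq c (y - z)) := by
      intro y; rw [← smul_sub, dq_scale ht]; ring
    have k2 : ∀ y, U (t • y) * PP (t * c) (t • y - t • z) = t ^ 6 * (U (t • y) * PP c (y - z)) := by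
      intro y; rw [← smul_sub, PP_scale ht]; ring
    simp only [k1, k2, smul_eq_mul] at s1 s2
    rw [integral_const_mul] at s1 s2
    rw [e1, e2] at hid
    have h3 : 6 * (t ^ 4 * ∫ y, U (t • y) * dq c (y - z)) = lam * (t ^ 6 * ∫ y, U (t • y) * PP c (y - z)) := by
      rw [s1, s2]
      calc 6 * (A * ∫ x, U x * dq (t * c) (x - t • z)) = A * (6 * ∫ x, U x * dq (t * c) (x - t • z)) := by ring
        _ = A * (lam * ∫ x, U x * PP (t * c) (x - t • z)) := by rw [hid]
        _ = _ := by ring
    have ht4 : (0 : ℝ) < t ^ 4 := by positivity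
    have h4 : t ^ 4 * (6 * ∫ y, U (t • y) * dq c (y - z)) =
        t ^ 4 * (lam * (t ^ 2 * ∫ y, U (t • y) * PP c (y - z))) := by
      rw [show t ^ 4 * (6 * ∫ y, U (t • y) * dq c (y - z)) = 6 * (t ^ 4 * ∫ y, U (t • y) * dq c (y - z)) by ring,
        h3]
      ring
    exact mul_left_cancel₀ ht4.ne' h4
  -- difference quotient form
  have hscale2 : ∀ t : ℝ, 0 < t → t * R < 1 / 8 →
      6 * ∫ y, ((U (t • y) - U 0) / t) * dq c (y - z) = lam * (t * ∫ y, U (t • y) * PP c (y - z)) := by
    intro t ht htR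
    have h1 := hscale t ht htR
    have h2 : ∫ y, ((U (t • y) - U 0) / t) * dq c (y - z) = t⁻¹ * ∫ y, U (t • y) * dq c (y - z) := by
      have e : ∀ y, ((U (t • y) - U 0) / t) * dq c (y - z) =
          t⁻¹ * (U (t • y) * dq c (y - z) - U 0 * dq c (y - z)) := by intro y; field_simp
      simp only [e]
      rw [integral_const_mul, integral_sub, integral_const_mul, dq_int hc, mul_zero, sub_zero]
      · exact ((hUc.comp (by fun_prop)).mul cd).integrable_of_hasCompactSupport hdqc.mul_left
      · exact (cd.integrable_of_hasCompactSupport hdqc).const_mul _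
    rw [h2]
    calc 6 * (t⁻¹ * ∫ y, U (t • y) * dq c (y - z)) = t⁻¹ * (6 * ∫ y, U (t • y) * dq c (y - z)) := by ring
      _ = t⁻¹ * (lam * (t ^ 2 * ∫ y, U (t • y) * PP c (y - z))) := by rw [h1]
      _ = _ := by field_simp
  -- limits
  have hsm : ∀ᶠ t : ℝ in 𝓝[>] 0, 0 < t ∧ t * R < 1 / 8 ∧ M * (t * R) ≤ 1 := by
    have h1 : Tendsto (fun t : ℝ => t * R) (𝓝[>] 0) (𝓝 (0 * R)) :=
      ((continuous_id.mul continuous_const).tendsto 0).mono_left nhdsWithin_le_nhds
    rw [zero_mul] at h1
    have h2 : Tendsto (fun t : ℝ => (M : ℝ) * (t * R)) (𝓝[>] 0) (𝓝 ((M : ℝ) * 0)) := h1.const_mul _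
    rw [mul_zero] at h2
    filter_upwards [self_mem_nhdsWithin, h1.eventually (gt_mem_nhds (by norm_num : (0 : ℝ) < 1 / 8)),
      h2.eventually (gt_mem_nhds (by norm_num : (0 : ℝ) < 1))] with t a b c
    exact ⟨a, b, le_of_lt c⟩
  have hMy : ∀ t : ℝ, 0 < t → M * (t * R) ≤ 1 → ∀ y ∈ closedBall z c,
      |U (t • y) - U 0| ≤ U 0 * (2 * (M * (t * R))) := by
    intro t ht h1 y hy
    have h2 : (M : ℝ) * ‖t • y‖ ≤ M * (t * R) := by
      rw [norm_smul, Real.norm_of_nonneg ht.le]
      exact mul_le_mul_of_nonneg_left (mul_le_mul_of_nonneg_left (hzR y hy) ht.le) M.coe_nonneg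
    refine (exp_bd hB.lip (h2.trans h1)).trans ?_
    exact mul_le_mul_of_nonneg_left (by linarith) (Real.exp_pos _).le
  have l1 : Tendsto (fun t : ℝ => ∫ y, ((U (t • y) - U 0) / t) * dq c (y - z)) (𝓝[>] 0)
      (𝓝 (∫ y, (closedBall z c).indicator (fun y => U 0 * W y * dq c (y - z)) y)) := by
    refine tendsto_integral_filter_of_dominated_convergence (fun y => (U 0 * (2 * (M * R))) * |dq c (y - z)|)
      ?_ ?_ ((cd.integrable_of_hasCompactSupport hdqc).abs.const_mul _) ?_
    · refine Filter.Eventually.of_forall fun t => ?_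
      have : Continuous fun y => ((U (t • y) - U 0) / t) * dq c (y - z) :=
        (((hUc.comp (by fun_prop)).sub continuous_const).div_const t).mul cd
      exact this.aestronglyMeasurable
    · filter_upwards [hsm] with t ht
      refine Filter.Eventually.of_forall fun y => ?_
      rw [norm_mul, Real.norm_eq_abs, Real.norm_eq_abs]
      by_cases hy : y ∈ closedBall z c
      · refine mul_le_mul_of_nonneg_right ?_ (abs_nonneg _)
        rw [abs_div, abs_of_pos ht.1, div_le_iff₀ ht.1]
        refine (hMy t ht.1 ht.2.2 y hy).trans (le_of_eq ?_)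
        ring
      · rw [dq_zero hc (hmem0 _ _ _ hy)]; simp
    · refine Filter.Eventually.of_forall fun y => ?_
      by_cases hy : y ∈ closedBall z c
      · rw [indicator_of_mem hy]
        have := blow_exp hB (hz hy)
        exact this.mul_const _
      · rw [indicator_of_notMem hy]
        simp only [dq_zero hc (hmem0 _ _ _ hy), mul_zero]
        exact tendsto_const_nhds
  have l2 : Tendsto (fun t : ℝ => lam * (t * ∫ y, U (t • y) * PP c (y - z))) (𝓝[>] 0) (𝓝 0) := by
    have h1 : Tendsto (fun t : ℝ => ∫ y, U (t • y) * PP c (y - z)) (𝓝[>] 0)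
        (𝓝 (∫ y, U 0 * PP c (y - z))) := by
      refine tendsto_integral_filter_of_dominated_convergence (fun y => (3 * U 0) * |PP c (y - z)|)
        ?_ ?_ ((cP.integrable_of_hasCompactSupport hPPc).abs.const_mul _) ?_
      · refine Filter.Eventually.of_forall fun t => ?_
        have : Continuous fun y => U (t • y) * PP c (y - z) := (hUc.comp (by fun_prop)).mul cP
        exact this.aestronglyMeasurable
      · filter_upwards [hsm] with t ht
        refine Filter.Eventually.of_forall fun y => ?_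
        rw [norm_mul, Real.norm_eq_abs, Real.norm_eq_abs]
        by_cases hy : y ∈ closedBall z c
        · refine mul_le_mul_of_nonneg_right ?_ (abs_nonneg _)
          have h2 := hMy t ht.1 ht.2.2 y hy
          have h3 : 0 < U 0 := Real.exp_pos _
          have h4 : U 0 * (2 * (M * (t * R))) ≤ U 0 * 2 :=
            mul_le_mul_of_nonneg_left (by linarith [ht.2.2]) h3.le
          have h5 := abs_sub_abs_le_abs_sub (U (t • y)) (U 0)
          rw [abs_of_pos h3] at h5
          linarith
        · rw [PP_zero hc (hmem0 _ _ _ hy)]; simp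
      · refine Filter.Eventually.of_forall fun y => ?_
        have : Tendsto (fun t : ℝ => U (t • y)) (𝓝[>] 0) (𝓝 (U ((0 : ℝ) • y))) :=
          ((hUc.comp (by fun_prop : Continuous fun t : ℝ => t • y)).tendsto 0).mono_left nhdsWithin_le_nhds
        rw [zero_smul] at this
        exact this.mul_const _
    have h2 : Tendsto (fun t : ℝ => t) (𝓝[>] 0) (𝓝 0) := tendsto_id.mono_left nhdsWithin_le_nhds
    have h3 := (h2.mul h1).const_mul lam
    simpa using h3
  have h5 : Tendsto (fun t : ℝ => 6 * ∫ y, ((U (t • y) - U 0) / t) * dq c (y - z)) (𝓝[>] 0) (𝓝 0) := by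
    refine l2.congr' ?_
    filter_upwards [hsm] with t ht
    rw [hscale2 t ht.1 ht.2.1]
  have h6 := tendsto_nhds_unique (l1.const_mul 6) h5
  rw [integral_indicator isClosed_closedBall.measurableSet] at h6
  have e : ∀ y, U 0 * W y * dq c (y - z) = U 0 * (W y * dq c (y - z)) := fun y => by ring
  simp only [e] at h6
  rw [integral_const_mul] at h6
  have h7 : 0 < U 0 := Real.exp_pos _
  have h8 : U 0 * ∫ y in closedBall z c, W y * dq c (y - z) = 0 := by linarith
  rcases mul_eq_zero.1 h8 with h | h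
  · exact absurd h h7.ne'
  · exact h

end

end Pool.Agent.W794.Rob
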