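import Pool.Agent.W794.Rob13

set_option autoImplicit false
set_option linter.all false

open MeasureTheory Set Metric Filter Topology
open scoped ENNReal NNReal
open Pool.Agent.Results.MP_ce9a4f_an.NoBoundState

namespace Pool.Agent.W794.Rob

section
variable {m : ℕ}

/-- a concave function orthogonal to the kernels `dq c` is affine -/
theorem mid_local {O : Set (E (m + 1))} {W : E (m + 1) → ℝ} (hW : ConcaveOn ℝ O W)
    (hWc : ContinuousOn W O) {c : ℝ} (hc : 0 < c) {z : E (m + 1)} (hz : closedBall z c ⊆ O)
    (h0 : ∫ x in closedBall z c, W x * dq c (x - z) = 0) :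
    ∀ y, ‖y‖ < c → W (z + y) + W (z - y) = 2 * W z := by
  classical
  set B : Set (E (m + 1)) := closedBall 0 c with hBd
  have hBm : MeasurableSet B := isClosed_closedBall.measurableSet
  have hBc : IsCompact B := isCompact_closedBall 0 c
  have hp : ∀ y ∈ B, z + y ∈ O := fun y hy => hz (by
    rw [mem_closedBall, dist_eq_norm, add_sub_cancel_left]; exact mem_closedBall_zero_iff.1 hy)
  have hm : ∀ y ∈ B, z - y ∈ O := fun y hy => hz (by
    rw [mem_closedBall, dist_eq_norm, sub_sub_cancel_left, norm_neg]; exact mem_closedBall_zero_iff.1 hy)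
  have hzO : z ∈ O := hz (mem_closedBall_self hc.le)
  set S : E (m + 1) → ℝ := fun y => W (z + y) + W (z - y) - 2 * W z with hS
  have c1 : ContinuousOn (fun y => W (z + y)) B := hWc.comp (by fun_prop) hp
  have c2 : ContinuousOn (fun y => W (z - y)) B := hWc.comp (by fun_prop) hm
  have hSc : ContinuousOn S B := (c1.add c2).sub continuousOn_const
  -- properties of S
  have hSneg : ∀ y ∈ B, S y ≤ 0 := by
    intro y hy
    have h1 := hW.2 (hp y hy) (hm y hy) (show (0 : ℝ) ≤ 1 / 2 by norm_num)
      (show (0 : ℝ) ≤ 1 / 2 by norm_num) (by norm_num)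
    have e : (1 / 2 : ℝ) • (z + y) + (1 / 2 : ℝ) • (z - y) = z := by
      rw [← smul_add]
      have : z + y + (z - y) = (2 : ℝ) • z := by rw [two_smul]; abel
      rw [this, smul_smul]; norm_num
    rw [e] at h1
    simp only [smul_eq_mul] at h1
    show W (z + y) + W (z - y) - 2 * W z ≤ 0
    linarith
  have hSθ : ∀ θ : ℝ, 0 < θ → θ ≤ 1 → ∀ y ∈ B, θ * S y ≤ S (θ • y) := by
    intro θ h1 h2 y hy
    have a1 := hW.2 (hp y hy) hzO h1.le (show 0 ≤ 1 - θ by linarith) (by ring)
    have a2 := hW.2 (hm y hy) hzO h1.le (show 0 ≤ 1 - θ by linarith) (by ring)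
    have e1 : θ • (z + y) + (1 - θ) • z = z + θ • y := by
      rw [smul_add, sub_smul, one_smul]; abel
    have e2 : θ • (z - y) + (1 - θ) • z = z - θ • y := by
      rw [smul_sub, sub_smul, one_smul]; abel
    rw [e1] at a1
    rw [e2] at a2
    simp only [smul_eq_mul] at a1 a2
    show θ * (W (z + y) + W (z - y) - 2 * W z) ≤ W (z + θ • y) + W (z - θ • y) - 2 * W z
    linarith
  set St : E (m + 1) → ℝ := B.indicator S with hSt
  have hSti : Integrable St := by
    rw [hSt, integrable_indicator_iff hBm]
    exact hSc.integrableOn_compact hBc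
  have hdqb : ∀ y, y ∉ B → dq c y = 0 := fun y hy => dq_zero hc hy
  have hqqb : ∀ y, y ∉ B → qq c y = 0 := fun y hy => qq_zero hc hy
  -- orthogonality
  have hJ : ∫ y, St y * dq c y = 0 := by
    have i1 : IntegrableOn (fun y => W (z + y) * dq c y) B :=
      (c1.mul (dq_cont c).continuousOn).integrableOn_compact hBc
    have i2 : IntegrableOn (fun y => W (z - y) * dq c y) B :=
      (c2.mul (dq_cont c).continuousOn).integrableOn_compact hBc
    have i3 : IntegrableOn (fun y => 2 * W z * dq c y) B :=
      (continuousOn_const.mul (dq_cont c).continuousOn).integrableOn_compact hBc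
    have e1 : ∫ y, St y * dq c y = ∫ y in B, S y * dq c y := by
      rw [← integral_indicator hBm]
      refine integral_congr_ae (Filter.Eventually.of_forall fun y => ?_)
      beta_reduce
      by_cases hy : y ∈ B
      · rw [hSt, indicator_of_mem hy, indicator_of_mem hy]
      · rw [hSt, indicator_of_notMem hy, indicator_of_notMem hy, zero_mul]
    have e2 : ∫ y in B, S y * dq c y = (∫ y in B, W (z + y) * dq c y) +
        (∫ y in B, W (z - y) * dq c y) - ∫ y in B, 2 * W z * dq c y := by
      have i12 : IntegrableOn (fun y => W (z + y) * dq c y + W (z - y) * dq c y) B := i1.add i2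
      rw [← integral_add i1 i2, ← integral_sub i12 i3]
      refine integral_congr_ae (Filter.Eventually.of_forall fun y => ?_)
      simp only [hS]
      ring
    set Wt : E (m + 1) → ℝ := (closedBall z c).indicator (fun x => W x * dq c (x - z)) with hWt
    have h0' : ∫ x, Wt x = 0 := by rw [hWt, integral_indicator isClosed_closedBall.measurableSet]; exact h0
    have f1 : ∫ y in B, W (z + y) * dq c y = 0 := by
      rw [← h0', ← integral_add_left_eq_self Wt z, ← integral_indicator hBm]
      refine integral_congr_ae (Filter.Eventually.of_forall fun y => ?_)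
      beta_reduce
      by_cases hy : y ∈ B
      · have : z + y ∈ closedBall z c := by
          rw [mem_closedBall, dist_eq_norm, add_sub_cancel_left]; exact mem_closedBall_zero_iff.1 hy
        rw [hWt, indicator_of_mem hy, indicator_of_mem this, add_sub_cancel_left]
      · have : z + y ∉ closedBall z c := by
          rw [mem_closedBall, dist_eq_norm, add_sub_cancel_left]
          exact fun h => hy (mem_closedBall_zero_iff.2 h)
        rw [hWt, indicator_of_notMem hy, indicator_of_notMem this]
    have f2 : ∫ y in B, W (z - y) * dq c y = 0 := by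
      rw [← f1, ← integral_indicator hBm, ← integral_indicator hBm, ← integral_neg_eq_self]
      refine integral_congr_ae (Filter.Eventually.of_forall fun y => ?_)
      beta_reduce
      have hneg : -y ∈ B ↔ y ∈ B := by
        rw [hBd, mem_closedBall_zero_iff, mem_closedBall_zero_iff, norm_neg]
      have hdn : dq c (-y) = dq c y := by unfold dq; rw [norm_neg]
      by_cases hy : y ∈ B
      · rw [indicator_of_mem (hneg.2 hy), indicator_of_mem hy, hdn, sub_neg_eq_add]
      · rw [indicator_of_notMem (fun h => hy (hneg.1 h)), indicator_of_notMem hy]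
    have f3 : ∫ y in B, 2 * W z * dq c y = 0 := by
      rw [integral_const_mul, setIntegral_eq_integral_of_forall_compl_eq_zero hdqb]
      have := dq_int (m := m) hc 0
      simp only [sub_zero] at this
      rw [this, mul_zero]
    rw [e1, e2, f1, f2, f3]; ring
  -- the function of σ
  obtain ⟨L, hL⟩ := (qq_c1 (m := m) c).lipschitzWith_of_hasCompactSupport (qq_cs hc) (by norm_num)
  obtain ⟨Q, hQ⟩ := (qq_cont (m := m) c).bounded_above_of_compact_support (qq_cs hc)
  set I := ∫ y, St y * qq c y with hI
  have hSq : Integrable (fun y => St y * qq c y) :=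
    int_w hSti (qq_cont c).aestronglyMeasurable (Filter.Eventually.of_forall fun y => hQ y)
  have hfq : Continuous (fun y : E (m + 1) => fderiv ℝ (qq c) y y) := by
    have : (fun y : E (m + 1) => fderiv ℝ (qq c) y y) = fun y => dq c y - (m + 1) * qq c y := by
      funext y; rw [← dq_eq]; ring
    rw [this]
    exact (dq_cont c).sub (continuous_const.mul (qq_cont c))
  have hD : HasDerivAt (fun σ : ℝ => ∫ y, St y * qq c (σ • y)) (∫ y, St y * fderiv ℝ (qq c) y y) 1 := by
    refine (hasDerivAt_integral_of_dominated_loc_of_lip (F := fun σ y => St y * qq c (σ • y))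
      (bound := fun y => |St y| * (L * c)) (s := univ) (x₀ := (1 : ℝ)) Filter.univ_mem ?_ ?_ ?_ ?_ ?_ ?_).2
    · refine Filter.Eventually.of_forall fun σ => ?_
      exact hSti.aestronglyMeasurable.mul ((qq_cont c).comp (by fun_prop)).aestronglyMeasurable
    · simpa using hSq
    · exact hSti.aestronglyMeasurable.mul hfq.aestronglyMeasurable
    · refine Filter.Eventually.of_forall fun y => ?_
      refine LipschitzOnWith.of_dist_le_mul fun a _ b _ => ?_
      rw [Real.dist_eq, Real.dist_eq, ← mul_sub, abs_mul, Real.coe_nnabs, abs_mul, abs_abs]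
      by_cases hy : y ∈ B
      · have h1 := hL.dist_le_mul (a • y) (b • y)
        rw [Real.dist_eq, dist_eq_norm, ← sub_smul, norm_smul, Real.norm_eq_abs] at h1
        have h2 : ‖y‖ ≤ c := mem_closedBall_zero_iff.1 hy
        rw [mul_assoc]
        refine mul_le_mul_of_nonneg_left ?_ (abs_nonneg _)
        refine h1.trans ?_
        rw [abs_of_nonneg (by positivity : (0 : ℝ) ≤ L * c)]
        have := mul_le_mul_of_nonneg_left h2 (mul_nonneg L.coe_nonneg (abs_nonneg (a - b)))
        calc (L : ℝ) * (|a - b| * ‖y‖) = L * |a - b| * ‖y‖ := by ring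
          _ ≤ L * |a - b| * c := this
          _ = _ := by ring
      · rw [hSt, indicator_of_notMem hy]; simp
    · exact hSti.abs.mul_const _
    · refine Filter.Eventually.of_forall fun y => ?_
      have h1 : HasDerivAt (fun σ : ℝ => σ • y) y 1 := by
        simpa using (hasDerivAt_id (1 : ℝ)).smul_const y
      have h2 : HasFDerivAt (qq c) (fderiv ℝ (qq c) y) ((1 : ℝ) • y) := by
        rw [one_smul]; exact ((qq_c1 c).differentiable (by norm_num) y).hasFDerivAt
      exact (h2.comp_hasDerivAt (1 : ℝ) h1).const_mul _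
  -- scaling
  have hscale : ∀ σ : ℝ, 1 < σ → σ⁻¹ * I ≤ σ ^ (m + 1) * ∫ y, St y * qq c (σ • y) := by
    intro σ hσ
    have hσ0 : 0 < σ := by linarith
    set θ := σ⁻¹ with hθ
    have hθ0 : 0 < θ := inv_pos.2 hσ0
    have hθ1 : θ ≤ 1 := inv_le_one_of_one_le₀ hσ.le
    have h1 := Measure.integral_comp_smul (volume : Measure (E (m + 1)))
      (fun y => St y * qq c (σ • y)) θ
    have e1 : ∀ x : E (m + 1), σ • θ • x = x := fun x => by
      rw [smul_smul, hθ, mul_inv_cancel₀ hσ0.ne', one_smul]
    simp only [e1] at h1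
    have e2 : |(θ ^ Module.finrank ℝ (E (m + 1)))⁻¹| = σ ^ (m + 1) := by
      rw [finrank_euclideanSpace, Fintype.card_fin, hθ, inv_pow, inv_inv, abs_of_pos (by positivity)]
    rw [e2, smul_eq_mul] at h1
    rw [← h1, hI, ← integral_const_mul]
    have i4 : Integrable (fun x => St (θ • x) * qq c x) :=
      int_w (hSti.comp_smul hθ0.ne') (qq_cont c).aestronglyMeasurable (Filter.Eventually.of_forall fun y => hQ y)
    refine integral_mono (hSq.const_mul _) i4 fun y => ?_
    beta_reduce
    by_cases hy : y ∈ B
    · have hθy : θ • y ∈ B := by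
        rw [hBd, mem_closedBall_zero_iff] at hy ⊢
        rw [norm_smul, Real.norm_of_nonneg hθ0.le]
        calc θ * ‖y‖ ≤ 1 * c := mul_le_mul hθ1 hy (norm_nonneg _) (by norm_num)
          _ = c := one_mul _
      rw [hSt, indicator_of_mem hy, indicator_of_mem hθy, ← mul_assoc]
      exact mul_le_mul_of_nonneg_right (hSθ θ hθ0 hθ1 y hy) (by unfold qq; positivity)
    · rw [hqqb y hy]; simp
  -- derivative at one
  have hHd : HasDerivAt (fun σ : ℝ => σ ^ (m + 1) * (∫ y, St y * qq c (σ • y)) - σ⁻¹ * I) I 1 := by
    have h1 := ((hasDerivAt_pow (m + 1) (1 : ℝ)).mul hD).sub ((hasDerivAt_inv (one_ne_zero)).mul_const I)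
    refine h1.congr_deriv ?_
    have e1 : ∫ y, St y * dq c y = (∫ y, St y * fderiv ℝ (qq c) y y) + (m + 1) * I := by
      rw [hI, ← integral_const_mul, ← integral_add]
      · refine integral_congr_ae (Filter.Eventually.of_forall fun y => ?_)
        beta_reduce
        rw [← dq_eq]; ring
      · have hfb : ∀ y : E (m + 1), |fderiv ℝ (qq c) y y| ≤ L * c := by
          intro y
          by_cases hy : y ∈ B
          · have h2 : ‖fderiv ℝ (qq c) y‖ ≤ L := norm_fderiv_le_of_lipschitz ℝ hL
            have h3 : ‖y‖ ≤ c := mem_closedBall_zero_iff.1 hy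
            calc |fderiv ℝ (qq c) y y| ≤ ‖fderiv ℝ (qq c) y‖ * ‖y‖ := (fderiv ℝ (qq c) y).le_opNorm y
              _ ≤ L * c := mul_le_mul h2 h3 (norm_nonneg _) L.coe_nonneg
          · have h2 : fderiv ℝ (qq c) y y = 0 := by
              have := dq_eq (m := m) c y
              rw [hdqb y hy, hqqb y hy] at this
              linarith
            rw [h2, abs_zero]; positivity
        exact int_w hSti hfq.aestronglyMeasurable (Filter.Eventually.of_forall hfb)
      · exact hSq.const_mul _
    rw [hJ] at e1
    simp only [one_smul, Pi.mul_apply, one_pow, inv_one] at *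
    push_cast
    linarith
  have hI0 : 0 ≤ I := by
    have h1 := hHd.hasDerivWithinAt (s := Ioi (1 : ℝ))
    rw [hasDerivWithinAt_iff_tendsto_slope' (by simp)] at h1
    refine ge_of_tendsto h1 ?_
    filter_upwards [self_mem_nhdsWithin] with σ hσ
    have hσ1 : 1 < σ := hσ
    rw [slope_def_field]
    have h2 := hscale σ hσ1
    have h3 : (1 : ℝ) ^ (m + 1) * (∫ y, St y * qq c ((1 : ℝ) • y)) - (1 : ℝ)⁻¹ * I = 0 := by
      simp only [one_pow, one_smul, one_mul, inv_one]
      rw [hI]; ring
    rw [h3, sub_zero]
    exact div_nonneg (by linarith) (by linarith)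
  -- conclusion
  have hneg : ∀ y, St y * qq c y ≤ 0 := by
    intro y
    by_cases hy : y ∈ B
    · rw [hSt, indicator_of_mem hy]
      exact mul_nonpos_of_nonpos_of_nonneg (hSneg y hy) (by unfold qq; positivity)
    · rw [hqqb y hy, mul_zero]
  have hIz : ∫ y, -(St y * qq c y) = 0 := by
    rw [integral_neg]
    have h1 : I ≤ 0 := integral_nonpos hneg
    have : I = 0 := le_antisymm h1 hI0
    rw [← hI, this, neg_zero]
  have hae := (integral_eq_zero_iff_of_nonneg (fun y => neg_nonneg.2 (hneg y)) hSq.neg).1 hIz
  have hae2 : (fun y => S y * qq c y) =ᵐ[volume.restrict (ball 0 c)] fun _ => (0 : ℝ) := by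
    rw [Filter.EventuallyEq, ae_restrict_iff' isOpen_ball.measurableSet]
    filter_upwards [hae] with y hy hyb
    have hyB : y ∈ B := ball_subset_closedBall hyb
    have h1 : -(St y * qq c y) = 0 := hy
    rw [hSt, indicator_of_mem hyB] at h1
    linarith
  have hEq := Measure.eqOn_open_of_ae_eq hae2 isOpen_ball
    ((hSc.mono ball_subset_closedBall).mul (qq_cont c).continuousOn) continuousOn_const
  intro y hy
  have h1 := hEq (mem_ball_zero_iff.2 hy)
  have h2 : 0 < qq c y := by
    unfold qq
    have : 0 < c ^ 2 - ‖y‖ ^ 2 := by nlinarith [norm_nonneg y]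
    rw [max_eq_left this.le]; positivity
  have h3 : S y = 0 := by
    have h1' : S y * qq c y = 0 := h1
    rcases mul_eq_zero.1 h1' with h | h
    · exact h
    · exact absurd h h2.ne'
  have h4 : W (z + y) + W (z - y) - 2 * W z = 0 := h3
  linarith

end

end Pool.Agent.W794.Rob
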