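import Pool.Agent.W794.Rob14

set_option autoImplicit false
set_option linter.all false

open MeasureTheory Set Metric Filter Topology
open scoped ENNReal NNReal ContDiff
open Pool.Agent.Results.MP_ce9a4f_an.NoBoundState

namespace Pool.Agent.W794.Rob

section
variable {m : ℕ} {ι : Type} [Fintype ι] [Nonempty ι] {n : ι → E (m + 1)} {c0 : ℝ}
  {α lam : ℝ} {u : E (m + 1) → ℝ} {G : E (m + 1) → E (m + 1)} {T : E (m + 1) → ℝ}
  {φ : ℕ → E (m + 1) → ℝ}

theorem Blow.cont {M : ℝ≥0} {g W : E (m + 1) → ℝ} (hB : Blow n M g W) : ContinuousOn W (KK n) := by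
  have : LipschitzOnWith M W (KK n) := LipschitzOnWith.of_dist_le_mul fun x hx y hy => by
    rw [Real.dist_eq, dist_eq_norm]; exact hB.wlip x hx y hy
  exact this.continuousOn

theorem blow_add (w : WS n α lam u G T φ) (hu : ∀ x ∈ Om n, 0 < u x) {M : ℝ≥0}
    {g W : E (m + 1) → ℝ} (hB : Blow n M g W) (hg : ∀ x ∈ Om n ∩ ball 0 (1 / 8), Real.log (u x) = g x)
    {x y : E (m + 1)} (hx : x ∈ KK n) (hy : y ∈ KK n) : W (x + y) = W x + W y := by
  -- uniform radius along the segment
  have hseg : segment ℝ x y ⊆ KK n := (KK_convex n).segment_subset hx hy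
  have hsc : IsCompact (segment ℝ x y) := by
    rw [segment_eq_image_lineMap]
    exact isCompact_Icc.image (AffineMap.lineMap_continuous)
  obtain ⟨c, hc, hcO⟩ := hsc.exists_cthickening_subset_open (KK_open n) hseg
  have hball : ∀ z ∈ segment ℝ x y, closedBall z c ⊆ KK n := fun z hz =>
    (closedBall_subset_cthickening hz c).trans hcO
  obtain ⟨K, hK⟩ := exists_nat_gt (‖y - x‖ / c)
  have hK0 : 0 < (K : ℝ) := lt_of_le_of_lt (by positivity) hK
  set p : ℕ → E (m + 1) := fun k => x + ((k : ℝ) / (2 * K)) • (y - x) with hp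
  have hpseg : ∀ k, k ≤ 2 * K → p k ∈ segment ℝ x y := by
    intro k hk
    have h1 : (k : ℝ) ≤ 2 * K := by exact_mod_cast hk
    rw [segment_eq_image']
    exact ⟨(k : ℝ) / (2 * K), ⟨by positivity, (div_le_one (by positivity)).2 h1⟩, rfl⟩
  have hstep : ∀ k, k + 2 ≤ 2 * K → W (p (k + 2)) + W (p k) = 2 * W (p (k + 1)) := by
    intro k hk
    have h1 := hpseg (k + 1) (by omega)
    have h2 := mid_local hB.conc hB.cont hc (hball _ h1) (blow_ball w hu hB hg hc (hball _ h1))
      ((1 / (2 * (K : ℝ))) • (y - x)) ?_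
    · have e1 : p (k + 1) + (1 / (2 * (K : ℝ))) • (y - x) = p (k + 2) := by
        rw [hp]
        beta_reduce
        rw [add_assoc, ← add_smul]
        congr 2
        push_cast
        ring
      have e2 : p (k + 1) - (1 / (2 * (K : ℝ))) • (y - x) = p k := by
        rw [hp]
        beta_reduce
        rw [add_sub_assoc, ← sub_smul]
        congr 2
        push_cast
        ring
      rw [e1, e2] at h2
      exact h2
    · rw [norm_smul, Real.norm_of_nonneg (by positivity)]
      rw [div_lt_iff₀ hc] at hK
      have : 1 / (2 * (K : ℝ)) * ‖y - x‖ ≤ 1 / (2 * (K : ℝ)) * (K * c) :=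
        mul_le_mul_of_nonneg_left hK.le (by positivity)
      refine lt_of_le_of_lt this ?_
      have : 1 / (2 * (K : ℝ)) * (K * c) = c / 2 := by field_simp
      rw [this]; linarith
  have hlin : ∀ k, k + 1 ≤ 2 * K → W (p (k + 1)) - W (p k) = W (p 1) - W (p 0) := by
    intro k
    induction k with
    | zero => intro _; rfl
    | succ k ih =>
      intro hk
      have h1 := ih (by omega)
      have h2 := hstep k (by omega)
      linarith
  have hlin2 : ∀ k, k ≤ 2 * K → W (p k) = W (p 0) + k * (W (p 1) - W (p 0)) := by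
    intro k
    induction k with
    | zero => intro _; simp
    | succ k ih =>
      intro hk
      have h1 := ih (by omega)
      have h2 := hlin k hk
      push_cast
      linarith
  have h3 := hlin2 K (by omega)
  have h4 := hlin2 (2 * K) le_rfl
  have e0 : p 0 = x := by rw [hp]; simp
  have e1 : p (2 * K) = y := by
    rw [hp]
    beta_reduce
    push_cast
    rw [div_self (by positivity), one_smul]; abel
  have e2 : p K = (1 / 2 : ℝ) • (x + y) := by
    rw [hp]
    beta_reduce
    have : (K : ℝ) / (2 * K) = 1 / 2 := by field_simp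
    rw [this, smul_sub, smul_add]
    have h5 : x = (1 / 2 : ℝ) • x + (1 / 2 : ℝ) • x := by rw [← add_smul]; norm_num
    nth_rewrite 1 [h5]
    abel
  rw [e0] at h3 h4
  rw [e1] at h4
  rw [e2, hB.hom _ (KK_add hx hy) _ (by norm_num)] at h3
  push_cast at h4
  linarith

/-- Lipschitz extension of `u` near the vertex -/
theorem u_lip (hu : ∀ x ∈ Om n, 0 < u x) {M : ℝ≥0}
    {g : E (m + 1) → ℝ} (hg' : LipschitzWith M g)
    (hg : ∀ x ∈ Om n ∩ ball 0 (1 / 8), Real.log (u x) = g x) :
    ∃ (C : ℝ≥0) (h : E (m + 1) → ℝ), LipschitzWith C h ∧ ∀ x ∈ Om n ∩ ball 0 (1 / 8), u x = h x := by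
  set b : ℝ := g 0 + M with hb
  have hgb : ∀ x ∈ ball (0 : E (m + 1)) (1 / 8), g x ≤ b := by
    intro x hx
    have h1 := hg'.dist_le_mul x 0
    rw [dist_zero_right, Real.dist_eq] at h1
    have h2 := mem_ball_zero_iff.1 hx
    have h3 : (M : ℝ) * ‖x‖ ≤ M * 1 := mul_le_mul_of_nonneg_left (by linarith) M.coe_nonneg
    have h4 := le_abs_self (g x - g 0)
    rw [hb]; linarith
  have key : ∀ s t : ℝ, s ≤ b → t ≤ s → Real.exp s - Real.exp t ≤ Real.exp b * (s - t) := by
    intro s t hs hts
    have h1 := Real.add_one_le_exp (t - s)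
    have h2 : Real.exp t = Real.exp s * Real.exp (t - s) := by rw [← Real.exp_add]; ring_nf
    have h3 : Real.exp s ≤ Real.exp b := Real.exp_le_exp.2 hs
    have h4 : Real.exp s - Real.exp t ≤ Real.exp s * (s - t) := by
      rw [h2]
      nlinarith [Real.exp_pos s]
    exact h4.trans (mul_le_mul_of_nonneg_right h3 (by linarith))
  have key2 : ∀ s t : ℝ, s ≤ b → t ≤ b → |Real.exp s - Real.exp t| ≤ Real.exp b * |s - t| := by
    intro s t hs ht
    rcases le_total t s with h | h
    · rw [abs_of_nonneg (sub_nonneg.2 (Real.exp_le_exp.2 h)), abs_of_nonneg (sub_nonneg.2 h)]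
      exact key s t hs h
    · rw [abs_sub_comm, abs_sub_comm s t, abs_of_nonneg (sub_nonneg.2 (Real.exp_le_exp.2 h)),
        abs_of_nonneg (sub_nonneg.2 h)]
      exact key t s ht h
  have hl : LipschitzOnWith (Real.toNNReal (Real.exp b) * M) (fun x => Real.exp (g x))
      (Om n ∩ ball 0 (1 / 8)) := by
    refine LipschitzOnWith.of_dist_le_mul fun x hx y hy => ?_
    rw [Real.dist_eq]
    refine (key2 _ _ (hgb x hx.2) (hgb y hy.2)).trans ?_
    have h1 := hg'.dist_le_mul x y
    rw [Real.dist_eq] at h1
    rw [NNReal.coe_mul, Real.coe_toNNReal _ (Real.exp_pos b).le, mul_assoc]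
    exact mul_le_mul_of_nonneg_left h1 (Real.exp_pos b).le
  obtain ⟨h, hh, heq⟩ := hl.extend_real
  refine ⟨_, h, hh, fun x hx => ?_⟩
  rw [← heq hx]
  beta_reduce
  rw [← hg x hx, Real.exp_log (hu x hx.1)]

theorem fin_Om (n : ι → E (m + 1)) : IsFiniteMeasure ((volume : Measure (E (m + 1))).restrict (Om n)) := by
  refine ⟨?_⟩
  rw [Measure.restrict_apply_univ]
  refine lt_of_le_of_lt (measure_mono (t := ball 0 1) ?_) measure_ball_lt_top
  rw [Om_eq]; exact inter_subset_left

/-- a.e. bound for the weak gradient near the vertex -/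
theorem G_bound (w : WS n α lam u G T φ) {C : ℝ≥0} {h : E (m + 1) → ℝ} (hh : LipschitzWith C h)
    (huh : ∀ x ∈ Om n ∩ ball 0 (1 / 8), u x = h x) :
    ∀ᵐ x ∂(volume.restrict (Om n)), x ∈ ball (0 : E (m + 1)) (1 / 8) → ‖G x‖ ≤ (m + 1) * C := by
  have hfin := fin_Om n
  set O : Set (E (m + 1)) := Om n ∩ ball 0 (1 / 8) with hO
  have hOo : IsOpen O := (Om_open n).inter isOpen_ball
  have main : ∀ e : E (m + 1), ∀ᵐ x ∂(volume : Measure (E (m + 1))), x ∈ O →
      inner ℝ (G x) e - lineDeriv ℝ h x e = 0 := by
    intro e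
    refine hOo.ae_eq_zero_of_integral_contDiff_smul_eq_zero ?_ ?_
    · have h1 : IntegrableOn (fun x => inner ℝ (G x) e) (Om n) := by
        exact int_inner w.mG (memLp_const e)
      have h2 : LocallyIntegrable (fun x => lineDeriv ℝ h x e) := hh.locallyIntegrable_lineDeriv e
      exact ((h1.mono_set inter_subset_left).locallyIntegrableOn).sub (h2.locallyIntegrableOn O)
    · intro κ k1 k2 k3
      have k1' : ContDiff ℝ 1 κ := k1.of_le (by norm_num)
      have k3' : tsupport κ ⊆ Om n := k3.trans inter_subset_left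
      have hch := chain w (L := fun s => s) (L' := fun _ => 1) (C := 1) (fun s => hasDerivAt_id s)
        continuous_const (fun s => by simp) k1' k2 k3' e
      have hz : ∀ x, x ∉ O → κ x = 0 := fun x hx => by
        by_contra hcon
        exact hx (k3 (subset_tsupport _ hcon))
      have hz' : ∀ x, x ∉ O → fderiv ℝ κ x e = 0 := fun x hx => by
        have : fderiv ℝ κ x = 0 := by
          by_contra hcon
          exact hx (k3 ((support_fderiv_subset ℝ (f := κ)) hcon))
        rw [this]; simp
      have hcon : Continuous κ := k1'.continuous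
      obtain ⟨B, hB⟩ := hcon.bounded_above_of_compact_support k2
      -- first integral
      have i1 : IntegrableOn (fun x => inner ℝ (G x) e) (Om n) := int_inner w.mG (memLp_const e)
      have i1' : IntegrableOn (fun x => κ x * inner ℝ (G x) e) (Om n) :=
        (int_w i1 hcon.aestronglyMeasurable (Filter.Eventually.of_forall hB)).congr
          (Filter.Eventually.of_forall fun x => mul_comm _ _)
      have hsupp : Function.support (fun x => κ x * inner ℝ (G x) e) ⊆ Om n := by
        intro x hx
        by_contra hc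
        apply hx
        beta_reduce
        rw [hz x (fun h => hc h.1), zero_mul]
      have i1'' : Integrable (fun x => κ x * inner ℝ (G x) e) :=
        (integrableOn_iff_integrable_of_support_subset hsupp).1 i1'
      have i2 : Integrable (fun x => κ x * lineDeriv ℝ h x e) := by
        have := (hh.locallyIntegrable_lineDeriv (μ := volume) e).integrable_smul_left_of_hasCompactSupport
          hcon k2
        simpa using this
      have e1 : ∫ x, κ x • (inner ℝ (G x) e - lineDeriv ℝ h x e) =
          (∫ x, κ x * inner ℝ (G x) e) - ∫ x, κ x * lineDeriv ℝ h x e := by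
        rw [← integral_sub i1'' i2]
        refine integral_congr_ae (Filter.Eventually.of_forall fun x => ?_)
        simp only [smul_eq_mul]; ring
      obtain ⟨D, hD⟩ := k1'.lipschitzWith_of_hasCompactSupport k2 (by norm_num)
      have e2 := LipschitzWith.integral_lineDeriv_mul_eq (μ := (volume : Measure (E (m + 1)))) hh hD k2 e
      have e3 : ∫ x, κ x * lineDeriv ℝ h x e = ∫ x, lineDeriv ℝ h x e * κ x := by
        congr 1; funext x; ring
      have e4 : ∫ x, lineDeriv ℝ κ x (-e) * h x = - ∫ x in Om n, u x * fderiv ℝ κ x e := by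
        rw [← integral_neg, ← setIntegral_eq_integral_of_forall_compl_eq_zero (s := Om n)
          (f := fun x => lineDeriv ℝ κ x (-e) * h x)]
        · refine setIntegral_congr_fun (Om_open n).measurableSet fun x hx => ?_
          beta_reduce
          rw [(k1'.differentiable (by norm_num) x).lineDeriv_eq_fderiv, map_neg]
          by_cases hx' : x ∈ O
          · rw [huh x hx']; ring
          · rw [hz' x hx']; ring
        · intro x hx
          rw [(k1'.differentiable (by norm_num) x).lineDeriv_eq_fderiv, map_neg, hz' x (fun h => hx h.1)]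
          ring
      have e5 : ∫ x, κ x * inner ℝ (G x) e = ∫ x in Om n, inner ℝ (G x) (κ x • e) * 1 := by
        rw [← setIntegral_eq_integral_of_forall_compl_eq_zero (s := Om n)
          (f := fun x => κ x * inner ℝ (G x) e)]
        · refine setIntegral_congr_fun (Om_open n).measurableSet fun x hx => ?_
          beta_reduce
          rw [inner_smul_right]; ring
        · intro x hx
          rw [hz x (fun h => hx h.1), zero_mul]
      rw [e1, e5, hch, e3, e2, e4]
      ring
  have hall : ∀ᵐ x ∂(volume : Measure (E (m + 1))), ∀ j : Fin (m + 1), x ∈ O →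
      inner ℝ (G x) (EuclideanSpace.single j (1 : ℝ)) -
        lineDeriv ℝ h x (EuclideanSpace.single j (1 : ℝ)) = 0 := ae_all_iff.2 fun j => main _
  rw [ae_restrict_iff' (Om_open n).measurableSet]
  filter_upwards [hall] with x hx hxO hxb
  have h1 : ∀ j : Fin (m + 1), |(G x) j| ≤ C := by
    intro j
    have h2 := hx j ⟨hxO, hxb⟩
    have h3 : inner ℝ (G x) (EuclideanSpace.single j (1 : ℝ)) = (G x) j := by
      rw [EuclideanSpace.inner_single_right]; simp
    rw [h3] at h2
    have h4 : (G x) j = lineDeriv ℝ h x (EuclideanSpace.single j (1 : ℝ)) := by linarith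
    rw [h4]
    have h5 := norm_lineDeriv_le_of_lipschitz ℝ hh (x₀ := x) (v := EuclideanSpace.single j (1 : ℝ))
    simpa using h5
  have h6 : G x = ∑ j, (G x) j • (EuclideanSpace.single j (1 : ℝ) : E (m + 1)) := by
    ext k
    simp [Finset.sum_apply, Pi.single_apply]
  rw [h6]
  refine (norm_sum_le _ _).trans ?_
  have h7 : ∀ j ∈ (Finset.univ : Finset (Fin (m + 1))),
      ‖(G x) j • (EuclideanSpace.single j (1 : ℝ) : E (m + 1))‖ ≤ C := by
    intro j _
    rw [norm_smul, EuclideanSpace.norm_single, norm_one, mul_one]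
    exact h1 j
  refine (Finset.sum_le_sum h7).trans ?_
  simp

end

end Pool.Agent.W794.Rob
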