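import Pool.Agent.W794.Rob15

set_option autoImplicit false
set_option linter.all false

open MeasureTheory Set Metric Filter Topology
open scoped ENNReal NNReal ContDiff Pointwise
open Pool.Agent.Results.MP_ce9a4f_an.NoBoundState

namespace Pool.Agent.W794.Rob

section
variable {m : ℕ} {ι : Type} [Fintype ι] [Nonempty ι] {n : ι → E (m + 1)} {c0 : ℝ}
  {α lam : ℝ} {u : E (m + 1) → ℝ} {G : E (m + 1) → E (m + 1)} {T : E (m + 1) → ℝ}
  {φ : ℕ → E (m + 1) → ℝ}

/-- formula for the trace near a face -/
theorem T_formula (hn : Nrm n c0) (w : WS n α lam u G T φ) (i : ι) {ψ : E (m + 1) → ℝ}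
    (h1 : ContDiff ℝ 1 ψ) (h2 : HasCompactSupport ψ) (h3 : tsupport ψ ⊆ UU n i) :
    ∫ x in frontier (Om n), T x * ψ x ∂(surfaceMeasure m) =
      - ((∫ x in Om n, inner ℝ (G x) (ψ x • n i)) + ∫ x in Om n, u x * fderiv ℝ ψ x (n i)) := by
  have hUb : UU n i ⊆ ball 0 1 := fun z hz => mem_ball_zero_iff.2 hz.1
  have hψb : MemLp ψ 2 ((surfaceMeasure m).restrict (frontier (Om n))) :=
    memLp_bd hn h1.continuous h2 (h3.trans hUb)
  have hφb : ∀ k, MemLp (φ k) 2 ((surfaceMeasure m).restrict (frontier (Om n))) ∨ True := fun k => Or.inr trivial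
  have hdψ : Continuous (fun x => fderiv ℝ ψ x (n i)) :=
    (h1.continuous_fderiv (by norm_num)).clm_apply continuous_const
  have hdψc : HasCompactSupport (fun x => fderiv ℝ ψ x (n i)) :=
    (h2.fderiv ℝ).comp_left (g := fun T : E (m + 1) →L[ℝ] ℝ => T (n i)) (by simp)
  have hdL : MemLp (fun x => fderiv ℝ ψ x (n i)) 2 (volume.restrict (Om n)) := fn_memLp hdψ hdψc _
  have hψe : MemLp (fun x => ψ x • n i) 2 (volume.restrict (Om n)) :=
    ((h1.continuous.smul continuous_const).memLp_of_hasCompactSupport h2.smul_right).restrict _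
  have hk : ∀ k, ∫ x in frontier (Om n), φ k x * ψ x ∂(surfaceMeasure m) =
      - ((∫ x in Om n, inner ℝ (gradient (φ k) x) (ψ x • n i)) +
        ∫ x in Om n, φ k x * fderiv ℝ ψ x (n i)) := by
    intro k
    have hts : tsupport (fun x => φ k x * ψ x) ⊆ UU n i := (tsupport_mul_subset_right).trans h3
    rw [face_formula hn i ((w.φ1 k).mul h1) h2.mul_left hts, ← integral_add]
    · congr 1
      refine integral_congr_ae (Filter.Eventually.of_forall fun x => ?_)
      beta_reduce
      have d1 : HasFDerivAt (φ k) (fderiv ℝ (φ k) x) x :=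
        ((w.φ1 k).differentiable (by norm_num) x).hasFDerivAt
      have d2 : HasFDerivAt ψ (fderiv ℝ ψ x) x := (h1.differentiable (by norm_num) x).hasFDerivAt
      rw [(d1.fun_mul d2).fderiv, inner_smul_right, gradient_inner]
      simp
      ring
    · exact int_inner (gradient_memLp (w.φ1 k) (w.φ2 k) _) hψe
    · exact int_mul (fn_memLp (w.φ1 k).continuous (w.φ2 k) _) hdL
  have l1 : Tendsto (fun k => ∫ x in Om n, inner ℝ (gradient (φ k) x) (ψ x • n i)) atTop
      (𝓝 (∫ x in Om n, inner ℝ (G x) (ψ x • n i))) := by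
    have h2 := lim_prod (f := fun k => gradient (φ k)) (w := fun _ _ => (1 : ℝ)) (w0 := fun _ => (1 : ℝ))
      (C := 1) (fun k => gradient_memLp (w.φ1 k) (w.φ2 k) (Om n)) w.mG hψe w.cG
      (fun _ => aestronglyMeasurable_const) (fun _ _ => by simp)
      (Filter.Eventually.of_forall fun x => tendsto_const_nhds)
    simpa using h2
  have l2 : Tendsto (fun k => ∫ x in Om n, φ k x * fderiv ℝ ψ x (n i)) atTop
      (𝓝 (∫ x in Om n, u x * fderiv ℝ ψ x (n i))) := by
    refine l2_mul (g := fun _ x => fderiv ℝ ψ x (n i)) (fun k => fn_memLp (w.φ1 k).continuous (w.φ2 k) _) w.mu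
      (fun _ => hdL) hdL w.cu ?_
    have : ((fun x : E (m + 1) => fderiv ℝ ψ x (n i)) - fun x => fderiv ℝ ψ x (n i)) = 0 := sub_self _
    simp [this]
  -- boundary limit: use a cut-off equal to one on the support of ψ
  have l3 : Tendsto (fun k => ∫ x in frontier (Om n), φ k x * ψ x ∂(surfaceMeasure m)) atTop
      (𝓝 (∫ x in frontier (Om n), T x * ψ x ∂(surfaceMeasure m))) := by
    set μ := (surfaceMeasure m).restrict (frontier (Om n)) with hμ
    -- cut-off by the unit ball
    set b : Set (E (m + 1)) := ball 0 1 with hb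
    have hbm : MeasurableSet b := isOpen_ball.measurableSet
    have hfinb : IsFiniteMeasure (μ.restrict b) := by
      refine ⟨?_⟩
      rw [Measure.restrict_apply_univ, hμ, Measure.restrict_apply hbm, inter_comm]
      exact surf_fin' hn
    have hmem : ∀ k, MemLp (b.indicator (φ k)) 2 μ := by
      intro k
      rw [memLp_indicator_iff_restrict hbm]
      obtain ⟨C, hC⟩ := (w.φ1 k).continuous.bounded_above_of_compact_support (w.φ2 k)
      exact MemLp.of_bound (w.φ1 k).continuous.aestronglyMeasurable C (Filter.Eventually.of_forall hC)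
    have hTm : MemLp (b.indicator T) 2 μ := w.mT.indicator hbm
    have hconv : Tendsto (fun k => eLpNorm (b.indicator (φ k) - b.indicator T) 2 μ) atTop (𝓝 0) := by
      refine tendsto_of_tendsto_of_tendsto_of_le_of_le tendsto_const_nhds w.cT (fun _ => zero_le) fun k => ?_
      have e0 : b.indicator (φ k) - b.indicator T = b.indicator (φ k - T) := by
        funext x
        by_cases hx : x ∈ b
        · simp [indicator_of_mem hx]
        · simp [indicator_of_notMem hx]
      rw [e0]
      exact eLpNorm_indicator_le _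
    have h5 := l2_mul (μ := μ) (f := fun k => b.indicator (φ k)) (f0 := b.indicator T)
      (g := fun _ => ψ) (g0 := ψ) hmem hTm (fun _ => hψb) hψb hconv (by simp)
    have e : ∀ (F : E (m + 1) → ℝ) (x : E (m + 1)), b.indicator F x * ψ x = F x * ψ x := by
      intro F x
      by_cases hx : x ∈ b
      · rw [indicator_of_mem hx]
      · have : ψ x = 0 := by
          by_contra hcon
          exact hx (hUb (h3 (subset_tsupport _ hcon)))
        rw [this, mul_zero, mul_zero]
    simp only [e] at h5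
    exact h5
  exact tendsto_nhds_unique (l3.congr hk) (l1.add l2).neg

theorem star (hn : Nrm n c0) (w : WS n α lam u G T φ) (i : ι) {ψ : E (m + 1) → ℝ}
    (h1 : ContDiff ℝ 1 ψ) (h2 : HasCompactSupport ψ) (h3 : tsupport ψ ⊆ UU n i) :
    (∫ x in Om n, inner ℝ (G x) (gradient ψ x)) -
      α * ((∫ x in Om n, inner ℝ (G x) (ψ x • n i)) + ∫ x in Om n, u x * fderiv ℝ ψ x (n i)) =
      lam * ∫ x in Om n, u x * ψ x := by
  have hUb : UU n i ⊆ ball 0 1 := fun z hz => mem_ball_zero_iff.2 hz.1
  have h4 := w.we ψ h1 h2 (h3.trans hUb)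
  rw [T_formula hn w i h1 h2 h3] at h4
  linarith

theorem KK_scale {t : ℝ} (ht : 0 < t) : t • KK n = KK n := by
  ext x
  rw [mem_smul_set_iff_inv_smul_mem₀ ht.ne']
  constructor
  · intro h
    have := KK_smul h ht
    rwa [smul_smul, mul_inv_cancel₀ ht.ne', one_smul] at this
  · intro h
    exact KK_smul h (inv_pos.2 ht)

theorem KK_int {t : ℝ} (ht : 0 < t) (f : E (m + 1) → ℝ) :
    ∫ y in KK n, f (t • y) = (t ^ (m + 1))⁻¹ * ∫ x in KK n, f x := by
  have h := Measure.setIntegral_comp_smul_of_pos (volume : Measure (E (m + 1))) f (KK n) ht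
  rw [KK_scale ht, finrank_euclideanSpace, Fintype.card_fin, smul_eq_mul] at h
  exact h

theorem Om_KK {f : E (m + 1) → ℝ} (hf : ∀ x, x ∉ ball (0 : E (m + 1)) 1 → f x = 0) :
    ∫ x in Om n, f x = ∫ x in KK n, f x := by
  refine (setIntegral_eq_of_subset_of_forall_sdiff_eq_zero (KK_open n).measurableSet ?_ ?_).symm
  · rw [Om_eq]; exact inter_subset_right
  · rintro x ⟨h1, h2⟩
    apply hf
    intro h
    apply h2
    rw [Om_eq]; exact ⟨h, h1⟩

end

end Pool.Agent.W794.Rob
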