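import Pool.Agent.W794.Rob16

set_option autoImplicit false
set_option linter.all false

open MeasureTheory Set Metric Filter Topology
open scoped ENNReal NNReal ContDiff
open Pool.Agent.Results.MP_ce9a4f_an.NoBoundState

namespace Pool.Agent.W794.Rob

section
variable {m : ℕ} {ι : Type} [Fintype ι] [Nonempty ι] {n : ι → E (m + 1)} {c0 : ℝ}
  {α lam : ℝ} {u : E (m + 1) → ℝ} {G : E (m + 1) → E (m + 1)} {T : E (m + 1) → ℝ}
  {φ : ℕ → E (m + 1) → ℝ}

theorem vol_lim2 (n : ι → E (m + 1)) (i : ι) {P : Set (E (m + 1))} (hP : IsCompact P) :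
    Tendsto (fun k : ℕ => volume.real (KK n ∩ P ∩ {x | inner ℝ (n i) x < 1 / ((k : ℝ) + 1)})) atTop (𝓝 0) := by
  have h1 : Tendsto (fun k : ℕ => volume (KK n ∩ P ∩ {x | inner ℝ (n i) x < 1 / ((k : ℝ) + 1)})) atTop
      (𝓝 (volume (⋂ k : ℕ, KK n ∩ P ∩ {x | inner ℝ (n i) x < 1 / ((k : ℝ) + 1)}))) := by
    refine tendsto_measure_iInter_atTop (fun k => ?_) ?_ ⟨0, ?_⟩
    · exact (((KK_open n).measurableSet.inter hP.isClosed.measurableSet).inter
        (isOpen_lt (by fun_prop) continuous_const).measurableSet).nullMeasurableSet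
    · intro a b hab x hx
      have hx2 : inner ℝ (n i) x < 1 / ((b : ℝ) + 1) := hx.2
      have h3 : 1 / ((b : ℝ) + 1) ≤ 1 / ((a : ℝ) + 1) := by
        refine one_div_le_one_div_of_le (by positivity) ?_
        have : (a : ℝ) ≤ b := by exact_mod_cast hab
        linarith
      exact ⟨hx.1, lt_of_lt_of_le hx2 h3⟩
    · refine (lt_of_le_of_lt (measure_mono (t := P) ?_) hP.measure_lt_top).ne
      exact inter_subset_left.trans inter_subset_right
  have h2 : (⋂ k : ℕ, KK n ∩ P ∩ {x | inner ℝ (n i) x < 1 / ((k : ℝ) + 1)}) = ∅ := by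
    rw [eq_empty_iff_forall_notMem]
    intro x hx
    rw [mem_iInter] at hx
    have h3 := (hx 0).1.1 i
    obtain ⟨k, hk⟩ := exists_nat_one_div_lt h3
    have h4 : inner ℝ (n i) x < 1 / ((k : ℝ) + 1) := (hx k).2
    linarith
  rw [h2, measure_empty] at h1
  have h3 := (ENNReal.tendsto_toReal ENNReal.zero_ne_top).comp h1
  rw [ENNReal.toReal_zero] at h3
  exact h3

/-- limits of scaled integrals -/
theorem scaled_lims {M : ℝ≥0} {g W : E (m + 1) → ℝ} (hB : Blow n M g W) {P : Set (E (m + 1))}
    (hP : IsCompact P) {F : E (m + 1) → ℝ} (hF : Continuous F) (hFP : ∀ y, y ∉ P → F y = 0) :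
    Tendsto (fun t : ℝ => ∫ y in KK n, Real.exp (g (t • y)) * F y) (𝓝[>] 0)
      (𝓝 (Real.exp (g 0) * ∫ y in KK n, F y)) ∧
    Tendsto (fun t : ℝ => ∫ y in KK n, ((Real.exp (g (t • y)) - Real.exp (g 0)) / t) * F y) (𝓝[>] 0)
      (𝓝 (Real.exp (g 0) * ∫ y in KK n, W y * F y)) := by
  have hgc : Continuous g := hB.lip.continuous
  set U : E (m + 1) → ℝ := fun x => Real.exp (g x) with hU
  have hUc : Continuous U := Real.continuous_exp.comp hgc
  have hU0 : 0 < U 0 := Real.exp_pos _
  have hFc : HasCompactSupport F := HasCompactSupport.intro hP hFP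
  obtain ⟨R, hR⟩ := hP.isBounded.exists_norm_le
  have hKm := (KK_open n).measurableSet
  set R' := max R 1 with hR'
  have hR0 : 0 < R' := lt_of_lt_of_le one_pos (le_max_right _ _)
  have hzR : ∀ y ∈ P, ‖y‖ ≤ R' := fun y hy => (hR y hy).trans (le_max_left _ _)
  have hsm : ∀ᶠ t : ℝ in 𝓝[>] 0, 0 < t ∧ M * (t * R') ≤ 1 := by
    have h1 : Tendsto (fun t : ℝ => t * R') (𝓝[>] 0) (𝓝 (0 * R')) :=
      ((continuous_id.mul continuous_const).tendsto 0).mono_left nhdsWithin_le_nhds
    rw [zero_mul] at h1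
    have h2 : Tendsto (fun t : ℝ => (M : ℝ) * (t * R')) (𝓝[>] 0) (𝓝 ((M : ℝ) * 0)) := h1.const_mul _
    rw [mul_zero] at h2
    filter_upwards [self_mem_nhdsWithin, h2.eventually (gt_mem_nhds (by norm_num : (0 : ℝ) < 1))] with t a c
    exact ⟨a, le_of_lt c⟩
  have hMy : ∀ t : ℝ, 0 < t → M * (t * R') ≤ 1 → ∀ y ∈ P,
      |U (t • y) - U 0| ≤ U 0 * (2 * (M * (t * R'))) := by
    intro t ht h1 y hy
    have h2 : (M : ℝ) * ‖t • y‖ ≤ M * (t * R') := by
      rw [norm_smul, Real.norm_of_nonneg ht.le]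
      exact mul_le_mul_of_nonneg_left (mul_le_mul_of_nonneg_left (hzR y hy) ht.le) M.coe_nonneg
    refine (exp_bd hB.lip (h2.trans h1)).trans ?_
    exact mul_le_mul_of_nonneg_left (by linarith) hU0.le
  have hFi : Integrable F (volume.restrict (KK n)) := (hF.integrable_of_hasCompactSupport hFc).restrict
  constructor
  · rw [← integral_const_mul]
    refine tendsto_integral_filter_of_dominated_convergence (fun y => (3 * U 0) * |F y|)
      ?_ ?_ (hFi.abs.const_mul _) ?_
    · refine Filter.Eventually.of_forall fun t => ?_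
      have : Continuous fun y => U (t • y) * F y := (hUc.comp (by fun_prop)).mul hF
      exact this.aestronglyMeasurable
    · filter_upwards [hsm] with t ht
      refine Filter.Eventually.of_forall fun y => ?_
      rw [norm_mul, Real.norm_eq_abs, Real.norm_eq_abs]
      by_cases hy : y ∈ P
      · refine mul_le_mul_of_nonneg_right ?_ (abs_nonneg _)
        have h2 := hMy t ht.1 ht.2 y hy
        have h4 : U 0 * (2 * (M * (t * R'))) ≤ U 0 * 2 :=
          mul_le_mul_of_nonneg_left (by linarith [ht.2]) hU0.le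
        have h5 := abs_sub_abs_le_abs_sub (U (t • y)) (U 0)
        rw [abs_of_pos hU0] at h5
        show |U (t • y)| ≤ _
        linarith
      · rw [hFP y hy]; simp
    · refine Filter.Eventually.of_forall fun y => ?_
      have : Tendsto (fun t : ℝ => U (t • y)) (𝓝[>] 0) (𝓝 (U ((0 : ℝ) • y))) :=
        ((hUc.comp (by fun_prop : Continuous fun t : ℝ => t • y)).tendsto 0).mono_left nhdsWithin_le_nhds
      rw [zero_smul] at this
      exact this.mul_const _
  · rw [← integral_const_mul]
    refine tendsto_integral_filter_of_dominated_convergence (fun y => (U 0 * (2 * (M * R'))) * |F y|)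
      ?_ ?_ (hFi.abs.const_mul _) ?_
    · refine Filter.Eventually.of_forall fun t => ?_
      have : Continuous fun y => ((U (t • y) - U 0) / t) * F y :=
        (((hUc.comp (by fun_prop)).sub continuous_const).div_const t).mul hF
      exact this.aestronglyMeasurable
    · filter_upwards [hsm] with t ht
      refine Filter.Eventually.of_forall fun y => ?_
      rw [norm_mul, Real.norm_eq_abs, Real.norm_eq_abs]
      by_cases hy : y ∈ P
      · refine mul_le_mul_of_nonneg_right ?_ (abs_nonneg _)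
        rw [abs_div, abs_of_pos ht.1, div_le_iff₀ ht.1]
        refine (hMy t ht.1 ht.2 y hy).trans (le_of_eq ?_)
        ring
      · rw [hFP y hy]; simp
    · rw [ae_restrict_iff' hKm]
      refine Filter.Eventually.of_forall fun y hy => ?_
      have := (blow_exp hB hy).mul_const (F y)
      rw [mul_assoc] at this
      exact this

end

end Pool.Agent.W794.Rob
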