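import Pool.Agent.W794.Rob17

set_option autoImplicit false
set_option linter.all false

open MeasureTheory Set Metric Filter Topology
open scoped ENNReal NNReal ContDiff
open Pool.Agent.Results.MP_ce9a4f_an.NoBoundState

namespace Pool.Agent.W794.Rob

section
variable {m : ℕ} {ι : Type} [Fintype ι] [Nonempty ι] {n : ι → E (m + 1)} {c0 : ℝ}
  {α lam : ℝ} {u : E (m + 1) → ℝ} {G : E (m + 1) → E (m + 1)} {T : E (m + 1) → ℝ}
  {φ : ℕ → E (m + 1) → ℝ}

theorem fderiv_scale {ζ : E (m + 1) → ℝ} (h : ContDiff ℝ 1 ζ) (t : ℝ) (x : E (m + 1)) :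
    fderiv ℝ (fun x => ζ (t⁻¹ • x)) x = t⁻¹ • fderiv ℝ ζ (t⁻¹ • x) := by
  have h1 : HasFDerivAt (fun x : E (m + 1) => t⁻¹ • x) (t⁻¹ • ContinuousLinearMap.id ℝ _) x :=
    (hasFDerivAt_id x).const_smul t⁻¹
  have h2 : HasFDerivAt (fun x => ζ (t⁻¹ • x))
      ((fderiv ℝ ζ (t⁻¹ • x)).comp (t⁻¹ • ContinuousLinearMap.id ℝ _)) x :=
    HasFDerivAt.comp (f := fun x : E (m + 1) => t⁻¹ • x) x
      (h.differentiable (by norm_num) _).hasFDerivAt h1
  rw [h2.fderiv]
  ext v
  simp

theorem grad_scale {ζ : E (m + 1) → ℝ} (h : ContDiff ℝ 1 ζ) (t : ℝ) (x : E (m + 1)) :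
    gradient (fun x => ζ (t⁻¹ • x)) x = t⁻¹ • gradient ζ (t⁻¹ • x) := by
  unfold gradient
  rw [fderiv_scale h, map_smul]

theorem face_val (hn : Nrm n c0) (w : WS n α lam u G T φ) (hu : ∀ x ∈ Om n, 0 < u x) {M : ℝ≥0}
    {g W : E (m + 1) → ℝ} (hB : Blow n M g W) (hg : ∀ x ∈ Om n ∩ ball 0 (1 / 8), Real.log (u x) = g x)
    {i : ι} {y0 : E (m + 1)} (h0 : inner ℝ (n i) y0 = 0) (hpos : ∀ j, j ≠ i → 0 < inner ℝ (n j) y0) :
    W (n i) = α := by
  have hα := w.α0
  set U : E (m + 1) → ℝ := fun x => Real.exp (g x) with hU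
  have hU0 : 0 < U 0 := Real.exp_pos _
  have huU : ∀ x ∈ Om n ∩ ball 0 (1 / 8), u x = U x := by
    intro x hx
    rw [hU]
    beta_reduce
    rw [← hg x hx, Real.exp_log (hu x hx.1)]
  obtain ⟨C, h, hh, huh⟩ := u_lip hu hB.lip hg
  have hGb := G_bound w hh huh
  set M2 : ℝ := (m + 1) * C with hM2
  have hM20 : 0 ≤ M2 := by positivity
  have hfinOm := fin_Om n
  have hOm := (Om_open n).measurableSet
  have hKm := (KK_open n).measurableSet
  have hVo : ∀ᶠ z in 𝓝 y0, ∀ j, j ≠ i → 0 < inner ℝ (n j) z := by
    rw [eventually_all]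
    intro j
    by_cases hj : j = i
    · exact Filter.Eventually.of_forall fun z h => absurd hj h
    · have hc : ContinuousAt (fun z : E (m + 1) => inner ℝ (n j) z) y0 := by fun_prop
      filter_upwards [hc.eventually (lt_mem_nhds (hpos j hj))] with z hz _ using hz
  obtain ⟨ρ, hρ, hball⟩ := Metric.eventually_nhds_iff_ball.1 hVo
  set r := ρ / 4 with hr
  have hr0 : 0 < r := by positivity
  have hrρ : 4 * r = ρ := by rw [hr]; ring
  set P : Set (E (m + 1)) := closedBall y0 (2 * r) with hP
  have hPc : IsCompact P := isCompact_closedBall _ _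
  have hPV : ∀ z ∈ P, ∀ j, j ≠ i → 0 < inner ℝ (n j) z := fun z hz =>
    hball z (mem_ball.2 (lt_of_le_of_lt (mem_closedBall.1 hz) (by linarith)))
  obtain ⟨D, m0, hD, hm0, hcut⟩ := exists_cut (hn.unit i) h0 hr0
  have hni : n i ∈ KK n := fun j => lt_of_lt_of_le hn.pos (hn.ip j i)
  obtain ⟨R0, hR0⟩ := hPc.isBounded.exists_norm_le
  set R := max R0 1 with hR
  have hR1 : 0 < R := lt_of_lt_of_le one_pos (le_max_right _ _)
  have hPR : ∀ y ∈ P, ‖y‖ ≤ R := fun y hy => (hR0 y hy).trans (le_max_left _ _)
  -- the estimate for each δ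
  have main : ∀ δ, 0 < δ → δ ≤ r / 2 → |α * (U 0 * m0) + U 0 * (-(W (n i) * m0))| ≤
      M2 * (D * volume.real (KK n ∩ P ∩ {x | inner ℝ (n i) x < δ})) := by
    intro δ hδ hδr
    obtain ⟨ζ, κ, X, Cc⟩ := hcut δ hδ hδr
    have hgeom : ∀ y, prj (n i) y ∈ closedBall y0 r → 0 < inner ℝ (n i) y → inner ℝ (n i) y ≤ δ →
        y ∈ P ∧ y ∈ KK n := by
      intro y a3 hx0 a2
      have hyP : y ∈ P := by
        have e : y - y0 = (prj (n i) y - y0) + (inner ℝ (n i) y) • n i := by rw [prj_apply]; abel
        rw [mem_closedBall, dist_eq_norm] at a3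
        rw [hP, mem_closedBall, dist_eq_norm, e]
        refine (norm_add_le _ _).trans ?_
        rw [norm_smul, hn.unit, mul_one, Real.norm_eq_abs, abs_of_pos hx0]
        linarith
      refine ⟨hyP, fun j => ?_⟩
      by_cases hj : j = i
      · rw [hj]; exact hx0
      · exact hPV y hyP j hj
    have hκt : ∀ y ∈ tsupport κ, y ∈ P ∧ y ∈ KK n := by
      intro y hy
      obtain ⟨a1, a2, a3⟩ := Cc.κ3 hy
      exact hgeom y a3 (by linarith) a2
    have hζP : ∀ y, y ∉ P → ζ y = 0 := fun y hy => by
      by_contra hcon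
      exact hy (Cc.ζ3 (subset_tsupport _ hcon))
    have hκP : ∀ y, y ∉ P → κ y = 0 := fun y hy => by
      by_contra hcon
      exact hy (hκt y (subset_tsupport _ hcon)).1
    have hXP : ∀ y, y ∉ P → X y = 0 := fun y hy => by
      by_contra hcon
      exact hy (Cc.X3 y hcon).1
    have hκK : ∀ y, y ∉ KK n → κ y = 0 := fun y hy => by
      by_contra hcon
      exact hy (hκt y (subset_tsupport _ hcon)).2
    set K1 : E (m + 1) → ℝ := fun y => fderiv ℝ κ y (n i) with hK1
    have hK1z : ∀ y, y ∉ tsupport κ → K1 y = 0 := fun y hy => by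
      have : fderiv ℝ κ y = 0 := by
        by_contra hcon
        exact hy ((support_fderiv_subset ℝ (f := κ)) hcon)
      rw [hK1]; beta_reduce; rw [this]; simp
    have hK1P : ∀ y, y ∉ P → K1 y = 0 := fun y hy => hK1z y fun h => hy (hκt y h).1
    have hK1K : ∀ y, y ∉ KK n → K1 y = 0 := fun y hy => hK1z y fun h => hy (hκt y h).2
    have hK1c : Continuous K1 := (Cc.κ1.continuous_fderiv (by norm_num)).clm_apply continuous_const
    have hK1cs : HasCompactSupport K1 := HasCompactSupport.intro hPc hK1P
    have hXcs : HasCompactSupport X := HasCompactSupport.intro hPc hXP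
    -- masses
    have hmass : ∫ y in KK n, κ y = m0 := by
      rw [← Cc.mass, setIntegral_eq_integral_of_forall_compl_eq_zero hκK,
        setIntegral_eq_integral_of_forall_compl_eq_zero]
      intro x hx
      exact hκK x fun h => hx (h i)
    have hK1int : ∫ y in KK n, K1 y = 0 := by
      rw [setIntegral_eq_integral_of_forall_compl_eq_zero hK1K]
      have h4 := integral_mul_fderiv_eq_neg_fderiv_mul_of_integrable (μ := (volume : Measure (E (m + 1))))
        (f := fun _ => (1 : ℝ)) (g := κ) (v := n i) (by simp)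
        (by simpa using hK1c.integrable_of_hasCompactSupport hK1cs)
        (by simpa using Cc.κ1.continuous.integrable_of_hasCompactSupport Cc.κ2)
        (fun x _ => differentiableAt_const _) (fun x _ => Cc.κ1.differentiable (by norm_num) x)
      simpa using h4
    -- additivity
    have hWadd : ∀ t, 0 < t → t < δ / 4 → ∀ x, κ x ≠ 0 → W x - W (x - t • n i) = W (n i) * t := by
      intro t ht0 ht1 x hx
      obtain ⟨a1, a2, a3⟩ := Cc.κ3 (subset_tsupport _ hx)
      have e1 : inner ℝ (n i) (x - t • n i) = inner ℝ (n i) x - t := by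
        rw [inner_sub_right, inner_smul_right, real_inner_self_eq_norm_sq, hn.unit]; ring
      have e2 : prj (n i) (x - t • n i) = prj (n i) x := by
        rw [map_sub, map_smul, prj_self (hn.unit i), smul_zero, sub_zero]
      have h5 := (hgeom (x - t • n i) (by rw [e2]; exact a3) (by rw [e1]; linarith) (by rw [e1]; linarith)).2
      have h6 := blow_add w hu hB hg h5 (KK_smul hni ht0)
      rw [sub_add_cancel, hB.hom _ hni _ ht0] at h6
      rw [h6]; ring
    have hκKK : tsupport κ ⊆ KK n := fun y hy => (hκt y hy).2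
    have hWK : ∫ y in KK n, W y * K1 y = -(W (n i) * m0) := by
      have a1 := dq_le (KK_open n) hB.cont Cc.κ1 Cc.κ2 hκKK Cc.κ4 (n i) (W (n i)) (h₀ := δ / 4)
        (by positivity) (fun t h1 h2 x hx => (hWadd t h1 h2 x hx).ge)
      have a2 := dq_le (KK_open n) hB.cont.neg Cc.κ1 Cc.κ2 hκKK Cc.κ4 (n i) (-W (n i)) (h₀ := δ / 4)
        (by positivity) (fun t h1 h2 x hx => by
          have := hWadd t h1 h2 x hx
          simp only [Pi.neg_apply]
          linarith)
      rw [hmass] at a1 a2
      have e : ∫ x in KK n, (-W) x * fderiv ℝ κ x (n i) = - ∫ x in KK n, W x * fderiv ℝ κ x (n i) := by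
        rw [← integral_neg]
        refine integral_congr_ae (Filter.Eventually.of_forall fun x => ?_)
        simp only [Pi.neg_apply]; ring
      rw [e] at a2
      have e3 : ∫ y in KK n, W y * K1 y = ∫ x in KK n, W x * fderiv ℝ κ x (n i) := rfl
      rw [e3]
      linarith
    -- limits
    obtain ⟨-, lK⟩ := scaled_lims hB hPc hK1c hK1P
    obtain ⟨lκ, -⟩ := scaled_lims hB hPc Cc.κ1.continuous hκP
    obtain ⟨lζ, -⟩ := scaled_lims hB hPc Cc.ζ1.continuous hζP
    rw [hWK] at lK
    rw [hmass] at lκ
    have ht0 : Tendsto (fun t : ℝ => t) (𝓝[>] 0) (𝓝 0) := tendsto_id.mono_left nhdsWithin_le_nhds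
    have lL : Tendsto (fun t : ℝ => |α * (∫ y in KK n, U (t • y) * κ y) +
        ∫ y in KK n, ((U (t • y) - U 0) / t) * K1 y|) (𝓝[>] 0)
        (𝓝 |α * (U 0 * m0) + U 0 * (-(W (n i) * m0))|) := ((lκ.const_mul α).add lK).abs
    have lR : Tendsto (fun t : ℝ => |lam| * (t * |∫ y in KK n, U (t • y) * ζ y|) +
        M2 * (∫ y in KK n, ‖X y‖) + α * (t * (M2 * ∫ y in KK n, ‖ζ y • n i‖))) (𝓝[>] 0)
        (𝓝 (|lam| * (0 * |U 0 * ∫ y in KK n, ζ y|) + M2 * (∫ y in KK n, ‖X y‖) +
          α * (0 * (M2 * ∫ y in KK n, ‖ζ y • n i‖)))) :=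
      (((ht0.mul lζ.abs).const_mul _).add_const _).add ((ht0.mul_const _).const_mul _)
    have hsm : ∀ᶠ t : ℝ in 𝓝[>] 0, 0 < t ∧ t * R < 1 / 8 := by
      have h1 : Tendsto (fun t : ℝ => t * R) (𝓝[>] 0) (𝓝 (0 * R)) :=
        ((continuous_id.mul continuous_const).tendsto 0).mono_left nhdsWithin_le_nhds
      rw [zero_mul] at h1
      filter_upwards [self_mem_nhdsWithin, h1.eventually (gt_mem_nhds (by norm_num : (0 : ℝ) < 1 / 8))]
        with t a b
      exact ⟨a, b⟩
    have hfin : |α * (U 0 * m0) + U 0 * (-(W (n i) * m0))| ≤ M2 * (∫ y in KK n, ‖X y‖) := by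
      have hle : |α * (U 0 * m0) + U 0 * (-(W (n i) * m0))| ≤
          |lam| * (0 * |U 0 * ∫ y in KK n, ζ y|) + M2 * (∫ y in KK n, ‖X y‖) +
          α * (0 * (M2 * ∫ y in KK n, ‖ζ y • n i‖)) := by
        refine le_of_tendsto_of_tendsto lL lR ?_
        filter_upwards [hsm] with t ht
        obtain ⟨ht0, htR⟩ := ht
        have htn : t ≠ 0 := ht0.ne'
        set tN : ℝ := t ^ (m + 1) with htN
        have htN0 : 0 < tN := by positivity
        have hin : ∀ x : E (m + 1), t⁻¹ • x ∈ P → x ∈ ball (0 : E (m + 1)) (1 / 8) := by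
          intro x hx
          have h1 := hPR _ hx
          rw [norm_smul, Real.norm_of_nonneg (inv_nonneg.2 ht0.le), inv_mul_le_iff₀ ht0] at h1
          rw [mem_ball_zero_iff]; linarith
        have hsc : ∀ F : E (m + 1) → ℝ, (∀ y, y ∉ P → F y = 0) →
            ∫ x in Om n, F (t⁻¹ • x) = tN * ∫ y in KK n, F y := by
          intro F hF
          rw [Om_KK (f := fun x => F (t⁻¹ • x))]
          · have h1 := KK_int (n := n) ht0 (fun x => F (t⁻¹ • x))
            simp only [smul_smul, inv_mul_cancel₀ htn, one_smul] at h1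
            rw [h1, ← mul_assoc, show tN * (t ^ (m + 1))⁻¹ = 1 from mul_inv_cancel₀ htN0.ne', one_mul]
          · intro x hx
            apply hF
            intro h
            exact hx (ball_subset_ball (by norm_num) (hin x h))
        have hscU : ∀ F : E (m + 1) → ℝ, (∀ y, y ∉ P → F y = 0) →
            ∫ x in Om n, u x * F (t⁻¹ • x) = tN * ∫ y in KK n, U (t • y) * F y := by
          intro F hF
          have h1 : ∫ x in Om n, u x * F (t⁻¹ • x) = ∫ x in Om n, U (t • t⁻¹ • x) * F (t⁻¹ • x) := by
            refine setIntegral_congr_fun hOm fun x hx => ?_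
            beta_reduce
            rw [smul_smul, mul_inv_cancel₀ htn, one_smul]
            by_cases hxP : t⁻¹ • x ∈ P
            · rw [huU x ⟨hx, hin x hxP⟩]
            · rw [hF _ hxP, mul_zero, mul_zero]
          rw [h1]
          exact hsc (fun y => U (t • y) * F y) (fun y hy => by beta_reduce; rw [hF y hy, mul_zero])
        have hGY : ∀ Y : E (m + 1) → E (m + 1), Continuous Y → (∀ y, y ∉ P → Y y = 0) →
            |∫ x in Om n, inner ℝ (G x) (Y (t⁻¹ • x))| ≤ M2 * (tN * ∫ y in KK n, ‖Y y‖) := by
          intro Y hY hYP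
          rw [← hsc (fun y => ‖Y y‖) (fun y hy => by beta_reduce; rw [hYP y hy, norm_zero]),
            ← integral_const_mul]
          refine norm_integral_le_of_norm_le (f := fun x => inner ℝ (G x) (Y (t⁻¹ • x))) ?_ ?_
          · obtain ⟨B, hB'⟩ := hY.bounded_above_of_compact_support (HasCompactSupport.intro hPc hYP)
            refine (Integrable.of_bound (C := B) ?_ (Filter.Eventually.of_forall fun x => ?_)).const_mul _
            · exact (hY.comp (by fun_prop)).norm.aestronglyMeasurable
            · rw [norm_norm]; exact hB' _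
          · rw [ae_restrict_iff' hOm] at hGb ⊢
            filter_upwards [hGb] with x hx hxO
            refine (norm_inner_le_norm _ _).trans ?_
            by_cases hxP : t⁻¹ • x ∈ P
            · exact mul_le_mul_of_nonneg_right (hx hxO (hin x hxP)) (norm_nonneg _)
            · rw [hYP _ hxP]; simp
        -- test functions at scale t
        set Pt : Set (E (m + 1)) := {x | t⁻¹ • x ∈ P} with hPt
        have hPtcl : IsClosed Pt := isClosed_closedBall.preimage (by fun_prop)
        have hPtc : IsCompact Pt := by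
          refine (isCompact_closedBall (0 : E (m + 1)) (1 / 8)).of_isClosed_subset hPtcl fun x hx => ?_
          exact ball_subset_closedBall (hin x hx)
        have hPtU : Pt ⊆ UU n i := by
          intro x hx
          have h1 := mem_ball_zero_iff.1 (hin x hx)
          refine ⟨by linarith, fun j hj => ?_⟩
          have h2 := hPV _ hx j hj
          rw [inner_smul_right] at h2
          exact (pos_iff_pos_of_mul_pos h2).1 (inv_pos.2 ht0)
        set ψ : E (m + 1) → ℝ := fun x => ζ (t⁻¹ • x) with hψ
        have hψ1 : ContDiff ℝ 1 ψ := Cc.ζ1.comp (by fun_prop)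
        have hψt : tsupport ψ ⊆ Pt := closure_minimal (fun x hx => by
          by_contra hcon
          exact hx (hζP _ hcon)) hPtcl
        have hψ2 : HasCompactSupport ψ := hPtc.of_isClosed_subset (isClosed_tsupport _) hψt
        have hst := star hn w i hψ1 hψ2 (hψt.trans hPtU)
        set κt : E (m + 1) → ℝ := fun x => κ (t⁻¹ • x) with hκtd
        have hκt1 : ContDiff ℝ 1 κt := Cc.κ1.comp (by fun_prop)
        have hκtt : tsupport κt ⊆ {x | t⁻¹ • x ∈ tsupport κ} :=
          closure_minimal (fun x hx => subset_tsupport _ hx)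
            ((isClosed_tsupport κ).preimage (by fun_prop))
        have hκtO : tsupport κt ⊆ Om n := by
          intro x hx
          obtain ⟨b1, b2⟩ := hκt _ (hκtt hx)
          have h1 := mem_ball_zero_iff.1 (hin x b1)
          refine ⟨by linarith, ?_⟩
          have h2 := KK_smul b2 ht0
          rwa [smul_smul, mul_inv_cancel₀ htn, one_smul] at h2
        have hκt2 : HasCompactSupport κt := hPtc.of_isClosed_subset (isClosed_tsupport _)
          (fun x hx => (hκt _ (hκtt hx)).1)
        have hch := chain w (L := fun s => s) (L' := fun _ => 1) (C := 1) (fun s => hasDerivAt_id s)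
          continuous_const (fun s => by simp) hκt1 hκt2 hκtO (n i)
        simp only [mul_one] at hch
        -- rewrite the chain rule
        have e1 : ∫ x in Om n, u x * fderiv ℝ κt x (n i) = t⁻¹ * (tN * ∫ y in KK n, U (t • y) * K1 y) := by
          rw [← hscU K1 hK1P, ← integral_const_mul]
          refine setIntegral_congr_fun hOm fun x hx => ?_
          beta_reduce
          rw [hκtd, fderiv_scale Cc.κ1]
          simp only [ContinuousLinearMap.smul_apply, smul_eq_mul, hK1]
          ring
        have e2 : ∫ x in Om n, u x * fderiv ℝ ψ x (n i) = -(t⁻¹ * (tN * ∫ y in KK n, U (t • y) * κ y)) := by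
          rw [← hscU κ hκP, ← integral_const_mul, ← integral_neg]
          refine setIntegral_congr_fun hOm fun x hx => ?_
          beta_reduce
          rw [hψ, fderiv_scale Cc.ζ1]
          have h1 : 0 < inner ℝ (n i) (t⁻¹ • x) := by
            rw [inner_smul_right]; exact mul_pos (inv_pos.2 ht0) (hx.2 i)
          simp only [ContinuousLinearMap.smul_apply, smul_eq_mul, Cc.fn _ h1]
          ring
        have e3 : ∫ x in Om n, u x * ψ x = tN * ∫ y in KK n, U (t • y) * ζ y := hscU ζ hζP
        have mX : MemLp (fun x => X (t⁻¹ • x)) 2 (volume.restrict (Om n)) :=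
          MemLp.of_bound (Cc.X1.comp (by fun_prop)).aestronglyMeasurable D
            (Filter.Eventually.of_forall fun x => Cc.X2 _)
        have mκ : MemLp (fun x => κt x • n i) 2 (volume.restrict (Om n)) :=
          ((hκt1.continuous.smul continuous_const).memLp_of_hasCompactSupport hκt2.smul_right).restrict _
        have e4 : ∫ x in Om n, inner ℝ (G x) (gradient ψ x) =
            t⁻¹ * ((∫ x in Om n, inner ℝ (G x) (X (t⁻¹ • x))) - ∫ x in Om n, inner ℝ (G x) (κt x • n i)) := by
          rw [← integral_sub (int_inner w.mG mX) (int_inner w.mG mκ), ← integral_const_mul]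
          refine setIntegral_congr_fun hOm fun x hx => ?_
          beta_reduce
          have h1 : 0 < inner ℝ (n i) (t⁻¹ • x) := by
            rw [inner_smul_right]; exact mul_pos (inv_pos.2 ht0) (hx.2 i)
          rw [hψ, grad_scale Cc.ζ1, Cc.gr _ h1, inner_smul_right, inner_sub_right]
        rw [hch, e1] at e4
        rw [e4, e2, e3] at hst
        have bX := hGY X Cc.X1 hXP
        have bζ := hGY (fun y => ζ y • n i) (Cc.ζ1.continuous.smul continuous_const)
          (fun y hy => by beta_reduce; rw [hζP y hy, zero_smul])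
        set IX := ∫ x in Om n, inner ℝ (G x) (X (t⁻¹ • x)) with hIX
        have hIB : ∫ x in Om n, inner ℝ (G x) (ψ x • n i) =
          ∫ x in Om n, inner ℝ (G x) ((fun y => ζ y • n i) (t⁻¹ • x)) := rfl
        rw [hIB] at hst
        set IB := ∫ x in Om n, inner ℝ (G x) ((fun y => ζ y • n i) (t⁻¹ • x)) with hIBd
        set SK := ∫ y in KK n, U (t • y) * K1 y with hSK
        set Sκ := ∫ y in KK n, U (t • y) * κ y with hSκ
        set Sζ := ∫ y in KK n, U (t • y) * ζ y with hSζ
        have hUtc : Continuous fun y => U (t • y) := by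
          have : Continuous U := Real.continuous_exp.comp hB.lip.continuous
          exact this.comp (by fun_prop)
        have e5 : ∫ y in KK n, ((U (t • y) - U 0) / t) * K1 y = t⁻¹ * SK := by
          have e : ∀ y, ((U (t • y) - U 0) / t) * K1 y = t⁻¹ * (U (t • y) * K1 y - U 0 * K1 y) := by
            intro y; field_simp
          simp only [e]
          rw [integral_const_mul, integral_sub, integral_const_mul, hK1int, mul_zero, sub_zero]
          · exact ((hUtc.mul hK1c).integrable_of_hasCompactSupport hK1cs.mul_left).restrict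
          · exact ((hK1c.integrable_of_hasCompactSupport hK1cs).const_mul _).restrict
        rw [e5]
        have key : α * Sκ + t⁻¹ * SK = lam * (t * Sζ) - IX / tN + α * (t * (IB / tN)) := by
          field_simp
          field_simp at hst
          linarith
        rw [key]
        have b1 : |lam * (t * Sζ)| = |lam| * (t * |Sζ|) := by
          rw [abs_mul, abs_mul, abs_of_pos ht0]
        have b2 : |IX / tN| ≤ M2 * ∫ y in KK n, ‖X y‖ := by
          rw [abs_div, abs_of_pos htN0, div_le_iff₀ htN0]
          calc |IX| ≤ M2 * (tN * ∫ y in KK n, ‖X y‖) := bX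
            _ = _ := by ring
        have b3 : |α * (t * (IB / tN))| ≤ α * (t * (M2 * ∫ y in KK n, ‖ζ y • n i‖)) := by
          rw [abs_mul, abs_mul, abs_of_pos ht0, abs_of_pos hα]
          refine mul_le_mul_of_nonneg_left (mul_le_mul_of_nonneg_left ?_ ht0.le) hα.le
          rw [abs_div, abs_of_pos htN0, div_le_iff₀ htN0]
          calc |IB| ≤ M2 * (tN * ∫ y in KK n, ‖ζ y • n i‖) := bζ
            _ = _ := by ring
        calc |lam * (t * Sζ) - IX / tN + α * (t * (IB / tN))|
            ≤ |lam * (t * Sζ) - IX / tN| + |α * (t * (IB / tN))| := abs_add_le _ _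
          _ ≤ (|lam * (t * Sζ)| + |IX / tN|) + |α * (t * (IB / tN))| := by
              have := abs_sub (lam * (t * Sζ)) (IX / tN)
              linarith
          _ ≤ _ := by rw [b1]; linarith
      refine hle.trans (le_of_eq ?_)
      ring
    refine hfin.trans (mul_le_mul_of_nonneg_left ?_ hM20)
    have hSm : MeasurableSet (P ∩ {x : E (m + 1) | inner ℝ (n i) x < δ}) :=
      hPc.isClosed.measurableSet.inter (isOpen_lt (by fun_prop) continuous_const).measurableSet
    have e6 : ∫ y in KK n, (P ∩ {x : E (m + 1) | inner ℝ (n i) x < δ}).indicator (fun _ => D) y =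
        D * volume.real (KK n ∩ P ∩ {x | inner ℝ (n i) x < δ}) := by
      rw [setIntegral_indicator hSm, setIntegral_const, smul_eq_mul, mul_comm, ← inter_assoc]
    rw [← e6]
    refine integral_mono_of_nonneg (Filter.Eventually.of_forall fun _ => norm_nonneg _) ?_
      (Filter.Eventually.of_forall fun y => ?_)
    · have : IntegrableOn (fun _ : E (m + 1) => D) (P ∩ {x : E (m + 1) | inner ℝ (n i) x < δ}) := by
        refine integrableOn_const ?_
        exact (lt_of_le_of_lt (measure_mono inter_subset_left) hPc.measure_lt_top).ne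
      exact ((integrable_indicator_iff hSm).2 this).restrict
    · beta_reduce
      by_cases hy : X y = 0
      · rw [hy, norm_zero]
        exact indicator_nonneg (fun _ _ => hD) _
      · have hmem : y ∈ P ∩ {x : E (m + 1) | inner ℝ (n i) x < δ} := Cc.X3 y hy
        rw [indicator_of_mem hmem]
        exact Cc.X2 y
  -- conclusion
  have hlim : Tendsto (fun k : ℕ => M2 * (D * volume.real (KK n ∩ P ∩ {x | inner ℝ (n i) x < 1 / ((k : ℝ) + 1)})))
      atTop (𝓝 0) := by
    have := ((vol_lim2 n i hPc).const_mul D).const_mul M2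
    simpa using this
  have h1 : |α * (U 0 * m0) + U 0 * (-(W (n i) * m0))| ≤ 0 := by
    refine ge_of_tendsto hlim ?_
    have l3 := (tendsto_order.1 (tendsto_one_div_add_atTop_nhds_zero_nat (𝕜 := ℝ))).2 (r / 2) (by positivity)
    filter_upwards [l3] with k hk
    exact main _ (by positivity) hk.le
  have h2 := abs_nonpos_iff.1 h1
  have h3 : (U 0 * m0) * (α - W (n i)) = 0 := by linarith
  rcases mul_eq_zero.1 h3 with h | h
  · exact absurd h (mul_pos hU0 hm0).ne'
  · linarith

end

end Pool.Agent.W794.Rob
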