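import Pool.Agent.W794.Rob18

set_option autoImplicit false
set_option linter.all false

open MeasureTheory Set Metric Filter Topology
open scoped ENNReal NNReal ContDiff
open Pool.Agent.Results.MP_ce9a4f_an.NoBoundState

namespace Pool.Agent.W794.Rob

/-- no log-concave Robin ground state on `ball ∩ cone` when the conormals of the cone satisfy a
non homogeneous linear relation -/
theorem no_logconcave {m : ℕ} {ι : Type} [Fintype ι] {n : ι → E (m + 1)} {c0 : ℝ} (hn : Nrm n c0)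
    (hface : ∀ i, ∃ y0, inner ℝ (n i) y0 = 0 ∧ ∀ j, j ≠ i → 0 < inner ℝ (n j) y0)
    {i1 i2 i3 i4 : ι} {a b : ℝ} (ha : 0 < a) (hb : 0 < b) (hab : a ≠ b)
    (hrel : a • (n i1 + n i2) = b • (n i3 + n i4)) {α : ℝ} (hα : 0 < α) {u : E (m + 1) → ℝ}
    (hu : ∀ x ∈ Om n, 0 < u x) (hmin : IsRobinMinimiser (Om n) α u) :
    ¬ ConcaveOn ℝ (Om n) (fun x => Real.log (u x)) := by
  intro hconc
  haveI : Nonempty ι := ⟨i1⟩
  obtain ⟨lam, G, T, φ, w⟩ := exists_WS hn hα hmin
  obtain ⟨M, g, hg1, hg2, hg3⟩ := exists_g hn w hu hconc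
  obtain ⟨W, hB⟩ := exists_blow hg1 hg3
  have hval : ∀ i, W (n i) = α := by
    intro i
    obtain ⟨y0, h1, h2⟩ := hface i
    exact face_val hn w hu hB hg2 h1 h2
  have hni : ∀ i, n i ∈ KK n := fun i j => lt_of_lt_of_le hn.pos (hn.ip j i)
  have e1 : W (n i1 + n i2) = 2 * α := by
    rw [blow_add w hu hB hg2 (hni i1) (hni i2), hval, hval]; ring
  have e2 : W (n i3 + n i4) = 2 * α := by
    rw [blow_add w hu hB hg2 (hni i3) (hni i4), hval, hval]; ring
  have e3 := hB.hom _ (KK_add (hni i1) (hni i2)) a ha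
  have e4 := hB.hom _ (KK_add (hni i3) (hni i4)) b hb
  rw [hrel, e4, e1, e2] at e3
  have h5 : (a - b) * α = 0 := by linarith
  rcases mul_eq_zero.1 h5 with h | h
  · exact hab (sub_eq_zero.1 h)
  · exact hα.ne' h

section vectors
variable {k : ℕ}

/-- the vector `(a, b, c, 0, …, 0)` -/
noncomputable def vec (k : ℕ) (a b c : ℝ) : E (k + 2 + 1) :=
  WithLp.toLp 2 (fun j : Fin (k + 3) => if j = 0 then a else if j = 1 then b else if j = 2 then c else 0)

theorem sum3 (F : Fin (k + 3) → ℝ) (h : ∀ j, j ≠ 0 → j ≠ 1 → j ≠ 2 → F j = 0) :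
    ∑ j, F j = F 0 + F 1 + F 2 := by
  rw [Fin.sum_univ_succ, Fin.sum_univ_succ, Fin.sum_univ_succ]
  have : ∑ i : Fin k, F i.succ.succ.succ = 0 := by
    refine Finset.sum_eq_zero fun i _ => h _ ?_ ?_ ?_
    · exact Fin.succ_ne_zero _
    · intro h'
      have : (i.succ.succ.succ : Fin (k + 3)) = (0 : Fin (k + 2)).succ := h'
      exact Fin.succ_ne_zero _ (Fin.succ_injective _ this)
    · intro h'
      have : (i.succ.succ.succ : Fin (k + 3)) = (0 : Fin (k + 1)).succ.succ := h'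
      exact Fin.succ_ne_zero _ (Fin.succ_injective _ (Fin.succ_injective _ this))
  rw [this]
  have e1 : (Fin.succ 0 : Fin (k + 3)) = 1 := rfl
  have e2 : (Fin.succ (Fin.succ 0) : Fin (k + 3)) = 2 := rfl
  rw [e1, e2]
  ring

theorem vec_inner (a b c a' b' c' : ℝ) :
    inner ℝ (vec k a b c) (vec k a' b' c') = a * a' + b * b' + c * c' := by
  rw [PiLp.inner_apply, sum3]
  · have h10 : (1 : Fin (k + 3)) ≠ 0 := by simp [Fin.ext_iff]
    have h20 : (2 : Fin (k + 3)) ≠ 0 := by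
      have : (2 : Fin (k + 3)) = (Fin.succ (Fin.succ 0)) := rfl
      rw [this]; exact Fin.succ_ne_zero _
    have h21 : (2 : Fin (k + 3)) ≠ 1 := by
      have e : (2 : Fin (k + 3)) = (Fin.succ (Fin.succ 0)) := rfl
      have e' : (1 : Fin (k + 3)) = (Fin.succ 0) := rfl
      rw [e, e']
      intro h
      exact Fin.succ_ne_zero _ (Fin.succ_injective _ h)
    simp [vec, h10, h20, h21]
    ring
  · intro j h0 h1 h2
    simp [vec, h0, h1, h2]

theorem vec_add (a b c a' b' c' : ℝ) : vec k a b c + vec k a' b' c' = vec k (a + a') (b + b') (c + c') := by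
  ext j
  simp only [vec, PiLp.add_apply]
  split_ifs <;> simp

theorem vec_smul (s a b c : ℝ) : s • vec k a b c = vec k (s * a) (s * b) (s * c) := by
  ext j
  simp only [vec, PiLp.smul_apply, smul_eq_mul]
  split_ifs <;> simp

/-- the four conormals -/
noncomputable def nn (k : ℕ) : Fin 4 → E (k + 2 + 1) :=
  ![vec k (-3 / 5) 0 (4 / 5), vec k (3 / 5) 0 (4 / 5), vec k 0 (-5 / 13) (12 / 13), vec k 0 (5 / 13) (12 / 13)]

theorem nn_ip (i j : Fin 4) : inner ℝ (nn k i) (nn k j) = if i = j then 1 else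
    (if (i = 0 ∧ j = 1) ∨ (i = 1 ∧ j = 0) then 7 / 25 else
      if (i = 2 ∧ j = 3) ∨ (i = 3 ∧ j = 2) then 119 / 169 else 48 / 65) := by
  have key : ∀ (x y : E (k + 2 + 1)) (s : ℝ), inner ℝ x y = s → inner ℝ x y = s := fun _ _ _ h => h
  fin_cases i <;> fin_cases j <;>
    (simp only [nn, Matrix.cons_val_zero, Matrix.cons_val_one, Matrix.cons_val, Fin.zero_eta,
      Fin.mk_one, Fin.reduceFinMk]; rw [vec_inner]; simp; try norm_num)

theorem nn_nrm : Nrm (nn k) (7 / 25) := by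
  refine ⟨fun i => ?_, by norm_num, fun i j => ?_, fun i j h => ?_⟩
  · have h1 := nn_ip (k := k) i i
    rw [if_pos rfl, real_inner_self_eq_norm_sq] at h1
    have h2 : 0 ≤ ‖nn k i‖ := norm_nonneg _
    nlinarith [sq_nonneg (‖nn k i‖ - 1)]
  · rw [nn_ip]
    split_ifs <;> norm_num
  · by_contra hij
    have h1 := nn_ip (k := k) i j
    have h2 := nn_ip (k := k) j j
    rw [if_pos rfl] at h2
    rw [h, h2, if_neg hij] at h1
    split_ifs at h1 <;> norm_num at h1

theorem nn_face (i : Fin 4) : ∃ y0, inner ℝ (nn k i) y0 = 0 ∧ ∀ j, j ≠ i → 0 < inner ℝ (nn k j) y0 := by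
  fin_cases i
  · refine ⟨vec k (4 / 5) 0 (3 / 5), ?_, fun j hj => ?_⟩
    · simp [nn, vec_inner]; norm_num
    · fin_cases j <;> simp [nn, vec_inner] at hj ⊢ <;> norm_num
  · refine ⟨vec k (-4 / 5) 0 (3 / 5), ?_, fun j hj => ?_⟩
    · simp [nn, vec_inner]; norm_num
    · fin_cases j <;> simp [nn, vec_inner] at hj ⊢ <;> norm_num
  · refine ⟨vec k 0 (12 / 13) (5 / 13), ?_, fun j hj => ?_⟩
    · simp [nn, vec_inner]; norm_num
    · fin_cases j <;> simp [nn, vec_inner] at hj ⊢ <;> norm_num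
  · refine ⟨vec k 0 (-12 / 13) (5 / 13), ?_, fun j hj => ?_⟩
    · simp [nn, vec_inner]; norm_num
    · fin_cases j <;> simp [nn, vec_inner] at hj ⊢ <;> norm_num

theorem nn_rel : (15 : ℝ) • (nn k 0 + nn k 1) = (13 : ℝ) • (nn k 2 + nn k 3) := by
  simp only [nn, Matrix.cons_val_zero, Matrix.cons_val_one, Matrix.cons_val]
  rw [vec_add, vec_add, vec_smul, vec_smul]
  congr 1 <;> norm_num

theorem Om_nonempty (k : ℕ) : (Om (nn k)).Nonempty := by
  refine ⟨(1 / 2 : ℝ) • nn k 0, ?_, fun i => ?_⟩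
  · rw [norm_smul, nn_nrm.unit]; norm_num
  · rw [inner_smul_right]
    have h2 : (0 : ℝ) < 7 / 25 := by norm_num
    exact mul_pos (by norm_num) (lt_of_lt_of_le h2 (nn_nrm.ip i 0))

end vectors

end Pool.Agent.W794.Rob
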