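import Pool.Agent.Results.MP_ce9a4f_an.NoBoundState

/-!
# The first Robin eigenfunction

`E k` is `ℝ^k` with its Euclidean norm, `surfaceMeasure m` the `m`-dimensional Hausdorff measure of
`ℝ^(m+1)` normalised to be Lebesgue measure on hyperplanes, `IsSobolev Ω u G T` means: `u` is in
`H¹(Ω)` with weak gradient `G` and boundary trace `T` (all three from the starting file `NoBoundState`).
-/

open MeasureTheory Set
open Pool.Agent.Results.MP_ce9a4f_an.NoBoundState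

namespace Pool.Agent.W794.Rob

/-- the quadratic form `∫_Ω |∇u|² + α ∫_∂Ω u² dσ` of the Robin Laplacian, in terms of the weak
gradient `G` and the trace `T` of `u` -/
noncomputable def robinForm {m : ℕ} (Ω : Set (E (m + 1))) (α : ℝ) (G : E (m + 1) → E (m + 1))
    (T : E (m + 1) → ℝ) : ℝ :=
  (∫ x in Ω, ‖G x‖ ^ 2) + α * ∫ x in frontier Ω, T x ^ 2 ∂(surfaceMeasure m)

/-- `u` is a minimiser of the Robin Rayleigh quotient
`(∫_Ω |∇u|² + α ∫_∂Ω u² dσ) / ∫_Ω u²` over the non zero functions of `H¹(Ω)`. -/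
def IsRobinMinimiser {m : ℕ} (Ω : Set (E (m + 1))) (α : ℝ) (u : E (m + 1) → ℝ) : Prop :=
  ∃ (G : E (m + 1) → E (m + 1)) (T : E (m + 1) → ℝ), IsSobolev Ω u G T ∧
    0 < ∫ x in Ω, u x ^ 2 ∧
    ∀ (u' : E (m + 1) → ℝ) (G' : E (m + 1) → E (m + 1)) (T' : E (m + 1) → ℝ), IsSobolev Ω u' G' T' →
      0 < ∫ x in Ω, u' x ^ 2 →
      robinForm Ω α G T / ∫ x in Ω, u x ^ 2 ≤ robinForm Ω α G' T' / ∫ x in Ω, u' x ^ 2

end Pool.Agent.W794.Rob
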