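import Pool.Agent.W794.Rob1
import Pool.Agent.W794.RobDef

set_option autoImplicit false
set_option linter.all false

open MeasureTheory Set Metric Filter Topology
open scoped ENNReal
open Pool.Agent.Results.MP_ce9a4f_an.NoBoundState

namespace Pool.Agent.W794.Rob

section L2
variable {X : Type*} [MeasurableSpace X] {μ : Measure X}
variable {F : Type*} [NormedAddCommGroup F] [InnerProductSpace ℝ F]

theorem inner_toLp {f g : X → F} (hf : MemLp f 2 μ) (hg : MemLp g 2 μ) :
    inner ℝ (hf.toLp f) (hg.toLp g) = ∫ x, inner ℝ (f x) (g x) ∂μ := by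
  rw [L2.inner_def]
  refine integral_congr_ae ?_
  filter_upwards [hf.coeFn_toLp, hg.coeFn_toLp] with x h1 h2
  rw [h1, h2]

theorem l2_inner {f g : ℕ → X → F} {f0 g0 : X → F} (hf : ∀ k, MemLp (f k) 2 μ) (hf0 : MemLp f0 2 μ)
    (hg : ∀ k, MemLp (g k) 2 μ) (hg0 : MemLp g0 2 μ)
    (h : Tendsto (fun k => eLpNorm (f k - f0) 2 μ) atTop (𝓝 0))
    (h' : Tendsto (fun k => eLpNorm (g k - g0) 2 μ) atTop (𝓝 0)) :
    Tendsto (fun k => ∫ x, inner ℝ (f k x) (g k x) ∂μ) atTop (𝓝 (∫ x, inner ℝ (f0 x) (g0 x) ∂μ)) := by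
  have h1 := (Lp.tendsto_Lp_iff_tendsto_eLpNorm'' f hf f0 hf0).mpr h
  have h2 := (Lp.tendsto_Lp_iff_tendsto_eLpNorm'' g hg g0 hg0).mpr h'
  have h3 := h1.inner (𝕜 := ℝ) h2
  simp only [inner_toLp] at h3
  exact h3

/-- real version -/
theorem l2_mul {f g : ℕ → X → ℝ} {f0 g0 : X → ℝ} (hf : ∀ k, MemLp (f k) 2 μ) (hf0 : MemLp f0 2 μ)
    (hg : ∀ k, MemLp (g k) 2 μ) (hg0 : MemLp g0 2 μ)
    (h : Tendsto (fun k => eLpNorm (f k - f0) 2 μ) atTop (𝓝 0))
    (h' : Tendsto (fun k => eLpNorm (g k - g0) 2 μ) atTop (𝓝 0)) :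
    Tendsto (fun k => ∫ x, f k x * g k x ∂μ) atTop (𝓝 (∫ x, f0 x * g0 x ∂μ)) := by
  have h1 := l2_inner hg hg0 hf hf0 h' h
  simpa [inner] using h1

theorem int_inner {f g : X → F} (hf : MemLp f 2 μ) (hg : MemLp g 2 μ) :
    Integrable (fun x => inner ℝ (f x) (g x)) μ := by
  have h := L2.integrable_inner (𝕜 := ℝ) (hf.toLp f) (hg.toLp g)
  refine h.congr ?_
  filter_upwards [hf.coeFn_toLp, hg.coeFn_toLp] with x h1 h2
  rw [h1, h2]

theorem int_mul {f g : X → ℝ} (hf : MemLp f 2 μ) (hg : MemLp g 2 μ) :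
    Integrable (fun x => f x * g x) μ := hf.integrable_mul hg

theorem int_sq {f : X → F} (hf : MemLp f 2 μ) : Integrable (fun x => ‖f x‖ ^ 2) μ := by
  have := int_inner hf hf
  simpa using this

theorem quad_inner {f g : X → F} (hf : MemLp f 2 μ) (hg : MemLp g 2 μ) (s : ℝ) :
    ∫ x, ‖f x + s • g x‖ ^ 2 ∂μ = (∫ x, ‖f x‖ ^ 2 ∂μ) + 2 * s * (∫ x, inner ℝ (f x) (g x) ∂μ) +
      s ^ 2 * ∫ x, ‖g x‖ ^ 2 ∂μ := by
  have e : ∀ x, ‖f x + s • g x‖ ^ 2 = ‖f x‖ ^ 2 + 2 * s * inner ℝ (f x) (g x) + s ^ 2 * ‖g x‖ ^ 2 := by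
    intro x
    rw [norm_add_sq_real, inner_smul_right, norm_smul, mul_pow, Real.norm_eq_abs, sq_abs]
    ring
  simp only [e]
  rw [integral_add, integral_add, integral_const_mul, integral_const_mul]
  · exact int_sq hf
  · exact (int_inner hf hg).const_mul _
  · exact (int_sq hf).add ((int_inner hf hg).const_mul _)
  · exact (int_sq hg).const_mul _

theorem quad_mul {f g : X → ℝ} (hf : MemLp f 2 μ) (hg : MemLp g 2 μ) (s : ℝ) :
    ∫ x, (f x + s * g x) ^ 2 ∂μ = (∫ x, f x ^ 2 ∂μ) + 2 * s * (∫ x, f x * g x ∂μ) +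
      s ^ 2 * ∫ x, g x ^ 2 ∂μ := by
  have h := quad_inner (F := ℝ) hf hg s
  have e1 : ∀ x, ‖f x + s • g x‖ ^ 2 = (f x + s * g x) ^ 2 := fun x => by simp
  have e2 : ∀ x, inner ℝ (f x) (g x) = f x * g x := fun x => by simp [inner]; ring
  simp only [e1, e2, Real.norm_eq_abs, sq_abs] at h
  exact h

end L2

theorem lin_zero {b c : ℝ} (h : ∀ s : ℝ, 0 ≤ 2 * s * b + s ^ 2 * c) : b = 0 := by
  by_contra hb
  have h1 := h (-(b / (|c| + 1)))
  have hc : 0 < |c| + 1 := by positivity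
  have e : 2 * (-(b / (|c| + 1))) * b + (-(b / (|c| + 1))) ^ 2 * c =
      (b ^ 2 / (|c| + 1) ^ 2) * (c - 2 * (|c| + 1)) := by
    field_simp
    ring
  rw [e] at h1
  have h2 : 0 < b ^ 2 / (|c| + 1) ^ 2 := by positivity
  have h3 : c - 2 * (|c| + 1) < 0 := by
    have := le_abs_self c
    have := abs_nonneg c
    linarith
  have := mul_neg_of_pos_of_neg h2 h3
  linarith

section
variable {m : ℕ}

theorem sob_add {Ω : Set (E (m + 1))} {u : E (m + 1) → ℝ} {G : E (m + 1) → E (m + 1)}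
    {T : E (m + 1) → ℝ} (h : IsSobolev Ω u G T) {ψ : E (m + 1) → ℝ} (h1 : ContDiff ℝ 1 ψ)
    (h2 : HasCompactSupport ψ) (h3 : MemLp ψ 2 ((surfaceMeasure m).restrict (frontier Ω))) (s : ℝ) :
    IsSobolev Ω (fun x => u x + s * ψ x) (fun x => G x + s • gradient ψ x) (fun x => T x + s * ψ x) := by
  have hψ : MemLp ψ 2 (volume.restrict Ω) := (h1.continuous.memLp_of_hasCompactSupport h2).restrict _
  have hgψ : MemLp (gradient ψ) 2 (volume.restrict Ω) :=
    ((continuous_gradient h1).memLp_of_hasCompactSupport (compact_gradient h2)).restrict _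
  obtain ⟨φ, hφ, a1, a2, a3⟩ := h.approx
  have hgr : ∀ k, gradient (fun x => φ k x + s * ψ x) = fun x => gradient (φ k) x + s • gradient ψ x := by
    intro k
    funext x
    have d1 : DifferentiableAt ℝ (φ k) x := (hφ k).1.differentiable (by norm_num) x
    have d2 : DifferentiableAt ℝ ψ x := h1.differentiable (by norm_num) x
    unfold gradient
    rw [show (fun x => φ k x + s * ψ x) = fun x => φ k x + (s • ψ) x from rfl,
      fderiv_fun_add d1 (d2.const_smul s), fderiv_const_smul d2, map_add, map_smul]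
  refine ⟨h.memLp_u.add (hψ.const_mul s), h.memLp_G.add (hgψ.const_smul s),
    h.memLp_T.add (h3.const_mul s), fun k x => φ k x + s * ψ x, fun k => ⟨?_, ?_⟩, ?_, ?_, ?_⟩
  · exact (hφ k).1.add (contDiff_const.mul h1)
  · exact (hφ k).2.add (h2.mul_left)
  · refine a1.congr fun k => ?_
    congr 1
    funext x
    simp
  · refine a2.congr fun k => ?_
    congr 1
    rw [hgr]
    funext x
    simp
  · refine a3.congr fun k => ?_
    congr 1
    funext x
    simp

/-- the weak equation -/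
theorem weak_eq {Ω : Set (E (m + 1))} {α : ℝ} (hα : 0 < α) {u : E (m + 1) → ℝ}
    (hu : IsRobinMinimiser Ω α u) : ∃ (G : E (m + 1) → E (m + 1)) (T : E (m + 1) → ℝ) (lam : ℝ),
      IsSobolev Ω u G T ∧ 0 ≤ lam ∧
      ∀ ψ : E (m + 1) → ℝ, ContDiff ℝ 1 ψ → HasCompactSupport ψ →
        MemLp ψ 2 ((surfaceMeasure m).restrict (frontier Ω)) →
        (∫ x in Ω, inner ℝ (G x) (gradient ψ x)) +
          α * (∫ x in frontier Ω, T x * ψ x ∂(surfaceMeasure m)) = lam * ∫ x in Ω, u x * ψ x := by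
  obtain ⟨G, T, hS, hN, hmin⟩ := hu
  refine ⟨G, T, robinForm Ω α G T / ∫ x in Ω, u x ^ 2, hS, ?_, fun ψ h1 h2 h3 => ?_⟩
  · refine div_nonneg ?_ hN.le
    unfold robinForm
    refine add_nonneg (integral_nonneg fun _ => by positivity)
      (mul_nonneg hα.le (integral_nonneg fun _ => by positivity))
  · have hψ : MemLp ψ 2 (volume.restrict Ω) := (h1.continuous.memLp_of_hasCompactSupport h2).restrict _
    have hgψ : MemLp (gradient ψ) 2 (volume.restrict Ω) :=
      ((continuous_gradient h1).memLp_of_hasCompactSupport (compact_gradient h2)).restrict _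
    set N := ∫ x in Ω, u x ^ 2 with hNd
    set Q := robinForm Ω α G T with hQ
    set a := ∫ x in Ω, inner ℝ (G x) (gradient ψ x) with ha
    set b := ∫ x in frontier Ω, T x * ψ x ∂(surfaceMeasure m) with hb
    set c := ∫ x in Ω, u x * ψ x with hc
    have key : ∀ s : ℝ, 0 ≤ 2 * s * ((a + α * b) * N - Q * c) + s ^ 2 *
        (((∫ x in Ω, ‖gradient ψ x‖ ^ 2) + α * ∫ x in frontier Ω, ψ x ^ 2 ∂(surfaceMeasure m)) * N -
          Q * ∫ x in Ω, ψ x ^ 2) := by
      intro s
      have hS' := sob_add hS h1 h2 h3 s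
      have e1 := quad_inner hS.memLp_G hgψ s
      have e2 := quad_mul hS.memLp_T h3 s
      have e3 := quad_mul hS.memLp_u hψ s
      have hQ' : robinForm Ω α (fun x => G x + s • gradient ψ x) (fun x => T x + s * ψ x) =
          Q + 2 * s * (a + α * b) + s ^ 2 *
          ((∫ x in Ω, ‖gradient ψ x‖ ^ 2) + α * ∫ x in frontier Ω, ψ x ^ 2 ∂(surfaceMeasure m)) := by
        unfold robinForm
        rw [e1, e2, hQ, robinForm]
        ring
      have hN0 : 0 ≤ ∫ x in Ω, (u x + s * ψ x) ^ 2 := integral_nonneg fun _ => by positivity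
      have hle : Q * (∫ x in Ω, (u x + s * ψ x) ^ 2) ≤
          robinForm Ω α (fun x => G x + s • gradient ψ x) (fun x => T x + s * ψ x) * N := by
        rcases hN0.eq_or_lt with h0 | h0
        · rw [← h0, mul_zero]
          refine mul_nonneg ?_ hN.le
          unfold robinForm
          exact add_nonneg (integral_nonneg fun _ => by positivity)
            (mul_nonneg hα.le (integral_nonneg fun _ => by positivity))
        · have := hmin _ _ _ hS' h0
          rwa [div_le_div_iff₀ hN h0] at this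
      rw [e3, hQ'] at hle
      nlinarith
    have h0 := lin_zero key
    rw [div_mul_eq_mul_div, eq_div_iff hN.ne']
    linarith

end

end Pool.Agent.W794.Rob
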