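import Pool.Agent.W794.Rob2

set_option autoImplicit false
set_option linter.all false

open MeasureTheory Set Metric Filter Topology
open scoped ENNReal
open Pool.Agent.Results.MP_ce9a4f_an.NoBoundState

namespace Pool.Agent.W794.Rob

/-- unit vectors with positive inner products -/
structure Nrm {m : ℕ} {ι : Type} (n : ι → E (m + 1)) (c0 : ℝ) : Prop where
  unit : ∀ i, ‖n i‖ = 1
  pos : 0 < c0
  ip : ∀ i j, c0 ≤ inner ℝ (n i) (n j)
  inj : Function.Injective n

/-- the domain -/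
def Om {m : ℕ} {ι : Type} (n : ι → E (m + 1)) : Set (E (m + 1)) :=
  {x | ‖x‖ < 1 ∧ ∀ i, 0 < inner ℝ (n i) x}

/-- the open cone -/
def KK {m : ℕ} {ι : Type} (n : ι → E (m + 1)) : Set (E (m + 1)) :=
  {x | ∀ i, 0 < inner ℝ (n i) x}

/-- neighbourhood of the open face `i` -/
def UU {m : ℕ} {ι : Type} (n : ι → E (m + 1)) (i : ι) : Set (E (m + 1)) :=
  {x | ‖x‖ < 1 ∧ ∀ j, j ≠ i → 0 < inner ℝ (n j) x}

section
variable {m : ℕ} {ι : Type} [Fintype ι] {n : ι → E (m + 1)} {c0 : ℝ}

theorem KK_open (n : ι → E (m + 1)) : IsOpen (KK n) := by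
  have : KK n = ⋂ i, {x | 0 < inner ℝ (n i) x} := by ext x; simp [KK]
  rw [this]
  exact isOpen_iInter_of_finite fun i => isOpen_lt continuous_const (by fun_prop)

theorem Om_eq (n : ι → E (m + 1)) : Om n = ball 0 1 ∩ KK n := by
  ext x; simp [Om, KK]

theorem Om_open (n : ι → E (m + 1)) : IsOpen (Om n) := by
  rw [Om_eq]; exact isOpen_ball.inter (KK_open n)

theorem KK_convex (n : ι → E (m + 1)) : Convex ℝ (KK n) := by
  have : KK n = ⋂ i, {x | 0 < inner ℝ (n i) x} := by ext x; simp [KK]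
  rw [this]
  refine convex_iInter fun i => ?_
  exact convex_halfSpace_gt (IsLinearMap.mk (fun x y => inner_add_right _ _ _)
    (fun c x => by rw [inner_smul_right]; rfl)) 0

theorem Om_convex (n : ι → E (m + 1)) : Convex ℝ (Om n) := by
  rw [Om_eq]; exact (convex_ball _ _).inter (KK_convex n)

theorem UU_open (n : ι → E (m + 1)) (i : ι) : IsOpen (UU n i) := by
  have : UU n i = ball 0 1 ∩ ⋂ j, {x | j ≠ i → 0 < inner ℝ (n j) x} := by
    ext x; simp [UU]
  rw [this]
  refine isOpen_ball.inter (isOpen_iInter_of_finite fun j => ?_)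
  by_cases hj : j = i
  · have : {x : E (m + 1) | j ≠ i → 0 < inner ℝ (n j) x} = univ := by ext x; simp [hj]
    rw [this]; exact isOpen_univ
  · have : {x : E (m + 1) | j ≠ i → 0 < inner ℝ (n j) x} = {x | 0 < inner ℝ (n j) x} := by
      ext x; simp [hj]
    rw [this]; exact isOpen_lt continuous_const (by fun_prop)

theorem Om_inter_UU (n : ι → E (m + 1)) (i : ι) : Om n ∩ UU n i = HS (n i) ∩ UU n i := by
  ext x
  simp only [mem_inter_iff, Om, UU, HS, mem_setOf_eq]
  constructor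
  · rintro ⟨⟨h1, h2⟩, h3, h4⟩
    exact ⟨h2 i, h3, h4⟩
  · rintro ⟨h1, h3, h4⟩
    refine ⟨⟨h3, fun j => ?_⟩, h3, h4⟩
    by_cases hj : j = i
    · rw [hj]; exact h1
    · exact h4 j hj

theorem closure_Om (n : ι → E (m + 1)) {x : E (m + 1)} (hx : x ∈ closure (Om n)) (i : ι) :
    0 ≤ inner ℝ (n i) x := by
  have h1 : IsClosed {x : E (m + 1) | 0 ≤ inner ℝ (n i) x} := isClosed_le continuous_const (by fun_prop)
  have h2 : closure (Om n) ⊆ {x : E (m + 1) | 0 ≤ inner ℝ (n i) x} :=
    closure_minimal (fun y hy => (hy.2 i).le) h1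
  exact h2 hx

theorem frontier_sub (n : ι → E (m + 1)) {x : E (m + 1)} (hx : x ∈ frontier (Om n)) (h1 : ‖x‖ < 1) :
    ∃ i, x ∈ HP (n i) := by
  rw [frontier, (Om_open n).interior_eq] at hx
  by_contra hcon
  push Not at hcon
  apply hx.2
  refine ⟨h1, fun i => ?_⟩
  exact lt_of_le_of_ne (closure_Om n hx.1 i) (fun h => hcon i h.symm)

theorem frontier_UU (hn : Nrm n c0) (i : ι) : frontier (Om n) ∩ UU n i = HP (n i) ∩ UU n i := by
  ext x
  constructor
  · rintro ⟨h1, h2⟩
    obtain ⟨j, hj⟩ := frontier_sub n h1 h2.1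
    by_cases hji : j = i
    · rw [hji] at hj; exact ⟨hj, h2⟩
    · have := h2.2 j hji
      have hj' : inner ℝ (n j) x = 0 := hj
      linarith
  · rintro ⟨h1, h2⟩
    refine ⟨?_, h2⟩
    have h1' : inner ℝ (n i) x = 0 := h1
    rw [frontier, (Om_open n).interior_eq]
    refine ⟨?_, fun h => ?_⟩
    · rw [mem_closure_iff_nhds]
      intro W hW
      have hc : Continuous fun t : ℝ => x + t • n i := by fun_prop
      have h3 : ∀ᶠ t : ℝ in 𝓝 0, x + t • n i ∈ W ∩ UU n i := by
        refine hc.continuousAt.eventually (Filter.inter_mem ?_ ?_)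
        · simpa using hW
        · simpa using (UU_open n i).mem_nhds h2
      obtain ⟨δ, hδ, hδ'⟩ := Metric.eventually_nhds_iff_ball.1 h3
      have h4 := hδ' (δ / 2) (by rw [mem_ball, Real.dist_eq, sub_zero, abs_of_pos (by positivity)]; linarith)
      refine ⟨_, h4.1, ?_⟩
      have h5 : x + (δ / 2) • n i ∈ HS (n i) ∩ UU n i := by
        refine ⟨?_, h4.2⟩
        show 0 < inner ℝ (n i) (x + (δ / 2) • n i)
        rw [inner_add_right, h1', inner_smul_right, real_inner_self_eq_norm_sq, hn.unit]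
        norm_num; exact hδ
      rw [← Om_inter_UU] at h5
      exact h5.1
    · have := h.2 i
      linarith

/-- the divergence formula near a face -/
theorem face_formula (hn : Nrm n c0) (i : ι) {Ψ : E (m + 1) → ℝ} (hΨ : ContDiff ℝ 1 Ψ)
    (hc : HasCompactSupport Ψ) (hs : tsupport Ψ ⊆ UU n i) :
    ∫ x in frontier (Om n), Ψ x ∂(surfaceMeasure m) = - ∫ x in Om n, fderiv ℝ Ψ x (n i) := by
  have hz : ∀ x, x ∉ UU n i → Ψ x = 0 := fun x hx => by
    by_contra h
    exact hx (hs (subset_tsupport _ h))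
  have hz' : ∀ x, x ∉ UU n i → fderiv ℝ Ψ x (n i) = 0 := fun x hx => by
    have : fderiv ℝ Ψ x = 0 := by
      by_contra h
      exact hx (hs ((support_fderiv_subset ℝ (f := Ψ)) h))
    rw [this]; simp
  have hHP : IsClosed (HP (n i)) := isClosed_eq (by fun_prop) continuous_const
  have hHS : IsOpen (HS (n i)) := isOpen_lt continuous_const (by fun_prop)
  have e1 : ∫ x in frontier (Om n), Ψ x ∂(surfaceMeasure m) =
      ∫ x in frontier (Om n) ∩ UU n i, Ψ x ∂(surfaceMeasure m) :=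
    setIntegral_eq_of_subset_of_forall_sdiff_eq_zero isClosed_frontier.measurableSet inter_subset_left
      (fun x hx => hz x fun h => hx.2 ⟨hx.1, h⟩)
  have e2 : ∫ x in HP (n i), Ψ x ∂(surfaceMeasure m) =
      ∫ x in HP (n i) ∩ UU n i, Ψ x ∂(surfaceMeasure m) :=
    setIntegral_eq_of_subset_of_forall_sdiff_eq_zero hHP.measurableSet inter_subset_left
      (fun x hx => hz x fun h => hx.2 ⟨hx.1, h⟩)
  have e3 : ∫ x in Om n, fderiv ℝ Ψ x (n i) = ∫ x in Om n ∩ UU n i, fderiv ℝ Ψ x (n i) :=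
    setIntegral_eq_of_subset_of_forall_sdiff_eq_zero (Om_open n).measurableSet inter_subset_left
      (fun x hx => hz' x fun h => hx.2 ⟨hx.1, h⟩)
  have e4 : ∫ x in HS (n i), fderiv ℝ Ψ x (n i) = ∫ x in HS (n i) ∩ UU n i, fderiv ℝ Ψ x (n i) :=
    setIntegral_eq_of_subset_of_forall_sdiff_eq_zero hHS.measurableSet inter_subset_left
      (fun x hx => hz' x fun h => hx.2 ⟨hx.1, h⟩)
  rw [e1, frontier_UU hn, ← e2, hs_formula (hn.unit i) hΨ hc, e4, ← Om_inter_UU, ← e3]

theorem surf_fin' (hn : Nrm n c0) : surfaceMeasure m (frontier (Om n) ∩ ball 0 1) < ⊤ := by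
  have h1 : frontier (Om n) ∩ ball 0 1 ⊆ ⋃ i, (HP (n i) ∩ closedBall 0 1) := by
    rintro x ⟨h1, h2⟩
    obtain ⟨i, hi⟩ := frontier_sub n h1 (mem_ball_zero_iff.1 h2)
    exact mem_iUnion.2 ⟨i, hi, ball_subset_closedBall h2⟩
  refine lt_of_le_of_lt (measure_mono h1) ?_
  refine lt_of_le_of_lt (measure_iUnion_fintype_le _ _) ?_
  exact ENNReal.sum_lt_top.2 fun i _ => surf_fin (hn.unit i) 1

/-- compactly supported continuous functions in the unit ball are square integrable on the boundary -/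
theorem memLp_bd (hn : Nrm n c0) {ψ : E (m + 1) → ℝ} (h1 : Continuous ψ) (h2 : HasCompactSupport ψ)
    (h3 : tsupport ψ ⊆ ball 0 1) : MemLp ψ 2 ((surfaceMeasure m).restrict (frontier (Om n))) := by
  have e : ψ = (ball (0 : E (m + 1)) 1).indicator ψ := by
    funext x
    by_cases hx : x ∈ ball (0 : E (m + 1)) 1
    · rw [indicator_of_mem hx]
    · rw [indicator_of_notMem hx]
      by_contra h
      exact hx (h3 (subset_tsupport _ h))
  rw [e, memLp_indicator_iff_restrict isOpen_ball.measurableSet, Measure.restrict_restrict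
    isOpen_ball.measurableSet]
  obtain ⟨C, hC⟩ := h1.bounded_above_of_compact_support h2
  have hfin : IsFiniteMeasure ((surfaceMeasure m).restrict (ball 0 1 ∩ frontier (Om n))) := by
    refine ⟨?_⟩
    rw [Measure.restrict_apply_univ, inter_comm]
    exact surf_fin' hn
  exact MemLp.of_bound h1.aestronglyMeasurable C (Filter.Eventually.of_forall hC)

end

end Pool.Agent.W794.Rob
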