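import Pool.Agent.W794.Rob3

set_option autoImplicit false
set_option linter.all false

open MeasureTheory Set Metric Filter Topology
open scoped ENNReal
open Pool.Agent.Results.MP_ce9a4f_an.NoBoundState

namespace Pool.Agent.W794.Rob

theorem lim_prod {X : Type*} [MeasurableSpace X] {μ : Measure X}
    {F : Type*} [NormedAddCommGroup F] [InnerProductSpace ℝ F] {f : ℕ → X → F} {f0 g : X → F}
    (hf : ∀ k, MemLp (f k) 2 μ) (hf0 : MemLp f0 2 μ) (hg : MemLp g 2 μ)
    (h : Tendsto (fun k => eLpNorm (f k - f0) 2 μ) atTop (𝓝 0)) {w : ℕ → X → ℝ} {w0 : X → ℝ}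
    {C : ℝ} (hw : ∀ k, AEStronglyMeasurable (w k) μ) (hC : ∀ k x, |w k x| ≤ C)
    (hl : ∀ᵐ x ∂μ, Tendsto (fun k => w k x) atTop (𝓝 (w0 x))) :
    Tendsto (fun k => ∫ x, inner ℝ (f k x) (g x) * w k x ∂μ) atTop
      (𝓝 (∫ x, inner ℝ (f0 x) (g x) * w0 x ∂μ)) := by
  have hC0 : 0 ≤ C ∨ IsEmpty X := by
    by_cases hX : Nonempty X
    · left; obtain ⟨x⟩ := hX; exact (abs_nonneg _).trans (hC 0 x)
    · right; exact not_nonempty_iff.1 hX
  rcases hC0 with hC0 | hX
  swap
  · have : ∀ (a : X → ℝ), ∫ x, a x ∂μ = 0 := fun a => by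
      have : μ = 0 := Measure.eq_zero_of_isEmpty μ
      rw [this, integral_zero_measure]
    simp [this]
  have hd : ∀ k, MemLp (f k - f0) 2 μ := fun k => (hf k).sub hf0
  have hi1 : ∀ k, Integrable (fun x => inner ℝ (f k x) (g x) * w k x) μ := fun k => by
    refine ((int_inner (hf k) hg).bdd_mul (c := C) (hw k)
      (Filter.Eventually.of_forall fun x => by rw [Real.norm_eq_abs]; exact hC k x)).congr ?_
    exact Filter.Eventually.of_forall fun x => mul_comm _ _
  have hi2 : ∀ k, Integrable (fun x => inner ℝ (f0 x) (g x) * w k x) μ := fun k => by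
    refine ((int_inner hf0 hg).bdd_mul (c := C) (hw k)
      (Filter.Eventually.of_forall fun x => by rw [Real.norm_eq_abs]; exact hC k x)).congr ?_
    exact Filter.Eventually.of_forall fun x => mul_comm _ _
  -- dominated convergence part
  have h1 : Tendsto (fun k => ∫ x, inner ℝ (f0 x) (g x) * w k x ∂μ) atTop
      (𝓝 (∫ x, inner ℝ (f0 x) (g x) * w0 x ∂μ)) := by
    refine tendsto_integral_of_dominated_convergence (fun x => |inner ℝ (f0 x) (g x)| * C)
      (fun k => (hi2 k).aestronglyMeasurable) ((int_inner hf0 hg).abs.mul_const C) ?_ ?_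
    · intro k
      refine Filter.Eventually.of_forall fun x => ?_
      rw [Real.norm_eq_abs, abs_mul]
      exact mul_le_mul_of_nonneg_left (hC k x) (abs_nonneg _)
    · filter_upwards [hl] with x hx
      exact hx.const_mul _
  -- the difference
  have h2 : Tendsto (fun k => ∫ x, ‖f k x - f0 x‖ * ‖g x‖ ∂μ) atTop (𝓝 0) := by
    have h3 := l2_mul (f := fun k x => ‖f k x - f0 x‖) (g := fun _ x => ‖g x‖) (f0 := fun _ => (0 : ℝ))
      (g0 := fun x => ‖g x‖) (fun k => (hd k).norm) MemLp.zero (fun _ => hg.norm) hg.norm ?_ ?_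
    · simpa using h3
    · refine h.congr fun k => ?_
      have e : (fun x => ‖f k x - f0 x‖) - (fun _ => (0 : ℝ)) = fun x => ‖(f k - f0) x‖ := by
        funext x; simp
      rw [e, eLpNorm_norm]
    · simp
  have h4 : Tendsto (fun k => ∫ x, inner ℝ (f k x) (g x) * w k x ∂μ -
      ∫ x, inner ℝ (f0 x) (g x) * w k x ∂μ) atTop (𝓝 0) := by
    refine squeeze_zero_norm (fun k => ?_) (by simpa using h2.const_mul C)
    rw [← integral_sub (hi1 k) (hi2 k), ← integral_const_mul]
    refine norm_integral_le_of_norm_le (((hd k).norm.integrable_mul hg.norm).const_mul C) ?_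
    refine Filter.Eventually.of_forall fun x => ?_
    rw [← sub_mul, ← inner_sub_left, norm_mul, Real.norm_eq_abs, Real.norm_eq_abs, mul_comm]
    refine mul_le_mul (hC k x) ?_ (abs_nonneg _) hC0
    exact abs_real_inner_le_norm _ _
  have h5 := h4.add h1
  simpa using h5

/-- weak solutions with smooth approximations -/
structure WS {m : ℕ} {ι : Type} (n : ι → E (m + 1)) (α lam : ℝ) (u : E (m + 1) → ℝ)
    (G : E (m + 1) → E (m + 1)) (T : E (m + 1) → ℝ) (φ : ℕ → E (m + 1) → ℝ) : Prop where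
  α0 : 0 < α
  lam0 : 0 ≤ lam
  mu : MemLp u 2 (volume.restrict (Om n))
  mG : MemLp G 2 (volume.restrict (Om n))
  mT : MemLp T 2 ((surfaceMeasure m).restrict (frontier (Om n)))
  φ1 : ∀ k, ContDiff ℝ 1 (φ k)
  φ2 : ∀ k, HasCompactSupport (φ k)
  cu : Tendsto (fun k => eLpNorm (φ k - u) 2 (volume.restrict (Om n))) atTop (𝓝 0)
  cG : Tendsto (fun k => eLpNorm (gradient (φ k) - G) 2 (volume.restrict (Om n))) atTop (𝓝 0)
  cT : Tendsto (fun k => eLpNorm (φ k - T) 2 ((surfaceMeasure m).restrict (frontier (Om n)))) atTop (𝓝 0)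
  au : ∀ᵐ x ∂(volume.restrict (Om n)), Tendsto (fun k => φ k x) atTop (𝓝 (u x))
  aT : ∀ᵐ x ∂((surfaceMeasure m).restrict (frontier (Om n))), Tendsto (fun k => φ k x) atTop (𝓝 (T x))
  we : ∀ ψ : E (m + 1) → ℝ, ContDiff ℝ 1 ψ → HasCompactSupport ψ → tsupport ψ ⊆ ball 0 1 →
        (∫ x in Om n, inner ℝ (G x) (gradient ψ x)) +
          α * (∫ x in frontier (Om n), T x * ψ x ∂(surfaceMeasure m)) = lam * ∫ x in Om n, u x * ψ x

theorem exists_WS {m : ℕ} {ι : Type} [Fintype ι] {n : ι → E (m + 1)} {c0 : ℝ} (hn : Nrm n c0)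
    {α : ℝ} (hα : 0 < α) {u : E (m + 1) → ℝ} (hu : IsRobinMinimiser (Om n) α u) :
    ∃ (lam : ℝ) (G : E (m + 1) → E (m + 1)) (T : E (m + 1) → ℝ) (φ : ℕ → E (m + 1) → ℝ),
      WS n α lam u G T φ := by
  obtain ⟨G, T, lam, hS, hlam, hwe⟩ := weak_eq hα hu
  obtain ⟨φ, hφ, a1, a2, a3⟩ := hS.approx
  have hm1 : TendstoInMeasure (volume.restrict (Om n)) φ atTop u :=
    tendstoInMeasure_of_tendsto_eLpNorm (p := 2) (by norm_num)
      (fun k => (hφ k).1.continuous.aestronglyMeasurable) hS.memLp_u.aestronglyMeasurable a1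
  obtain ⟨ns, hns, hae⟩ := hm1.exists_seq_tendsto_ae
  have a3' := a3.comp hns.tendsto_atTop
  have hm2 : TendstoInMeasure ((surfaceMeasure m).restrict (frontier (Om n))) (fun k => φ (ns k)) atTop T :=
    tendstoInMeasure_of_tendsto_eLpNorm (p := 2) (by norm_num)
      (fun k => (hφ _).1.continuous.aestronglyMeasurable) hS.memLp_T.aestronglyMeasurable a3'
  obtain ⟨ms, hms, hae2⟩ := hm2.exists_seq_tendsto_ae
  refine ⟨lam, G, T, fun k => φ (ns (ms k)), hα, hlam, hS.memLp_u, hS.memLp_G, hS.memLp_T,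
    fun k => (hφ _).1, fun k => (hφ _).2, ?_, ?_, ?_, ?_, ?_, ?_⟩
  · exact (a1.comp hns.tendsto_atTop).comp hms.tendsto_atTop
  · exact (a2.comp hns.tendsto_atTop).comp hms.tendsto_atTop
  · exact (a3.comp hns.tendsto_atTop).comp hms.tendsto_atTop
  · filter_upwards [hae] with x hx using hx.comp hms.tendsto_atTop
  · exact hae2
  · intro ψ h1 h2 h3
    exact hwe ψ h1 h2 (memLp_bd hn h1.continuous h2 h3)

section
variable {m : ℕ} {ι : Type} [Fintype ι] {n : ι → E (m + 1)} {c0 : ℝ}
  {α lam : ℝ} {u : E (m + 1) → ℝ} {G : E (m + 1) → E (m + 1)} {T : E (m + 1) → ℝ}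
  {φ : ℕ → E (m + 1) → ℝ}

theorem gradient_memLp {ψ : E (m + 1) → ℝ} (h1 : ContDiff ℝ 1 ψ) (h2 : HasCompactSupport ψ)
    (s : Set (E (m + 1))) : MemLp (gradient ψ) 2 (volume.restrict s) :=
  ((continuous_gradient h1).memLp_of_hasCompactSupport (compact_gradient h2)).restrict _

theorem fn_memLp {ψ : E (m + 1) → ℝ} (h1 : Continuous ψ) (h2 : HasCompactSupport ψ)
    (s : Set (E (m + 1))) : MemLp ψ 2 (volume.restrict s) :=
  (h1.memLp_of_hasCompactSupport h2).restrict _

theorem gradient_inner (ψ : E (m + 1) → ℝ) (x v : E (m + 1)) :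
    inner ℝ (gradient ψ x) v = fderiv ℝ ψ x v := by
  rw [gradient, InnerProductSpace.toDual_symm_apply]

/-- testing with `ζ θ(u)` -/
theorem test_theta (hn : Nrm n c0) (w : WS n α lam u G T φ) {θ θ' : ℝ → ℝ} {C C' : ℝ}
    (hθ : ∀ s, HasDerivAt θ (θ' s) s) (hθ' : Continuous θ') (hC : ∀ s, |θ s| ≤ C)
    (hC' : ∀ s, |θ' s| ≤ C') {ζ : E (m + 1) → ℝ} (h1 : ContDiff ℝ 1 ζ) (h2 : HasCompactSupport ζ)
    (h3 : tsupport ζ ⊆ ball 0 1) :
    (∫ x in Om n, inner ℝ (G x) (gradient ζ x) * θ (u x)) +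
      (∫ x in Om n, ‖G x‖ ^ 2 * (θ' (u x) * ζ x)) +
      α * (∫ x in frontier (Om n), T x * ζ x * θ (T x) ∂(surfaceMeasure m)) =
      lam * ∫ x in Om n, u x * ζ x * θ (u x) := by
  have hθ1 : ContDiff ℝ 1 θ := by
    rw [contDiff_one_iff_deriv]
    refine ⟨fun s => (hθ s).differentiableAt, ?_⟩
    have : deriv θ = θ' := by funext s; exact (hθ s).deriv
    rw [this]; exact hθ'
  obtain ⟨D, hD⟩ := h1.continuous.bounded_above_of_compact_support h2
  have hζL : MemLp ζ 2 (volume.restrict (Om n)) := fn_memLp h1.continuous h2 _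
  have hζb : MemLp ζ 2 ((surfaceMeasure m).restrict (frontier (Om n))) := memLp_bd hn h1.continuous h2 h3
  have hgζ := gradient_memLp h1 h2 (Om n)
  have hgφ : ∀ k, MemLp (gradient (φ k)) 2 (volume.restrict (Om n)) := fun k =>
    gradient_memLp (w.φ1 k) (w.φ2 k) _
  -- the test functions
  have hgr : ∀ k x, gradient (fun x => ζ x * θ (φ k x)) x =
      θ (φ k x) • gradient ζ x + (ζ x * θ' (φ k x)) • gradient (φ k) x := by
    intro k x
    have d1 : HasFDerivAt ζ (fderiv ℝ ζ x) x := (h1.differentiable (by norm_num) x).hasFDerivAt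
    have d2 : HasFDerivAt (φ k) (fderiv ℝ (φ k) x) x :=
      ((w.φ1 k).differentiable (by norm_num) x).hasFDerivAt
    have d3 : HasFDerivAt (fun x => θ (φ k x)) (θ' (φ k x) • fderiv ℝ (φ k) x) x :=
      (hθ (φ k x)).comp_hasFDerivAt x d2
    have d4 := d1.fun_mul d3
    unfold gradient
    rw [d4.fderiv, map_add, map_smul, map_smul, map_smul, mul_smul, add_comm (ζ x • _)]
  have hwe : ∀ k, (∫ x in Om n, inner ℝ (G x) (gradient ζ x) * θ (φ k x)) +
      (∫ x in Om n, inner ℝ (gradient (φ k) x) (G x) * (θ' (φ k x) * ζ x)) +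
      α * (∫ x in frontier (Om n), T x * ζ x * θ (φ k x) ∂(surfaceMeasure m)) =
      lam * ∫ x in Om n, u x * ζ x * θ (φ k x) := by
    intro k
    have hts : tsupport (fun x => ζ x * θ (φ k x)) ⊆ ball 0 1 := (tsupport_mul_subset_left).trans h3
    have h4 := w.we (fun x => ζ x * θ (φ k x)) (h1.mul (hθ1.comp (w.φ1 k))) h2.mul_right hts
    simp only [hgr] at h4
    have e1 : ∀ x, inner ℝ (G x) (θ (φ k x) • gradient ζ x + (ζ x * θ' (φ k x)) • gradient (φ k) x) =
        inner ℝ (G x) (gradient ζ x) * θ (φ k x) +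
          inner ℝ (gradient (φ k) x) (G x) * (θ' (φ k x) * ζ x) := by
      intro x
      rw [inner_add_right, inner_smul_right, inner_smul_right, real_inner_comm (G x) (gradient (φ k) x)]
      ring
    simp only [e1] at h4
    rw [integral_add] at h4
    · have e2 : ∀ x, T x * (ζ x * θ (φ k x)) = T x * ζ x * θ (φ k x) := fun x => by ring
      have e3 : ∀ x, u x * (ζ x * θ (φ k x)) = u x * ζ x * θ (φ k x) := fun x => by ring
      simp only [e2, e3] at h4
      exact h4
    · refine ((int_inner w.mG hgζ).bdd_mul (c := C) ?_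
        (Filter.Eventually.of_forall fun x => by rw [Real.norm_eq_abs]; exact hC (φ k x))).congr
        (Filter.Eventually.of_forall fun x => mul_comm _ _)
      exact (hθ1.continuous.comp (w.φ1 k).continuous).aestronglyMeasurable
    · refine ((int_inner (hgφ k) w.mG).bdd_mul (c := C' * D) ?_
        (Filter.Eventually.of_forall fun x => ?_)).congr
        (Filter.Eventually.of_forall fun x => mul_comm _ _)
      · exact ((hθ'.comp (w.φ1 k).continuous).mul h1.continuous).aestronglyMeasurable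
      · rw [norm_mul, Real.norm_eq_abs]
        exact mul_le_mul (hC' _) (hD x) (norm_nonneg _) ((abs_nonneg _).trans (hC' 0))
  -- limits
  have l1 : Tendsto (fun k => ∫ x in Om n, inner ℝ (G x) (gradient ζ x) * θ (φ k x)) atTop
      (𝓝 (∫ x in Om n, inner ℝ (G x) (gradient ζ x) * θ (u x))) := by
    refine lim_prod (f := fun _ => G) (fun _ => w.mG) w.mG hgζ (by simp) (C := C)
      (fun k => (hθ1.continuous.comp (w.φ1 k).continuous).aestronglyMeasurable) (fun k x => hC _) ?_
    filter_upwards [w.au] with x hx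
    exact (hθ1.continuous.tendsto _).comp hx
  have l2 : Tendsto (fun k => ∫ x in Om n, inner ℝ (gradient (φ k) x) (G x) * (θ' (φ k x) * ζ x)) atTop
      (𝓝 (∫ x in Om n, inner ℝ (G x) (G x) * (θ' (u x) * ζ x))) := by
    refine lim_prod hgφ w.mG w.mG w.cG (C := C' * D)
      (fun k => ((hθ'.comp (w.φ1 k).continuous).mul h1.continuous).aestronglyMeasurable)
      (fun k x => ?_) ?_
    · rw [abs_mul]
      exact mul_le_mul (hC' _) (hD x) (abs_nonneg _) ((abs_nonneg _).trans (hC' 0))
    · filter_upwards [w.au] with x hx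
      exact ((hθ'.tendsto _).comp hx).mul_const _
  have l3 : Tendsto (fun k => ∫ x in frontier (Om n), T x * ζ x * θ (φ k x) ∂(surfaceMeasure m)) atTop
      (𝓝 (∫ x in frontier (Om n), T x * ζ x * θ (T x) ∂(surfaceMeasure m))) := by
    have h5 := lim_prod (μ := (surfaceMeasure m).restrict (frontier (Om n))) (F := ℝ)
      (f := fun _ => T) (f0 := T) (g := ζ) (fun _ => w.mT) w.mT hζb (by simp) (C := C)
      (w := fun k x => θ (φ k x)) (w0 := fun x => θ (T x))
      (fun k => (hθ1.continuous.comp (w.φ1 k).continuous).aestronglyMeasurable) (fun k x => hC _) ?_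
    · have e : ∀ x, inner ℝ (T x) (ζ x) = T x * ζ x := fun x => by simp [inner]; ring
      simp only [e] at h5
      exact h5
    · filter_upwards [w.aT] with x hx
      exact (hθ1.continuous.tendsto _).comp hx
  have l4 : Tendsto (fun k => ∫ x in Om n, u x * ζ x * θ (φ k x)) atTop
      (𝓝 (∫ x in Om n, u x * ζ x * θ (u x))) := by
    have h5 := lim_prod (μ := volume.restrict (Om n)) (F := ℝ)
      (f := fun _ => u) (f0 := u) (g := ζ) (fun _ => w.mu) w.mu hζL (by simp) (C := C)
      (w := fun k x => θ (φ k x)) (w0 := fun x => θ (u x))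
      (fun k => (hθ1.continuous.comp (w.φ1 k).continuous).aestronglyMeasurable) (fun k x => hC _) ?_
    · have e : ∀ x, inner ℝ (u x) (ζ x) = u x * ζ x := fun x => by simp [inner]; ring
      simp only [e] at h5
      exact h5
    · filter_upwards [w.au] with x hx
      exact (hθ1.continuous.tendsto _).comp hx
  have h6 := tendsto_nhds_unique (((l1.add l2).add (l3.const_mul α)).congr hwe) (l4.const_mul lam)
  simp only [real_inner_self_eq_norm_sq] at h6
  exact h6

/-- chain rule in the interior -/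
theorem chain (w : WS n α lam u G T φ) {L L' : ℝ → ℝ} {C : ℝ}
    (hL : ∀ s, HasDerivAt L (L' s) s) (hL' : Continuous L') (hC : ∀ s, |L' s| ≤ C)
    {κ : E (m + 1) → ℝ} (h1 : ContDiff ℝ 1 κ) (h2 : HasCompactSupport κ)
    (h3 : tsupport κ ⊆ Om n) (e : E (m + 1)) :
    ∫ x in Om n, inner ℝ (G x) (κ x • e) * L' (u x) = - ∫ x in Om n, L (u x) * fderiv ℝ κ x e := by
  have hL1 : ContDiff ℝ 1 L := by
    rw [contDiff_one_iff_deriv]
    refine ⟨fun s => (hL s).differentiableAt, ?_⟩
    have : deriv L = L' := by funext s; exact (hL s).deriv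
    rw [this]; exact hL'
  have hLip : ∀ a b, |L a - L b| ≤ C * |a - b| := by
    intro a b
    have := Convex.norm_image_sub_le_of_norm_hasDerivWithin_le (f := L) (f' := L') (s := univ)
      (C := C) (fun x _ => (hL x).hasDerivWithinAt) (fun x _ => hC x) convex_univ (mem_univ b) (mem_univ a)
    simpa [Real.norm_eq_abs] using this
  have hgφ : ∀ k, MemLp (gradient (φ k)) 2 (volume.restrict (Om n)) := fun k =>
    gradient_memLp (w.φ1 k) (w.φ2 k) _
  have hκe : MemLp (fun x => κ x • e) 2 (volume.restrict (Om n)) := by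
    refine MemLp.restrict _ ?_
    exact (h1.continuous.smul continuous_const).memLp_of_hasCompactSupport h2.smul_right
  have hdκ : Continuous (fun x => fderiv ℝ κ x e) :=
    (h1.continuous_fderiv (by norm_num)).clm_apply continuous_const
  have hdκc : HasCompactSupport (fun x => fderiv ℝ κ x e) :=
    (h2.fderiv ℝ).comp_left (g := fun T : E (m + 1) →L[ℝ] ℝ => T e) (by simp)
  have hdL : MemLp (fun x => fderiv ℝ κ x e) 2 (volume.restrict (Om n)) := fn_memLp hdκ hdκc _
  have hz : ∀ x, x ∉ Om n → κ x = 0 := fun x hx => by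
    by_contra h
    exact hx (h3 (subset_tsupport _ h))
  have hz' : ∀ x, x ∉ Om n → fderiv ℝ κ x e = 0 := fun x hx => by
    have : fderiv ℝ κ x = 0 := by
      by_contra h
      exact hx (h3 ((support_fderiv_subset ℝ (f := κ)) h))
    rw [this]; simp
  -- smooth identity
  have hk : ∀ k, ∫ x in Om n, inner ℝ (gradient (φ k) x) (κ x • e) * L' (φ k x) =
      - ∫ x in Om n, L (φ k x) * fderiv ℝ κ x e := by
    intro k
    have hLφ : ContDiff ℝ 1 (fun x => L (φ k x)) := hL1.comp (w.φ1 k)
    have hfd : ∀ x, fderiv ℝ (fun x => L (φ k x)) x e = L' (φ k x) * fderiv ℝ (φ k) x e := by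
      intro x
      have d2 : HasFDerivAt (φ k) (fderiv ℝ (φ k) x) x :=
        ((w.φ1 k).differentiable (by norm_num) x).hasFDerivAt
      have d3 : HasFDerivAt (fun x => L (φ k x)) (L' (φ k x) • fderiv ℝ (φ k) x) x :=
        (hL (φ k x)).comp_hasFDerivAt x d2
      rw [d3.fderiv]; simp
    have hcLφ : Continuous (fun x => fderiv ℝ (fun x => L (φ k x)) x e) :=
      (hLφ.continuous_fderiv (by norm_num)).clm_apply continuous_const
    have h4 := integral_mul_fderiv_eq_neg_fderiv_mul_of_integrable (μ := (volume : Measure (E (m + 1))))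
      (f := fun x => L (φ k x)) (g := κ) (v := e)
      ((hcLφ.mul h1.continuous).integrable_of_hasCompactSupport h2.mul_left)
      ((hLφ.continuous.mul hdκ).integrable_of_hasCompactSupport hdκc.mul_left)
      ((hLφ.continuous.mul h1.continuous).integrable_of_hasCompactSupport h2.mul_left)
      (fun x _ => hLφ.differentiable (by norm_num) x) (fun x _ => h1.differentiable (by norm_num) x)
    have e1 : ∫ x in Om n, L (φ k x) * fderiv ℝ κ x e = ∫ x, L (φ k x) * fderiv ℝ κ x e := by
      refine setIntegral_eq_integral_of_forall_compl_eq_zero fun x hx => ?_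
      rw [hz' x hx, mul_zero]
    have e2 : ∫ x in Om n, inner ℝ (gradient (φ k) x) (κ x • e) * L' (φ k x) =
        ∫ x, fderiv ℝ (fun x => L (φ k x)) x e * κ x := by
      rw [← setIntegral_eq_integral_of_forall_compl_eq_zero (s := Om n)
        (f := fun x => fderiv ℝ (fun x => L (φ k x)) x e * κ x) fun x hx => by rw [hz x hx, mul_zero]]
      refine integral_congr_ae (Filter.Eventually.of_forall fun x => ?_)
      beta_reduce
      rw [inner_smul_right, gradient_inner, hfd]
      ring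
    rw [e1, e2, h4, neg_neg]
  have l1 : Tendsto (fun k => ∫ x in Om n, inner ℝ (gradient (φ k) x) (κ x • e) * L' (φ k x)) atTop
      (𝓝 (∫ x in Om n, inner ℝ (G x) (κ x • e) * L' (u x))) := by
    refine lim_prod hgφ w.mG hκe w.cG (C := C)
      (fun k => (hL'.comp (w.φ1 k).continuous).aestronglyMeasurable) (fun k x => hC _) ?_
    filter_upwards [w.au] with x hx
    exact (hL'.tendsto _).comp hx
  have hfin : IsFiniteMeasure ((volume : Measure (E (m + 1))).restrict (Om n)) := by
    refine ⟨?_⟩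
    rw [Measure.restrict_apply_univ]
    refine lt_of_le_of_lt (measure_mono (t := ball 0 1) ?_) measure_ball_lt_top
    rw [Om_eq]; exact inter_subset_left
  have hC0 : 0 ≤ C := (abs_nonneg _).trans (hC 0)
  have hLm : ∀ (f : E (m + 1) → ℝ), MemLp f 2 (volume.restrict (Om n)) →
      MemLp (fun x => L (f x)) 2 (volume.restrict (Om n)) := by
    intro f hf
    have h5 : MemLp (fun x => C * ‖f x‖ + ‖L 0‖) 2 (volume.restrict (Om n)) :=
      (hf.norm.const_mul C).add (memLp_const _)
    refine h5.mono (hL1.continuous.comp_aestronglyMeasurable hf.aestronglyMeasurable)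
      (Filter.Eventually.of_forall fun x => ?_)
    have h6 := hLip (f x) 0
    rw [sub_zero] at h6
    have h7 : ‖L (f x)‖ ≤ C * ‖f x‖ + ‖L 0‖ := by
      have := abs_sub_abs_le_abs_sub (L (f x)) (L 0)
      rw [Real.norm_eq_abs, Real.norm_eq_abs, Real.norm_eq_abs]
      linarith
    have h8 : 0 ≤ C * ‖f x‖ + ‖L 0‖ := add_nonneg (mul_nonneg hC0 (norm_nonneg _)) (norm_nonneg _)
    rw [Real.norm_of_nonneg h8]
    exact h7
  have l2 : Tendsto (fun k => ∫ x in Om n, L (φ k x) * fderiv ℝ κ x e) atTop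
      (𝓝 (∫ x in Om n, L (u x) * fderiv ℝ κ x e)) := by
    refine l2_mul (g := fun _ x => fderiv ℝ κ x e) (fun k => hLm _ (fn_memLp (w.φ1 k).continuous (w.φ2 k) _))
      (hLm _ w.mu) (fun _ => hdL) hdL ?_ (by
        have : ((fun x => fderiv ℝ κ x e) - fun x => fderiv ℝ κ x e) = 0 := sub_self _
        simp [this])
    have h8 : Tendsto (fun k => ENNReal.ofReal C * eLpNorm (φ k - u) 2 (volume.restrict (Om n))) atTop
        (𝓝 0) := by
      have := ENNReal.Tendsto.const_mul (a := ENNReal.ofReal C) w.cu (Or.inr ENNReal.ofReal_ne_top)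
      simpa using this
    refine tendsto_of_tendsto_of_tendsto_of_le_of_le tendsto_const_nhds h8 (fun _ => zero_le) fun k => ?_
    refine eLpNorm_le_mul_eLpNorm_of_ae_le_mul (Filter.Eventually.of_forall fun x => ?_) 2
    exact hLip _ _
  have h9 := tendsto_nhds_unique (l1.congr hk) l2.neg
  exact h9

end

end Pool.Agent.W794.Rob
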