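import Pool.Agent.W794.Rob4

set_option autoImplicit false
set_option linter.all false

open MeasureTheory Set Metric Filter Topology
open scoped ENNReal
open Pool.Agent.Results.MP_ce9a4f_an.NoBoundState

namespace Pool.Agent.W794.Rob

theorem g_deriv {ε : ℝ} (hε : 0 < ε) (s : ℝ) :
    HasDerivAt (fun s : ℝ => s / (ε + |s|)) (ε / (ε + |s|) ^ 2) s := by
  rcases lt_trichotomy s 0 with h | h | h
  · have h1 : HasDerivAt (fun s : ℝ => s / (ε - s)) ((1 * (ε - s) - s * (0 - 1)) / (ε - s) ^ 2) s :=
      (hasDerivAt_id s).fun_div ((hasDerivAt_const s ε).sub (hasDerivAt_id s)) (by simp; linarith)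
    have h2 : (1 * (ε - s) - s * (0 - 1)) / (ε - s) ^ 2 = ε / (ε + |s|) ^ 2 := by
      rw [abs_of_neg h]; congr 1 <;> ring
    rw [h2] at h1
    refine h1.congr_of_eventuallyEq ?_
    filter_upwards [gt_mem_nhds h] with x hx
    rw [abs_of_neg hx, sub_eq_add_neg]
  · subst h
    rw [hasDerivAt_iff_tendsto_slope]
    have h1 : Tendsto (fun s : ℝ => 1 / (ε + |s|)) (𝓝[≠] 0) (𝓝 (1 / (ε + |0|))) := by
      refine Tendsto.mono_left ?_ nhdsWithin_le_nhds
      have : Continuous fun s : ℝ => 1 / (ε + |s|) := by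
        refine continuous_const.div (by fun_prop) fun s => ?_
        have := abs_nonneg s
        linarith
      exact this.tendsto 0
    have h2 : ε / (ε + |0|) ^ 2 = 1 / (ε + |0|) := by
      simp only [abs_zero, add_zero]; field_simp
    rw [h2]
    refine h1.congr' ?_
    filter_upwards [self_mem_nhdsWithin] with s hs
    have hs' : s ≠ 0 := hs
    rw [slope_def_field]
    simp only [zero_div, sub_zero]
    field_simp
  · have h1 : HasDerivAt (fun s : ℝ => s / (ε + s)) ((1 * (ε + s) - s * (0 + 1)) / (ε + s) ^ 2) s :=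
      (hasDerivAt_id s).fun_div ((hasDerivAt_const s ε).add (hasDerivAt_id s)) (by simp; linarith)
    have h2 : (1 * (ε + s) - s * (0 + 1)) / (ε + s) ^ 2 = ε / (ε + |s|) ^ 2 := by
      rw [abs_of_pos h]; congr 1; ring
    rw [h2] at h1
    refine h1.congr_of_eventuallyEq ?_
    filter_upwards [lt_mem_nhds h] with x hx
    rw [abs_of_pos hx]

section
variable {m : ℕ} {ι : Type} [Fintype ι] {n : ι → E (m + 1)} {c0 : ℝ}
  {α lam : ℝ} {u : E (m + 1) → ℝ} {G : E (m + 1) → E (m + 1)} {T : E (m + 1) → ℝ}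
  {φ : ℕ → E (m + 1) → ℝ}

/-- integrability with bounded weights -/
theorem int_w {X : Type*} [MeasurableSpace X] {μ : Measure X} {f w : X → ℝ} {C : ℝ}
    (hf : Integrable f μ) (hw : AEStronglyMeasurable w μ) (hC : ∀ᵐ x ∂μ, |w x| ≤ C) :
    Integrable (fun x => f x * w x) μ :=
  (hf.bdd_mul (c := C) hw (hC.mono fun x hx => by rwa [Real.norm_eq_abs])).congr
    (Filter.Eventually.of_forall fun x => mul_comm _ _)

/-- logarithmic test -/
theorem log_test (hn : Nrm n c0) (w : WS n α lam u G T φ) (hu : ∀ x ∈ Om n, 0 < u x)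
    {ε : ℝ} (hε : 0 < ε) {ζ : E (m + 1) → ℝ} (h1 : ContDiff ℝ 1 ζ) (h2 : HasCompactSupport ζ)
    (h3 : tsupport ζ ⊆ ball 0 1) (h4 : ∀ x, 0 ≤ ζ x) :
    ∫ x in Om n, ‖G x‖ ^ 2 * (ζ x / (u x + ε) ^ 2) ≤
      (∫ x in Om n, inner ℝ (G x) (gradient ζ x) / (u x + ε)) +
      α * ∫ x in frontier (Om n), ζ x ∂(surfaceMeasure m) := by
  set θ : ℝ → ℝ := fun s => (1 - s / (ε + |s|)) / ε with hθd
  set θ' : ℝ → ℝ := fun s => -(1 / (ε + |s|) ^ 2) with hθ'd
  have hpos : ∀ s : ℝ, 0 < ε + |s| := fun s => by positivity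
  have hθ : ∀ s, HasDerivAt θ (θ' s) s := by
    intro s
    have h5 := ((g_deriv hε s).const_sub 1).div_const ε
    refine h5.congr_deriv ?_
    simp only [hθ'd]
    have := (hpos s).ne'
    field_simp
  have hθ' : Continuous θ' := by
    refine (continuous_const.div (by fun_prop) fun s => ?_).neg
    exact pow_ne_zero 2 (hpos s).ne'
  have hg1 : ∀ s : ℝ, |s / (ε + |s|)| ≤ 1 := by
    intro s
    rw [abs_div, abs_of_pos (hpos s), div_le_one (hpos s)]
    linarith
  have hθ0 : ∀ s, 0 ≤ θ s := fun s => div_nonneg (by linarith [(abs_le.1 (hg1 s)).2]) hε.le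
  have hC : ∀ s, |θ s| ≤ 2 / ε := by
    intro s
    rw [abs_of_nonneg (hθ0 s)]
    exact div_le_div_of_nonneg_right (by linarith [(abs_le.1 (hg1 s)).1]) hε.le
  have hC' : ∀ s, |θ' s| ≤ 1 / ε ^ 2 := by
    intro s
    simp only [hθ'd]
    rw [abs_neg, abs_of_nonneg (by positivity)]
    refine one_div_le_one_div_of_le (by positivity) ?_
    exact pow_le_pow_left₀ hε.le (by linarith [abs_nonneg s]) 2
  have hθp : ∀ s, 0 < s → θ s = 1 / (s + ε) := by
    intro s hs
    simp only [hθd]
    rw [abs_of_pos hs]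
    field_simp
    ring
  have hθs : ∀ s, s * θ s ≤ 1 := by
    intro s
    rcases lt_or_ge 0 s with h | h
    · rw [hθp s h, mul_one_div, div_le_one (by positivity)]
      linarith
    · linarith [mul_nonpos_of_nonpos_of_nonneg h (hθ0 s)]
  have key := test_theta hn w hθ hθ' hC hC' h1 h2 h3
  have hOm := (Om_open n).measurableSet
  have e1 : ∫ x in Om n, inner ℝ (G x) (gradient ζ x) * θ (u x) =
      ∫ x in Om n, inner ℝ (G x) (gradient ζ x) / (u x + ε) := by
    refine setIntegral_congr_fun hOm fun x hx => ?_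
    beta_reduce
    rw [hθp _ (hu x hx), mul_one_div]
  have e2 : ∫ x in Om n, ‖G x‖ ^ 2 * (θ' (u x) * ζ x) =
      - ∫ x in Om n, ‖G x‖ ^ 2 * (ζ x / (u x + ε) ^ 2) := by
    rw [← integral_neg]
    refine setIntegral_congr_fun hOm fun x hx => ?_
    beta_reduce
    simp only [hθ'd]
    rw [abs_of_pos (hu x hx), add_comm ε]
    ring
  have hζb : MemLp ζ 2 ((surfaceMeasure m).restrict (frontier (Om n))) := memLp_bd hn h1.continuous h2 h3
  have hθc : Continuous θ := continuous_iff_continuousAt.2 fun s => (hθ s).continuousAt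
  have hζ1 : Integrable ζ ((surfaceMeasure m).restrict (frontier (Om n))) := by
    have e : ζ = (ball (0 : E (m + 1)) 1).indicator ζ := by
      funext x
      by_cases hx : x ∈ ball (0 : E (m + 1)) 1
      · rw [indicator_of_mem hx]
      · rw [indicator_of_notMem hx]
        by_contra h
        exact hx (h3 (subset_tsupport _ h))
    rw [e, integrable_indicator_iff isOpen_ball.measurableSet, IntegrableOn, Measure.restrict_restrict
      isOpen_ball.measurableSet]
    have hfin : IsFiniteMeasure ((surfaceMeasure m).restrict (ball 0 1 ∩ frontier (Om n))) := by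
      refine ⟨?_⟩
      rw [Measure.restrict_apply_univ, inter_comm]
      exact surf_fin' hn
    obtain ⟨C, hC⟩ := h1.continuous.bounded_above_of_compact_support h2
    exact Integrable.of_bound h1.continuous.aestronglyMeasurable C (Filter.Eventually.of_forall hC)
  have e3 : ∫ x in frontier (Om n), T x * ζ x * θ (T x) ∂(surfaceMeasure m) ≤
      ∫ x in frontier (Om n), ζ x ∂(surfaceMeasure m) := by
    refine integral_mono ?_ hζ1 fun x => ?_
    · refine int_w (C := 2 / ε) (int_mul w.mT hζb) ?_ (Filter.Eventually.of_forall fun x => hC _)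
      exact hθc.comp_aestronglyMeasurable w.mT.aestronglyMeasurable
    · beta_reduce
      calc T x * ζ x * θ (T x) = ζ x * (T x * θ (T x)) := by ring
        _ ≤ ζ x * 1 := mul_le_mul_of_nonneg_left (hθs _) (h4 x)
        _ = ζ x := mul_one _
  have e4 : 0 ≤ ∫ x in Om n, u x * ζ x * θ (u x) := by
    refine setIntegral_nonneg hOm fun x hx => ?_
    exact mul_nonneg (mul_nonneg (hu x hx).le (h4 x)) (hθ0 _)
  rw [e1, e2] at key
  have h5 := mul_nonneg w.lam0 e4
  have h6 := mul_le_mul_of_nonneg_left e3 w.α0.le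
  linarith

/-- Caccioppoli inequality for the logarithm -/
theorem cacc (hn : Nrm n c0) (w : WS n α lam u G T φ) (hu : ∀ x ∈ Om n, 0 < u x)
    {ε : ℝ} (hε : 0 < ε) {η : E (m + 1) → ℝ} (h1 : ContDiff ℝ 1 η) (h2 : HasCompactSupport η)
    (h3 : tsupport η ⊆ ball 0 1) :
    ∫ x in Om n, ‖G x‖ ^ 2 * (η x ^ 2 / (u x + ε) ^ 2) ≤
      4 * (∫ x in Om n, ‖gradient η x‖ ^ 2) +
      2 * α * ∫ x in frontier (Om n), η x ^ 2 ∂(surfaceMeasure m) := by
  have hOm := (Om_open n).measurableSet
  have hsq : ContDiff ℝ 1 (fun x => η x ^ 2) := h1.pow 2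
  have hsqc : HasCompactSupport (fun x => η x ^ 2) :=
    h2.comp_left (g := fun t : ℝ => t ^ 2) (by simp)
  have hts : tsupport (fun x => η x ^ 2) ⊆ ball 0 1 := by
    refine (closure_mono fun x hx => ?_).trans h3
    intro h0
    apply hx
    show η x ^ 2 = 0
    rw [h0]; norm_num
  have hgr : ∀ x, gradient (fun x => η x ^ 2) x = (2 * η x) • gradient η x := by
    intro x
    have d1 : HasFDerivAt η (fderiv ℝ η x) x := (h1.differentiable (by norm_num) x).hasFDerivAt
    have d2 : HasFDerivAt (fun x => η x ^ 2) ((2 * η x) • fderiv ℝ η x) x := by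
      have h := d1.fun_mul d1
      have e : (fun i => η i * η i) = fun x => η x ^ 2 := by funext y; ring
      rw [e] at h
      refine h.congr_fderiv ?_
      rw [← add_smul]; congr 1; ring
    unfold gradient
    rw [d2.fderiv, map_smul]
  have key := log_test hn w hu hε hsq hsqc hts (fun x => by positivity)
  -- measurability of the weight
  have hwm : AEStronglyMeasurable (fun x => 1 / (u x + ε)) (volume.restrict (Om n)) := by
    have h5 : AEMeasurable u (volume.restrict (Om n)) := w.mu.aestronglyMeasurable.aemeasurable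
    exact ((h5.add_const ε).const_div 1).aestronglyMeasurable
  have hwb : ∀ᵐ x ∂(volume.restrict (Om n)), |1 / (u x + ε)| ≤ 1 / ε := by
    rw [ae_restrict_iff' hOm]
    refine Filter.Eventually.of_forall fun x hx => ?_
    have := hu x hx
    rw [abs_of_pos (by positivity)]
    exact one_div_le_one_div_of_le hε (by linarith)
  obtain ⟨D, hD⟩ := h1.continuous.bounded_above_of_compact_support h2
  have hDm : AEStronglyMeasurable η (volume.restrict (Om n)) := h1.continuous.aestronglyMeasurable
  have hgη := gradient_memLp h1 h2 (Om n)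
  -- integrability
  have i1 : Integrable (fun x => ‖G x‖ ^ 2 * (η x ^ 2 / (u x + ε) ^ 2)) (volume.restrict (Om n)) := by
    have h6 := int_w (C := D ^ 2 * (1 / ε) ^ 2) (int_sq w.mG) ((hDm.pow 2).mul (hwm.pow 2)) (by
      filter_upwards [hwb] with x hx
      simp only [Pi.mul_apply, Pi.pow_apply]
      rw [abs_mul, abs_pow, abs_pow]
      exact mul_le_mul (pow_le_pow_left₀ (abs_nonneg _) (hD x) 2)
        (pow_le_pow_left₀ (abs_nonneg _) hx 2) (by positivity) (by positivity))
    refine h6.congr (Filter.Eventually.of_forall fun x => ?_)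
    simp only [Pi.mul_apply, Pi.pow_apply]
    rw [one_div, inv_pow, div_eq_mul_inv]
  have i2 : Integrable (fun x => ‖gradient η x‖ ^ 2) (volume.restrict (Om n)) := int_sq hgη
  have i3 : Integrable (fun x => inner ℝ (G x) ((2 * η x) • gradient η x) / (u x + ε))
      (volume.restrict (Om n)) := by
    have h6 := int_w (C := 2 * D * (1 / ε)) (int_inner w.mG hgη) ((hDm.const_mul 2).mul hwm) (by
      filter_upwards [hwb] with x hx
      simp only [Pi.mul_apply]
      rw [abs_mul, abs_mul, abs_of_pos (by norm_num : (0 : ℝ) < 2)]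
      have hDx : |η x| ≤ D := hD x
      have : 0 ≤ D := (abs_nonneg _).trans hDx
      exact mul_le_mul (by linarith) hx (by positivity) (by positivity))
    refine h6.congr (Filter.Eventually.of_forall fun x => ?_)
    simp only [Pi.mul_apply]
    rw [inner_smul_right]
    ring
  have h7 : ∫ x in Om n, inner ℝ (G x) (gradient (fun x => η x ^ 2) x) / (u x + ε) ≤
      (1 / 2) * (∫ x in Om n, ‖G x‖ ^ 2 * (η x ^ 2 / (u x + ε) ^ 2)) +
        2 * ∫ x in Om n, ‖gradient η x‖ ^ 2 := by
    rw [← integral_const_mul, ← integral_const_mul, ← integral_add (i1.const_mul _) (i2.const_mul _)]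
    simp only [hgr]
    refine setIntegral_mono_on i3 ((i1.const_mul _).add (i2.const_mul _)) hOm fun x hx => ?_
    have hp : 0 < u x + ε := add_pos (hu x hx) hε
    rw [inner_smul_right]
    have h8 := abs_le.1 (abs_real_inner_le_norm (G x) (gradient η x))
    have h9 : 2 * η x * inner ℝ (G x) (gradient η x) ≤ 2 * |η x| * (‖G x‖ * ‖gradient η x‖) := by
      have h10 := abs_real_inner_le_norm (G x) (gradient η x)
      calc 2 * η x * inner ℝ (G x) (gradient η x) ≤ |2 * η x * inner ℝ (G x) (gradient η x)| := le_abs_self _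
        _ = 2 * |η x| * |inner ℝ (G x) (gradient η x)| := by
            rw [abs_mul, abs_mul, abs_of_pos (by norm_num : (0 : ℝ) < 2)]
        _ ≤ _ := mul_le_mul_of_nonneg_left h10 (by positivity)
    have h11 : 2 * |η x| * (‖G x‖ * ‖gradient η x‖) / (u x + ε) ≤
        1 / 2 * (‖G x‖ ^ 2 * (η x ^ 2 / (u x + ε) ^ 2)) + 2 * ‖gradient η x‖ ^ 2 := by
      have h12 : ‖G x‖ ^ 2 * (η x ^ 2 / (u x + ε) ^ 2) = (‖G x‖ * |η x| / (u x + ε)) ^ 2 := by
        rw [div_pow, mul_pow, sq_abs]; ring
      have h13 : 2 * |η x| * (‖G x‖ * ‖gradient η x‖) / (u x + ε) =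
          2 * (‖G x‖ * |η x| / (u x + ε)) * ‖gradient η x‖ := by ring
      rw [h12, h13]
      nlinarith [sq_nonneg ((‖G x‖ * |η x| / (u x + ε)) - 2 * ‖gradient η x‖)]
    exact (div_le_div_of_nonneg_right h9 hp.le).trans h11
  linarith

end

end Pool.Agent.W794.Rob
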