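import Pool.Agent.W794.Rob5

set_option autoImplicit false
set_option linter.all false

open MeasureTheory Set Metric Filter Topology
open scoped ENNReal
open Pool.Agent.Results.MP_ce9a4f_an.NoBoundState

namespace Pool.Agent.W794.Rob

/-- difference quotients against a test function -/
theorem dq_le {k : ℕ} {O : Set (E k)} (hO : IsOpen O) {V : E k → ℝ} (hV : ContinuousOn V O)
    {κ : E k → ℝ} (h1 : ContDiff ℝ 1 κ) (h2 : HasCompactSupport κ) (h3 : tsupport κ ⊆ O)
    (h4 : ∀ x, 0 ≤ κ x) (e : E k) (b : ℝ) {h₀ : ℝ} (hh : 0 < h₀)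
    (hb : ∀ t, 0 < t → t < h₀ → ∀ x, κ x ≠ 0 → b * t ≤ V x - V (x - t • e)) :
    ∫ x in O, V x * fderiv ℝ κ x e ≤ - (b * ∫ x in O, κ x) := by
  obtain ⟨δ, hδ, hKO⟩ := h2.isCompact.exists_cthickening_subset_open hO h3
  set K' := cthickening δ (tsupport κ) with hK'
  have hK'c : IsCompact K' := h2.isCompact.cthickening
  have hK'm : MeasurableSet K' := hK'c.isClosed.measurableSet
  have hsub : tsupport κ ⊆ K' := self_subset_cthickening _
  set g : E k → ℝ := K'.indicator V with hg
  have hgi : Integrable g := by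
    rw [hg, integrable_indicator_iff hK'm]
    exact (hV.mono hKO).integrableOn_compact hK'c
  obtain ⟨C, hC⟩ := h1.lipschitzWith_of_hasCompactSupport h2 (by norm_num)
  have hlim := hC.integral_inv_smul_sub_mul_tendsto_integral_lineDeriv_mul hgi e
  have hz : ∀ x, x ∉ tsupport κ → κ x = 0 := fun x hx => image_eq_zero_of_notMem_tsupport hx
  have hz' : ∀ x, x ∉ tsupport κ → fderiv ℝ κ x e = 0 := fun x hx => by
    have : fderiv ℝ κ x = 0 := by
      by_contra h
      exact hx ((support_fderiv_subset ℝ (f := κ)) h)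
    rw [this]; simp
  have e1 : ∫ x, lineDeriv ℝ κ x e * g x = ∫ x in O, V x * fderiv ℝ κ x e := by
    rw [← setIntegral_eq_integral_of_forall_compl_eq_zero (s := O)
      (f := fun x => lineDeriv ℝ κ x e * g x)]
    · refine setIntegral_congr_fun hO.measurableSet fun x hx => ?_
      beta_reduce
      rw [(h1.differentiable (by norm_num) x).lineDeriv_eq_fderiv]
      by_cases hxK : x ∈ K'
      · rw [hg, indicator_of_mem hxK, mul_comm]
      · rw [hz' x (fun h => hxK (hsub h)), zero_mul, mul_zero]
    · intro x hx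
      rw [(h1.differentiable (by norm_num) x).lineDeriv_eq_fderiv,
        hz' x (fun h => hx (h3 h)), zero_mul]
  have e2 : ∫ x in O, κ x = ∫ x, κ x :=
    setIntegral_eq_integral_of_forall_compl_eq_zero fun x hx => hz x fun h => hx (h3 h)
  rw [← e1, e2]
  have hκi : Integrable κ := h1.continuous.integrable_of_hasCompactSupport h2
  obtain ⟨D, hD⟩ := h1.continuous.bounded_above_of_compact_support h2
  refine le_of_tendsto hlim ?_
  have hpos : 0 < min h₀ (δ / (‖e‖ + 1)) := lt_min hh (by positivity)
  filter_upwards [Ioo_mem_nhdsGT hpos] with t ht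
  have ht0 : 0 < t := ht.1
  have ht1 : t < h₀ := lt_of_lt_of_le ht.2 (min_le_left _ _)
  have ht2 : t * ‖e‖ ≤ δ := by
    have h5 : t ≤ δ / (‖e‖ + 1) := (lt_of_lt_of_le ht.2 (min_le_right _ _)).le
    rw [le_div_iff₀ (by positivity)] at h5
    nlinarith [norm_nonneg e]
  -- translate
  have i1 : Integrable (fun x => κ (x + t • e) * g x) :=
    hgi.bdd_mul (c := D) (h1.continuous.comp (by fun_prop)).aestronglyMeasurable
      (Filter.Eventually.of_forall fun x => hD _)
  have i2 : Integrable (fun x => κ x * g x) :=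
    hgi.bdd_mul (c := D) h1.continuous.aestronglyMeasurable (Filter.Eventually.of_forall fun x => hD _)
  have i3 : Integrable (fun x => κ x * g (x - t • e)) := by
    have := i1.comp_sub_right (t • e)
    refine this.congr (Filter.Eventually.of_forall fun x => ?_)
    simp
  have e3 : ∫ x, (t⁻¹ • (κ (x + t • e) - κ x)) * g x = t⁻¹ * (∫ x, κ x * g (x - t • e) - κ x * g x) := by
    have e4 : ∀ x, (t⁻¹ • (κ (x + t • e) - κ x)) * g x = t⁻¹ * (κ (x + t • e) * g x - κ x * g x) := by
      intro x; rw [smul_eq_mul]; ring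
    simp only [e4]
    rw [integral_const_mul, integral_sub i1 i2, integral_sub i3 i2]
    congr 2
    have h6 := integral_sub_right_eq_self (μ := (volume : Measure (E k)))
      (fun x => κ (x + t • e) * g x) (t • e)
    rw [← h6]
    refine integral_congr_ae (Filter.Eventually.of_forall fun x => ?_)
    simp
  rw [e3]
  have h7 : ∫ x, κ x * g (x - t • e) - κ x * g x ≤ ∫ x, -(b * t) * κ x := by
    refine integral_mono (i3.sub i2) (hκi.const_mul _) fun x => ?_
    beta_reduce
    by_cases hx : κ x = 0
    · rw [hx]; simp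
    · have hxt : x ∈ tsupport κ := subset_tsupport _ hx
      have hxK : x ∈ K' := hsub hxt
      have hxK2 : x - t • e ∈ K' := by
        rw [hK', mem_cthickening_iff]
        refine (infEDist_le_edist_of_mem hxt).trans ?_
        rw [edist_dist, dist_eq_norm]
        refine ENNReal.ofReal_le_ofReal ?_
        have : x - t • e - x = -(t • e) := by abel
        rw [this, norm_neg, norm_smul, Real.norm_of_nonneg ht0.le]
        exact ht2
      rw [hg, indicator_of_mem hxK, indicator_of_mem hxK2]
      have h8 := hb t ht0 ht1 x hx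
      have h9 := h4 x
      nlinarith
  rw [integral_const_mul] at h7
  have h10 : t⁻¹ * (∫ x, κ x * g (x - t • e) - κ x * g x) ≤ t⁻¹ * (-(b * t) * ∫ x, κ x) :=
    mul_le_mul_of_nonneg_left h7 (by positivity)
  refine h10.trans (le_of_eq ?_)
  field_simp

end Pool.Agent.W794.Rob
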