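import Pool.Agent.W794.Rob6

set_option autoImplicit false
set_option linter.all false

open MeasureTheory Set Metric Filter Topology
open scoped ENNReal
open Pool.Agent.Results.MP_ce9a4f_an.NoBoundState

namespace Pool.Agent.W794.Rob

/-- projection along `n` -/
noncomputable def prj {m : ℕ} (n : E (m + 1)) : E (m + 1) →L[ℝ] E (m + 1) :=
  ContinuousLinearMap.id ℝ _ - (innerSL ℝ n).smulRight n

theorem prj_apply {m : ℕ} (n x : E (m + 1)) : prj n x = x - (inner ℝ n x) • n := by
  simp [prj]

theorem prj_self {m : ℕ} {n : E (m + 1)} (hn : ‖n‖ = 1) : prj n n = 0 := by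
  rw [prj_apply, real_inner_self_eq_norm_sq, hn]; simp

/-- cut-off functions adapted to a half space -/
structure Cut {m : ℕ} (n y0 : E (m + 1)) (r D m0 δ : ℝ) (ζ κ : E (m + 1) → ℝ)
    (X : E (m + 1) → E (m + 1)) : Prop where
  ζ1 : ContDiff ℝ 1 ζ
  ζ2 : HasCompactSupport ζ
  ζ3 : tsupport ζ ⊆ closedBall y0 (2 * r)
  ζ4 : ∀ x, 0 ≤ ζ x
  κ1 : ContDiff ℝ 1 κ
  κ2 : HasCompactSupport κ
  κ3 : tsupport κ ⊆ {x | δ / 2 ≤ inner ℝ n x ∧ inner ℝ n x ≤ δ ∧ prj n x ∈ closedBall y0 r}
  κ4 : ∀ x, 0 ≤ κ x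
  X1 : Continuous X
  X2 : ∀ x, ‖X x‖ ≤ D
  X3 : ∀ x, X x ≠ 0 → x ∈ closedBall y0 (2 * r) ∧ inner ℝ n x < δ
  gr : ∀ x, 0 < inner ℝ n x → gradient ζ x = X x - κ x • n
  fn : ∀ x, 0 < inner ℝ n x → fderiv ℝ ζ x n = - κ x
  mass : ∫ x in HS n, κ x = m0

theorem chi_dec {δ : ℝ} (hδ : 0 < δ) : ∀ s, deriv (fun s : ℝ => Real.smoothTransition (2 - 2 * s / δ)) s ≤ 0 := by
  have h1 : Antitone (fun s : ℝ => Real.smoothTransition (2 - 2 * s / δ)) := by
    intro a b hab
    refine Real.smoothTransition.monotone ?_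
    have : 2 * a / δ ≤ 2 * b / δ := by gcongr
    linarith
  intro s
  exact h1.deriv_nonpos

theorem exists_cut {m : ℕ} {n y0 : E (m + 1)} (hn : ‖n‖ = 1) (hy : inner ℝ n y0 = 0) {r : ℝ}
    (hr : 0 < r) : ∃ (D m0 : ℝ), 0 ≤ D ∧ 0 < m0 ∧ ∀ δ, 0 < δ → δ ≤ r / 2 →
      ∃ (ζ κ : E (m + 1) → ℝ) (X : E (m + 1) → E (m + 1)), Cut n y0 r D m0 δ ζ κ X := by
  let b : ContDiffBump y0 := ⟨r / 2, r, by positivity, by linarith⟩
  have hbs : ∀ y, y ∉ closedBall y0 r → b y = 0 := fun y hy' => b.zero_of_le_dist (by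
    rw [mem_closedBall, not_le] at hy'; exact hy'.le)
  have hb1 : ContDiff ℝ 2 b := b.contDiff
  have hbc : HasCompactSupport b := b.hasCompactSupport
  have hbt : tsupport b = closedBall y0 r := b.tsupport_eq
  -- bound for the derivative
  have hfc : Continuous (fderiv ℝ b) := hb1.continuous_fderiv (by norm_num)
  obtain ⟨C, hC⟩ := hfc.bounded_above_of_compact_support (hbc.fderiv ℝ)
  have hC0 : 0 ≤ C := (norm_nonneg _).trans (hC y0)
  set D := C * ‖prj n‖ with hD
  set m0 := ∫ x in HP n, b x ∂(surfaceMeasure m) with hm0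
  -- one cut-off for each δ
  have main : ∀ δ, 0 < δ → δ ≤ r / 2 → ∃ (ζ κ : E (m + 1) → ℝ) (X : E (m + 1) → E (m + 1)),
      Cut n y0 r D m0 δ ζ κ X ∧ ∀ s, κ (y0 + s • n) = - deriv (fun s : ℝ => Real.smoothTransition (2 - 2 * s / δ)) s := by
    intro δ hδ hδr
    set χ₁ : ℝ → ℝ := fun s => Real.smoothTransition (2 + s / δ) with hχ₁
    set χ₂ : ℝ → ℝ := fun s => Real.smoothTransition (2 - 2 * s / δ) with hχ₂
    have c1 : ContDiff ℝ 2 χ₁ := Real.smoothTransition.contDiff.comp (by fun_prop)
    have c2 : ContDiff ℝ 2 χ₂ := Real.smoothTransition.contDiff.comp (by fun_prop)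
    have c2' : ContDiff ℝ 1 (deriv χ₂) := (contDiff_succ_iff_deriv (n := 1)).1 c2 |>.2.2
    have v1 : ∀ s, χ₁ s ≠ 0 → -(2 * δ) < s := by
      intro s hs
      by_contra hcon
      apply hs
      apply Real.smoothTransition.zero_of_nonpos
      have : s / δ ≤ -2 := by rw [div_le_iff₀ hδ]; linarith
      linarith
    have v2 : ∀ s, χ₂ s ≠ 0 → s < δ := by
      intro s hs
      by_contra hcon
      apply hs
      apply Real.smoothTransition.zero_of_nonpos
      have : 2 ≤ 2 * s / δ := by rw [le_div_iff₀ hδ]; linarith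
      linarith
    have v3 : ∀ s, -δ ≤ s → χ₁ s = 1 := by
      intro s hs
      apply Real.smoothTransition.one_of_one_le
      have : -1 ≤ s / δ := by rw [le_div_iff₀ hδ]; linarith
      linarith
    have v4 : χ₂ 0 = 1 := by
      apply Real.smoothTransition.one_of_one_le
      simp
    have v5 : ∀ s, deriv χ₂ s ≠ 0 → δ / 2 ≤ s ∧ s ≤ δ := by
      intro s hs
      constructor
      · by_contra hcon
        apply hs
        push Not at hcon
        have : χ₂ =ᶠ[𝓝 s] fun _ => 1 := by
          filter_upwards [gt_mem_nhds hcon] with x hx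
          apply Real.smoothTransition.one_of_one_le
          have : 2 * x / δ ≤ 1 := by rw [div_le_iff₀ hδ]; linarith
          linarith
        rw [this.deriv_eq]; simp
      · by_contra hcon
        apply hs
        push Not at hcon
        have : χ₂ =ᶠ[𝓝 s] fun _ => 0 := by
          filter_upwards [lt_mem_nhds hcon] with x hx
          apply Real.smoothTransition.zero_of_nonpos
          have : 2 ≤ 2 * x / δ := by rw [le_div_iff₀ hδ]; linarith
          linarith
        rw [this.deriv_eq]; simp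
    have hδd : ∀ s, deriv χ₂ s ≤ 0 := chi_dec hδ
    set ψ : E (m + 1) → ℝ := fun x => b (prj n x) with hψ
    have hψ1 : ContDiff ℝ 2 ψ := hb1.comp (prj n).contDiff
    have hψd : ∀ x, HasFDerivAt ψ ((fderiv ℝ b (prj n x)).comp (prj n)) x := fun x =>
      ((hb1.differentiable (by norm_num) _).hasFDerivAt).comp x (prj n).hasFDerivAt
    have hs1 : ContDiff ℝ 2 (fun x : E (m + 1) => inner ℝ n x) := (innerSL ℝ n).contDiff
    have hsd : ∀ x : E (m + 1), HasFDerivAt (fun x : E (m + 1) => inner ℝ n x) (innerSL ℝ n) x := fun x =>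
      (innerSL ℝ n).hasFDerivAt
    have hχd : ∀ s, HasDerivAt (fun s => χ₁ s * χ₂ s) (deriv χ₁ s * χ₂ s + χ₁ s * deriv χ₂ s) s := fun s =>
      (c1.differentiable (by norm_num) s).hasDerivAt.mul (c2.differentiable (by norm_num) s).hasDerivAt
    set ζ : E (m + 1) → ℝ := fun x => ψ x * (χ₁ (inner ℝ n x) * χ₂ (inner ℝ n x)) with hζ
    set κ : E (m + 1) → ℝ := fun x => ψ x * (- deriv χ₂ (inner ℝ n x)) with hκ
    set X : E (m + 1) → E (m + 1) := fun x => (χ₁ (inner ℝ n x) * χ₂ (inner ℝ n x)) • gradient ψ x with hX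
    have hζ1 : ContDiff ℝ 2 ζ := hψ1.mul ((c1.comp hs1).mul (c2.comp hs1))
    have hκ1 : ContDiff ℝ 1 κ := (hψ1.of_le (by norm_num)).mul (c2'.comp (hs1.of_le (by norm_num))).neg
    have hball : ∀ x, prj n x ∈ closedBall y0 r → -(2 * δ) < inner ℝ n x → inner ℝ n x ≤ δ →
        x ∈ closedBall y0 (2 * r) := by
      intro x h1 h2 h3
      rw [mem_closedBall, dist_eq_norm] at h1 ⊢
      have e : x - y0 = (prj n x - y0) + (inner ℝ n x) • n := by rw [prj_apply]; abel
      rw [e]
      refine (norm_add_le _ _).trans ?_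
      rw [norm_smul, hn, mul_one, Real.norm_eq_abs]
      have : |inner ℝ n x| ≤ r := abs_le.2 ⟨by linarith, by linarith⟩
      linarith
    have hζs : ∀ x, ζ x ≠ 0 → x ∈ closedBall y0 (2 * r) := by
      intro x hx
      have h1 : ψ x ≠ 0 := left_ne_zero_of_mul hx
      have h2 := right_ne_zero_of_mul hx
      refine hball x ?_ (v1 _ (left_ne_zero_of_mul h2)) (v2 _ (right_ne_zero_of_mul h2)).le
      by_contra hcon
      exact h1 (hbs _ hcon)
    have hζt : tsupport ζ ⊆ closedBall y0 (2 * r) :=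
      closure_minimal (fun x hx => hζs x hx) isClosed_closedBall
    have hκs : ∀ x, κ x ≠ 0 → δ / 2 ≤ inner ℝ n x ∧ inner ℝ n x ≤ δ ∧ prj n x ∈ closedBall y0 r := by
      intro x hx
      have h1 : ψ x ≠ 0 := left_ne_zero_of_mul hx
      have h2 := v5 _ (neg_ne_zero.1 (right_ne_zero_of_mul hx))
      refine ⟨h2.1, h2.2, ?_⟩
      by_contra hcon
      exact h1 (hbs _ hcon)
    have hcl : IsClosed {x : E (m + 1) | δ / 2 ≤ inner ℝ n x ∧ inner ℝ n x ≤ δ ∧ prj n x ∈ closedBall y0 r} := by
      have a1 : IsClosed {x : E (m + 1) | δ / 2 ≤ inner ℝ n x} := isClosed_le continuous_const hs1.continuous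
      have a2 : IsClosed {x : E (m + 1) | inner ℝ n x ≤ δ} := isClosed_le hs1.continuous continuous_const
      have a3 : IsClosed {x : E (m + 1) | prj n x ∈ closedBall y0 r} :=
        isClosed_closedBall.preimage (prj n).continuous
      exact (a1.inter (a2.inter a3))
    have hκt : tsupport κ ⊆ {x : E (m + 1) | δ / 2 ≤ inner ℝ n x ∧ inner ℝ n x ≤ δ ∧ prj n x ∈ closedBall y0 r} :=
      closure_minimal (fun x hx => hκs x hx) hcl
    have hκc : HasCompactSupport κ := by
      refine HasCompactSupport.of_support_subset_isCompact (isCompact_closedBall y0 (2 * r)) fun x hx => ?_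
      obtain ⟨h1, h2, h3⟩ := hκs x hx
      exact hball x h3 (by linarith) h2
    have hζc : HasCompactSupport ζ :=
      HasCompactSupport.of_support_subset_isCompact (isCompact_closedBall y0 (2 * r)) fun x hx => hζs x hx
    have hχ0 : ∀ s, 0 ≤ χ₁ s * χ₂ s := fun s =>
      mul_nonneg (Real.smoothTransition.nonneg _) (Real.smoothTransition.nonneg _)
    have hχ1 : ∀ s, χ₁ s * χ₂ s ≤ 1 := fun s =>
      mul_le_one₀ (Real.smoothTransition.le_one _) (Real.smoothTransition.nonneg _)
        (Real.smoothTransition.le_one _)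
    have hgψ : ∀ x, ‖gradient ψ x‖ ≤ D := by
      intro x
      rw [gradient, LinearIsometryEquiv.norm_map, (hψd x).fderiv]
      exact (ContinuousLinearMap.opNorm_comp_le _ _).trans
        (mul_le_mul_of_nonneg_right (hC _) (norm_nonneg _))
    -- the derivative of ζ
    have hζd : ∀ x, 0 < inner ℝ n x → HasFDerivAt ζ ((χ₁ (inner ℝ n x) * χ₂ (inner ℝ n x)) •
        ((fderiv ℝ b (prj n x)).comp (prj n)) - κ x • innerSL ℝ n) x := by
      intro x hx
      have h1 := (hψd x).fun_mul ((hχd (inner ℝ n x)).comp_hasFDerivAt x (hsd x))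
      have e1 : deriv χ₁ (inner ℝ n x) = 0 := by
        have : χ₁ =ᶠ[𝓝 (inner ℝ n x)] fun _ => 1 := by
          filter_upwards [lt_mem_nhds hx] with s hs
          exact v3 s (by linarith)
        rw [this.deriv_eq]; simp
      have e2 : χ₁ (inner ℝ n x) = 1 := v3 _ (by linarith)
      refine h1.congr_fderiv ?_
      rw [e1, hκ]
      ext v
      simp [e2]
      ring
    refine ⟨ζ, κ, X, ⟨hζ1.of_le (by norm_num), hζc, hζt, ?_, hκ1, hκc, hκt, ?_, ?_, ?_, ?_, ?_, ?_, ?_⟩, ?_⟩
    · intro x
      exact mul_nonneg b.nonneg (hχ0 _)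
    · intro x
      exact mul_nonneg b.nonneg (neg_nonneg.2 (hδd _))
    · have : Continuous (gradient ψ) := continuous_gradient (hψ1.of_le (by norm_num))
      exact ((c1.continuous.comp hs1.continuous).mul (c2.continuous.comp hs1.continuous)).smul this
    · intro x
      rw [hX]
      beta_reduce
      rw [norm_smul, Real.norm_of_nonneg (hχ0 _)]
      calc _ ≤ 1 * D := mul_le_mul (hχ1 _) (hgψ x) (norm_nonneg _) (by norm_num)
        _ = D := one_mul _
    · intro x hx
      have h1 := left_ne_zero_of_smul hx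
      have h2 := right_ne_zero_of_smul hx
      have h3 : prj n x ∈ closedBall y0 r := by
        rw [← hbt]
        by_contra hcon
        apply h2
        have : fderiv ℝ b (prj n x) = 0 := by
          by_contra h
          exact hcon ((support_fderiv_subset ℝ (f := b)) h)
        rw [gradient, (hψd x).fderiv, this]; simp
      exact ⟨hball x h3 (v1 _ (left_ne_zero_of_mul h1)) (v2 _ (right_ne_zero_of_mul h1)).le,
        v2 _ (right_ne_zero_of_mul h1)⟩
    · intro x hx
      rw [gradient, (hζd x hx).fderiv, map_sub, map_smul, map_smul, hX]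
      beta_reduce
      rw [gradient, (hψd x).fderiv]
      congr 2
      apply (InnerProductSpace.toDual ℝ (E (m + 1))).injective
      rw [LinearIsometryEquiv.apply_symm_apply]
      rfl
    · intro x hx
      rw [(hζd x hx).fderiv]
      simp [prj_self hn, real_inner_self_eq_norm_sq, hn]
    · have h1 := hs_formula hn (hζ1.of_le (by norm_num)) hζc
      have h2 : ∫ x in HS n, fderiv ℝ ζ x n = ∫ x in HS n, - κ x := by
        refine setIntegral_congr_fun (isOpen_lt continuous_const (by fun_prop)).measurableSet fun x hx => ?_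
        beta_reduce
        rw [(hζd x hx).fderiv]
        simp [prj_self hn, real_inner_self_eq_norm_sq, hn]
      rw [h2, integral_neg, neg_neg] at h1
      rw [← h1, hm0]
      refine setIntegral_congr_fun (isClosed_eq (by fun_prop) continuous_const).measurableSet fun x hx => ?_
      have hx' : inner ℝ n x = 0 := hx
      show b (prj n x) * (χ₁ (inner ℝ n x) * χ₂ (inner ℝ n x)) = b x
      rw [hx', v3 0 (by linarith), v4, prj_apply, hx']
      simp
    · intro s
      have e1 : inner ℝ n (y0 + s • n) = s := by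
        rw [inner_add_right, hy, inner_smul_right, real_inner_self_eq_norm_sq, hn]; simp
      show b (prj n (y0 + s • n)) * (- deriv χ₂ (inner ℝ n (y0 + s • n))) = _
      rw [e1, map_add, map_smul, prj_self hn, smul_zero, add_zero, prj_apply, hy, zero_smul, sub_zero]
      rw [b.one_of_mem_closedBall (mem_closedBall_self (by positivity)), one_mul]
  refine ⟨D, m0, by positivity, ?_, fun δ h1 h2 => ?_⟩
  · obtain ⟨ζ, κ, X, hcut, hs⟩ := main (r / 2) (by positivity) le_rfl
    have h1 : ∃ s, deriv (fun s : ℝ => Real.smoothTransition (2 - 2 * s / (r / 2))) s ≠ 0 := by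
      by_contra hcon
      push Not at hcon
      have hd : Differentiable ℝ (fun s : ℝ => Real.smoothTransition (2 - 2 * s / (r / 2))) := by
        have : ContDiff ℝ 1 (fun s : ℝ => Real.smoothTransition (2 - 2 * s / (r / 2))) :=
          Real.smoothTransition.contDiff.comp (by fun_prop)
        exact this.differentiable (by norm_num)
      have h2 := is_const_of_deriv_eq_zero hd hcon 0 r
      have h3 : Real.smoothTransition (2 - 2 * (0 : ℝ) / (r / 2)) = 1 :=
        Real.smoothTransition.one_of_one_le (by simp)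
      have h4 : Real.smoothTransition (2 - 2 * r / (r / 2)) = 0 := by
        apply Real.smoothTransition.zero_of_nonpos
        have : 2 * r / (r / 2) = 4 := by field_simp; norm_num
        rw [this]; norm_num
      beta_reduce at h2
      rw [h3, h4] at h2
      norm_num at h2
    obtain ⟨s, hs'⟩ := h1
    have h5 : κ (y0 + s • n) ≠ 0 := by rw [hs s]; exact neg_ne_zero.2 hs'
    have h6 := hcut.κ1.continuous.integral_pos_of_hasCompactSupport_nonneg_nonzero (μ := volume)
      hcut.κ2 hcut.κ4 h5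
    have h7 : ∫ x in HS n, κ x = ∫ x, κ x := by
      refine setIntegral_eq_integral_of_forall_compl_eq_zero fun x hx => ?_
      by_contra h
      apply hx
      have := (hcut.κ3 (subset_tsupport _ h)).1
      show 0 < inner ℝ n x
      have : 0 < r / 2 / 2 := by positivity
      linarith
    rw [← h7, hcut.mass] at h6
    exact h6
  · obtain ⟨ζ, κ, X, hcut, -⟩ := main δ h1 h2
    exact ⟨ζ, κ, X, hcut⟩

end Pool.Agent.W794.Rob
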