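import Pool.Agent.W794.Rob7

set_option autoImplicit false
set_option linter.all false

open MeasureTheory Set Metric Filter Topology
open scoped ENNReal
open Pool.Agent.Results.MP_ce9a4f_an.NoBoundState

namespace Pool.Agent.W794.Rob

theorem exists_L {ε : ℝ} (hε : 0 < ε) : ∃ L L' : ℝ → ℝ, (∀ s, HasDerivAt L (L' s) s) ∧ Continuous L' ∧
    (∀ s, |L' s| ≤ 1 / ε) ∧ (∀ s, 0 < s → L' s = 1 / (s + ε)) ∧ (∀ s, 0 < s → L s = Real.log (s + ε)) := by
  have hpos : ∀ s : ℝ, 0 < ε + |s| := fun s => by positivity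
  have hc : Continuous fun s : ℝ => 1 / (ε + |s|) :=
    continuous_const.div (by fun_prop) fun s => (hpos s).ne'
  refine ⟨fun s => Real.log ε + ∫ t in (0 : ℝ)..s, 1 / (ε + |t|), fun s => 1 / (ε + |s|), ?_, hc, ?_, ?_, ?_⟩
  · intro s
    exact (hc.integral_hasStrictDerivAt 0 s).hasDerivAt.const_add _
  · intro s
    rw [abs_of_pos (by have := hpos s; positivity)]
    exact one_div_le_one_div_of_le hε (by linarith [abs_nonneg s])
  · intro s hs
    simp only [abs_of_pos hs, add_comm]
  · intro s hs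
    beta_reduce
    have h1 : ∫ t in (0 : ℝ)..s, 1 / (ε + |t|) = Real.log (ε + s) - Real.log (ε + 0) := by
      refine intervalIntegral.integral_eq_sub_of_hasDerivAt (f := fun t => Real.log (ε + t)) ?_
        (hc.intervalIntegrable _ _)
      intro t ht
      rw [uIcc_of_le hs.le] at ht
      have ht0 : 0 ≤ t := ht.1
      rw [abs_of_nonneg ht0]
      have : HasDerivAt (fun t => ε + t) 1 t := (hasDerivAt_id t).const_add ε
      have h2 := this.log (by linarith)
      simpa using h2
    rw [h1, add_zero, add_comm s ε]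
    ring

section
variable {m : ℕ} {ι : Type} [Fintype ι] {n : ι → E (m + 1)} {c0 : ℝ}
  {α lam : ℝ} {u : E (m + 1) → ℝ} {G : E (m + 1) → E (m + 1)} {T : E (m + 1) → ℝ}
  {φ : ℕ → E (m + 1) → ℝ}

theorem chain_log (w : WS n α lam u G T φ) (hu : ∀ x ∈ Om n, 0 < u x) {ε : ℝ} (hε : 0 < ε)
    {κ : E (m + 1) → ℝ} (h1 : ContDiff ℝ 1 κ) (h2 : HasCompactSupport κ)
    (h3 : tsupport κ ⊆ Om n) (e : E (m + 1)) :
    ∫ x in Om n, inner ℝ (G x) (κ x • e) / (u x + ε) = - ∫ x in Om n, Real.log (u x + ε) * fderiv ℝ κ x e := by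
  obtain ⟨L, L', a1, a2, a3, a4, a5⟩ := exists_L hε
  have h := chain w a1 a2 a3 h1 h2 h3 e
  have hOm := (Om_open n).measurableSet
  have e1 : ∫ x in Om n, inner ℝ (G x) (κ x • e) / (u x + ε) =
      ∫ x in Om n, inner ℝ (G x) (κ x • e) * L' (u x) := by
    refine setIntegral_congr_fun hOm fun x hx => ?_
    beta_reduce
    rw [a4 _ (hu x hx), mul_one_div]
  have e2 : ∫ x in Om n, Real.log (u x + ε) * fderiv ℝ κ x e = ∫ x in Om n, L (u x) * fderiv ℝ κ x e := by
    refine setIntegral_congr_fun hOm fun x hx => ?_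
    beta_reduce
    rw [a5 _ (hu x hx)]
  rw [e1, e2, h]

/-- the limit `ε → 0` -/
theorem log_lim (w : WS n α lam u G T φ) (hu : ∀ x ∈ Om n, 0 < u x)
    (hv : ContinuousOn (fun x => Real.log (u x)) (Om n))
    {κ : E (m + 1) → ℝ} (h1 : ContDiff ℝ 1 κ) (h2 : HasCompactSupport κ)
    (h3 : tsupport κ ⊆ Om n) (e : E (m + 1)) :
    Tendsto (fun k : ℕ => ∫ x in Om n, Real.log (u x + 1 / ((k : ℝ) + 1)) * fderiv ℝ κ x e) atTop
      (𝓝 (∫ x in Om n, Real.log (u x) * fderiv ℝ κ x e)) := by
  have hOm := (Om_open n).measurableSet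
  obtain ⟨C, hC⟩ := h2.isCompact.exists_bound_of_continuousOn (hv.mono h3)
  have hdκ : Continuous (fun x => fderiv ℝ κ x e) :=
    (h1.continuous_fderiv (by norm_num)).clm_apply continuous_const
  have hdκc : HasCompactSupport (fun x => fderiv ℝ κ x e) :=
    (h2.fderiv ℝ).comp_left (g := fun T : E (m + 1) →L[ℝ] ℝ => T e) (by simp)
  have hz' : ∀ x, x ∉ tsupport κ → fderiv ℝ κ x e = 0 := fun x hx => by
    have : fderiv ℝ κ x = 0 := by
      by_contra h
      exact hx ((support_fderiv_subset ℝ (f := κ)) h)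
    rw [this]; simp
  refine tendsto_integral_of_dominated_convergence (fun x => (C + Real.log 2 + C) * |fderiv ℝ κ x e|) ?_ ?_ ?_ ?_
  · intro k
    have h5 : AEMeasurable u (volume.restrict (Om n)) := w.mu.aestronglyMeasurable.aemeasurable
    exact ((h5.add_const _).log.mul hdκ.measurable.aemeasurable).aestronglyMeasurable
  · exact ((hdκ.integrable_of_hasCompactSupport hdκc).abs.const_mul _).restrict
  · intro k
    rw [ae_restrict_iff' hOm]
    refine Filter.Eventually.of_forall fun x hx => ?_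
    rw [norm_mul, Real.norm_eq_abs, Real.norm_eq_abs]
    by_cases hxt : x ∈ tsupport κ
    · refine mul_le_mul_of_nonneg_right ?_ (abs_nonneg _)
      have h4 := hC x hxt
      rw [Real.norm_eq_abs] at h4
      have h5 := abs_le.1 h4
      have hux := hu x hx
      have hk : 0 < 1 / ((k : ℝ) + 1) := by positivity
      have hk1 : 1 / ((k : ℝ) + 1) ≤ 1 := by
        rw [div_le_one (by positivity)]; linarith [(Nat.cast_nonneg k : (0 : ℝ) ≤ k)]
      have hC0 : 0 ≤ C := (abs_nonneg _).trans h4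
      have h6 : Real.log (u x) ≤ Real.log (u x + 1 / ((k : ℝ) + 1)) :=
        Real.log_le_log hux (by linarith)
      have h7 : u x ≤ Real.exp C := by
        rw [← Real.exp_log hux]; exact Real.exp_le_exp.2 h5.2
      have h8 : u x + 1 / ((k : ℝ) + 1) ≤ 2 * Real.exp C := by
        have : 1 ≤ Real.exp C := Real.one_le_exp hC0
        linarith
      have h9 : Real.log (u x + 1 / ((k : ℝ) + 1)) ≤ Real.log 2 + C := by
        refine (Real.log_le_log (by linarith) h8).trans ?_
        rw [Real.log_mul (by norm_num) (Real.exp_pos _).ne', Real.log_exp]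
      have h10 : 0 ≤ Real.log 2 := Real.log_nonneg (by norm_num)
      exact abs_le.2 ⟨by linarith, by linarith⟩
    · rw [hz' x hxt]; simp
  · rw [ae_restrict_iff' hOm]
    refine Filter.Eventually.of_forall fun x hx => ?_
    have hux := hu x hx
    have h4 : Tendsto (fun k : ℕ => u x + 1 / ((k : ℝ) + 1)) atTop (𝓝 (u x + 0)) :=
      tendsto_const_nhds.add tendsto_one_div_add_atTop_nhds_zero_nat
    rw [add_zero] at h4
    exact (h4.log hux.ne').mul_const _

/-- the tangential term -/
theorem tang (w : WS n α lam u G T φ) (hu : ∀ x ∈ Om n, 0 < u x) {ε : ℝ} (hε : 0 < ε)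
    {X : E (m + 1) → E (m + 1)} (hX : Continuous X) {D : ℝ} (hD : ∀ x, ‖X x‖ ≤ D) {S : Set (E (m + 1))}
    (hS : MeasurableSet S) (hXS : ∀ x ∈ Om n, X x ≠ 0 → x ∈ S)
    {η : E (m + 1) → ℝ} (h1 : ContDiff ℝ 1 η) (h2 : HasCompactSupport η) (hη : ∀ x, X x ≠ 0 → η x = 1)
    {τ : ℝ} (hτ : 0 < τ) :
    ∫ x in Om n, inner ℝ (G x) (X x) / (u x + ε) ≤
      τ / 2 * (∫ x in Om n, ‖G x‖ ^ 2 * (η x ^ 2 / (u x + ε) ^ 2)) +
        1 / (2 * τ) * (D ^ 2 * (volume.real (Om n ∩ S))) := by
  have hOm := (Om_open n).measurableSet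
  have hfin : volume (Om n ∩ S) < ⊤ := by
    refine lt_of_le_of_lt (measure_mono (t := ball 0 1) ?_) measure_ball_lt_top
    rw [Om_eq]; exact inter_subset_left.trans inter_subset_left
  have hwm : AEStronglyMeasurable (fun x => 1 / (u x + ε)) (volume.restrict (Om n)) := by
    have h5 : AEMeasurable u (volume.restrict (Om n)) := w.mu.aestronglyMeasurable.aemeasurable
    exact ((h5.add_const ε).const_div 1).aestronglyMeasurable
  have hwb : ∀ᵐ x ∂(volume.restrict (Om n)), |1 / (u x + ε)| ≤ 1 / ε := by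
    rw [ae_restrict_iff' hOm]
    refine Filter.Eventually.of_forall fun x hx => ?_
    have := hu x hx
    rw [abs_of_pos (by positivity)]
    exact one_div_le_one_div_of_le hε (by linarith)
  obtain ⟨B, hB⟩ := h1.continuous.bounded_above_of_compact_support h2
  have hBm : AEStronglyMeasurable η (volume.restrict (Om n)) := h1.continuous.aestronglyMeasurable
  have i1 : Integrable (fun x => ‖G x‖ ^ 2 * (η x ^ 2 / (u x + ε) ^ 2)) (volume.restrict (Om n)) := by
    have h6 := int_w (C := B ^ 2 * (1 / ε) ^ 2) (int_sq w.mG) ((hBm.pow 2).mul (hwm.pow 2)) (by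
      filter_upwards [hwb] with x hx
      simp only [Pi.mul_apply, Pi.pow_apply]
      rw [abs_mul, abs_pow, abs_pow]
      exact mul_le_mul (pow_le_pow_left₀ (abs_nonneg _) (hB x) 2)
        (pow_le_pow_left₀ (abs_nonneg _) hx 2) (by positivity) (by positivity))
    refine h6.congr (Filter.Eventually.of_forall fun x => ?_)
    simp only [Pi.mul_apply, Pi.pow_apply]
    rw [one_div, inv_pow, div_eq_mul_inv]
  have hfinm : IsFiniteMeasure ((volume : Measure (E (m + 1))).restrict (Om n)) := by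
    refine ⟨?_⟩
    rw [Measure.restrict_apply_univ]
    refine lt_of_le_of_lt (measure_mono (t := ball 0 1) ?_) measure_ball_lt_top
    rw [Om_eq]; exact inter_subset_left
  have hXL : MemLp X 2 (volume.restrict (Om n)) :=
    MemLp.of_bound hX.aestronglyMeasurable D (Filter.Eventually.of_forall hD)
  have i3 : Integrable (fun x => inner ℝ (G x) (X x) / (u x + ε)) (volume.restrict (Om n)) := by
    have h6 := int_w (C := 1 / ε) (int_inner w.mG hXL) hwm hwb
    refine h6.congr (Filter.Eventually.of_forall fun x => ?_)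
    beta_reduce
    ring
  have i4 : Integrable (S.indicator fun _ => D ^ 2) (volume.restrict (Om n)) :=
    (integrable_const _).indicator hS
  have e5 : ∫ x in Om n, S.indicator (fun _ => D ^ 2) x = D ^ 2 * volume.real (Om n ∩ S) := by
    rw [setIntegral_indicator hS, setIntegral_const, smul_eq_mul, mul_comm]
  rw [← e5, ← integral_const_mul, ← integral_const_mul, ← integral_add (i1.const_mul _) (i4.const_mul _)]
  refine setIntegral_mono_on i3 ((i1.const_mul _).add (i4.const_mul _)) hOm fun x hx => ?_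
  have hp : 0 < u x + ε := add_pos (hu x hx) hε
  by_cases hXx : X x = 0
  · rw [hXx, inner_zero_right, zero_div]
    have : 0 ≤ S.indicator (fun _ => D ^ 2) x := indicator_nonneg (fun _ _ => by positivity) _
    positivity
  · have hxS := hXS x hx hXx
    rw [indicator_of_mem hxS, hη x hXx]
    have h8 : inner ℝ (G x) (X x) ≤ ‖G x‖ * D :=
      (real_inner_le_norm _ _).trans (mul_le_mul_of_nonneg_left (hD x) (norm_nonneg _))
    have h9 : inner ℝ (G x) (X x) / (u x + ε) ≤ (‖G x‖ / (u x + ε)) * D := by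
      rw [div_mul_eq_mul_div]
      exact div_le_div_of_nonneg_right h8 hp.le
    refine h9.trans ?_
    set a := ‖G x‖ / (u x + ε) with ha
    have h10 : ‖G x‖ ^ 2 * (1 ^ 2 / (u x + ε) ^ 2) = a ^ 2 := by rw [ha, div_pow]; ring
    rw [h10]
    have h11 : τ / 2 * a ^ 2 + 1 / (2 * τ) * D ^ 2 - a * D = (τ * a - D) ^ 2 / (2 * τ) := by
      field_simp; ring
    have h12 : 0 ≤ (τ * a - D) ^ 2 / (2 * τ) := by positivity
    linarith

theorem vol_lim (n : ι → E (m + 1)) (i : ι) :
    Tendsto (fun k : ℕ => volume.real (Om n ∩ {x | inner ℝ (n i) x < 1 / ((k : ℝ) + 1)})) atTop (𝓝 0) := by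
  have h1 : Tendsto (fun k : ℕ => volume (Om n ∩ {x | inner ℝ (n i) x < 1 / ((k : ℝ) + 1)})) atTop
      (𝓝 (volume (⋂ k : ℕ, Om n ∩ {x | inner ℝ (n i) x < 1 / ((k : ℝ) + 1)}))) := by
    refine tendsto_measure_iInter_atTop (fun k => ?_) ?_ ⟨0, ?_⟩
    · exact ((Om_open n).inter (isOpen_lt (by fun_prop) continuous_const)).measurableSet.nullMeasurableSet
    · intro a b hab x hx
      have hx2 : inner ℝ (n i) x < 1 / ((b : ℝ) + 1) := hx.2
      have h3 : 1 / ((b : ℝ) + 1) ≤ 1 / ((a : ℝ) + 1) := by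
        refine one_div_le_one_div_of_le (by positivity) ?_
        have : (a : ℝ) ≤ b := by exact_mod_cast hab
        linarith
      exact ⟨hx.1, lt_of_lt_of_le hx2 h3⟩
    · refine (lt_of_le_of_lt (measure_mono (t := ball 0 1) ?_) measure_ball_lt_top).ne
      rw [Om_eq]; exact inter_subset_left.trans inter_subset_left
  have h2 : (⋂ k : ℕ, Om n ∩ {x | inner ℝ (n i) x < 1 / ((k : ℝ) + 1)}) = ∅ := by
    rw [eq_empty_iff_forall_notMem]
    intro x hx
    rw [mem_iInter] at hx
    have h3 := (hx 0).1.2 i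
    obtain ⟨k, hk⟩ := exists_nat_one_div_lt h3
    have := (hx k).2
    have h4 : inner ℝ (n i) x < 1 / ((k : ℝ) + 1) := this
    linarith
  rw [h2, measure_empty] at h1
  have h3 := (ENNReal.tendsto_toReal ENNReal.zero_ne_top).comp h1
  rw [ENNReal.toReal_zero] at h3
  exact h3

end

end Pool.Agent.W794.Rob
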