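import Pool.Agent.W794.Rob8

set_option autoImplicit false
set_option linter.all false

open MeasureTheory Set Metric Filter Topology
open scoped ENNReal
open Pool.Agent.Results.MP_ce9a4f_an.NoBoundState

namespace Pool.Agent.W794.Rob

section
variable {m : ℕ} {ι : Type} [Fintype ι] {n : ι → E (m + 1)} {c0 : ℝ}
  {α lam : ℝ} {u : E (m + 1) → ℝ} {G : E (m + 1) → E (m + 1)} {T : E (m + 1) → ℝ}
  {φ : ℕ → E (m + 1) → ℝ}

theorem line_in (hn : Nrm n c0) {i : ι} {y : E (m + 1)} (hy : inner ℝ (n i) y = 0)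
    (hyU : ∀ j, j ≠ i → 0 < inner ℝ (n j) y) {s s2 : ℝ} (hs : 0 < s) (hs2 : s ≤ s2)
    (h2 : y + s2 • n i ∈ Om n) : y + s • n i ∈ Om n := by
  have hnorm : ∀ t : ℝ, ‖y + t • n i‖ ^ 2 = ‖y‖ ^ 2 + t ^ 2 := by
    intro t
    rw [norm_add_sq_real, inner_smul_right, real_inner_comm, hy, norm_smul, mul_pow, hn.unit,
      Real.norm_eq_abs, sq_abs]
    ring
  refine ⟨?_, fun j => ?_⟩
  · have h3 : ‖y + s • n i‖ ≤ ‖y + s2 • n i‖ := by
      rw [← sq_le_sq₀ (norm_nonneg _) (norm_nonneg _), hnorm, hnorm]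
      nlinarith
    exact lt_of_le_of_lt h3 h2.1
  · rw [inner_add_right, inner_smul_right]
    have h4 := hn.ip j i
    have h5 : 0 < s * inner ℝ (n j) (n i) := mul_pos hs (lt_of_lt_of_le hn.pos h4)
    by_cases hj : j = i
    · rw [hj, hy]; rw [hj] at h5; linarith
    · linarith [hyU j hj]

/-- slopes along a line -/
theorem slope_line {O : Set (E (m + 1))} {v : E (m + 1) → ℝ} (hv : ConcaveOn ℝ O v)
    {y e : E (m + 1)} {a b c d : ℝ} (hab : a < b) (hbc : b ≤ c) (hcd : c < d)
    (ha : y + a • e ∈ O) (hd : y + d • e ∈ O) :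
    (v (y + d • e) - v (y + c • e)) / (d - c) ≤ (v (y + b • e) - v (y + a • e)) / (b - a) := by
  have h1 : ConcaveOn ℝ (Icc a d) (fun t => v (y + t • e)) := by
    refine ⟨convex_Icc a d, fun p hp q hq s t hs ht hst => ?_⟩
    have hseg : ∀ r ∈ Icc a d, y + r • e ∈ O := by
      intro r hr
      have had : 0 < d - a := by linarith
      have e1 : y + r • e = ((d - r) / (d - a)) • (y + a • e) + ((r - a) / (d - a)) • (y + d • e) := by
        rw [smul_add, smul_add, smul_smul, smul_smul]
        have : ((d - r) / (d - a)) • y + ((d - r) / (d - a) * a) • e +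
            (((r - a) / (d - a)) • y + ((r - a) / (d - a) * d) • e) =
            (((d - r) / (d - a)) + ((r - a) / (d - a))) • y +
              (((d - r) / (d - a) * a) + ((r - a) / (d - a) * d)) • e := by
          rw [add_smul, add_smul]; abel
        rw [this]
        have e2 : ((d - r) / (d - a)) + ((r - a) / (d - a)) = 1 := by field_simp; ring
        have e3 : (((d - r) / (d - a) * a) + ((r - a) / (d - a) * d)) = r := by field_simp; ring
        rw [e2, e3, one_smul]
      rw [e1]
      refine hv.1 ha hd (div_nonneg (by linarith [hr.2]) had.le) (div_nonneg (by linarith [hr.1]) had.le) ?_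
      field_simp; ring
    have h2 := hv.2 (hseg p hp) (hseg q hq) hs ht hst
    have e4 : s • (y + p • e) + t • (y + q • e) = y + (s • p + t • q) • e := by
      rw [smul_add, smul_add, smul_smul, smul_smul, add_smul, smul_eq_mul, smul_eq_mul]
      have : s • y + t • y = y := by rw [← add_smul, hst, one_smul]
      calc s • y + (s * p) • e + (t • y + (t * q) • e) = (s • y + t • y) + ((s * p) • e + (t * q) • e) := by abel
        _ = _ := by rw [this]
    rw [e4] at h2
    exact h2
  rcases hbc.eq_or_lt with h | h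
  · subst h
    exact h1.slope_anti_adjacent (left_mem_Icc.2 (by linarith)) (right_mem_Icc.2 (by linarith)) hab hcd
  · have h2 := h1.slope_anti_adjacent (x := b) (y := c) (z := d) ⟨hab.le, by linarith⟩
      (right_mem_Icc.2 (by linarith)) h hcd
    have h3 := h1.slope_anti_adjacent (x := a) (y := b) (z := c) (left_mem_Icc.2 (by linarith))
      ⟨by linarith, hcd.le⟩ hab h
    exact h2.trans h3

/-- the one sided Robin bound -/
theorem RL (hn : Nrm n c0) (w : WS n α lam u G T φ) (hu : ∀ x ∈ Om n, 0 < u x)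
    (hconc : ConcaveOn ℝ (Om n) (fun x => Real.log (u x))) {i : ι} {y0 : E (m + 1)}
    (hy : inner ℝ (n i) y0 = 0) (hyU : y0 ∈ UU n i) {s1 s2 : ℝ} (h1 : 0 < s1) (h12 : s1 < s2)
    (h2 : y0 + s2 • n i ∈ Om n) :
    Real.log (u (y0 + s2 • n i)) - Real.log (u (y0 + s1 • n i)) ≤ α * (s2 - s1) := by
  by_contra hcon
  push Not at hcon
  have hv : ContinuousOn (fun x => Real.log (u x)) (Om n) := hconc.continuousOn (Om_open n)
  set v : E (m + 1) → ℝ := fun x => Real.log (u x) with hvd
  have hs12 : 0 < s2 - s1 := by linarith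
  obtain ⟨β, hβ1, hβ2⟩ : ∃ β, α < β ∧ β * (s2 - s1) < v (y0 + s2 • n i) - v (y0 + s1 • n i) := by
    have : α < (v (y0 + s2 • n i) - v (y0 + s1 • n i)) / (s2 - s1) := by
      rw [lt_div_iff₀ hs12]; exact hcon
    obtain ⟨β, h3, h4⟩ := exists_between this
    exact ⟨β, h3, by rwa [lt_div_iff₀ hs12] at h4⟩
  have hy1 : y0 + s1 • n i ∈ Om n := line_in hn hy hyU.2 h1 h12.le h2
  -- continuity of the slopes
  have hc1 : ∀ s : ℝ, y0 + s • n i ∈ Om n → ContinuousAt (fun z => v (z + s • n i)) y0 := by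
    intro s hs
    have h3 : ContinuousAt v (y0 + s • n i) := hv.continuousAt ((Om_open n).mem_nhds hs)
    have h4 : ContinuousAt (fun z : E (m + 1) => z + s • n i) y0 := by fun_prop
    exact ContinuousAt.comp (f := fun z : E (m + 1) => z + s • n i) h3 h4
  have hev : ∀ᶠ z in 𝓝 y0, (β * (s2 - s1) < v (z + s2 • n i) - v (z + s1 • n i)) ∧
      z + s2 • n i ∈ Om n ∧ z ∈ UU n i := by
    have e1 := ((hc1 s2 h2).sub (hc1 s1 hy1)).eventually (lt_mem_nhds hβ2)
    have h4 : ContinuousAt (fun z : E (m + 1) => z + s2 • n i) y0 := by fun_prop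
    have e2 := h4.eventually ((Om_open n).mem_nhds h2)
    have e3 := (UU_open n i).mem_nhds hyU
    filter_upwards [e1, e2, e3] with z a b c
    exact ⟨a, b, c⟩
  obtain ⟨ρ, hρ, hball⟩ := Metric.eventually_nhds_iff_ball.1 hev
  set r := ρ / 4 with hr
  have hr0 : 0 < r := by positivity
  have hrρ : 4 * r = ρ := by rw [hr]; ring
  obtain ⟨D, m0, hD, hm0, hcut⟩ := exists_cut (hn.unit i) hy hr0
  let bη : ContDiffBump y0 := ⟨2 * r, 3 * r, by positivity, by linarith⟩
  set η : E (m + 1) → ℝ := fun x => bη x with hη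
  have hη1 : ContDiff ℝ 1 η := bη.contDiff
  have hη2 : HasCompactSupport η := bη.hasCompactSupport
  have hηt : tsupport η = closedBall y0 (3 * r) := bη.tsupport_eq
  have hsub3 : closedBall y0 (3 * r) ⊆ UU n i := by
    intro z hz
    exact (hball z (mem_ball.2 (lt_of_le_of_lt (mem_closedBall.1 hz) (by linarith)))).2.2
  have hUb : UU n i ⊆ ball 0 1 := fun z hz => mem_ball_zero_iff.2 hz.1
  set K := 4 * (∫ x in Om n, ‖gradient η x‖ ^ 2) +
      2 * α * ∫ x in frontier (Om n), η x ^ 2 ∂(surfaceMeasure m) with hK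
  have hK0 : 0 ≤ K := by
    have := w.α0
    refine add_nonneg (mul_nonneg (by norm_num) (integral_nonneg fun _ => by positivity))
      (mul_nonneg (by positivity) (integral_nonneg fun _ => by positivity))
  set γ := (β - α) * m0 with hγ
  have hγ0 : 0 < γ := mul_pos (by linarith) hm0
  set τ := γ / (K + 1) with hτd
  have hτ : 0 < τ := by positivity
  have hτK : τ / 2 * K ≤ γ / 2 := by
    have h5 : τ * (K + 1) = γ := by rw [hτd]; field_simp
    nlinarith
  -- choose δ
  obtain ⟨δ, hδ0, hδr, hδs, hδv⟩ : ∃ δ, 0 < δ ∧ δ ≤ r / 2 ∧ δ < s1 ∧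
      1 / (2 * τ) * (D ^ 2 * volume.real (Om n ∩ {x | inner ℝ (n i) x < δ})) < γ / 2 := by
    have l1 := ((vol_lim n i).const_mul (D ^ 2)).const_mul (1 / (2 * τ))
    rw [mul_zero, mul_zero] at l1
    have l2 := (tendsto_order.1 l1).2 (γ / 2) (by positivity)
    have l3 := (tendsto_order.1 (tendsto_one_div_add_atTop_nhds_zero_nat (𝕜 := ℝ))).2 (min (r / 2) s1)
      (lt_min (by positivity) h1)
    obtain ⟨k, hk1, hk2⟩ := (l2.and l3).exists
    exact ⟨1 / ((k : ℝ) + 1), by positivity, (lt_of_lt_of_le hk2 (min_le_left _ _)).le,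
      lt_of_lt_of_le hk2 (min_le_right _ _), hk1⟩
  obtain ⟨ζ, κ, X, C⟩ := hcut δ hδ0 hδr
  -- supports
  have hζU : tsupport ζ ⊆ UU n i := C.ζ3.trans ((closedBall_subset_closedBall (by linarith)).trans hsub3)
  have hκO : tsupport κ ⊆ Om n := by
    intro x hx
    obtain ⟨a1, a2, a3⟩ := C.κ3 hx
    have hx0 : 0 < inner ℝ (n i) x := by linarith [half_pos hδ0]
    have hxU : x ∈ UU n i := by
      apply hsub3
      have e : x - y0 = (prj (n i) x - y0) + (inner ℝ (n i) x) • n i := by rw [prj_apply]; abel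
      rw [mem_closedBall, dist_eq_norm] at a3 ⊢
      rw [e]
      refine (norm_add_le _ _).trans ?_
      rw [norm_smul, hn.unit, mul_one, Real.norm_eq_abs, abs_of_pos hx0]
      linarith
    have h5 : x ∈ HS (n i) ∩ UU n i := ⟨hx0, hxU⟩
    rw [← Om_inter_UU] at h5
    exact h5.1
  have hmass : ∫ x in Om n, κ x = m0 := by
    rw [← C.mass, setIntegral_eq_integral_of_forall_compl_eq_zero, setIntegral_eq_integral_of_forall_compl_eq_zero]
    · intro x hx
      by_contra h
      exact hx ((hκO (subset_tsupport _ h)).2 i)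
    · intro x hx
      by_contra h
      exact hx (hκO (subset_tsupport _ h))
  have hOm := (Om_open n).measurableSet
  have hbd : ∫ x in frontier (Om n), ζ x ∂(surfaceMeasure m) = m0 := by
    rw [face_formula hn i C.ζ1 C.ζ2 hζU, ← hmass, ← integral_neg]
    refine setIntegral_congr_fun hOm fun x hx => ?_
    beta_reduce
    rw [C.fn x (hx.2 i), neg_neg]
  -- the slopes
  have hslope : ∀ t, 0 < t → t < δ / 4 → ∀ x, κ x ≠ 0 → β * t ≤ v x - v (x - t • n i) := by
    intro t ht0 ht1 x hx
    obtain ⟨a1, a2, a3⟩ := C.κ3 (subset_tsupport _ hx)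
    set s := inner ℝ (n i) x with hs
    set z := prj (n i) x with hz
    have hxz : x = z + s • n i := by rw [hz, prj_apply]; abel
    have hxz2 : x - t • n i = z + (s - t) • n i := by rw [sub_smul]; rw [hxz]; abel
    obtain ⟨b1, b2, b3⟩ := hball z (mem_ball.2 (lt_of_le_of_lt (mem_closedBall.1 a3) (by linarith)))
    have hz0 : inner ℝ (n i) z = 0 := by
      rw [hz, prj_apply, inner_sub_right, inner_smul_right, real_inner_self_eq_norm_sq, hn.unit]
      rw [← hs]; ring
    have h5 : z + (s - t) • n i ∈ Om n := line_in hn hz0 b3.2 (by linarith) (by linarith) b2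
    have h6 := slope_line hconc (y := z) (e := n i) (a := s - t) (b := s) (c := s1) (d := s2)
      (by linarith) (by linarith) h12 h5 b2
    have h7 : β < (v (z + s2 • n i) - v (z + s1 • n i)) / (s2 - s1) := by
      rw [lt_div_iff₀ hs12]; exact b1
    have h8 := h7.le.trans h6
    have h9 : s - (s - t) = t := by ring
    rw [h9, le_div_iff₀ ht0, ← hxz2, ← hxz] at h8
    exact h8
  have hdq := dq_le (Om_open n) hv C.κ1 C.κ2 hκO C.κ4 (n i) β (h₀ := δ / 4) (by positivity) hslope
  rw [hmass] at hdq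
  -- for each ε
  have heps : ∀ ε : ℝ, 0 < ε → 0 ≤ γ / 2 +
      (1 / (2 * τ) * (D ^ 2 * volume.real (Om n ∩ {x | inner ℝ (n i) x < δ}))) +
      (∫ x in Om n, Real.log (u x + ε) * fderiv ℝ κ x (n i)) + α * m0 := by
    intro ε hε
    have k1 := log_test hn w hu hε C.ζ1 C.ζ2 (hζU.trans hUb) C.ζ4
    have k2 : 0 ≤ ∫ x in Om n, ‖G x‖ ^ 2 * (ζ x / (u x + ε) ^ 2) := by
      refine setIntegral_nonneg hOm fun x hx => ?_
      have := hu x hx
      have := C.ζ4 x
      positivity
    rw [hbd] at k1
    have k3 := cacc hn w hu hε hη1 hη2 (by rw [hηt]; exact hsub3.trans hUb)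
    have k4 := tang w hu hε C.X1 C.X2 (S := {x | inner ℝ (n i) x < δ})
      (isOpen_lt (by fun_prop) continuous_const).measurableSet (fun x _ hx => (C.X3 x hx).2) hη1 hη2
      (fun x hx => bη.one_of_mem_closedBall (C.X3 x hx).1) hτ
    have k5 := chain_log w hu hε C.κ1 C.κ2 hκO (n i)
    have k6 : ∫ x in Om n, inner ℝ (G x) (gradient ζ x) / (u x + ε) =
        (∫ x in Om n, inner ℝ (G x) (X x) / (u x + ε)) - ∫ x in Om n, inner ℝ (G x) (κ x • n i) / (u x + ε) := by
      have hwm : AEStronglyMeasurable (fun x => 1 / (u x + ε)) (volume.restrict (Om n)) := by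
        have h5 : AEMeasurable u (volume.restrict (Om n)) := w.mu.aestronglyMeasurable.aemeasurable
        exact ((h5.add_const ε).const_div 1).aestronglyMeasurable
      have hwb : ∀ᵐ x ∂(volume.restrict (Om n)), |1 / (u x + ε)| ≤ 1 / ε := by
        rw [ae_restrict_iff' hOm]
        refine Filter.Eventually.of_forall fun x hx => ?_
        have := hu x hx
        rw [abs_of_pos (by positivity)]
        exact one_div_le_one_div_of_le hε (by linarith)
      have hfinm : IsFiniteMeasure ((volume : Measure (E (m + 1))).restrict (Om n)) := by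
        refine ⟨?_⟩
        rw [Measure.restrict_apply_univ]
        refine lt_of_le_of_lt (measure_mono (t := ball 0 1) ?_) measure_ball_lt_top
        rw [Om_eq]; exact inter_subset_left
      have hint : ∀ Y : E (m + 1) → E (m + 1), MemLp Y 2 (volume.restrict (Om n)) →
          Integrable (fun x => inner ℝ (G x) (Y x) / (u x + ε)) (volume.restrict (Om n)) := by
        intro Y hY
        have h6 := int_w (C := 1 / ε) (int_inner w.mG hY) hwm hwb
        refine h6.congr (Filter.Eventually.of_forall fun x => ?_)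
        beta_reduce
        ring
      have hXL : MemLp X 2 (volume.restrict (Om n)) :=
        MemLp.of_bound C.X1.aestronglyMeasurable D (Filter.Eventually.of_forall C.X2)
      have hκL : MemLp (fun x => κ x • n i) 2 (volume.restrict (Om n)) :=
        ((C.κ1.continuous.smul continuous_const).memLp_of_hasCompactSupport C.κ2.smul_right).restrict _
      rw [← integral_sub (hint _ hXL) (hint _ hκL)]
      refine setIntegral_congr_fun hOm fun x hx => ?_
      beta_reduce
      rw [C.gr x (hx.2 i), inner_sub_right, sub_div]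
    rw [k6] at k1
    have k7 := mul_le_mul_of_nonneg_left k3 (show 0 ≤ τ / 2 by positivity)
    rw [← hK] at k7
    linarith
  have hl := log_lim w hu hv C.κ1 C.κ2 hκO (n i)
  have h10 : 0 ≤ γ / 2 +
      (1 / (2 * τ) * (D ^ 2 * volume.real (Om n ∩ {x | inner ℝ (n i) x < δ}))) +
      (∫ x in Om n, v x * fderiv ℝ κ x (n i)) + α * m0 := by
    refine ge_of_tendsto' ((hl.const_add _).add_const _) fun k => ?_
    exact heps _ (by positivity)
  have h11 : γ = β * m0 - α * m0 := by rw [hγ]; ring
  linarith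

end

end Pool.Agent.W794.Rob
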